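import Pool.Agent.Lib.MP_dcb6ed_co_CD.Hoeff

/-!
# Project TP, part N (weighted nibble with tests): definitions

`el : E → Finset X` is a hypergraph (hyperedges `e : E`, vertices = resources `x : X`), `w : E → ℝ`
are weights.  In one round every hyperedge is selected independently with probability `ε * w e`.
Finite product probability spaces `EW`, `PW`: Pool/Agent/Lib/MP_dcb6ed_co_CD.
-/

set_option autoImplicit false

namespace MP_80c395_TP

open Finset Pool.Agent.Lib.CD

section

variable {E X : Type} [Fintype E] [DecidableEq E] [DecidableEq X]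

/-- the hyperedges which meet `e` (also `e` itself if it is nonempty) -/
def nbr (el : E → Finset X) (e : E) : Finset E :=
  univ.filter (fun f => ¬ Disjoint (el e) (el f))

/-- the hyperedges through `x` -/
def st (el : E → Finset X) (x : X) : Finset E := univ.filter (fun e => x ∈ el e)

/-- the weighted degree -/
def dg (el : E → Finset X) (w : E → ℝ) (x : X) : ℝ := ∑ e ∈ st el x, w e

/-- the weighted codegree -/
def cd (el : E → Finset X) (w : E → ℝ) (x y : X) : ℝ := ∑ e ∈ st el x ∩ st el y, w e

/-- the law of the selection -/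
def sw (ε : ℝ) (w : E → ℝ) : E → Bool → ℝ :=
  fun e b => if b = true then ε * w e else 1 - ε * w e

/-- `e` survives: no hyperedge which meets `e` is selected -/
def Surv (el : E → Finset X) (ω : E → Bool) (e : E) : Prop := ∀ f ∈ nbr el e, ω f = false

/-- `e` is accepted: it is the only selected hyperedge among those which meet it -/
def Acpt (el : E → Finset X) (ω : E → Bool) (e : E) : Prop :=
  ω e = true ∧ ∀ f ∈ nbr el e, f ≠ e → ω f = false

/-- the vertex `x` is untouched -/
def Unt (el : E → Finset X) (ω : E → Bool) (x : X) : Prop := ∀ f ∈ st el x, ω f = false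

/-- the probability that `e` survives -/
def pe (el : E → Finset X) (ε : ℝ) (w : E → ℝ) (e : E) : ℝ := ∏ f ∈ nbr el e, (1 - ε * w f)

/-- the probability that `x` is untouched -/
def kap (el : E → Finset X) (ε : ℝ) (w : E → ℝ) (x : X) : ℝ := ∏ f ∈ st el x, (1 - ε * w f)

/-- the new weight of `e` if it survives -/
noncomputable def vv (el : E → Finset X) (ε : ℝ) (w : E → ℝ) (e : E) : ℝ :=
  (1 - ε) * w e / pe el ε w e

open Classical in
/-- the weighted number of surviving hyperedges at `x` -/
noncomputable def Sx (el : E → Finset X) (ε : ℝ) (w : E → ℝ) (x : X) (ω : E → Bool) : ℝ :=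
  ∑ e ∈ st el x, if Surv el ω e then vv el ε w e else 0

open Classical in
/-- the weights after one round -/
noncomputable def nw (el : E → Finset X) (ε : ℝ) (w : E → ℝ) (ω : E → Bool) (e : E) : ℝ :=
  if Surv el ω e ∧ ∀ x ∈ el e, Sx el ε w x ω ≤ 1 + ε ^ 2 then vv el ε w e / (1 + ε ^ 2) else 0

open Classical in
/-- the total of a test over the accepted hyperedges -/
noncomputable def acc (el : E → Finset X) (h : E → ℝ) (ω : E → Bool) : ℝ :=
  ∑ e, if Acpt el ω e then h e else 0

/-- the hyperedges at distance at most two from `g` -/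
def B2 (el : E → Finset X) (g : E) : Finset E := (nbr el g).biUnion (nbr el)

/-- the state before a round -/
structure St (el : E → Finset X) (w : E → ℝ) (R : ℕ) (ε γ : ℝ) : Prop where
  ne : ∀ e, (el e).Nonempty
  card : ∀ e, (el e).card ≤ R
  w0 : ∀ e, 0 ≤ w e
  wg : ∀ e, w e ≤ γ
  deg : ∀ x, dg el w x ≤ 1
  cod : ∀ x y, x ≠ y → cd el w x y ≤ γ
  R0 : 1 ≤ R
  g0 : 0 ≤ γ
  e0 : 0 < ε
  eR : ε * R ≤ 1 / 4

end

end MP_80c395_TP
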