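import Pool.Agent.Lib.MP_80c395_co_TP.APiece
import Pool.Agent.Lib.MP_80c395_co_TP.NDefs

/-!
# Project TP, part A: codegrees with a piece, and of two pairs

Let `b = A0 / N` (`N = card V ≥ 1` if there is any hyperedge of positive weight; if `V` is empty all is
trivial: `wt` has `lw1`..; note `b ≤ A0`).  A sum over hyperedges is `∑ i, ∑ t, ∑ f`.
`cd el w x y = ∑ e with x ∈ el e and y ∈ el e, w e`.
* `cd_pp`: two different pieces: no hyperedge contains both, the codegree is `0`.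
* `cd_pv`: piece `(i,t)` and pair `(i',v)`: `≤ ∑ j, ∑ f j = v, wt ≤ K b` (`wt_fix` with `J = {j}`).
* `cd_pe`: piece `(i,t)` and host edge `s = s(a,c)`: star edge: `hst = some u` and `s = s(u, f rt)`:
  `f rt` is `a` or `c`: `≤ 2 b`; light edges: `∑_{0<j}` `(f (pr j), f j) = (a,c)` or
  `(c,a)`: `2 K b^2` (`wt_fix` with `J = {pr j, j}`, two different elements); `b ≤ A0`.
* `cd_vv`: pairs `(i,v)`, `(i',v')`: if `i ≠ i'` the codegree is `0`; `i = i'`, `v ≠ v'`: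
  `∑ t, ∑ j ≠ j', ∑ f j = v, f j' = v' ≤ np * K^2 b^2`, and `np ≤ m i ≤ N` (the roots
  `sg t (rt t)` are different vertices, `DecOK.inj`; `m_le`), so `≤ K^2 A0^2 / N`.
All bounds are at most the claimed ones for `A0 ≥ 1`.
-/

set_option autoImplicit false

namespace MP_80c395_TP

open Finset

variable {V : Type} [Fintype V] [DecidableEq V] {Q : Dat V} {V1 W : Finset V} {D₁ D K : ℕ}
  {A0 δ' ε' γ₂ : ℝ}

private theorem ca_sum (x y : Q.Rs) : cd Q.el Q.wt x y =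
    ∑ i, ∑ t, ∑ f : Fin ((Q.d i).sz t) → V,
      if x ∈ Q.el ⟨i, t, f⟩ ∧ y ∈ Q.el ⟨i, t, f⟩ then Q.wt ⟨i, t, f⟩ else 0 := by
  have h1 : st Q.el x ∩ st Q.el y = univ.filter (fun e => x ∈ Q.el e ∧ y ∈ Q.el e) := by
    ext e
    simp only [st, Finset.mem_inter, Finset.mem_filter, Finset.mem_univ, true_and]
  unfold cd
  rw [h1, Finset.sum_filter, Fintype.sum_sigma]
  refine Finset.sum_congr rfl fun i _ => ?_
  rw [Fintype.sum_sigma]

private theorem ca_piece (p : Σ i : Fin Q.k, Fin (Q.d i).np) (y : Q.Rs) :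
    cd Q.el Q.wt (Sum.inl p) y = ∑ f : Fin ((Q.d p.1).sz p.2) → V,
      if y ∈ Q.el ⟨p.1, p.2, f⟩ then Q.wt ⟨p.1, p.2, f⟩ else 0 := by
  rw [ca_sum]
  have h1 : ∀ (i : Fin Q.k) (t : Fin (Q.d i).np), (∑ f : Fin ((Q.d i).sz t) → V,
      if (Sum.inl p : Q.Rs) ∈ Q.el ⟨i, t, f⟩ ∧ y ∈ Q.el ⟨i, t, f⟩ then
        Q.wt ⟨i, t, f⟩ else 0) =
      if p = ⟨i, t⟩ then ∑ f : Fin ((Q.d i).sz t) → V,
        (if y ∈ Q.el ⟨i, t, f⟩ then Q.wt ⟨i, t, f⟩ else 0) else 0 := by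
    intro i t
    by_cases hp : p = ⟨i, t⟩
    · rw [if_pos hp]
      refine Finset.sum_congr rfl fun f _ => ?_
      by_cases hy : y ∈ Q.el ⟨i, t, f⟩
      · rw [if_pos hy, if_pos ⟨(mem_el_piece Q _ _).2 hp, hy⟩]
      · rw [if_neg hy, if_neg fun h' => hy h'.2]
    · rw [if_neg hp]
      exact Finset.sum_eq_zero fun f _ => if_neg fun h' => hp ((mem_el_piece Q _ _).1 h'.1)
  have h2 : (∑ i, ∑ t, ∑ f : Fin ((Q.d i).sz t) → V,
      if (Sum.inl p : Q.Rs) ∈ Q.el ⟨i, t, f⟩ ∧ y ∈ Q.el ⟨i, t, f⟩ then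
        Q.wt ⟨i, t, f⟩ else 0) =
      ∑ q : (Σ i : Fin Q.k, Fin (Q.d i).np), if p = q then
        ∑ f : Fin ((Q.d q.1).sz q.2) → V,
          (if y ∈ Q.el ⟨q.1, q.2, f⟩ then Q.wt ⟨q.1, q.2, f⟩ else 0) else 0 := by
    rw [Fintype.sum_sigma]
    exact Finset.sum_congr rfl fun i _ => Finset.sum_congr rfl fun t _ => h1 i t
  rw [h2, Finset.sum_ite_eq, if_pos (Finset.mem_univ _)]

private theorem ca_card (h : DatOK Q V1 W D₁ D K A0 δ' ε' γ₂) (i : Fin Q.k) :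
    0 < Fintype.card V := by
  have h1 : Nonempty (Fin (Q.m i)) := (h.tree i).1.nonempty
  have h2 : 0 < Q.m i := Fin.pos_iff_nonempty.2 h1
  exact lt_of_lt_of_le h2 (h.m_le i)

/-- the bound `b` -/
private theorem ca_b (h : DatOK Q V1 W D₁ D K A0 δ' ε' γ₂) (hA : 1 ≤ A0) (i : Fin Q.k) :
    0 ≤ A0 / Fintype.card V ∧ A0 / Fintype.card V ≤ A0 := by
  have h1 : (1 : ℝ) ≤ Fintype.card V := by exact_mod_cast ca_card h i
  have h0 : 0 ≤ A0 := by linarith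
  exact ⟨by positivity, div_le_self h0 h1⟩

private theorem ca_fix1 (h : DatOK Q V1 W D₁ D K A0 δ' ε' γ₂) (hd : 0 ≤ δ') (hA : 0 ≤ A0)
    (i : Fin Q.k) (t : Fin (Q.d i).np) (j : Fin ((Q.d i).sz t)) (v : V) :
    ∑ f : Fin ((Q.d i).sz t) → V, (if f j = v then Q.wt ⟨i, t, f⟩ else 0) ≤
      A0 / Fintype.card V := by
  have h1 := wt_fix h hd hA i t {j} (fun _ => v)
  rw [Finset.card_singleton, pow_one] at h1
  rw [← Finset.sum_filter]
  refine le_trans (le_of_eq (Finset.sum_congr ?_ fun _ _ => rfl)) h1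
  ext f
  simp only [Finset.mem_filter, Finset.mem_univ, true_and, Finset.mem_singleton, forall_eq]

private theorem ca_fix2 (h : DatOK Q V1 W D₁ D K A0 δ' ε' γ₂) (hd : 0 ≤ δ') (hA : 0 ≤ A0)
    (i : Fin Q.k) (t : Fin (Q.d i).np) (j j' : Fin ((Q.d i).sz t)) (hj : j ≠ j') (v v' : V) :
    ∑ f : Fin ((Q.d i).sz t) → V, (if f j = v ∧ f j' = v' then Q.wt ⟨i, t, f⟩ else 0) ≤
      (A0 / Fintype.card V) ^ 2 := by
  have h1 := wt_fix h hd hA i t {j, j'} (fun l => if l = j then v else v')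
  rw [Finset.card_pair hj] at h1
  rw [← Finset.sum_filter]
  refine le_trans (le_of_eq (Finset.sum_congr ?_ fun _ _ => rfl)) h1
  ext f
  simp only [Finset.mem_filter, Finset.mem_univ, true_and, Finset.mem_insert,
    Finset.mem_singleton, forall_eq_or_imp, forall_eq, if_true, if_neg hj.symm]

private theorem ca_ite (P : Prop) [Decidable P] (x : ℝ) (hx : 0 ≤ x) :
    0 ≤ (if P then x else 0) := by
  split_ifs
  · exact hx
  · exact le_rfl

/-- use of a host edge by a piece -/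
private theorem ca_edge (h : DatOK Q V1 W D₁ D K A0 δ' ε' γ₂) (hd : 0 ≤ δ') (hA : 0 ≤ A0)
    (a c : V) (i : Fin Q.k) (t : Fin (Q.d i).np) :
    (∑ f : Fin ((Q.d i).sz t) → V, if s(a, c) ∈ Q.hE ⟨i, t, f⟩ then Q.wt ⟨i, t, f⟩ else 0) ≤
      (K : ℝ) * (2 * (A0 / Fintype.card V) ^ 2) + 2 * (A0 / Fintype.card V) := by
  have hw : ∀ f : Fin ((Q.d i).sz t) → V, 0 ≤ Q.wt ⟨i, t, f⟩ := fun f => wt_nonneg h _
  have h1 : ∀ f : Fin ((Q.d i).sz t) → V,
      (if s(a, c) ∈ Q.hE ⟨i, t, f⟩ then Q.wt ⟨i, t, f⟩ else 0) ≤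
      (∑ j, if 0 < j.val then
        (if f ((Q.d i).pr t j) = a ∧ f j = c then Q.wt ⟨i, t, f⟩ else 0) +
        (if f ((Q.d i).pr t j) = c ∧ f j = a then Q.wt ⟨i, t, f⟩ else 0) else 0) +
      ((if f ((Q.d i).rt t) = c then Q.wt ⟨i, t, f⟩ else 0) +
        (if f ((Q.d i).rt t) = a then Q.wt ⟨i, t, f⟩ else 0)) := by
    intro f
    have n1 : ∀ j ∈ (univ : Finset (Fin ((Q.d i).sz t))), 0 ≤ (if 0 < j.val then
        (if f ((Q.d i).pr t j) = a ∧ f j = c then Q.wt ⟨i, t, f⟩ else 0) +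
        (if f ((Q.d i).pr t j) = c ∧ f j = a then Q.wt ⟨i, t, f⟩ else 0) else 0) := by
      intro j _
      exact ca_ite _ _ (add_nonneg (ca_ite _ _ (hw f)) (ca_ite _ _ (hw f)))
    have n2 := ca_ite (f ((Q.d i).rt t) = c) _ (hw f)
    have n3 := ca_ite (f ((Q.d i).rt t) = a) _ (hw f)
    have n0 := Finset.sum_nonneg n1
    by_cases hm : s(a, c) ∈ Q.hE ⟨i, t, f⟩
    · rw [if_pos hm]
      rcases (mem_hE Q _ _).1 hm with ⟨j, hj, he⟩ | ⟨u, hu, he⟩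
      · have hs := Finset.single_le_sum n1 (Finset.mem_univ j)
        rw [if_pos hj] at hs
        have m1 := ca_ite (f ((Q.d i).pr t j) = a ∧ f j = c) _ (hw f)
        have m2 := ca_ite (f ((Q.d i).pr t j) = c ∧ f j = a) _ (hw f)
        rcases Sym2.eq_iff.1 he with ⟨e1, e2⟩ | ⟨e1, e2⟩
        · rw [if_pos (⟨e1.symm, e2.symm⟩ : f ((Q.d i).pr t j) = a ∧ f j = c)] at hs
          linarith
        · rw [if_pos (⟨e2.symm, e1.symm⟩ : f ((Q.d i).pr t j) = c ∧ f j = a)] at hs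
          linarith
      · rcases Sym2.eq_iff.1 he with ⟨e1, e2⟩ | ⟨e1, e2⟩
        · have m1 : (if f ((Q.d i).rt t) = c then Q.wt ⟨i, t, f⟩ else 0) =
              Q.wt ⟨i, t, f⟩ := if_pos e2.symm
          linarith
        · have m1 : (if f ((Q.d i).rt t) = a then Q.wt ⟨i, t, f⟩ else 0) =
              Q.wt ⟨i, t, f⟩ := if_pos e1.symm
          linarith
    · rw [if_neg hm]
      linarith
  refine (Finset.sum_le_sum fun f _ => h1 f).trans ?_
  rw [Finset.sum_add_distrib, Finset.sum_add_distrib, Finset.sum_comm]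
  have hsz : (((Q.d i).sz t : ℕ) : ℝ) ≤ (K : ℝ) := by exact_mod_cast (h.dec i).sz_le t
  have h2 : (∑ j : Fin ((Q.d i).sz t), ∑ f : Fin ((Q.d i).sz t) → V, if 0 < j.val then
        (if f ((Q.d i).pr t j) = a ∧ f j = c then Q.wt ⟨i, t, f⟩ else 0) +
        (if f ((Q.d i).pr t j) = c ∧ f j = a then Q.wt ⟨i, t, f⟩ else 0) else 0) ≤
      ∑ _j : Fin ((Q.d i).sz t), 2 * (A0 / Fintype.card V) ^ 2 := by
    refine Finset.sum_le_sum fun j _ => ?_
    by_cases hj : 0 < j.val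
    · simp only [if_pos hj]
      have hne : (Q.d i).pr t j ≠ j := by
        intro h'
        have h4 := (h.dec i).pr_lt t j hj
        rw [h'] at h4
        omega
      rw [Finset.sum_add_distrib]
      have e1 := ca_fix2 h hd hA i t _ _ hne a c
      have e2 := ca_fix2 h hd hA i t _ _ hne c a
      linarith
    · simp only [if_neg hj, Finset.sum_const_zero]
      positivity
  rw [Finset.sum_const, Finset.card_univ, Fintype.card_fin, nsmul_eq_mul] at h2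
  have h3 := ca_fix1 h hd hA i t ((Q.d i).rt t) c
  have h4 := ca_fix1 h hd hA i t ((Q.d i).rt t) a
  have h5 : (((Q.d i).sz t : ℕ) : ℝ) * (2 * (A0 / Fintype.card V) ^ 2) ≤
      (K : ℝ) * (2 * (A0 / Fintype.card V) ^ 2) :=
    mul_le_mul_of_nonneg_right hsz (by positivity)
  linarith

private theorem ca_fin0 {K A b : ℝ} (n : ℝ) (hb : b = A / n) :
    40 * K ^ 3 * A ^ 3 / n = 40 * K ^ 3 * A ^ 2 * b := by
  rw [hb]
  ring

private theorem ca_fin1 {K A n : ℝ} (hK : 1 ≤ K) (hA : 1 ≤ A) (hb : 0 ≤ A / n) :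
    K * (A / n) ≤ 40 * K ^ 3 * A ^ 3 / n := by
  rw [ca_fin0 n rfl]
  refine mul_le_mul_of_nonneg_right ?_ hb
  have h1 : 1 ≤ A ^ 2 := one_le_pow₀ hA
  have h2 : 1 ≤ K ^ 2 := one_le_pow₀ hK
  have h3 : 1 ≤ K ^ 2 * A ^ 2 := one_le_mul_of_one_le_of_one_le h2 h1
  nlinarith

private theorem ca_fin2 {K A n : ℝ} (hK : 1 ≤ K) (hA : 1 ≤ A) (hb : 0 ≤ A / n)
    (hb' : A / n ≤ A) :
    K * (2 * (A / n) ^ 2) + 2 * (A / n) ≤ 40 * K ^ 3 * A ^ 3 / n := by
  rw [ca_fin0 n rfl]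
  have h0 : K * (2 * (A / n) ^ 2) + 2 * (A / n) = (2 * K * (A / n) + 2) * (A / n) := by ring
  rw [h0]
  refine mul_le_mul_of_nonneg_right ?_ hb
  have h1 : 1 ≤ K ^ 2 := one_le_pow₀ hK
  have h4 : K * (A / n) ≤ K * A := mul_le_mul_of_nonneg_left hb' (by linarith)
  have h5 : 1 ≤ K * A := one_le_mul_of_one_le_of_one_le hK hA
  have h6 : 1 ≤ K ^ 2 * A := one_le_mul_of_one_le_of_one_le h1 hA
  have h7 : K * A * 1 ≤ K * A * (K ^ 2 * A) := mul_le_mul_of_nonneg_left h6 (by linarith)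
  nlinarith

private theorem ca_fin3 {K A n : ℝ} (hK : 1 ≤ K) (hA : 1 ≤ A) (hb : 0 ≤ A / n) :
    K ^ 2 * A * (A / n) ≤ 40 * K ^ 3 * A ^ 3 / n := by
  rw [ca_fin0 n rfl]
  refine mul_le_mul_of_nonneg_right ?_ hb
  have h5 : 1 ≤ K * A := one_le_mul_of_one_le_of_one_le hK hA
  have h6 : K ^ 2 * A * 1 ≤ K ^ 2 * A * (K * A) :=
    mul_le_mul_of_nonneg_left h5 (by positivity)
  have h7 : 0 ≤ K ^ 2 * A * (K * A) := by positivity
  nlinarith

theorem np_le (h : DatOK Q V1 W D₁ D K A0 δ' ε' γ₂) (i : Fin Q.k) :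
    (Q.d i).np ≤ Fintype.card V := by
  have h1 : Function.Injective (fun t : Fin (Q.d i).np => (Q.d i).sg t ((Q.d i).rt t)) :=
    fun t t' htt => ((h.dec i).inj t _ t' _ htt).1
  have h2 := Fintype.card_le_of_injective _ h1
  rw [Fintype.card_fin, Fintype.card_fin] at h2
  exact h2.trans (h.m_le i)

theorem cd_pp (h : DatOK Q V1 W D₁ D K A0 δ' ε' γ₂) (p p' : Σ i : Fin Q.k, Fin (Q.d i).np)
    (hne : p ≠ p') : cd Q.el Q.wt (Sum.inl p) (Sum.inl p') = 0 := by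
  rw [ca_piece]
  refine Finset.sum_eq_zero fun f _ => if_neg fun h' => hne ?_
  exact ((mem_el_piece Q _ _).1 h').symm

theorem cd_pv (h : DatOK Q V1 W D₁ D K A0 δ' ε' γ₂) (hd : 0 ≤ δ') (hA : 1 ≤ A0) (hK : 1 ≤ K)
    (p : Σ i : Fin Q.k, Fin (Q.d i).np) (y : Fin Q.k × V) :
    cd Q.el Q.wt (Sum.inl p) (Sum.inr (Sum.inl y)) ≤
      40 * (K : ℝ) ^ 3 * A0 ^ 3 / Fintype.card V := by
  obtain ⟨hb0, hbA⟩ := ca_b h hA p.1
  have hA0 : 0 ≤ A0 := by linarith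
  have hK1 : (1 : ℝ) ≤ K := by exact_mod_cast hK
  rw [ca_piece]
  have hsz : (((Q.d p.1).sz p.2 : ℕ) : ℝ) ≤ (K : ℝ) := by
    exact_mod_cast (h.dec p.1).sz_le p.2
  have h1 : (∑ f : Fin ((Q.d p.1).sz p.2) → V,
      if (Sum.inr (Sum.inl y) : Q.Rs) ∈ Q.el ⟨p.1, p.2, f⟩ then Q.wt ⟨p.1, p.2, f⟩ else 0) ≤
      ∑ f : Fin ((Q.d p.1).sz p.2) → V, ∑ j : Fin ((Q.d p.1).sz p.2),
        (if f j = y.2 then Q.wt ⟨p.1, p.2, f⟩ else 0) := by
    refine Finset.sum_le_sum fun f _ => ?_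
    have hnn : ∀ j ∈ (univ : Finset (Fin ((Q.d p.1).sz p.2))),
        0 ≤ (if f j = y.2 then Q.wt ⟨p.1, p.2, f⟩ else 0) :=
      fun j _ => ca_ite _ _ (wt_nonneg h _)
    split_ifs with hm
    · obtain ⟨i, v⟩ := y
      obtain ⟨_, j, hj⟩ := (mem_el_pair Q _ _ _).1 hm
      have hs := Finset.single_le_sum hnn (Finset.mem_univ j)
      rw [if_pos hj] at hs
      exact hs
    · exact Finset.sum_nonneg hnn
  rw [Finset.sum_comm] at h1
  have h2 : (∑ j : Fin ((Q.d p.1).sz p.2), ∑ f : Fin ((Q.d p.1).sz p.2) → V,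
        (if f j = y.2 then Q.wt ⟨p.1, p.2, f⟩ else 0)) ≤
      ∑ _j : Fin ((Q.d p.1).sz p.2), A0 / Fintype.card V :=
    Finset.sum_le_sum fun j _ => ca_fix1 h hd hA0 p.1 p.2 j y.2
  rw [Finset.sum_const, Finset.card_univ, Fintype.card_fin, nsmul_eq_mul] at h2
  have h3 : (((Q.d p.1).sz p.2 : ℕ) : ℝ) * (A0 / Fintype.card V) ≤
      (K : ℝ) * (A0 / Fintype.card V) := mul_le_mul_of_nonneg_right hsz hb0
  exact (h1.trans (h2.trans h3)).trans (ca_fin1 hK1 hA hb0)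

theorem cd_pe (h : DatOK Q V1 W D₁ D K A0 δ' ε' γ₂) (hd : 0 ≤ δ') (hA : 1 ≤ A0) (hK : 1 ≤ K)
    (p : Σ i : Fin Q.k, Fin (Q.d i).np) (s : Sym2 V) :
    cd Q.el Q.wt (Sum.inl p) (Sum.inr (Sum.inr s)) ≤
      40 * (K : ℝ) ^ 3 * A0 ^ 3 / Fintype.card V := by
  obtain ⟨hb0, hbA⟩ := ca_b h hA p.1
  have hA0 : 0 ≤ A0 := by linarith
  have hK1 : (1 : ℝ) ≤ K := by exact_mod_cast hK
  rw [ca_piece]
  induction s using Sym2.ind with
  | _ a c =>
  have h1 := ca_edge h hd hA0 a c p.1 p.2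
  refine le_trans (Finset.sum_le_sum fun f _ => ?_) (h1.trans (ca_fin2 hK1 hA hb0 hbA))
  by_cases hm : s(a, c) ∈ Q.hE ⟨p.1, p.2, f⟩
  · rw [if_pos hm]
    split_ifs
    · exact le_rfl
    · exact wt_nonneg h _
  · rw [if_neg hm, if_neg fun h' => hm ((mem_el_edge Q _ _).1 h').2]

theorem cd_vv (h : DatOK Q V1 W D₁ D K A0 δ' ε' γ₂) (hd : 0 ≤ δ') (hA : 1 ≤ A0) (hK : 1 ≤ K)
    (x y : Fin Q.k × V) (hne : x ≠ y) :
    cd Q.el Q.wt (Sum.inr (Sum.inl x)) (Sum.inr (Sum.inl y)) ≤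
      40 * (K : ℝ) ^ 3 * A0 ^ 3 / Fintype.card V := by
  obtain ⟨i, v⟩ := x
  obtain ⟨i', v'⟩ := y
  obtain ⟨hb0, hbA⟩ := ca_b h hA i
  have hA0 : 0 ≤ A0 := by linarith
  have hK1 : (1 : ℝ) ≤ K := by exact_mod_cast hK
  have hN0 : (0 : ℝ) < Fintype.card V := by exact_mod_cast ca_card h i
  rw [ca_sum]
  by_cases hii : i = i'
  · subst hii
    have hv : v ≠ v' := fun h' => hne (by rw [h'])
    rw [Finset.sum_eq_single i (fun l _ hl => Finset.sum_eq_zero fun t _ =>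
      Finset.sum_eq_zero fun f _ => if_neg fun h' => hl ((mem_el_pair Q _ _ _).1 h'.1).1)
      (fun hn => absurd (Finset.mem_univ _) hn)]
    have h1 : ∀ t : Fin (Q.d i).np, (∑ f : Fin ((Q.d i).sz t) → V,
        if (Sum.inr (Sum.inl (i, v)) : Q.Rs) ∈ Q.el ⟨i, t, f⟩ ∧
          (Sum.inr (Sum.inl (i, v')) : Q.Rs) ∈ Q.el ⟨i, t, f⟩ then
          Q.wt ⟨i, t, f⟩ else 0) ≤ (K : ℝ) ^ 2 * (A0 / Fintype.card V) ^ 2 := by
      intro t
      have hsz : (((Q.d i).sz t : ℕ) : ℝ) ≤ (K : ℝ) := by exact_mod_cast (h.dec i).sz_le t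
      have h2 : (∑ f : Fin ((Q.d i).sz t) → V,
          if (Sum.inr (Sum.inl (i, v)) : Q.Rs) ∈ Q.el ⟨i, t, f⟩ ∧
            (Sum.inr (Sum.inl (i, v')) : Q.Rs) ∈ Q.el ⟨i, t, f⟩ then
            Q.wt ⟨i, t, f⟩ else 0) ≤
          ∑ f : Fin ((Q.d i).sz t) → V, ∑ q : Fin ((Q.d i).sz t) × Fin ((Q.d i).sz t),
            (if q.1 ≠ q.2 then
              (if f q.1 = v ∧ f q.2 = v' then Q.wt ⟨i, t, f⟩ else 0) else 0) := by
        refine Finset.sum_le_sum fun f _ => ?_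
        have hnn : ∀ q ∈ (univ : Finset (Fin ((Q.d i).sz t) × Fin ((Q.d i).sz t))),
            0 ≤ (if q.1 ≠ q.2 then
              (if f q.1 = v ∧ f q.2 = v' then Q.wt ⟨i, t, f⟩ else 0) else 0) :=
          fun q _ => ca_ite _ _ (ca_ite _ _ (wt_nonneg h _))
        split_ifs with hm
        · obtain ⟨_, j, hj⟩ := (mem_el_pair Q _ _ _).1 hm.1
          obtain ⟨_, j', hj'⟩ := (mem_el_pair Q _ _ _).1 hm.2
          have hjj : j ≠ j' := by
            rintro rfl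
            exact hv (hj.symm.trans hj')
          have hs := Finset.single_le_sum hnn (Finset.mem_univ (j, j'))
          have hs' : (if j ≠ j' then (if f j = v ∧ f j' = v' then Q.wt ⟨i, t, f⟩ else 0)
              else 0) = Q.wt ⟨i, t, f⟩ := by
            rw [if_pos hjj]
            exact if_pos ⟨hj, hj'⟩
          exact (le_of_eq hs'.symm).trans hs
        · exact Finset.sum_nonneg hnn
      rw [Finset.sum_comm] at h2
      have h3 : (∑ q : Fin ((Q.d i).sz t) × Fin ((Q.d i).sz t),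
          ∑ f : Fin ((Q.d i).sz t) → V, (if q.1 ≠ q.2 then
              (if f q.1 = v ∧ f q.2 = v' then Q.wt ⟨i, t, f⟩ else 0) else 0)) ≤
          ∑ _q : Fin ((Q.d i).sz t) × Fin ((Q.d i).sz t), (A0 / Fintype.card V) ^ 2 := by
        refine Finset.sum_le_sum fun q _ => ?_
        by_cases hq : q.1 ≠ q.2
        · simp only [if_pos hq]
          exact ca_fix2 h hd hA0 i t q.1 q.2 hq v v'
        · simp only [if_neg hq, Finset.sum_const_zero]
          positivity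
      rw [Finset.sum_const, Finset.card_univ, Fintype.card_prod, Fintype.card_fin,
        nsmul_eq_mul] at h3
      push_cast at h3
      have h4 : (((Q.d i).sz t : ℕ) : ℝ) * (((Q.d i).sz t : ℕ) : ℝ) ≤ (K : ℝ) ^ 2 := by
        rw [pow_two]
        exact mul_le_mul hsz hsz (Nat.cast_nonneg _) (Nat.cast_nonneg _)
      have h5 := mul_le_mul_of_nonneg_right h4 (sq_nonneg (A0 / (Fintype.card V : ℝ)))
      exact h2.trans (h3.trans h5)
    have h2 := Finset.sum_le_sum (s := (univ : Finset (Fin (Q.d i).np))) fun t _ => h1 t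
    refine h2.trans ?_
    rw [Finset.sum_const, Finset.card_univ, Fintype.card_fin, nsmul_eq_mul]
    have h3 : (((Q.d i).np : ℕ) : ℝ) ≤ Fintype.card V := by exact_mod_cast np_le h i
    have h4 : (((Q.d i).np : ℕ) : ℝ) * ((K : ℝ) ^ 2 * (A0 / Fintype.card V) ^ 2) ≤
        (Fintype.card V : ℝ) * ((K : ℝ) ^ 2 * (A0 / Fintype.card V) ^ 2) :=
      mul_le_mul_of_nonneg_right h3 (by positivity)
    have h5 : (Fintype.card V : ℝ) * ((K : ℝ) ^ 2 * (A0 / Fintype.card V) ^ 2) =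
        (K : ℝ) ^ 2 * A0 * (A0 / Fintype.card V) := by
      field_simp
    rw [h5] at h4
    exact h4.trans (ca_fin3 hK1 hA hb0)
  · have h1 : (∑ l, ∑ t, ∑ f : Fin ((Q.d l).sz t) → V,
        if (Sum.inr (Sum.inl (i, v)) : Q.Rs) ∈ Q.el ⟨l, t, f⟩ ∧
          (Sum.inr (Sum.inl (i', v')) : Q.Rs) ∈ Q.el ⟨l, t, f⟩ then
          Q.wt ⟨l, t, f⟩ else 0) = 0 := by
      refine Finset.sum_eq_zero fun l _ => Finset.sum_eq_zero fun t _ =>
        Finset.sum_eq_zero fun f _ => if_neg fun h' => hii ?_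
      exact ((mem_el_pair Q _ _ _).1 h'.1).1.symm.trans ((mem_el_pair Q _ _ _).1 h'.2).1
    rw [h1]
    positivity

end MP_80c395_TP
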