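import Pool.Agent.Lib.MP_80c395_co_TP.ACodA

/-!
# Project TP, part A: codegree of a pair (tree, host vertex) and a host edge

Pair `(i,v)`, host edge `s = s(a,c)`; if `own s ≠ none` the codegree is `0`.  Let `b = A0 / N`.
A hyperedge `⟨i,t,f⟩` containing both (`mem_el_pair`, `mem_el_edge`, `mem_hE`): `f l = v` for some
`l`, and
* light edge: `0 < j`, `(f (pr j), f j) = (a,c)` or `(c,a)`: for every `t`, at most `2 K b^2`
  (`wt_fix` with `J = {pr j, j}`); with `np ≤ N`: total `≤ 2 K A0^2 / N`;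
* star edge: `hst = some u`, `s = s(u, f rt)`.  If `f rt = v`: then `s = s(u, v)`, `u` is the other
end of
  `s` (if `v ∉ s` impossible); the total is `≤ ∑ t with hst = some u, ∑ f rt = v, wt
  ≤ ∑ t, if hst = some u then lw rt v ≤ γ₂` (`wt_root`, `cod`).  (For given `s, v` with `v ∈ s`
  the `u` with `s = s(u,v)` is unique.)
  If `f rt ≠ v`: `f rt ∈ {a, c}` and `f l = v` for some `l ≠ rt`: for every `t` at most `2 K b^2`,
  total `≤ 2 K A0^2 / N`.
Sum: `≤ γ₂ + 4 K A0^2 / N`.  Note `γ₂ ≥ 0` follows from `cod` if it is used; it is a hypothesis.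
-/

set_option autoImplicit false

namespace MP_80c395_TP

open Finset

variable {V : Type} [Fintype V] [DecidableEq V] {Q : Dat V} {V1 W : Finset V} {D₁ D K : ℕ}
  {A0 δ' ε' γ₂ : ℝ}

open Classical in
private theorem cb_two (h : DatOK Q V1 W D₁ D K A0 δ' ε' γ₂) (hd : 0 ≤ δ') (hA : 0 ≤ A0)
    (i : Fin Q.k) (t : Fin (Q.d i).np) (j₁ j₂ : Fin ((Q.d i).sz t)) (hj : j₁ ≠ j₂) (a c : V) :
    ∑ f : Fin ((Q.d i).sz t) → V, (if f j₁ = a ∧ f j₂ = c then Q.wt ⟨i, t, f⟩ else 0) ≤
      (A0 / Fintype.card V) ^ 2 := by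
  have h1 := wt_fix h hd hA i t {j₁, j₂} (fun j => if j = j₁ then a else c)
  rw [Finset.card_pair hj, Finset.sum_filter] at h1
  refine le_trans (le_of_eq ?_) h1
  refine Finset.sum_congr rfl fun f _ => ?_
  refine if_congr ?_ rfl rfl
  simp [hj.symm]

open Classical in
private theorem cb_root (h : DatOK Q V1 W D₁ D K A0 δ' ε' γ₂) (hd : 0 ≤ δ') (hA : 0 ≤ A0)
    (i : Fin Q.k) (t : Fin (Q.d i).np) (v : V) :
    ∑ f : Fin ((Q.d i).sz t) → V, (if f ((Q.d i).rt t) = v then Q.wt ⟨i, t, f⟩ else 0) ≤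
      Q.lw i t ((Q.d i).rt t) v := by
  have h1 := wt_root h hd hA i t v
  rw [Finset.sum_filter] at h1
  refine le_trans (le_of_eq ?_) h1
  refine Finset.sum_congr rfl fun f _ => ?_
  exact if_congr Iff.rfl rfl rfl

open Classical in
/-- one light edge in one orientation -/
private theorem cb_light (h : DatOK Q V1 W D₁ D K A0 δ' ε' γ₂) (hd : 0 ≤ δ') (hA : 0 ≤ A0)
    (i : Fin Q.k) (t : Fin (Q.d i).np) (a c : V) :
    ∑ f : Fin ((Q.d i).sz t) → V, ∑ j : Fin ((Q.d i).sz t),
      (if 0 < j.val then (if f ((Q.d i).pr t j) = a ∧ f j = c then Q.wt ⟨i, t, f⟩ else 0) else 0) ≤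
      K * (A0 / Fintype.card V) ^ 2 := by
  rw [Finset.sum_comm]
  have hb : 0 ≤ (A0 / Fintype.card V) ^ 2 := by positivity
  have h1 : ∀ j : Fin ((Q.d i).sz t), ∑ f : Fin ((Q.d i).sz t) → V,
      (if 0 < j.val then (if f ((Q.d i).pr t j) = a ∧ f j = c then Q.wt ⟨i, t, f⟩ else 0) else 0)
      ≤ (A0 / Fintype.card V) ^ 2 := by
    intro j
    by_cases hj : 0 < j.val
    · simp only [hj, if_true]
      refine cb_two h hd hA i t _ _ ?_ a c
      intro h2
      have h3 := (h.dec i).pr_lt t j hj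
      rw [h2] at h3
      exact lt_irrefl _ h3
    · simp only [hj, if_false, Finset.sum_const_zero]
      exact hb
  refine (Finset.sum_le_sum fun j _ => h1 j).trans ?_
  rw [Finset.sum_const, Finset.card_univ, Fintype.card_fin, nsmul_eq_mul]
  exact mul_le_mul_of_nonneg_right (by exact_mod_cast (h.dec i).sz_le t) hb

open Classical in
/-- root at `a` and another vertex at `v` -/
private theorem cb_star (h : DatOK Q V1 W D₁ D K A0 δ' ε' γ₂) (hd : 0 ≤ δ') (hA : 0 ≤ A0)
    (i : Fin Q.k) (t : Fin (Q.d i).np) (a v : V) :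
    ∑ f : Fin ((Q.d i).sz t) → V, ∑ l : Fin ((Q.d i).sz t),
      (if (Q.d i).rt t ≠ l then (if f ((Q.d i).rt t) = a ∧ f l = v then Q.wt ⟨i, t, f⟩ else 0)
        else 0) ≤ K * (A0 / Fintype.card V) ^ 2 := by
  rw [Finset.sum_comm]
  have hb : 0 ≤ (A0 / Fintype.card V) ^ 2 := by positivity
  have h1 : ∀ l : Fin ((Q.d i).sz t), ∑ f : Fin ((Q.d i).sz t) → V,
      (if (Q.d i).rt t ≠ l then (if f ((Q.d i).rt t) = a ∧ f l = v then Q.wt ⟨i, t, f⟩ else 0)
        else 0) ≤ (A0 / Fintype.card V) ^ 2 := by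
    intro l
    by_cases hl : (Q.d i).rt t ≠ l
    · simp only [hl, if_true, ne_eq, not_false_eq_true]
      exact cb_two h hd hA i t _ _ hl a v
    · simp only [hl, if_false, Finset.sum_const_zero]
      exact hb
  refine (Finset.sum_le_sum fun j _ => h1 j).trans ?_
  rw [Finset.sum_const, Finset.card_univ, Fintype.card_fin, nsmul_eq_mul]
  exact mul_le_mul_of_nonneg_right (by exact_mod_cast (h.dec i).sz_le t) hb

open Classical in
private theorem cb_piece (h : DatOK Q V1 W D₁ D K A0 δ' ε' γ₂) (hd : 0 ≤ δ') (hA : 0 ≤ A0)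
    (i : Fin Q.k) (t : Fin (Q.d i).np) (a c v : V) :
    ∑ f : Fin ((Q.d i).sz t) → V,
      (if s(a, c) ∈ Q.hE ⟨i, t, f⟩ ∧ ∃ j, f j = v then Q.wt ⟨i, t, f⟩ else 0) ≤
      (if ∃ u, Q.hst i t = some u ∧ s(a, c) = s(u, v) then Q.lw i t ((Q.d i).rt t) v else 0) +
        4 * K * (A0 / Fintype.card V) ^ 2 := by
  have hL1 := cb_light h hd hA i t a c
  have hL2 := cb_light h hd hA i t c a
  have hS1 := cb_star h hd hA i t a v
  have hS2 := cb_star h hd hA i t c v
  have hR := cb_root h hd hA i t v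
  have hR' : ∑ f : Fin ((Q.d i).sz t) → V,
      (if ∃ u, Q.hst i t = some u ∧ s(a, c) = s(u, v) then
        (if f ((Q.d i).rt t) = v then Q.wt ⟨i, t, f⟩ else 0) else 0) ≤
      (if ∃ u, Q.hst i t = some u ∧ s(a, c) = s(u, v) then Q.lw i t ((Q.d i).rt t) v else 0) := by
    split_ifs with hu
    · exact hR
    · simp
  have key : ∑ f : Fin ((Q.d i).sz t) → V,
      (if s(a, c) ∈ Q.hE ⟨i, t, f⟩ ∧ ∃ j, f j = v then Q.wt ⟨i, t, f⟩ else 0) ≤
      ∑ f : Fin ((Q.d i).sz t) → V, ((if ∃ u, Q.hst i t = some u ∧ s(a, c) = s(u, v) then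
        (if f ((Q.d i).rt t) = v then Q.wt ⟨i, t, f⟩ else 0) else 0) +
      (∑ j : Fin ((Q.d i).sz t), (if 0 < j.val then
        (if f ((Q.d i).pr t j) = a ∧ f j = c then Q.wt ⟨i, t, f⟩ else 0) else 0)) +
      (∑ j : Fin ((Q.d i).sz t), (if 0 < j.val then
        (if f ((Q.d i).pr t j) = c ∧ f j = a then Q.wt ⟨i, t, f⟩ else 0) else 0)) +
      (∑ l : Fin ((Q.d i).sz t), (if (Q.d i).rt t ≠ l then
        (if f ((Q.d i).rt t) = a ∧ f l = v then Q.wt ⟨i, t, f⟩ else 0) else 0)) +
      (∑ l : Fin ((Q.d i).sz t), (if (Q.d i).rt t ≠ l then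
        (if f ((Q.d i).rt t) = c ∧ f l = v then Q.wt ⟨i, t, f⟩ else 0) else 0))) := by
    refine Finset.sum_le_sum fun f _ => ?_
    have hw := wt_nonneg h ⟨i, t, f⟩
    have n0 : 0 ≤ (if ∃ u, Q.hst i t = some u ∧ s(a, c) = s(u, v) then
        (if f ((Q.d i).rt t) = v then Q.wt ⟨i, t, f⟩ else 0) else 0) := by
      split_ifs <;> first | exact hw | exact le_rfl
    have n1 : ∀ a c : V, 0 ≤ (∑ j : Fin ((Q.d i).sz t), (if 0 < j.val then
        (if f ((Q.d i).pr t j) = a ∧ f j = c then Q.wt ⟨i, t, f⟩ else 0) else 0)) := by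
      intro a c
      refine Finset.sum_nonneg fun j _ => ?_
      split_ifs <;> first | exact hw | exact le_rfl
    have n2 : ∀ a : V, 0 ≤ (∑ l : Fin ((Q.d i).sz t), (if (Q.d i).rt t ≠ l then
        (if f ((Q.d i).rt t) = a ∧ f l = v then Q.wt ⟨i, t, f⟩ else 0) else 0)) := by
      intro a
      refine Finset.sum_nonneg fun j _ => ?_
      split_ifs <;> first | exact hw | exact le_rfl
    have m1 : ∀ a c : V, ∀ j : Fin ((Q.d i).sz t), 0 < j.val → f ((Q.d i).pr t j) = a →
        f j = c → Q.wt ⟨i, t, f⟩ ≤ (∑ j : Fin ((Q.d i).sz t), (if 0 < j.val then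
        (if f ((Q.d i).pr t j) = a ∧ f j = c then Q.wt ⟨i, t, f⟩ else 0) else 0)) := by
      intro a c j hj h1 h2
      have h3 := Finset.single_le_sum (f := fun j : Fin ((Q.d i).sz t) => (if 0 < j.val then
        (if f ((Q.d i).pr t j) = a ∧ f j = c then Q.wt ⟨i, t, f⟩ else 0) else 0))
        (fun j _ => by
          show 0 ≤ (if 0 < j.val then
            (if f ((Q.d i).pr t j) = a ∧ f j = c then Q.wt ⟨i, t, f⟩ else 0) else 0)
          split_ifs <;> first | exact hw | exact le_rfl) (Finset.mem_univ j)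
      simpa only [hj, h1, h2, and_self, if_true] using h3
    have m2 : ∀ a : V, ∀ l : Fin ((Q.d i).sz t), (Q.d i).rt t ≠ l → f ((Q.d i).rt t) = a →
        f l = v → Q.wt ⟨i, t, f⟩ ≤ (∑ l : Fin ((Q.d i).sz t), (if (Q.d i).rt t ≠ l then
        (if f ((Q.d i).rt t) = a ∧ f l = v then Q.wt ⟨i, t, f⟩ else 0) else 0)) := by
      intro a l hj h1 h2
      have h3 := Finset.single_le_sum (f := fun l : Fin ((Q.d i).sz t) =>
        (if (Q.d i).rt t ≠ l then
        (if f ((Q.d i).rt t) = a ∧ f l = v then Q.wt ⟨i, t, f⟩ else 0) else 0))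
        (fun l _ => by
          show 0 ≤ (if (Q.d i).rt t ≠ l then
            (if f ((Q.d i).rt t) = a ∧ f l = v then Q.wt ⟨i, t, f⟩ else 0) else 0)
          split_ifs <;> first | exact hw | exact le_rfl) (Finset.mem_univ l)
      simpa only [hj, h1, h2, and_self, if_true, ne_eq, not_false_eq_true] using h3
    by_cases hP : s(a, c) ∈ Q.hE ⟨i, t, f⟩ ∧ ∃ j, f j = v
    · rw [if_pos hP]
      obtain ⟨hs, l, hl⟩ := hP
      rw [mem_hE] at hs
      rcases hs with ⟨j, hj, hs⟩ | ⟨u, hu, hs⟩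
      · dsimp only at hj hs
        rw [Sym2.eq_iff] at hs
        rcases hs with ⟨h1, h2⟩ | ⟨h1, h2⟩
        · have := m1 a c j hj h1.symm h2.symm
          have := n1 c a
          have := n2 a
          have := n2 c
          linarith
        · have := m1 c a j hj h2.symm h1.symm
          have := n1 a c
          have := n2 a
          have := n2 c
          linarith
      · dsimp only at hu hs
        by_cases hr : f ((Q.d i).rt t) = v
        · have h3 : Q.wt ⟨i, t, f⟩ ≤ (if ∃ u, Q.hst i t = some u ∧ s(a, c) = s(u, v) then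
              (if f ((Q.d i).rt t) = v then Q.wt ⟨i, t, f⟩ else 0) else 0) := by
            rw [if_pos ⟨u, hu, by rw [hs, hr]⟩, if_pos hr]
          have := n1 c a
          have := n1 a c
          have := n2 a
          have := n2 c
          linarith
        · have hne : (Q.d i).rt t ≠ l := by
            intro h5
            rw [← h5] at hl
            exact hr hl
          have hmem : f ((Q.d i).rt t) = a ∨ f ((Q.d i).rt t) = c := by
            have h6 : f ((Q.d i).rt t) ∈ s(a, c) := by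
              rw [hs]
              exact Sym2.mem_mk_right _ _
            exact Sym2.mem_iff.1 h6
          rcases hmem with h6 | h6
          · have := m2 a l hne h6 hl
            have := n1 c a
            have := n1 a c
            have := n2 c
            linarith
          · have := m2 c l hne h6 hl
            have := n1 c a
            have := n1 a c
            have := n2 a
            linarith
    · rw [if_neg hP]
      have := n1 c a
      have := n1 a c
      have := n2 a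
      have := n2 c
      linarith
  refine key.trans ?_
  rw [Finset.sum_add_distrib, Finset.sum_add_distrib, Finset.sum_add_distrib,
    Finset.sum_add_distrib]
  linarith

theorem cd_ve (h : DatOK Q V1 W D₁ D K A0 δ' ε' γ₂) (hd : 0 ≤ δ') (hA : 1 ≤ A0) (hK : 1 ≤ K)
    (hγ : 0 ≤ γ₂) (x : Fin Q.k × V) (s : Sym2 V) :
    cd Q.el Q.wt (Sum.inr (Sum.inl x)) (Sum.inr (Sum.inr s)) ≤
      γ₂ + 40 * (K : ℝ) ^ 3 * A0 ^ 3 / Fintype.card V := by
  classical
  obtain ⟨i, v⟩ := x
  have hA0 : 0 ≤ A0 := zero_le_one.trans hA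
  have hR : 0 ≤ 40 * (K : ℝ) ^ 3 * A0 ^ 3 / Fintype.card V := by positivity
  by_cases ho : Q.own s = none
  · induction s using Sym2.ind with
    | _ a c =>
    have h1 : cd Q.el Q.wt (Sum.inr (Sum.inl (i, v))) (Sum.inr (Sum.inr s(a, c))) =
        ∑ t : Fin (Q.d i).np, ∑ f : Fin ((Q.d i).sz t) → V,
          (if s(a, c) ∈ Q.hE ⟨i, t, f⟩ ∧ ∃ j, f j = v then Q.wt ⟨i, t, f⟩ else 0) := by
      unfold cd st
      rw [← Finset.filter_and, Finset.sum_filter, Fintype.sum_sigma]
      rw [Finset.sum_eq_single i]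
      · rw [Fintype.sum_sigma]
        refine Finset.sum_congr rfl fun t _ => Finset.sum_congr rfl fun f _ => ?_
        refine if_congr ?_ rfl rfl
        rw [mem_el_pair, mem_el_edge]
        constructor
        · rintro ⟨⟨-, h2⟩, -, h3⟩
          exact ⟨h3, h2⟩
        · rintro ⟨h3, h2⟩
          exact ⟨⟨rfl, h2⟩, ho, h3⟩
      · intro i' _ hne
        refine Finset.sum_eq_zero fun e _ => ?_
        rw [if_neg]
        rintro ⟨h2, -⟩
        rw [mem_el_pair] at h2
        exact hne h2.1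
      · intro h2
        exact absurd (Finset.mem_univ i) h2
    rw [h1]
    refine (Finset.sum_le_sum fun t _ => cb_piece h hd hA0 i t a c v).trans ?_
    rw [Finset.sum_add_distrib, Finset.sum_const, Finset.card_univ, Fintype.card_fin,
      nsmul_eq_mul]
    have h2 : ∑ t : Fin (Q.d i).np, (if ∃ u, Q.hst i t = some u ∧ s(a, c) = s(u, v) then
        Q.lw i t ((Q.d i).rt t) v else 0) ≤ γ₂ := by
      by_cases hv : v ∈ s(a, c)
      · obtain ⟨u₀, hu₀⟩ := hv
        have h3 := h.cod i u₀ v (by rw [Sym2.eq_swap, ← hu₀]; exact ho)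
        refine le_trans (le_of_eq ?_) h3
        refine Finset.sum_congr rfl fun t _ => ?_
        refine if_congr ?_ rfl rfl
        constructor
        · rintro ⟨u, hu, hs⟩
          rw [hu₀, Sym2.eq_swap, Sym2.congr_left] at hs
          rw [hu, hs]
        · intro hu
          exact ⟨u₀, hu, by rw [hu₀, Sym2.eq_swap]⟩
      · refine le_trans (le_of_eq ?_) hγ
        refine Finset.sum_eq_zero fun t _ => ?_
        rw [if_neg]
        rintro ⟨u, -, hs⟩
        apply hv
        rw [hs]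
        exact Sym2.mem_mk_right _ _
    have h3 : ((Q.d i).np : ℝ) * (4 * K * (A0 / Fintype.card V) ^ 2) ≤
        40 * (K : ℝ) ^ 3 * A0 ^ 3 / Fintype.card V := by
      have h4 : ((Q.d i).np : ℝ) ≤ Fintype.card V := by exact_mod_cast np_le h i
      have hK' : (1 : ℝ) ≤ K := by exact_mod_cast hK
      rcases Nat.eq_zero_or_pos (Fintype.card V) with hN | hN
      · rw [hN]
        simp
      · have hN' : (0 : ℝ) < Fintype.card V := by exact_mod_cast hN
        have h5 : ((Q.d i).np : ℝ) * (4 * K * (A0 / Fintype.card V) ^ 2) ≤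
            (Fintype.card V : ℝ) * (4 * K * (A0 / Fintype.card V) ^ 2) :=
          mul_le_mul_of_nonneg_right h4 (by positivity)
        refine h5.trans ?_
        have h6 : (Fintype.card V : ℝ) * (4 * K * (A0 / Fintype.card V) ^ 2) =
            4 * K * A0 ^ 2 / Fintype.card V := by
          field_simp
        rw [h6]
        refine div_le_div_of_nonneg_right ?_ hN'.le
        have h7 : (K : ℝ) ≤ K ^ 3 := by
          calc (K : ℝ) = K ^ 1 := (pow_one _).symm
            _ ≤ K ^ 3 := pow_le_pow_right₀ hK' (by norm_num)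
        have h8 : A0 ^ 2 ≤ A0 ^ 3 := pow_le_pow_right₀ hA (by norm_num)
        have h9 : (K : ℝ) * A0 ^ 2 ≤ K ^ 3 * A0 ^ 3 :=
          mul_le_mul h7 h8 (by positivity) (by positivity)
        have h10 : (0 : ℝ) ≤ K * A0 ^ 2 := by positivity
        nlinarith
    linarith
  · have h1 : cd Q.el Q.wt (Sum.inr (Sum.inl (i, v))) (Sum.inr (Sum.inr s)) = 0 := by
      unfold cd st
      rw [← Finset.filter_and]
      refine Finset.sum_eq_zero fun e he => ?_
      rw [Finset.mem_filter, mem_el_edge] at he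
      exact absurd he.2.2.1 ho
    rw [h1]
    linarith

end MP_80c395_TP
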