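import Pool.Agent.Lib.MP_80c395_co_TP.ACodA

/-!
# Project TP, part A: codegree of two host edges

Host edges `s ≠ s'`.  Let `b = A0 / N`.  Only hyperedges `e = ⟨i,t,f⟩` with `wt e ≠ 0` count; then `f` is
injective (`wt_supp`).  If both `s, s' ∈ hE e` (`mem_hE`):
* both light: `s = s(f (pr j), f j)`, `s' = s(f (pr j'), f j')`, `0 < j`, `0 < j'`, `j ≠ j'`.
  The set `{pr j, j, pr j', j'}` has at least three elements (if `pr j' = j` and `pr j = j'` then
  `pr_lt` fails; `j ≠ j'`, `pr j ≠ j`; so `{j, j', pr j or pr j'}`: the smaller of `j, j'`, say `j`, has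
  `pr j ∉ {j, j'}`).  For fixed `i, t, j, j'` and each of the four ways to orient `s` and `s'`
  the values of `f` at these elements are determined, so the weight is at most `b^3`
  (`wt_fix`; `b^4 ≤ ..` is not needed: fix exactly three of them).  Total
  `≤ (3 N) N K^2 4 b^3 ≤ 12 K^2 A0^3 / N` (`k_le`, `np_le`).
* `s` star, `s'` light: `hst = some u`, `s = s(u, f rt)`, `s' = s(f (pr j), f j)`: `u ∈ s` (two
  choices, then `f rt` is the other end), and `f j` is one of the two ends of `s'`: the weight for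
  fixed `(i,t,j)` and these choices is at most `b^2` (`J = {rt, j}`, `j ≠ rt`).  The number of
  `(i,t)` with `hst = some u` is at most `3 N` (`load_le`).  Total `≤ 2 * 2 * 3 N K b^2`.
* `s` light, `s'` star: the same.
* both star: `s = s(u, f rt) = s'`, impossible.
Sum: `≤ (12 K^2 + 24 K) A0^3 / N ≤ 40 K^3 A0^3 / N`.
-/

set_option autoImplicit false

namespace MP_80c395_TP

open Finset

variable {V : Type} [Fintype V] [DecidableEq V] {Q : Dat V} {V1 W : Finset V} {D₁ D K : ℕ}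
  {A0 δ' ε' γ₂ : ℝ}

private theorem ee_cover {ι F : Type} (I : Finset ι) (w : F → ℝ) (hw : ∀ f, 0 ≤ w f)
    (A : Finset F) (B : ι → Finset F) (hcov : ∀ f ∈ A, w f ≠ 0 → ∃ x ∈ I, f ∈ B x) {c : ℝ}
    (hB : ∀ x ∈ I, ∑ f ∈ B x, w f ≤ c) : ∑ f ∈ A, w f ≤ I.card * c := by
  classical
  calc ∑ f ∈ A, w f ≤ ∑ f ∈ A, ∑ x ∈ I, (if f ∈ B x then w f else 0) := by
        refine Finset.sum_le_sum fun f hf => ?_
        by_cases h0 : w f = 0
        · rw [h0]
          exact Finset.sum_nonneg fun x _ => by split_ifs <;> simp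
        · obtain ⟨x, hx, hfx⟩ := hcov f hf h0
          calc w f = if f ∈ B x then w f else 0 := by rw [if_pos hfx]
            _ ≤ _ := Finset.single_le_sum (f := fun x => if f ∈ B x then w f else 0)
              (fun y _ => by split_ifs <;> simp [hw]) hx
    _ = ∑ x ∈ I, ∑ f ∈ A, (if f ∈ B x then w f else 0) := Finset.sum_comm
    _ ≤ ∑ x ∈ I, ∑ f ∈ B x, w f := by
        refine Finset.sum_le_sum fun x _ => ?_
        rw [← Finset.sum_filter]
        refine Finset.sum_le_sum_of_subset_of_nonneg ?_ fun f _ _ => hw f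
        intro f hf
        exact (Finset.mem_filter.1 hf).2
    _ ≤ ∑ x ∈ I, c := Finset.sum_le_sum hB
    _ = I.card * c := by simp

private theorem ee_agree (h : DatOK Q V1 W D₁ D K A0 δ' ε' γ₂) (hd : 0 ≤ δ') (hA : 0 ≤ A0)
    (i : Fin Q.k) (t : Fin (Q.d i).np) (r : ℕ) (B : Finset (Fin ((Q.d i).sz t) → V))
    (J : Finset (Fin ((Q.d i).sz t))) (hr : r ≤ J.card)
    (hag : ∀ f ∈ B, ∀ f' ∈ B, ∀ l ∈ J, f l = f' l) :
    ∑ f ∈ B, Q.wt ⟨i, t, f⟩ ≤ (A0 / Fintype.card V) ^ r := by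
  classical
  have hb : 0 ≤ A0 / (Fintype.card V : ℝ) := by positivity
  rcases B.eq_empty_or_nonempty with rfl | ⟨f0, hf0⟩
  · rw [Finset.sum_empty]
    positivity
  · obtain ⟨J', hJ', hc⟩ := Finset.exists_subset_card_eq hr
    rw [← hc]
    refine le_trans (Finset.sum_le_sum_of_subset_of_nonneg ?_ fun f _ _ => wt_nonneg h _)
      (wt_fix h hd hA i t J' f0)
    intro f hf
    rw [Finset.mem_filter]
    exact ⟨Finset.mem_univ _, fun j hj => hag f hf f0 hf0 j (hJ' hj)⟩

private theorem ee_card3 {n : ℕ} {q : Fin n → Fin n} (hq : ∀ j : Fin n, 0 < j.val → (q j).val < j.val)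
    {j j' : Fin n} (hj : 0 < j.val) (hj' : 0 < j'.val) (hne : j ≠ j') :
    3 ≤ ({q j, j, q j', j'} : Finset (Fin n)).card := by
  classical
  have h1 := hq j hj
  have h2 := hq j' hj'
  have hv : j.val ≠ j'.val := fun e => hne (Fin.ext e)
  rcases lt_or_gt_of_ne hv with h3 | h3
  · have h4 : ({q j, j, j'} : Finset (Fin n)).card = 3 := by
      rw [Finset.card_eq_three]
      refine ⟨q j, j, j', ?_, ?_, hne, rfl⟩
      · intro e
        rw [e] at h1
        omega
      · intro e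
        rw [e] at h1
        omega
    rw [← h4]
    apply Finset.card_le_card
    intro x hx
    simp only [Finset.mem_insert, Finset.mem_singleton] at hx ⊢
    tauto
  · have h4 : ({q j', j', j} : Finset (Fin n)).card = 3 := by
      rw [Finset.card_eq_three]
      refine ⟨q j', j', j, ?_, ?_, hne.symm, rfl⟩
      · intro e
        rw [e] at h2
        omega
      · intro e
        rw [e] at h2
        omega
    rw [← h4]
    apply Finset.card_le_card
    intro x hx
    simp only [Finset.mem_insert, Finset.mem_singleton] at hx ⊢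
    tauto

open Classical in
private theorem ee_LL (h : DatOK Q V1 W D₁ D K A0 δ' ε' γ₂) (hd : 0 ≤ δ') (hA : 0 ≤ A0)
    (i : Fin Q.k) (t : Fin (Q.d i).np) (a c a' c' : V) (hne : s(a, c) ≠ s(a', c')) :
    ∑ f ∈ univ.filter (fun f : Fin ((Q.d i).sz t) → V => ∃ j j', 0 < j.val ∧ 0 < j'.val ∧
        s(a, c) = s(f ((Q.d i).pr t j), f j) ∧ s(a', c') = s(f ((Q.d i).pr t j'), f j')),
      Q.wt ⟨i, t, f⟩ ≤ 4 * (K : ℝ) ^ 2 * (A0 / Fintype.card V) ^ 3 := by
  have hb : 0 ≤ A0 / (Fintype.card V : ℝ) := by positivity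
  have hsz := (h.dec i).sz_le t
  refine (ee_cover (ι := Fin ((Q.d i).sz t) × Fin ((Q.d i).sz t) × Bool × Bool) univ
    (fun f : Fin ((Q.d i).sz t) → V => Q.wt ⟨i, t, f⟩) (fun f => wt_nonneg h _) _
    (fun x => univ.filter (fun f : Fin ((Q.d i).sz t) → V => (0 < x.1.val ∧ 0 < x.2.1.val ∧
      x.1 ≠ x.2.1) ∧
      (f ((Q.d i).pr t x.1) = (if x.2.2.1 = true then a else c) ∧
        f x.1 = (if x.2.2.1 = true then c else a)) ∧
      (f ((Q.d i).pr t x.2.1) = (if x.2.2.2 = true then a' else c') ∧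
        f x.2.1 = (if x.2.2.2 = true then c' else a')))) ?_
    (c := (A0 / Fintype.card V) ^ 3) ?_).trans ?_
  · intro f hf _
    obtain ⟨-, j, j', hj, hj', h1, h2⟩ := Finset.mem_filter.1 hf
    have hjj : j ≠ j' := by
      rintro rfl
      exact hne (h1.trans h2.symm)
    have h3 : ∃ o : Bool, f ((Q.d i).pr t j) = (if o = true then a else c) ∧
        f j = (if o = true then c else a) := by
      rcases Sym2.eq_iff.1 h1 with ⟨e1, e2⟩ | ⟨e1, e2⟩
      · exact ⟨true, by simp [e1], by simp [e2]⟩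
      · exact ⟨false, by simp [e2], by simp [e1]⟩
    have h4 : ∃ o : Bool, f ((Q.d i).pr t j') = (if o = true then a' else c') ∧
        f j' = (if o = true then c' else a') := by
      rcases Sym2.eq_iff.1 h2 with ⟨e1, e2⟩ | ⟨e1, e2⟩
      · exact ⟨true, by simp [e1], by simp [e2]⟩
      · exact ⟨false, by simp [e2], by simp [e1]⟩
    obtain ⟨o, ho⟩ := h3
    obtain ⟨o', ho'⟩ := h4
    exact ⟨(j, j', o, o'), Finset.mem_univ _, Finset.mem_filter.2 ⟨Finset.mem_univ _,
      ⟨hj, hj', hjj⟩, ho, ho'⟩⟩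
  · rintro ⟨j, j', o, o'⟩ -
    by_cases hc : 0 < j.val ∧ 0 < j'.val ∧ j ≠ j'
    · refine ee_agree h hd hA i t 3 _ {(Q.d i).pr t j, j, (Q.d i).pr t j', j'}
        (ee_card3 ((h.dec i).pr_lt t) hc.1 hc.2.1 hc.2.2) ?_
      intro f hf f' hf' l hl
      obtain ⟨-, -, ⟨e1, e2⟩, e3, e4⟩ := Finset.mem_filter.1 hf
      obtain ⟨-, -, ⟨e1', e2'⟩, e3', e4'⟩ := Finset.mem_filter.1 hf'
      simp only [Finset.mem_insert, Finset.mem_singleton] at hl
      rcases hl with rfl | rfl | rfl | rfl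
      · exact e1.trans e1'.symm
      · exact e2.trans e2'.symm
      · exact e3.trans e3'.symm
      · exact e4.trans e4'.symm
    · rw [Finset.sum_eq_zero]
      · positivity
      · intro f hf
        exact absurd (Finset.mem_filter.1 hf).2.1 hc
  · have hcard : ((univ : Finset (Fin ((Q.d i).sz t) × Fin ((Q.d i).sz t) × Bool × Bool)).card : ℝ)
        ≤ 4 * (K : ℝ) ^ 2 := by
      have h1 : (univ : Finset (Fin ((Q.d i).sz t) × Fin ((Q.d i).sz t) × Bool × Bool)).card =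
          4 * ((Q.d i).sz t) ^ 2 := by
        simp only [Finset.card_univ, Fintype.card_prod, Fintype.card_fin, Fintype.card_bool]
        ring
      rw [h1]
      push_cast
      have h2 : (((Q.d i).sz t : ℕ) : ℝ) ≤ K := by exact_mod_cast hsz
      gcongr
    exact mul_le_mul_of_nonneg_right hcard (by positivity)

open Classical in
private theorem ee_SL (h : DatOK Q V1 W D₁ D K A0 δ' ε' γ₂) (hd : 0 ≤ δ') (hA : 0 ≤ A0)
    (i : Fin Q.k) (t : Fin (Q.d i).np) (a c a' c' : V) :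
    ∑ f ∈ univ.filter (fun f : Fin ((Q.d i).sz t) → V => ∃ u, Q.hst i t = some u ∧
        s(a, c) = s(u, f ((Q.d i).rt t)) ∧ ∃ j, 0 < j.val ∧
          s(a', c') = s(f ((Q.d i).pr t j), f j)),
      Q.wt ⟨i, t, f⟩ ≤ ((if Q.hst i t = some a then 1 else 0) +
        (if Q.hst i t = some c then 1 else 0)) * (2 * (K : ℝ) * (A0 / Fintype.card V) ^ 2) := by
  have hb : 0 ≤ A0 / (Fintype.card V : ℝ) := by positivity
  have hsz := (h.dec i).sz_le t
  have hK0 : (0 : ℝ) ≤ K := Nat.cast_nonneg K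
  rcases Finset.eq_empty_or_nonempty (univ.filter (fun f : Fin ((Q.d i).sz t) → V =>
      ∃ u, Q.hst i t = some u ∧
        s(a, c) = s(u, f ((Q.d i).rt t)) ∧ ∃ j, 0 < j.val ∧
          s(a', c') = s(f ((Q.d i).pr t j), f j))) with he | ⟨f0, hf0⟩
  · rw [he, Finset.sum_empty]
    have h1 : (0 : ℝ) ≤ (if Q.hst i t = some a then 1 else 0) +
        (if Q.hst i t = some c then 1 else 0) := by
      split_ifs <;> norm_num
    positivity
  · obtain ⟨-, u, hu, hs, -⟩ := Finset.mem_filter.1 hf0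
    have h1 : (1 : ℝ) ≤ (if Q.hst i t = some a then 1 else 0) +
        (if Q.hst i t = some c then 1 else 0) := by
      rcases Sym2.eq_iff.1 hs with ⟨e1, e2⟩ | ⟨e1, e2⟩
      · rw [if_pos (by rw [hu, e1])]
        split_ifs <;> norm_num
      · rw [if_pos (show Q.hst i t = some c by rw [hu, e2])]
        split_ifs <;> norm_num
    have h2 : ∑ f ∈ univ.filter (fun f : Fin ((Q.d i).sz t) → V => ∃ u, Q.hst i t = some u ∧
        s(a, c) = s(u, f ((Q.d i).rt t)) ∧ ∃ j, 0 < j.val ∧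
          s(a', c') = s(f ((Q.d i).pr t j), f j)),
      Q.wt ⟨i, t, f⟩ ≤ 2 * (K : ℝ) * (A0 / Fintype.card V) ^ 2 := by
      refine (ee_cover (ι := Fin ((Q.d i).sz t) × Bool) univ
        (fun f : Fin ((Q.d i).sz t) → V => Q.wt ⟨i, t, f⟩) (fun f => wt_nonneg h _) _
        (fun x => univ.filter (fun f : Fin ((Q.d i).sz t) → V => 0 < x.1.val ∧
          s(a, c) = s(u, f ((Q.d i).rt t)) ∧ f x.1 = (if x.2 = true then c' else a'))) ?_
        (c := (A0 / Fintype.card V) ^ 2) ?_).trans ?_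
      · intro f hf _
        obtain ⟨-, u', hu', hs', j, hj, h3⟩ := Finset.mem_filter.1 hf
        have huu : u' = u := by
          rw [hu] at hu'
          exact (Option.some.inj hu').symm
        subst huu
        rcases Sym2.eq_iff.1 h3 with ⟨e1, e2⟩ | ⟨e1, e2⟩
        · exact ⟨(j, true), Finset.mem_univ _, Finset.mem_filter.2 ⟨Finset.mem_univ _, hj, hs',
            by simp [e2]⟩⟩
        · exact ⟨(j, false), Finset.mem_univ _, Finset.mem_filter.2 ⟨Finset.mem_univ _, hj, hs',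
            by simp [e1]⟩⟩
      · rintro ⟨j, o⟩ -
        by_cases hj : 0 < j.val
        · refine ee_agree h hd hA i t 2 _ {(Q.d i).rt t, j} ?_ ?_
          · have hrj : (Q.d i).rt t ≠ j := by
              intro e
              rw [← e] at hj
              exact absurd hj (lt_irrefl _)
            rw [Finset.card_pair hrj]
          · intro f hf f' hf' l hl
            obtain ⟨-, -, e1, e2⟩ := Finset.mem_filter.1 hf
            obtain ⟨-, -, e1', e2'⟩ := Finset.mem_filter.1 hf'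
            simp only [Finset.mem_insert, Finset.mem_singleton] at hl
            rcases hl with rfl | rfl
            · exact Sym2.congr_right.1 (e1.symm.trans e1')
            · exact e2.trans e2'.symm
        · rw [Finset.sum_eq_zero]
          · positivity
          · intro f hf
            exact absurd (Finset.mem_filter.1 hf).2.1 hj
      · have hcard : ((univ : Finset (Fin ((Q.d i).sz t) × Bool)).card : ℝ) ≤ 2 * (K : ℝ) := by
          have h1 : (univ : Finset (Fin ((Q.d i).sz t) × Bool)).card = 2 * ((Q.d i).sz t) := by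
            simp only [Finset.card_univ, Fintype.card_prod, Fintype.card_fin, Fintype.card_bool]
            ring
          rw [h1]
          push_cast
          have h2 : (((Q.d i).sz t : ℕ) : ℝ) ≤ K := by exact_mod_cast hsz
          linarith
        exact mul_le_mul_of_nonneg_right hcard (by positivity)
    refine h2.trans ?_
    calc 2 * (K : ℝ) * (A0 / Fintype.card V) ^ 2 = 1 * (2 * (K : ℝ) * (A0 / Fintype.card V) ^ 2) :=
          (one_mul _).symm
      _ ≤ _ := mul_le_mul_of_nonneg_right h1 (by positivity)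

open Classical in
private theorem ee_load (h : DatOK Q V1 W D₁ D K A0 δ' ε' γ₂) (u : V) :
    ∑ i, ∑ t, (if Q.hst i t = some u then (1 : ℝ) else 0) ≤ 3 * Fintype.card V := by
  have h1 : ∑ i, ∑ t, (if Q.hst i t = some u then (1 : ℝ) else 0) = (Q.load u : ℝ) := by
    rw [Dat.load, Nat.cast_sum]
    refine Finset.sum_congr rfl fun i _ => ?_
    rw [Finset.sum_boole]
    congr!
  rw [h1]
  exact_mod_cast h.load_le u

theorem cd_ee (h : DatOK Q V1 W D₁ D K A0 δ' ε' γ₂) (hd : 0 ≤ δ') (hA : 1 ≤ A0) (hK : 1 ≤ K)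
    (s s' : Sym2 V) (hne : s ≠ s') :
    cd Q.el Q.wt (Sum.inr (Sum.inr s)) (Sum.inr (Sum.inr s')) ≤
      40 * (K : ℝ) ^ 3 * A0 ^ 3 / Fintype.card V := by
  classical
  induction s using Sym2.ind with
  | _ a c =>
  induction s' using Sym2.ind with
  | _ a' c' =>
  have hA0 : (0 : ℝ) ≤ A0 := zero_le_one.trans hA
  have hb : 0 ≤ A0 / (Fintype.card V : ℝ) := by positivity
  have hN : (0 : ℝ) < Fintype.card V := by
    exact_mod_cast Fintype.card_pos_iff.2 ⟨a⟩
  set b : ℝ := A0 / (Fintype.card V : ℝ) with hbdef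
  have hone : ∀ (i : Fin Q.k) (t : Fin (Q.d i).np),
      ∑ f ∈ univ.filter (fun f : Fin ((Q.d i).sz t) → V =>
        s(a, c) ∈ Q.hE ⟨i, t, f⟩ ∧ s(a', c') ∈ Q.hE ⟨i, t, f⟩), Q.wt ⟨i, t, f⟩ ≤
      4 * (K : ℝ) ^ 2 * b ^ 3 +
        (((if Q.hst i t = some a then 1 else 0) +
          (if Q.hst i t = some c then 1 else 0)) * (2 * (K : ℝ) * b ^ 2) +
        ((if Q.hst i t = some a' then 1 else 0) +
          (if Q.hst i t = some c' then 1 else 0)) * (2 * (K : ℝ) * b ^ 2)) := by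
    intro i t
    have hsub : univ.filter (fun f : Fin ((Q.d i).sz t) → V =>
        s(a, c) ∈ Q.hE ⟨i, t, f⟩ ∧ s(a', c') ∈ Q.hE ⟨i, t, f⟩) ⊆
        univ.filter (fun f : Fin ((Q.d i).sz t) → V => ∃ j j', 0 < j.val ∧ 0 < j'.val ∧
          s(a, c) = s(f ((Q.d i).pr t j), f j) ∧ s(a', c') = s(f ((Q.d i).pr t j'), f j')) ∪
        (univ.filter (fun f : Fin ((Q.d i).sz t) → V => ∃ u, Q.hst i t = some u ∧
          s(a, c) = s(u, f ((Q.d i).rt t)) ∧ ∃ j, 0 < j.val ∧
            s(a', c') = s(f ((Q.d i).pr t j), f j)) ∪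
        univ.filter (fun f : Fin ((Q.d i).sz t) → V => ∃ u, Q.hst i t = some u ∧
          s(a', c') = s(u, f ((Q.d i).rt t)) ∧ ∃ j, 0 < j.val ∧
            s(a, c) = s(f ((Q.d i).pr t j), f j))) := by
      intro f hf
      obtain ⟨-, h1, h2⟩ := Finset.mem_filter.1 hf
      rw [mem_hE] at h1 h2
      simp only at h1 h2
      rcases h1 with ⟨j, hj, e1⟩ | ⟨u, hu, e1⟩ <;> rcases h2 with ⟨j', hj', e2⟩ | ⟨u', hu', e2⟩
      · exact Finset.mem_union_left _ (Finset.mem_filter.2 ⟨Finset.mem_univ _, j, j', hj, hj',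
          e1, e2⟩)
      · exact Finset.mem_union_right _ (Finset.mem_union_right _ (Finset.mem_filter.2
          ⟨Finset.mem_univ _, u', hu', e2, j, hj, e1⟩))
      · exact Finset.mem_union_right _ (Finset.mem_union_left _ (Finset.mem_filter.2
          ⟨Finset.mem_univ _, u, hu, e1, j', hj', e2⟩))
      · exfalso
        apply hne
        rw [hu] at hu'
        have huu := Option.some.inj hu'
        rw [e1, e2, huu]
    have hle : ∀ (A B : Finset (Fin ((Q.d i).sz t) → V)),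
        ∑ f ∈ A ∪ B, Q.wt ⟨i, t, f⟩ ≤ ∑ f ∈ A, Q.wt ⟨i, t, f⟩ + ∑ f ∈ B, Q.wt ⟨i, t, f⟩ := by
      intro A B
      rw [← Finset.sum_union_inter]
      exact le_add_of_nonneg_right (Finset.sum_nonneg fun f _ => wt_nonneg h _)
    refine (Finset.sum_le_sum_of_subset_of_nonneg hsub fun f _ _ => wt_nonneg h _).trans ?_
    refine (hle _ _).trans (add_le_add (ee_LL h hd hA0 i t a c a' c' hne) ?_)
    exact (hle _ _).trans (add_le_add (ee_SL h hd hA0 i t a c a' c') (ee_SL h hd hA0 i t a' c' a c))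
  have h1 : cd Q.el Q.wt (Sum.inr (Sum.inr s(a, c))) (Sum.inr (Sum.inr s(a', c'))) ≤
      ∑ e ∈ univ.filter (fun e : Q.Hy => s(a, c) ∈ Q.hE e ∧ s(a', c') ∈ Q.hE e), Q.wt e := by
    unfold cd
    refine Finset.sum_le_sum_of_subset_of_nonneg ?_ fun e _ _ => wt_nonneg h e
    intro e he
    rw [Finset.mem_inter] at he
    unfold st at he
    have h2 := ((mem_el_edge Q e s(a, c)).1 (Finset.mem_filter.1 he.1).2).2
    have h3 := ((mem_el_edge Q e s(a', c')).1 (Finset.mem_filter.1 he.2).2).2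
    exact Finset.mem_filter.2 ⟨Finset.mem_univ _, h2, h3⟩
  have h2 : ∑ e ∈ univ.filter (fun e : Q.Hy => s(a, c) ∈ Q.hE e ∧ s(a', c') ∈ Q.hE e), Q.wt e =
      ∑ i, ∑ t, ∑ f ∈ univ.filter (fun f : Fin ((Q.d i).sz t) → V =>
        s(a, c) ∈ Q.hE ⟨i, t, f⟩ ∧ s(a', c') ∈ Q.hE ⟨i, t, f⟩), Q.wt ⟨i, t, f⟩ := by
    rw [Finset.sum_filter, Fintype.sum_sigma]
    refine Finset.sum_congr rfl fun i _ => ?_
    rw [Fintype.sum_sigma]
    refine Finset.sum_congr rfl fun t _ => ?_
    rw [Finset.sum_filter]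
  have h3 : ∑ i, ∑ t, ∑ f ∈ univ.filter (fun f : Fin ((Q.d i).sz t) → V =>
        s(a, c) ∈ Q.hE ⟨i, t, f⟩ ∧ s(a', c') ∈ Q.hE ⟨i, t, f⟩), Q.wt ⟨i, t, f⟩ ≤
      ∑ i : Fin Q.k, ∑ t : Fin (Q.d i).np, (4 * (K : ℝ) ^ 2 * b ^ 3 +
        (((if Q.hst i t = some a then 1 else 0) +
          (if Q.hst i t = some c then 1 else 0)) * (2 * (K : ℝ) * b ^ 2) +
        ((if Q.hst i t = some a' then 1 else 0) +
          (if Q.hst i t = some c' then 1 else 0)) * (2 * (K : ℝ) * b ^ 2))) :=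
    Finset.sum_le_sum fun i _ => Finset.sum_le_sum fun t _ => hone i t
  have h4 : ∑ i : Fin Q.k, ∑ t : Fin (Q.d i).np, (4 * (K : ℝ) ^ 2 * b ^ 3 +
        (((if Q.hst i t = some a then 1 else 0) +
          (if Q.hst i t = some c then 1 else 0)) * (2 * (K : ℝ) * b ^ 2) +
        ((if Q.hst i t = some a' then 1 else 0) +
          (if Q.hst i t = some c' then 1 else 0)) * (2 * (K : ℝ) * b ^ 2))) =
      (∑ i : Fin Q.k, ((Q.d i).np : ℝ)) * (4 * (K : ℝ) ^ 2 * b ^ 3) +
      (((∑ i, ∑ t, (if Q.hst i t = some a then (1 : ℝ) else 0)) +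
        (∑ i, ∑ t, (if Q.hst i t = some c then (1 : ℝ) else 0))) * (2 * (K : ℝ) * b ^ 2) +
      ((∑ i, ∑ t, (if Q.hst i t = some a' then (1 : ℝ) else 0)) +
        (∑ i, ∑ t, (if Q.hst i t = some c' then (1 : ℝ) else 0))) * (2 * (K : ℝ) * b ^ 2)) := by
    simp only [Finset.sum_add_distrib, ← Finset.sum_mul, Finset.sum_const, Finset.card_univ,
      Fintype.card_fin, nsmul_eq_mul]
    ring
  have h5 : ∑ i : Fin Q.k, ((Q.d i).np : ℝ) ≤ 3 * (Fintype.card V : ℝ) * Fintype.card V := by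
    calc ∑ i : Fin Q.k, ((Q.d i).np : ℝ) ≤ ∑ i : Fin Q.k, (Fintype.card V : ℝ) :=
          Finset.sum_le_sum fun i _ => by exact_mod_cast np_le h i
      _ = (Q.k : ℝ) * Fintype.card V := by simp
      _ ≤ _ := by
          have : (Q.k : ℝ) ≤ 3 * (Fintype.card V : ℝ) := by exact_mod_cast h.k_le
          gcongr
  have h6 := ee_load h a
  have h7 := ee_load h c
  have h8 := ee_load h a'
  have h9 := ee_load h c'
  have hK1 : (1 : ℝ) ≤ K := by exact_mod_cast hK
  have hf : cd Q.el Q.wt (Sum.inr (Sum.inr s(a, c))) (Sum.inr (Sum.inr s(a', c'))) ≤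
      (3 * (Fintype.card V : ℝ) * Fintype.card V) * (4 * (K : ℝ) ^ 2 * b ^ 3) +
      ((3 * (Fintype.card V : ℝ) + 3 * Fintype.card V) * (2 * (K : ℝ) * b ^ 2) +
      (3 * (Fintype.card V : ℝ) + 3 * Fintype.card V) * (2 * (K : ℝ) * b ^ 2)) := by
    refine (h1.trans (h2.le.trans (h3.trans h4.le))).trans ?_
    have hp1 : 0 ≤ 4 * (K : ℝ) ^ 2 * b ^ 3 := by positivity
    have hp2 : 0 ≤ 2 * (K : ℝ) * b ^ 2 := by positivity
    exact add_le_add (mul_le_mul_of_nonneg_right h5 hp1)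
      (add_le_add (mul_le_mul_of_nonneg_right (add_le_add h6 h7) hp2)
        (mul_le_mul_of_nonneg_right (add_le_add h8 h9) hp2))
  refine hf.trans ?_
  have e1 : (3 * (Fintype.card V : ℝ) * Fintype.card V) * (4 * (K : ℝ) ^ 2 * b ^ 3) +
      ((3 * (Fintype.card V : ℝ) + 3 * Fintype.card V) * (2 * (K : ℝ) * b ^ 2) +
      (3 * (Fintype.card V : ℝ) + 3 * Fintype.card V) * (2 * (K : ℝ) * b ^ 2)) =
      (12 * (K : ℝ) ^ 2 * A0 ^ 3 + 24 * K * A0 ^ 2) / Fintype.card V := by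
    rw [hbdef]
    field_simp
    ring
  rw [e1]
  have e2 : 12 * (K : ℝ) ^ 2 * A0 ^ 3 + 24 * K * A0 ^ 2 ≤ 40 * (K : ℝ) ^ 3 * A0 ^ 3 := by
    have g1 : (K : ℝ) ^ 2 * A0 ^ 3 ≤ (K : ℝ) ^ 3 * A0 ^ 3 :=
      mul_le_mul_of_nonneg_right (pow_le_pow_right₀ hK1 (by norm_num)) (by positivity)
    have g2 : (K : ℝ) * A0 ^ 2 ≤ (K : ℝ) ^ 3 * A0 ^ 3 := by
      have g3 : (K : ℝ) ≤ (K : ℝ) ^ 3 := by
        calc (K : ℝ) = (K : ℝ) ^ 1 := (pow_one _).symm
          _ ≤ _ := pow_le_pow_right₀ hK1 (by norm_num)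
      have g4 : A0 ^ 2 ≤ A0 ^ 3 := pow_le_pow_right₀ hA (by norm_num)
      exact mul_le_mul g3 g4 (by positivity) (by positivity)
    have g5 : 0 ≤ (K : ℝ) ^ 3 * A0 ^ 3 := by positivity
    nlinarith
  exact div_le_div_of_nonneg_right e2 hN.le

end MP_80c395_TP
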