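import Pool.Agent.Lib.MP_80c395_co_TP.APiece
import Pool.Agent.Lib.MP_80c395_co_TP.NDefs

/-!
# Project TP, part A: the tests

Tests: for every host `v`: the number of neighbours in `C1` (in `C2`) of vertices of covered pieces
placed at `v`, and the number of covered pieces attached to centres at `v`; for every tree the
number of covered vertices of pieces.

`tst_sum`: `∑ v, ∑ j, if f j = v then nb C1 (sg t j) else 0 = ∑ j, nb C1 (sg t j) ≤ K D`
(`Finset.sum_comm`, `Finset.sum_ite_eq`; `nb T C x ≤ nb T univ x ≤ D`, `deg_sg`), the same for `C2`;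
third kind: at most one `v` has `hst = some v`; fourth: only `i = e.1`, `sz t ≤ K`.
`mean1`: `∑ e, wt e * h e = ∑ i, ∑ t, ∑ j, nb C1 (sg t j) * ∑ f with f j = v, wt ≤ (1+ε') dmd`
(`wt_marg`).  `mean3`: between `load v * (1 - K^2 A0/N)` and `load v` (`wt_tot_le`, `wt_tot_ge`).
`mean4` the same with `∑ t, sz t` in place of `load v`.
-/

set_option autoImplicit false

namespace MP_80c395_TP

open Finset

/-- index type of the tests -/
abbrev Tst (V : Type) (k : ℕ) : Type := V ⊕ V ⊕ V ⊕ Fin k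

section

variable {V : Type} [Fintype V] [DecidableEq V]

open Classical in
/-- the tests -/
noncomputable def tst (Q : Dat V) : Tst V Q.k → Q.Hy → ℝ
  | Sum.inl v => fun e => ∑ j, if e.2.2 j = v then
      (nb (Q.T e.1) (Q.d e.1).C1 ((Q.d e.1).sg e.2.1 j) : ℝ) else 0
  | Sum.inr (Sum.inl v) => fun e => ∑ j, if e.2.2 j = v then
      (nb (Q.T e.1) (Q.d e.1).C2 ((Q.d e.1).sg e.2.1 j) : ℝ) else 0
  | Sum.inr (Sum.inr (Sum.inl v)) => fun e => if Q.hst e.1 e.2.1 = some v then 1 else 0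
  | Sum.inr (Sum.inr (Sum.inr i)) => fun e => if e.1 = i then ((Q.d e.1).sz e.2.1 : ℝ) else 0

/-- the expected demand at `v` of the sets `X i` from vertices of pieces -/
noncomputable def dmd (Q : Dat V) (X : ∀ i, Finset (Fin (Q.m i))) (v : V) : ℝ :=
  ∑ i, ∑ t, ∑ j, (nb (Q.T i) (X i) ((Q.d i).sg t j) : ℝ) * Q.lw i t j v

variable {Q : Dat V} {V1 W : Finset V} {D₁ D K : ℕ} {A0 δ' ε' γ₂ : ℝ}

private theorem ATest_nb {m : ℕ} (T : SimpleGraph (Fin m)) (A : Finset (Fin m)) (x : Fin m) :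
    nb T A x ≤ nb T univ x := by
  classical
  unfold nb
  exact Finset.card_le_card (Finset.filter_subset_filter _ (Finset.subset_univ A))

private theorem ATest_sumnb (h : DatOK Q V1 W D₁ D K A0 δ' ε' γ₂) (e : Q.Hy)
    (A : Finset (Fin (Q.m e.1))) :
    ∑ v, ∑ j, (if e.2.2 j = v then
      (nb (Q.T e.1) A ((Q.d e.1).sg e.2.1 j) : ℝ) else 0) ≤ K * D := by
  rw [Finset.sum_comm]
  have h1 : ∀ j ∈ (univ : Finset (Fin ((Q.d e.1).sz e.2.1))), (∑ v, if e.2.2 j = v then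
      (nb (Q.T e.1) A ((Q.d e.1).sg e.2.1 j) : ℝ) else 0) ≤ D := by
    intro j _
    rw [Finset.sum_ite_eq, if_pos (Finset.mem_univ _)]
    exact_mod_cast (ATest_nb _ _ _).trans ((h.dec e.1).deg_sg e.2.1 j)
  refine (Finset.sum_le_card_nsmul _ _ _ h1).trans ?_
  rw [Finset.card_univ, Fintype.card_fin, nsmul_eq_mul]
  have h2 : ((Q.d e.1).sz e.2.1 : ℝ) ≤ K := by exact_mod_cast (h.dec e.1).sz_le e.2.1
  exact mul_le_mul_of_nonneg_right h2 (Nat.cast_nonneg _)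

private theorem ATest_sigma (g : Q.Hy → ℝ) :
    ∑ e, g e = ∑ i, ∑ t, ∑ f : Fin ((Q.d i).sz t) → V, g ⟨i, t, f⟩ := by
  rw [Fintype.sum_sigma]
  refine Finset.sum_congr rfl fun i _ => ?_
  rw [Fintype.sum_sigma]

private theorem ATest_mean (h : DatOK Q V1 W D₁ D K A0 δ' ε' γ₂) (hd : 0 ≤ δ') (hA : 0 ≤ A0)
    (hK : (1 + δ') ^ K ≤ 1 + ε') (X : ∀ i, Finset (Fin (Q.m i))) (v : V) :
    ∑ e, Q.wt e * (∑ j, if e.2.2 j = v then
      (nb (Q.T e.1) (X e.1) ((Q.d e.1).sg e.2.1 j) : ℝ) else 0) ≤ (1 + ε') * dmd Q X v := by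
  rw [ATest_sigma, dmd, Finset.mul_sum]
  refine Finset.sum_le_sum fun i _ => ?_
  rw [Finset.mul_sum]
  refine Finset.sum_le_sum fun t _ => ?_
  have h0 : (∑ f : Fin ((Q.d i).sz t) → V, Q.wt ⟨i, t, f⟩ * (∑ j, if f j = v then
      (nb (Q.T i) (X i) ((Q.d i).sg t j) : ℝ) else 0)) =
      ∑ j, (nb (Q.T i) (X i) ((Q.d i).sg t j) : ℝ) *
        ∑ f ∈ univ.filter (fun f : Fin ((Q.d i).sz t) → V => f j = v), Q.wt ⟨i, t, f⟩ := by
    have h1 : (∑ f : Fin ((Q.d i).sz t) → V, Q.wt ⟨i, t, f⟩ * (∑ j, if f j = v then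
        (nb (Q.T i) (X i) ((Q.d i).sg t j) : ℝ) else 0)) =
        ∑ f : Fin ((Q.d i).sz t) → V, ∑ j, Q.wt ⟨i, t, f⟩ * (if f j = v then
        (nb (Q.T i) (X i) ((Q.d i).sg t j) : ℝ) else 0) :=
      Finset.sum_congr rfl fun f _ => Finset.mul_sum _ _ _
    rw [h1, Finset.sum_comm]
    refine Finset.sum_congr rfl fun j _ => ?_
    rw [Finset.mul_sum, Finset.sum_filter]
    refine Finset.sum_congr rfl fun f _ => ?_
    by_cases hf : f j = v
    · rw [if_pos hf, if_pos hf, mul_comm]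
    · rw [if_neg hf, if_neg hf, mul_zero]
  refine h0.le.trans ?_
  rw [Finset.mul_sum]
  refine Finset.sum_le_sum fun j _ => ?_
  have h2 := mul_le_mul_of_nonneg_left (wt_marg h hd hA hK i t j v)
    (Nat.cast_nonneg (nb (Q.T i) (X i) ((Q.d i).sg t j)) : (0 : ℝ) ≤ _)
  refine h2.trans (le_of_eq ?_)
  ring

private theorem ATest_load (v : V) :
    (Q.load v : ℝ) = ∑ i, ∑ t, if Q.hst i t = some v then (1 : ℝ) else 0 := by
  unfold Dat.load
  rw [Nat.cast_sum]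
  refine Finset.sum_congr rfl fun i _ => ?_
  rw [Finset.natCast_card_filter]
  refine Finset.sum_congr rfl fun t _ => ?_
  by_cases h : Q.hst i t = some v
  · rw [if_pos h, if_pos h]
  · rw [if_neg h, if_neg h]

private theorem ATest_m3 (v : V) :
    ∑ e, Q.wt e * tst Q (Sum.inr (Sum.inr (Sum.inl v))) e =
      ∑ i, ∑ t, (if Q.hst i t = some v then (1 : ℝ) else 0) *
        ∑ f : Fin ((Q.d i).sz t) → V, Q.wt ⟨i, t, f⟩ := by
  rw [ATest_sigma]
  refine Finset.sum_congr rfl fun i _ => Finset.sum_congr rfl fun t _ => ?_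
  rw [Finset.mul_sum]
  refine Finset.sum_congr rfl fun f _ => ?_
  show Q.wt ⟨i, t, f⟩ * (if Q.hst i t = some v then 1 else 0) = _
  by_cases h : Q.hst i t = some v
  · simp only [if_pos h, mul_one, one_mul]
  · simp only [if_neg h, mul_zero, zero_mul]

private theorem ATest_m4 (i : Fin Q.k) :
    ∑ e, Q.wt e * tst Q (Sum.inr (Sum.inr (Sum.inr i))) e =
      ∑ t, ((Q.d i).sz t : ℝ) * ∑ f : Fin ((Q.d i).sz t) → V, Q.wt ⟨i, t, f⟩ := by
  rw [ATest_sigma, Finset.sum_eq_single i]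
  · refine Finset.sum_congr rfl fun t _ => ?_
    rw [Finset.mul_sum]
    refine Finset.sum_congr rfl fun f _ => ?_
    show Q.wt ⟨i, t, f⟩ * (if i = i then ((Q.d i).sz t : ℝ) else 0) = _
    rw [if_pos rfl, mul_comm]
  · intro i' _ hi'
    refine Finset.sum_eq_zero fun t _ => Finset.sum_eq_zero fun f _ => ?_
    show Q.wt ⟨i', t, f⟩ * (if i' = i then ((Q.d i').sz t : ℝ) else 0) = _
    rw [if_neg hi', mul_zero]
  · intro hi
    exact absurd (Finset.mem_univ i) hi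

theorem tst_nonneg (θ : Tst V Q.k) (e : Q.Hy) : 0 ≤ tst Q θ e := by
  rcases θ with v | v | v | i
  · refine Finset.sum_nonneg fun j _ => ?_
    split_ifs
    · exact Nat.cast_nonneg _
    · exact le_rfl
  · refine Finset.sum_nonneg fun j _ => ?_
    split_ifs
    · exact Nat.cast_nonneg _
    · exact le_rfl
  · show 0 ≤ (if Q.hst e.1 e.2.1 = some v then (1 : ℝ) else 0)
    split_ifs
    · exact zero_le_one
    · exact le_rfl
  · show 0 ≤ (if e.1 = i then ((Q.d e.1).sz e.2.1 : ℝ) else 0)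
    split_ifs
    · exact Nat.cast_nonneg _
    · exact le_rfl

theorem tst_sum (h : DatOK Q V1 W D₁ D K A0 δ' ε' γ₂) (e : Q.Hy) :
    ∑ θ, tst Q θ e ≤ 2 * K * D + 1 + K := by
  rw [Fintype.sum_sum_type, Fintype.sum_sum_type, Fintype.sum_sum_type]
  have h1 : ∑ v, tst Q (Sum.inl v) e ≤ K * D := ATest_sumnb h e _
  have h2 : ∑ v, tst Q (Sum.inr (Sum.inl v)) e ≤ K * D := ATest_sumnb h e _
  have h3 : ∑ v, tst Q (Sum.inr (Sum.inr (Sum.inl v))) e ≤ 1 := by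
    show ∑ v, (if Q.hst e.1 e.2.1 = some v then (1 : ℝ) else 0) ≤ 1
    rcases Q.hst e.1 e.2.1 with _ | u
    · simp
    · simp
  have h4 : ∑ i, tst Q (Sum.inr (Sum.inr (Sum.inr i))) e ≤ K := by
    show ∑ i, (if e.1 = i then ((Q.d e.1).sz e.2.1 : ℝ) else 0) ≤ K
    rw [Finset.sum_ite_eq, if_pos (Finset.mem_univ _)]
    exact_mod_cast (h.dec e.1).sz_le e.2.1
  linarith

theorem mean1 (h : DatOK Q V1 W D₁ D K A0 δ' ε' γ₂) (hd : 0 ≤ δ') (hA : 0 ≤ A0)
    (hK : (1 + δ') ^ K ≤ 1 + ε') (v : V) :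
    ∑ e, Q.wt e * tst Q (Sum.inl v) e ≤ (1 + ε') * dmd Q (fun i => (Q.d i).C1) v := by
  refine le_trans (le_of_eq ?_) (ATest_mean h hd hA hK (fun i => (Q.d i).C1) v)
  refine Finset.sum_congr rfl fun e _ => ?_
  simp only [tst]

theorem mean2 (h : DatOK Q V1 W D₁ D K A0 δ' ε' γ₂) (hd : 0 ≤ δ') (hA : 0 ≤ A0)
    (hK : (1 + δ') ^ K ≤ 1 + ε') (v : V) :
    ∑ e, Q.wt e * tst Q (Sum.inr (Sum.inl v)) e ≤
      (1 + ε') * dmd Q (fun i => (Q.d i).C2) v := by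
  refine le_trans (le_of_eq ?_) (ATest_mean h hd hA hK (fun i => (Q.d i).C2) v)
  refine Finset.sum_congr rfl fun e _ => ?_
  simp only [tst]

theorem mean3_le (h : DatOK Q V1 W D₁ D K A0 δ' ε' γ₂) (hd : 0 ≤ δ') (hA : 0 ≤ A0) (v : V) :
    ∑ e, Q.wt e * tst Q (Sum.inr (Sum.inr (Sum.inl v))) e ≤ Q.load v := by
  refine (ATest_m3 v).le.trans (le_trans ?_ (ATest_load v).symm.le)
  refine Finset.sum_le_sum fun i _ => Finset.sum_le_sum fun t _ => ?_
  have h1 := wt_tot_le h hd hA i t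
  by_cases hh : Q.hst i t = some v
  · rw [if_pos hh, one_mul]
    exact h1
  · rw [if_neg hh, zero_mul]

theorem mean3_ge (h : DatOK Q V1 W D₁ D K A0 δ' ε' γ₂) (hd : 0 ≤ δ') (hA : 0 ≤ A0) (v : V) :
    Q.load v * (1 - (K : ℝ) ^ 2 * (A0 / Fintype.card V)) ≤
      ∑ e, Q.wt e * tst Q (Sum.inr (Sum.inr (Sum.inl v))) e := by
  refine le_trans ?_ (ATest_m3 v).symm.le
  refine (congrArg (fun x : ℝ => x * (1 - (K : ℝ) ^ 2 * (A0 / Fintype.card V)))
    (ATest_load v)).le.trans ?_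
  show (∑ i, ∑ t, if Q.hst i t = some v then (1 : ℝ) else 0) *
    (1 - (K : ℝ) ^ 2 * (A0 / Fintype.card V)) ≤ _
  rw [Finset.sum_mul]
  refine Finset.sum_le_sum fun i _ => ?_
  rw [Finset.sum_mul]
  refine Finset.sum_le_sum fun t _ => ?_
  have h1 := wt_tot_ge h hd hA i t
  by_cases hh : Q.hst i t = some v
  · rw [if_pos hh, one_mul, one_mul]
    exact h1
  · rw [if_neg hh, zero_mul, zero_mul]

theorem mean4_le (h : DatOK Q V1 W D₁ D K A0 δ' ε' γ₂) (hd : 0 ≤ δ') (hA : 0 ≤ A0)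
    (i : Fin Q.k) :
    ∑ e, Q.wt e * tst Q (Sum.inr (Sum.inr (Sum.inr i))) e ≤ ∑ t, ((Q.d i).sz t : ℝ) := by
  rw [ATest_m4]
  refine Finset.sum_le_sum fun t _ => ?_
  have h1 := mul_le_mul_of_nonneg_left (wt_tot_le h hd hA i t)
    (Nat.cast_nonneg ((Q.d i).sz t) : (0 : ℝ) ≤ _)
  rwa [mul_one] at h1

theorem mean4_ge (h : DatOK Q V1 W D₁ D K A0 δ' ε' γ₂) (hd : 0 ≤ δ') (hA : 0 ≤ A0)
    (i : Fin Q.k) :
    (∑ t, ((Q.d i).sz t : ℝ)) * (1 - (K : ℝ) ^ 2 * (A0 / Fintype.card V)) ≤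
      ∑ e, Q.wt e * tst Q (Sum.inr (Sum.inr (Sum.inr i))) e := by
  rw [ATest_m4, Finset.sum_mul]
  refine Finset.sum_le_sum fun t _ => ?_
  exact mul_le_mul_of_nonneg_left (wt_tot_ge h hd hA i t) (Nat.cast_nonneg _)

end

end MP_80c395_TP
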