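import Mathlib

/-!
# Project TP, part N: the rounding theorem of Beck and Fiala (with nonnegative coefficients)

Let `a c e ≥ 0` (`c : C` constraints, `e : E` variables), all column sums `∑ c, a c e ≤ t`, `0 < t`,
`y ∈ [0,1]^E`.  Then there is `z ∈ {0,1}^E` with `z e = y e` whenever `y e ∈ {0,1}` and
`|∑ e, a c e * z e - ∑ e, a c e * y e| ≤ t` for all `c`.

Proof: strong induction on the number of alive coordinates of `y` (`A := {e | 0 < y e < 1}`).
If `A = ∅` take `z = y`.  Otherwise call a constraint `c` active if `t < ∑ e ∈ A, a c e`.  Let `B` be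
the set of active constraints.  Then `|B| < |A|`: if `B` is empty this is clear (`A` is not); if
not, `|B| t < ∑ c ∈ B, ∑ e ∈ A, a c e ≤ ∑ e ∈ A, ∑ c, a c e ≤ t |A|`.  So the linear map
`(A → ℝ) → (B → ℝ)`, `x ↦ (∑ e ∈ A, a c e * x e)_c`, is not injective (dimension;
`LinearMap.exists_ne_zero...`, `Module.finrank_pi`, `LinearMap.ker_ne_bot_of_finrank_lt`, or
`exists_ne_zero_of_...`): there is `x ≠ 0`, supported in `A`, in the kernel.  Move from `y` in the
direction `x`: let `s` be the largest real with `y + s x ∈ [0,1]^A`.  (It exists: since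
some `x e ≠ 0`; explicitly `s` is the minimum over `e ∈ A` with `x e ≠ 0` of `(1 - y e) / x e` if
`x e > 0` and of `y e / (- x e)` if `x e < 0`.)  `y' := y + s x` is in `[0,1]^E`, equals `y`
outside `A`, and has at least one alive coordinate less.  By induction there is `z` for `y'`.  For
an active `c` (for `y`): `∑ a c e y' e = ∑ a c e y e`, fine.  For `c` not active:
`|∑ a c e z e - ∑ a c e y e| = |∑ e ∈ A, a c e (z e - y e)| ≤ ∑ e ∈ A, a c e ≤ t`, because `z = y`
outside `A` (there `y' = y ∈ {0,1}`).  `z = y` where `y ∈ {0,1}`, also fine.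
-/

set_option autoImplicit false

namespace MP_80c395_TP

open Finset

/-- the kernel vector -/
private theorem bf_kernel {E C : Type} [Fintype E] [DecidableEq E] [Fintype C] [DecidableEq C]
    (a : C → E → ℝ) (A : Finset E) (B : Finset C) (h : B.card < A.card) :
    ∃ x : E → ℝ, (∃ e ∈ A, x e ≠ 0) ∧ (∀ e, e ∉ A → x e = 0) ∧
      ∀ c ∈ B, ∑ e, a c e * x e = 0 := by
  classical
  let M : Matrix B A ℝ := fun c e => a c.1 e.1
  have h1 : Module.finrank ℝ (B → ℝ) < Module.finrank ℝ (A → ℝ) := by
    rw [Module.finrank_fintype_fun_eq_card, Module.finrank_fintype_fun_eq_card,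
      Fintype.card_coe, Fintype.card_coe]
    exact h
  have h2 := LinearMap.ker_ne_bot_of_finrank_lt (f := M.mulVecLin) h1
  obtain ⟨v, hv, hv0⟩ := Submodule.exists_mem_ne_zero_of_ne_bot h2
  rw [LinearMap.mem_ker, Matrix.mulVecLin_apply] at hv
  obtain ⟨e0, he0⟩ := Function.ne_iff.1 hv0
  refine ⟨fun e => if he : e ∈ A then v ⟨e, he⟩ else 0, ⟨e0.1, e0.2, ?_⟩, ?_, ?_⟩
  · have h3 : (if he : e0.1 ∈ A then v ⟨e0.1, he⟩ else 0) = v e0 := dif_pos e0.2
    change (if he : e0.1 ∈ A then v ⟨e0.1, he⟩ else 0) ≠ 0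
    rw [h3]
    exact he0
  · intro e he
    exact dif_neg he
  · intro c hc
    have h4 := congrFun hv ⟨c, hc⟩
    have h5 : ∑ e : A, a c e.1 * v e = 0 := h4
    refine Eq.trans ?_ h5
    change ∑ e, a c e * (if he : e ∈ A then v ⟨e, he⟩ else 0) = _
    have h6 : ∑ e, a c e * (if he : e ∈ A then v ⟨e, he⟩ else 0) =
        ∑ e ∈ A, a c e * (if he : e ∈ A then v ⟨e, he⟩ else 0) := by
      symm
      refine Finset.sum_subset (Finset.subset_univ A) fun e _ he => ?_
      rw [dif_neg he, mul_zero]
    rw [h6, ← Finset.sum_coe_sort A]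
    refine Finset.sum_congr rfl fun e _ => ?_
    rw [dif_pos e.2]

/-- the move along the kernel vector -/
private theorem bf_move {E : Type} [Fintype E] [DecidableEq E] (A : Finset E) (x y : E → ℝ)
    (hx : ∃ e ∈ A, x e ≠ 0) (hxA : ∀ e, e ∉ A → x e = 0) (hy : ∀ e, 0 ≤ y e ∧ y e ≤ 1) :
    ∃ s : ℝ, (∀ e, 0 ≤ y e + s * x e ∧ y e + s * x e ≤ 1) ∧
      ∃ e ∈ A, y e + s * x e = 0 ∨ y e + s * x e = 1 := by
  classical
  let τ : E → ℝ := fun e => if 0 < x e then (1 - y e) / x e else y e / (-x e)
  have hne : (A.filter fun e => x e ≠ 0).Nonempty := by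
    obtain ⟨e, he, h0⟩ := hx
    exact ⟨e, Finset.mem_filter.2 ⟨he, h0⟩⟩
  obtain ⟨e0, he0, hmin⟩ := Finset.exists_min_image _ τ hne
  rw [Finset.mem_filter] at he0
  have hτ0 : 0 ≤ τ e0 := by
    change 0 ≤ (if 0 < x e0 then (1 - y e0) / x e0 else y e0 / (-x e0))
    split_ifs with h
    · exact div_nonneg (by linarith [(hy e0).2]) h.le
    · exact div_nonneg (hy e0).1 (by linarith)
  refine ⟨τ e0, fun e => ?_, e0, he0.1, ?_⟩
  · by_cases h0 : x e = 0
    · rw [h0, mul_zero, add_zero]
      exact hy e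
    · have heA : e ∈ A := by
        by_contra hcon
        exact h0 (hxA e hcon)
      have h1 := hmin e (Finset.mem_filter.2 ⟨heA, h0⟩)
      change τ e0 ≤ (if 0 < x e then (1 - y e) / x e else y e / (-x e)) at h1
      rcases lt_or_gt_of_ne h0 with h2 | h2
      · rw [if_neg (not_lt.2 h2.le), le_div_iff₀ (by linarith)] at h1
        have h3 : τ e0 * x e ≤ 0 := mul_nonpos_of_nonneg_of_nonpos hτ0 h2.le
        constructor
        · linarith
        · linarith [(hy e).2]
      · rw [if_pos h2, le_div_iff₀ h2] at h1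
        have h3 : 0 ≤ τ e0 * x e := mul_nonneg hτ0 h2.le
        constructor
        · linarith [(hy e).1]
        · linarith
  · rcases lt_or_gt_of_ne he0.2 with h2 | h2
    · left
      change y e0 + (if 0 < x e0 then (1 - y e0) / x e0 else y e0 / (-x e0)) * x e0 = 0
      rw [if_neg (not_lt.2 h2.le)]
      have h3 : x e0 ≠ 0 := h2.ne
      field_simp
      ring
    · right
      change y e0 + (if 0 < x e0 then (1 - y e0) / x e0 else y e0 / (-x e0)) * x e0 = 1
      rw [if_pos h2]
      have h3 : x e0 ≠ 0 := h2.ne'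
      field_simp
      ring

/-- the difference of a rounded and a fractional vector -/
private theorem bf_diff {E : Type} [Fintype E] [DecidableEq E] (b : E → ℝ) (hb : ∀ e, 0 ≤ b e)
    (A : Finset E) (y : E → ℝ) (hy : ∀ e, 0 ≤ y e ∧ y e ≤ 1) (z : E → Bool)
    (hz : ∀ e, e ∉ A → (if z e = true then (1 : ℝ) else 0) = y e) :
    |∑ e, (if z e = true then b e else 0) - ∑ e, b e * y e| ≤ ∑ e ∈ A, b e := by
  classical
  have h1 : ∑ e, (if z e = true then b e else 0) - ∑ e, b e * y e =
      ∑ e ∈ A, b e * ((if z e = true then (1 : ℝ) else 0) - y e) := by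
    rw [← Finset.sum_sub_distrib]
    rw [Finset.sum_subset (Finset.subset_univ A)
      (f := fun e => b e * ((if z e = true then (1 : ℝ) else 0) - y e))]
    · refine Finset.sum_congr rfl fun e _ => ?_
      split_ifs <;> ring
    · intro e _ he
      rw [hz e he, sub_self, mul_zero]
  rw [h1]
  refine (Finset.abs_sum_le_sum_abs _ _).trans (Finset.sum_le_sum fun e _ => ?_)
  rw [abs_mul, abs_of_nonneg (hb e)]
  refine mul_le_of_le_one_right (hb e) ?_
  have h2 := hy e
  rw [abs_le]
  split_ifs <;> constructor <;> linarith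

theorem beck_fiala {E C : Type} [Fintype E] [DecidableEq E] [Fintype C] [DecidableEq C]
    (a : C → E → ℝ) (ha : ∀ c e, 0 ≤ a c e) (t : ℝ) (ht : 0 < t)
    (hcol : ∀ e, ∑ c, a c e ≤ t) (y : E → ℝ) (hy : ∀ e, 0 ≤ y e ∧ y e ≤ 1) :
    ∃ z : E → Bool, (∀ e, y e = 0 → z e = false) ∧ (∀ e, y e = 1 → z e = true) ∧
      ∀ c, |∑ e, (if z e = true then a c e else 0) - ∑ e, a c e * y e| ≤ t := by
  classical
  suffices H : ∀ (N : ℕ) (y : E → ℝ), (∀ e, 0 ≤ y e ∧ y e ≤ 1) →
      (Finset.univ.filter fun e => 0 < y e ∧ y e < 1).card = N →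
      ∃ z : E → Bool, (∀ e, y e = 0 → z e = false) ∧ (∀ e, y e = 1 → z e = true) ∧
        ∀ c, |∑ e, (if z e = true then a c e else 0) - ∑ e, a c e * y e| ≤ t from
    H _ y hy rfl
  intro N
  induction N using Nat.strong_induction_on with
  | _ N ih =>
  intro y hy hN
  obtain ⟨A, hA⟩ : ∃ A : Finset E, A = Finset.univ.filter fun e => 0 < y e ∧ y e < 1 :=
    ⟨_, rfl⟩
  have hmemA : ∀ e, e ∈ A ↔ 0 < y e ∧ y e < 1 := by
    intro e
    rw [hA, Finset.mem_filter]
    simp
  -- outside `A` the values are `0` or `1`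
  have hout : ∀ e, e ∉ A → y e = 0 ∨ y e = 1 := by
    intro e he
    rw [hmemA, not_and_or, not_lt, not_lt] at he
    rcases he with h | h
    · exact Or.inl (le_antisymm h (hy e).1)
    · exact Or.inr (le_antisymm (hy e).2 h)
  have hfix : ∀ z : E → Bool, (∀ e, y e = 0 → z e = false) → (∀ e, y e = 1 → z e = true) →
      ∀ e, e ∉ A → (if z e = true then (1 : ℝ) else 0) = y e := by
    intro z hz0 hz1 e he
    rcases hout e he with h | h
    · rw [hz0 e h, h]
      simp
    · rw [hz1 e h, h]
      simp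
  rcases Finset.eq_empty_or_nonempty A with hAe | hAne
  · -- nothing alive
    refine ⟨fun e => decide (y e = 1), fun e he => ?_, fun e he => ?_, fun c => ?_⟩
    · change decide (y e = 1) = false
      rw [he]
      simp
    · change decide (y e = 1) = true
      rw [he]
      simp
    · have h1 := bf_diff (a c) (ha c) A y hy (fun e => decide (y e = 1))
        (hfix _ (fun e he => by rw [he]; simp) (fun e he => by rw [he]; simp))
      rw [hAe, Finset.sum_empty] at h1
      exact h1.trans ht.le
  · obtain ⟨B, hB⟩ : ∃ B : Finset C, B = Finset.univ.filter fun c => t < ∑ e ∈ A, a c e :=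
      ⟨_, rfl⟩
    have hcard : B.card < A.card := by
      rcases Finset.eq_empty_or_nonempty B with hBe | hBne
      · rw [hBe, Finset.card_empty]
        exact hAne.card_pos
      · have h1 : (B.card : ℝ) * t < ∑ c ∈ B, ∑ e ∈ A, a c e := by
          rw [← nsmul_eq_mul, ← Finset.sum_const]
          refine Finset.sum_lt_sum_of_nonempty hBne fun c hc => ?_
          rw [hB, Finset.mem_filter] at hc
          exact hc.2
        have h2 : ∑ c ∈ B, ∑ e ∈ A, a c e ≤ (A.card : ℝ) * t := by
          rw [Finset.sum_comm, ← nsmul_eq_mul, ← Finset.sum_const]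
          refine Finset.sum_le_sum fun e _ => ?_
          refine le_trans ?_ (hcol e)
          exact Finset.sum_le_sum_of_subset_of_nonneg (Finset.subset_univ B)
            fun c _ _ => ha c e
        have h3 : (B.card : ℝ) * t < (A.card : ℝ) * t := h1.trans_le h2
        have h4 := lt_of_mul_lt_mul_right h3 ht.le
        exact_mod_cast h4
    obtain ⟨x, hx, hxA, hxB⟩ := bf_kernel a A B hcard
    obtain ⟨s, hs, e0, he0, hs0⟩ := bf_move A x y hx hxA hy
    have hlt : (Finset.univ.filter fun e => 0 < y e + s * x e ∧ y e + s * x e < 1).card < N := by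
      rw [← hN, ← hA]
      refine Finset.card_lt_card (Finset.ssubset_iff_subset_ne.2 ⟨fun e he => ?_, ?_⟩)
      · rw [Finset.mem_filter] at he
        by_contra hcon
        have h1 := hxA e hcon
        rw [h1, mul_zero, add_zero] at he
        exact hcon ((hmemA e).2 he.2)
      · intro heq
        rw [← heq, Finset.mem_filter] at he0
        rcases hs0 with h | h
        · exact absurd he0.2.1 (by rw [h]; exact lt_irrefl 0)
        · exact absurd he0.2.2 (by rw [h]; exact lt_irrefl 1)
    obtain ⟨z, hz0, hz1, hz⟩ := ih _ hlt (fun e => y e + s * x e) hs rfl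
    have hz0' : ∀ e, y e = 0 → z e = false := by
      intro e he
      refine hz0 e ?_
      have h1 : e ∉ A := by
        rw [hmemA, he]
        exact fun h => lt_irrefl _ h.1
      change y e + s * x e = 0
      rw [hxA e h1, mul_zero, add_zero, he]
    have hz1' : ∀ e, y e = 1 → z e = true := by
      intro e he
      refine hz1 e ?_
      have h1 : e ∉ A := by
        rw [hmemA, he]
        exact fun h => lt_irrefl _ h.2
      change y e + s * x e = 1
      rw [hxA e h1, mul_zero, add_zero, he]
    refine ⟨z, hz0', hz1', fun c => ?_⟩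
    by_cases hc : c ∈ B
    · have h1 := hz c
      have h2 : ∑ e, a c e * (y e + s * x e) = ∑ e, a c e * y e := by
        have h3 : ∑ e, a c e * (y e + s * x e) =
            ∑ e, a c e * y e + s * ∑ e, a c e * x e := by
          rw [Finset.mul_sum, ← Finset.sum_add_distrib]
          exact Finset.sum_congr rfl fun e _ => by ring
        rw [h3, hxB c hc, mul_zero, add_zero]
      rw [h2] at h1
      exact h1
    · have h1 := bf_diff (a c) (ha c) A y hy z (hfix z hz0' hz1')
      refine h1.trans ?_
      by_contra hcon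
      rw [not_le] at hcon
      exact hc (by rw [hB, Finset.mem_filter]; exact ⟨Finset.mem_univ c, hcon⟩)

end MP_80c395_TP
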