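import Pool.Agent.Lib.MP_80c395_co_TP.NFin
import Pool.Agent.Lib.MP_80c395_co_TP.BeckFiala

/-!
# Project TP, part N: the nibble with arbitrary small weights

Let `t = R + R^2 + T`.  `nib` (NFin, stub) with `δ₁ = min 1 (δ / (8 T))` gives `γ₁`.  Let
`Q' = max of 1, 8 t / δ, 2 t / γ₁, 1 / γ₁`, `Q'' = Q' + t`, `Δ = ⌈Q''⌉`, `C₁` = the constant of
`nib` for `Δ` and `Q = Q''`, `γ = min (γ₁ / 2) (1 / Q')`, `C = max C₁ 2`.

Given the data, `beck_fiala` (BeckFiala, stub) for `y = Q' w ∈ [0,1]^E` with the constraints: `x : X`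
(coefficient `1` if `x ∈ el e`), ordered pairs `x ≠ y` (coefficient `1` if `x, y ∈ el e`), tests `θ`
(coefficient `h θ e`); column sums `≤ R + R^2 + T = t`.  It gives `z : E → Bool`; let
`E' = {e // z e = true}` (then `0 < w e`), `w' = 1 / Q''` on `E'`, `h' = h / T`.  Check:
`dg' ≤ (Q' dg + t) / Q'' ≤ 1`; `cd' ≤ (Q' γ + t) / Q'' ≤ γ₁/2 + γ₁/2`; `w' ≤ γ₁`; `st' ≤ Q' + t ≤ Δ`;
`0 ≤ h' ≤ 1` (one test is at most the sum of all, `≤ T`); `∑ e ∈ E', h' ≤ (Q' s + t) / T ≤ Q'' * (2 s)`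
(`s ≥ 2 log 2 ≥ 1`; `T ≥ 1`), `∑ w' h' ≤ (Q' s + t) / Q'' ≤ 2 s`.  Apply `nib` with `2 s` in place of
`s`: `|∑_M h' - ∑ w' h'| ≤ 2 δ₁ s`, so `|∑_M h - ∑ w' h| ≤ 2 T δ₁ s ≤ δ s / 4`, and
`|∑_{E'} h / Q'' - ∑ w h| ≤ t / Q'' + (1 - Q' / Q'') s ≤ 2 s t / Q'' ≤ δ s / 4`.
`M` = image of the set of `nib` under `Subtype.val` (`Finset.map (Function.Embedding.subtype _)`).
-/

set_option autoImplicit false

namespace MP_80c395_TP

open Finset Pool.Agent.Lib.CD

private theorem NMain_sum {E : Type} [Fintype E] (z : E → Bool) (f : E → ℝ) :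
    ∑ e : {e // z e = true}, f e.1 = ∑ e, if z e = true then f e else 0 := by
  rw [← Finset.sum_filter]
  exact (Finset.sum_subtype _ (fun x => by simp) f).symm

private theorem NMain_card {E : Type} [Fintype E] (z : E → Bool) (p : E → Prop)
    [DecidablePred p] : ((univ.filter (fun e : {e // z e = true} => p e.1)).card : ℝ) =
      ∑ e, if z e = true then (if p e then (1 : ℝ) else 0) else 0 := by
  rw [← NMain_sum z (fun e => if p e then (1 : ℝ) else 0), Finset.card_filter]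
  push_cast
  rfl

private theorem NMain_wt {E : Type} [Fintype E] (w : E → ℝ) (Q : ℝ) (p : E → Prop)
    [DecidablePred p] : ∑ e, (if p e then (1 : ℝ) else 0) * (Q * w e) =
      Q * ∑ e ∈ univ.filter p, w e := by
  rw [Finset.sum_filter, mul_sum]
  refine sum_congr rfl fun e _ => ?_
  split_ifs <;> ring

private theorem NMain_T {E Θ : Type} [Fintype Θ] {h : Θ → E → ℝ} {T : ℝ}
    (h0 : ∀ θ e, 0 ≤ h θ e) (hT : ∀ e, ∑ θ, h θ e ≤ T) (θ : Θ) (e : E) : h θ e ≤ T :=
  (single_le_sum (f := fun θ => h θ e) (fun θ _ => h0 θ e) (mem_univ θ)).trans (hT e)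

theorem nibble (R : ℕ) (hR : 1 ≤ R) (T δ : ℝ) (hT : 1 ≤ T) (hδ : 0 < δ) :
    ∃ γ : ℝ, 0 < γ ∧ ∃ C : ℝ, 0 < C ∧
      ∀ (E X Θ : Type) [Fintype E] [DecidableEq E] [Fintype X] [DecidableEq X] [Fintype Θ]
        (el : E → Finset X) (w : E → ℝ) (h : Θ → E → ℝ) (s : ℝ),
        (∀ e, (el e).Nonempty) → (∀ e, (el e).card ≤ R) → (∀ e, 0 ≤ w e) → (∀ e, w e ≤ γ) →
        (∀ x, dg el w x ≤ 1) → (∀ x y, x ≠ y → cd el w x y ≤ γ) →
        (∀ θ e, 0 ≤ h θ e) → (∀ e, ∑ θ, h θ e ≤ T) → (∀ θ, ∑ e, w e * h θ e ≤ s) →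
        C * Real.log (Fintype.card Θ + 2) ≤ s →
        ∃ M : Finset E, (∀ e ∈ M, 0 < w e) ∧
          (∀ e ∈ M, ∀ f ∈ M, e ≠ f → Disjoint (el e) (el f)) ∧
          ∀ θ, |∑ e ∈ M, h θ e - ∑ e, w e * h θ e| ≤ δ * s := by
  classical
  have hR1 : (1 : ℝ) ≤ R := by exact_mod_cast hR
  have hT0 : 0 < T := by linarith
  obtain ⟨t, ht⟩ : ∃ t : ℝ, t = R + R ^ 2 + T := ⟨_, rfl⟩
  have ht0 : 0 < t := by
    rw [ht]
    positivity
  obtain ⟨γ₁, hγ₁, hnib⟩ := nib R hR (min 1 (δ / (8 * T))) (lt_min one_pos (by positivity))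
    (min_le_left _ _)
  obtain ⟨Q', hQ'⟩ : ∃ Q' : ℝ, Q' = 1 + 8 * t / δ + 2 * t / γ₁ + 1 / γ₁ := ⟨_, rfl⟩
  have q1 : 0 < 8 * t / δ := by positivity
  have q2 : 0 < 2 * t / γ₁ := by positivity
  have q3 : 0 < 1 / γ₁ := by positivity
  have hQ1 : 1 ≤ Q' := by linarith
  have hQ0 : 0 < Q' := by linarith
  have hQa : 8 * t ≤ Q' * δ := by
    rw [← div_le_iff₀ hδ]
    linarith
  have hQb : 2 * t ≤ Q' * γ₁ := by
    rw [← div_le_iff₀ hγ₁]
    linarith
  have hQc : 1 ≤ Q' * γ₁ := by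
    rw [← div_le_iff₀ hγ₁]
    linarith
  obtain ⟨Q'', hQ''⟩ : ∃ Q'' : ℝ, Q'' = Q' + t := ⟨_, rfl⟩
  have hQQ0 : 0 < Q'' := by linarith
  obtain ⟨C₁, hC₁, hn⟩ := hnib ⌈Q''⌉₊ Q'' (Nat.one_le_iff_ne_zero.2 (Nat.ceil_pos.2 hQQ0).ne')
    (by linarith)
  refine ⟨min (γ₁ / 2) (1 / Q'), lt_min (by positivity) (by positivity), max C₁ 2,
    lt_max_of_lt_left hC₁, ?_⟩
  intro E X Θ _ _ _ _ _ el w h s hne hcard hw0 hwg hdg hcd hh0 hhT hwh hs
  -- `s ≥ 1`
  have hlog2 : Real.log 2 ≤ Real.log (Fintype.card Θ + 2) := by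
    refine Real.log_le_log two_pos ?_
    have : (0 : ℝ) ≤ Fintype.card Θ := Nat.cast_nonneg _
    linarith
  have hl2 := Real.log_two_gt_d9
  have hlog0 : 0 < Real.log (Fintype.card Θ + 2) := by linarith
  have hs1 : 1 ≤ s := by
    have h1 : 2 * Real.log (Fintype.card Θ + 2) ≤ max C₁ 2 * Real.log (Fintype.card Θ + 2) :=
      mul_le_mul_of_nonneg_right (le_max_right _ _) hlog0.le
    linarith
  have hsC : C₁ * Real.log (Fintype.card Θ + 2) ≤ s :=
    (mul_le_mul_of_nonneg_right (le_max_left _ _) hlog0.le).trans hs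
  -- rounding
  have hy : ∀ e, 0 ≤ Q' * w e ∧ Q' * w e ≤ 1 := by
    intro e
    refine ⟨mul_nonneg hQ0.le (hw0 e), ?_⟩
    have h1 : w e ≤ 1 / Q' := (hwg e).trans (min_le_right _ _)
    rw [le_div_iff₀ hQ0] at h1
    linarith
  let a : X ⊕ ((X × X) ⊕ Θ) → E → ℝ := Sum.elim (fun x e => if x ∈ el e then 1 else 0)
    (Sum.elim (fun q e => if q.1 ∈ el e ∧ q.2 ∈ el e then 1 else 0) h)
  have ha : ∀ c e, 0 ≤ a c e := by
    rintro (x | q | θ) e
    · change (0 : ℝ) ≤ if x ∈ el e then 1 else 0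
      split_ifs
      · exact zero_le_one
      · exact le_rfl
    · change (0 : ℝ) ≤ if q.1 ∈ el e ∧ q.2 ∈ el e then 1 else 0
      split_ifs
      · exact zero_le_one
      · exact le_rfl
    · exact hh0 θ e
  have hcol : ∀ e, ∑ c, a c e ≤ t := by
    intro e
    rw [Fintype.sum_sum_type, Fintype.sum_sum_type]
    change ∑ x : X, (if x ∈ el e then (1 : ℝ) else 0) +
      (∑ q : X × X, (if q.1 ∈ el e ∧ q.2 ∈ el e then (1 : ℝ) else 0) + ∑ θ, h θ e) ≤ t
    have e1 : ∑ x : X, (if x ∈ el e then (1 : ℝ) else 0) = (el e).card := by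
      rw [Finset.sum_boole]
      congr 2
      ext x
      simp
    have e2 : ∑ q : X × X, (if q.1 ∈ el e ∧ q.2 ∈ el e then (1 : ℝ) else 0) =
        (el e).card * (el e).card := by
      rw [Finset.sum_boole, ← Nat.cast_mul, ← Finset.card_product]
      congr 2
      ext q
      simp
    rw [e1, e2, ht]
    have h1 : ((el e).card : ℝ) ≤ R := by exact_mod_cast hcard e
    have h2 : ((el e).card : ℝ) * (el e).card ≤ R ^ 2 := by
      rw [pow_two]
      exact mul_le_mul h1 h1 (Nat.cast_nonneg _) (by positivity)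
    linarith [hhT e]
  obtain ⟨z, hz0, -, hz⟩ := beck_fiala a ha t ht0 hcol (fun e => Q' * w e) hy
  -- the three kinds of constraints
  have hzx : ∀ x : X, ((st (fun e : {e // z e = true} => el e.1) x).card : ℝ) ≤ Q'' := by
    intro x
    have h1 := (abs_le.1 (hz (Sum.inl x))).2
    have h2 : ∑ e, (if z e = true then a (Sum.inl x) e else 0) =
        ((st (fun e : {e // z e = true} => el e.1) x).card : ℝ) :=
      (NMain_card z (fun e => x ∈ el e)).symm
    have h3 : ∑ e, a (Sum.inl x) e * (Q' * w e) = Q' * dg el w x :=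
      NMain_wt w Q' (fun e => x ∈ el e)
    rw [h2, h3] at h1
    have h4 := mul_le_mul_of_nonneg_left (hdg x) hQ0.le
    linarith
  have hzq : ∀ x y : X, x ≠ y → ((st (fun e : {e // z e = true} => el e.1) x ∩
      st (fun e : {e // z e = true} => el e.1) y).card : ℝ) ≤ γ₁ * Q'' := by
    intro x y hxy
    have h1 := (abs_le.1 (hz (Sum.inr (Sum.inl (x, y))))).2
    have h0 : st (fun e : {e // z e = true} => el e.1) x ∩
        st (fun e : {e // z e = true} => el e.1) y =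
        univ.filter (fun e : {e // z e = true} => x ∈ el e.1 ∧ y ∈ el e.1) := by
      ext e
      simp only [st, mem_inter, mem_filter, mem_univ, true_and]
    have h2 : ∑ e, (if z e = true then a (Sum.inr (Sum.inl (x, y))) e else 0) =
        ((st (fun e : {e // z e = true} => el e.1) x ∩
          st (fun e : {e // z e = true} => el e.1) y).card : ℝ) := by
      rw [h0]
      exact (NMain_card z (fun e => x ∈ el e ∧ y ∈ el e)).symm
    have h3 : ∑ e, a (Sum.inr (Sum.inl (x, y))) e * (Q' * w e) = Q' * cd el w x y := by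
      have h4 : cd el w x y = ∑ e ∈ univ.filter (fun e => x ∈ el e ∧ y ∈ el e), w e := by
        unfold cd
        refine sum_congr ?_ fun _ _ => rfl
        ext e
        simp only [st, mem_inter, mem_filter, mem_univ, true_and]
      rw [h4]
      exact NMain_wt w Q' (fun e => x ∈ el e ∧ y ∈ el e)
    rw [h2, h3] at h1
    have h4 := mul_le_mul_of_nonneg_left ((hcd x y hxy).trans (min_le_left _ _)) hQ0.le
    have h5 : 0 ≤ γ₁ * t := by positivity
    rw [hQ'']
    linarith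
  have hzθ : ∀ θ : Θ, |∑ e : {e // z e = true}, h θ e.1 - Q' * ∑ e, w e * h θ e| ≤ t := by
    intro θ
    have h1 := hz (Sum.inr (Sum.inr θ))
    have h2 : ∑ e, (if z e = true then a (Sum.inr (Sum.inr θ)) e else 0) =
        ∑ e : {e // z e = true}, h θ e.1 := (NMain_sum z (h θ)).symm
    have h3 : ∑ e, a (Sum.inr (Sum.inr θ)) e * (Q' * w e) = Q' * ∑ e, w e * h θ e := by
      rw [mul_sum]
      refine sum_congr rfl fun e _ => ?_
      change h θ e * (Q' * w e) = _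
      ring
    rw [h2, h3] at h1
    exact h1
  have hsum : ∀ θ : Θ, ∑ e : {e // z e = true}, h θ e.1 ≤ Q'' * s := by
    intro θ
    have h1 := (abs_le.1 (hzθ θ)).2
    have h2 := mul_le_mul_of_nonneg_left (hwh θ) hQ0.le
    have h3 : t * 1 ≤ t * s := mul_le_mul_of_nonneg_left hs1 ht0.le
    rw [hQ'']
    linarith
  have hsum0 : ∀ θ : Θ, 0 ≤ ∑ e : {e // z e = true}, h θ e.1 := fun θ =>
    sum_nonneg fun e _ => hh0 θ e.1
  -- apply the nibble
  obtain ⟨M, hM0, hMd, hMθ⟩ := hn {e // z e = true} X Θ (fun e => el e.1) (fun _ => 1 / Q'')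
    (fun θ e => h θ e.1 / T) s (fun e => hne e.1) (fun e => hcard e.1)
    (fun _ => by positivity) (fun _ => by
      rw [div_le_iff₀ hQQ0, hQ'']
      have : 0 ≤ γ₁ * t := by positivity
      linarith)
    (fun x => by
      unfold dg
      rw [sum_const, nsmul_eq_mul, mul_one_div, div_le_one hQQ0]
      exact hzx x)
    (fun x y hxy => by
      unfold cd
      rw [sum_const, nsmul_eq_mul, mul_one_div, div_le_iff₀ hQQ0]
      exact hzq x y hxy)
    (fun x => by
      have h1 := (hzx x).trans (Nat.le_ceil Q'')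
      exact_mod_cast h1)
    (fun θ e => div_nonneg (hh0 θ e.1) hT0.le)
    (fun θ e => by
      rw [div_le_one hT0]
      exact NMain_T hh0 hhT θ e.1)
    (fun θ => by
      rw [← sum_div]
      refine (div_le_self (hsum0 θ) hT).trans (hsum θ))
    (fun θ => by
      rw [← mul_sum, ← sum_div, one_div_mul_eq_div, div_le_iff₀ hQQ0, mul_comm s]
      exact (div_le_self (hsum0 θ) hT).trans (hsum θ))
    hsC
  refine ⟨M.map (Function.Embedding.subtype _), ?_, ?_, ?_⟩
  · intro e he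
    obtain ⟨e', -, rfl⟩ := mem_map.1 he
    refine lt_of_le_of_ne (hw0 _) fun h1 => ?_
    have h2 := hz0 e'.1 (by
      change 0 = w e'.1 at h1
      change Q' * w e'.1 = 0
      rw [← h1, mul_zero])
    rw [e'.2] at h2
    exact absurd h2 (by simp)
  · intro e he f hf hef
    obtain ⟨e', he', rfl⟩ := mem_map.1 he
    obtain ⟨f', hf', rfl⟩ := mem_map.1 hf
    exact hMd e' he' f' hf' fun h1 => hef (by rw [h1])
  · intro θ
    rw [sum_map]
    change |∑ e ∈ M, h θ e.1 - ∑ e, w e * h θ e| ≤ δ * s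
    obtain ⟨A, hA⟩ : ∃ A : ℝ, A = ∑ e ∈ M, h θ e.1 := ⟨_, rfl⟩
    obtain ⟨Z, hZ⟩ : ∃ Z : ℝ, Z = ∑ e : {e // z e = true}, h θ e.1 := ⟨_, rfl⟩
    obtain ⟨S, hS⟩ : ∃ S : ℝ, S = ∑ e, w e * h θ e := ⟨_, rfl⟩
    have h1 := hMθ θ
    rw [← sum_div, ← mul_sum, ← sum_div, ← hA, ← hZ] at h1
    have h2 := hzθ θ
    rw [← hZ, ← hS] at h2
    have hS0 : 0 ≤ S := by
      rw [hS]
      exact sum_nonneg fun e _ => mul_nonneg (hw0 e) (hh0 θ e)
    have hSs : S ≤ s := by
      rw [hS]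
      exact hwh θ
    rw [← hA, ← hS]
    have h3 : |A / T - 1 / Q'' * (Z / T)| ≤ δ / (8 * T) * s :=
      h1.trans (mul_le_mul_of_nonneg_right (min_le_right _ _) (by linarith))
    have h4 : A / T - 1 / Q'' * (Z / T) = (A - Z / Q'') / T := by
      field_simp
    have h5 : δ / (8 * T) * s = δ / 8 * s / T := by
      field_simp
    rw [h4, h5, abs_div, abs_of_pos hT0, div_le_div_iff_of_pos_right hT0] at h3
    have h6 : |Z / Q'' - S| ≤ δ / 4 * s := by
      have e1 : Z / Q'' - S = ((Z - Q' * S) - t * S) / Q'' := by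
        rw [eq_div_iff hQQ0.ne', sub_mul, div_mul_cancel₀ _ hQQ0.ne', hQ'']
        ring
      rw [e1, abs_div, abs_of_pos hQQ0, div_le_iff₀ hQQ0]
      have e2 : |(Z - Q' * S) - t * S| ≤ t + t * S := by
        refine (abs_sub _ _).trans ?_
        rw [abs_of_nonneg (by positivity : 0 ≤ t * S)]
        linarith
      refine e2.trans ?_
      have e3 : t * S ≤ t * s := mul_le_mul_of_nonneg_left hSs ht0.le
      have e4 : t * 1 ≤ t * s := mul_le_mul_of_nonneg_left hs1 ht0.le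
      have e5 : 8 * t * s ≤ Q' * δ * s := mul_le_mul_of_nonneg_right hQa (by linarith)
      have e6 : 0 ≤ δ / 4 * s * t := by
        have : 0 ≤ s := by linarith
        positivity
      rw [hQ'']
      nlinarith
    have h7 : A - S = (A - Z / Q'') + (Z / Q'' - S) := by ring
    rw [h7]
    refine (abs_add_le _ _).trans ?_
    have h8 : 0 ≤ δ * s := by
      have : 0 ≤ s := by linarith
      positivity
    linarith

end MP_80c395_TP
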