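import Pool.Agent.Lib.MP_80c395_co_TP.ADeg
import Pool.Agent.Lib.MP_80c395_co_TP.ACodB
import Pool.Agent.Lib.MP_80c395_co_TP.ACodC
import Pool.Agent.Lib.MP_80c395_co_TP.ATest
import Pool.Agent.Lib.MP_80c395_co_TP.NMain

/-!
# Project TP, part A: application of the nibble

`nibble` (NMain, stub) with `R = 2 K + 2`, `T = 2 K D + 1 + K`, `δ / 3` in place of `δ` gives `γ, C`.
`γ₂ = γ / 2`, `δ' = ε' / 2^K` (`(1 + x)^K ≤ 1 + (2^K - 1) x` for `0 ≤ x ≤ 1`, induction, so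
`(1 + δ')^K ≤ 1 + ε'`).  `N0` such that for `N ≥ N0`: `1 ≤ N`, `A0 ≤ γ N`,
`40 K^3 A0^3 ≤ (γ / 2) N`, `C log (6 N + 2) ≤ 3 N` (`log x = o(x)`:
e.g. `Real.log_le_sub_one_of_pos`, or `Real.isLittleO_log_id_atTop`).
Apply `nibble` to `el = Q.el`, `w = Q.wt`, `h = tst Q`, `s = 3 N`: `el_nonempty`, `el_card`,
`wt_nonneg`, `wt_le`, `dg_le_one`, codegrees: `cd_pp, cd_pv, cd_pe, cd_vv, cd_ve, cd_ee` and the
symmetry of `cd` (`Finset.inter_comm`); `tst_nonneg`, `tst_sum`; means `≤ 3 N`: `mean1`, `mean2`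
(`(1 + ε') N ≤ 2 N`), `mean3_le` (`load_le`), `mean4_le` (`∑ t, sz t ≤ m i ≤ N` because
`(t, j) ↦ sg t j` is injective); `card (Tst V k) = 3 N + k ≤ 6 N`.
-/

set_option autoImplicit false

namespace MP_80c395_TP

open Finset

theorem sum_sz_le {V : Type} [Fintype V] [DecidableEq V] {Q : Dat V} {V1 W : Finset V}
    {D₁ D K : ℕ} {A0 δ' ε' γ₂ : ℝ} (h : DatOK Q V1 W D₁ D K A0 δ' ε' γ₂) (i : Fin Q.k) :
    ∑ t, (Q.d i).sz t ≤ Fintype.card V := by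
  classical
  have h1 : ∑ t, (Q.d i).sz t = Fintype.card (Σ t : Fin (Q.d i).np, Fin ((Q.d i).sz t)) := by
    rw [Fintype.card_sigma]
    exact sum_congr rfl fun t _ => (Fintype.card_fin _).symm
  have h2 : Function.Injective
      (fun x : Σ t : Fin (Q.d i).np, Fin ((Q.d i).sz t) => (Q.d i).sg x.1 x.2) := by
    rintro ⟨t, j⟩ ⟨t', j'⟩ hx
    obtain ⟨rfl, hj⟩ := (h.dec i).inj t j t' j' hx
    rw [Fin.ext hj]
  have h3 := Fintype.card_le_of_injective _ h2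
  rw [Fintype.card_fin] at h3
  rw [h1]
  exact h3.trans (h.m_le i)

theorem amatch (K D : ℕ) (hK : 1 ≤ K) (ε' δ : ℝ) (hε : 0 < ε') (hε1 : ε' ≤ 1) (hδ : 0 < δ) :
    ∃ γ₂ : ℝ, 0 < γ₂ ∧ ∃ δ' : ℝ, 0 < δ' ∧ (1 + δ') ^ K ≤ 1 + ε' ∧ ∀ A0 : ℝ, 1 ≤ A0 →
      ∃ N0 : ℕ, ∀ (V : Type) [Fintype V] [DecidableEq V] (Q : Dat V) (V1 W : Finset V) (D₁ : ℕ),
        N0 ≤ Fintype.card V → DatOK Q V1 W D₁ D K A0 δ' ε' γ₂ →
        (∀ v, dmd Q (fun i => (Q.d i).C1) v ≤ Fintype.card V) →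
        (∀ v, dmd Q (fun i => (Q.d i).C2) v ≤ Fintype.card V) →
        ∃ M : Finset Q.Hy, (∀ e ∈ M, Q.wt e ≠ 0) ∧
          (∀ e ∈ M, ∀ f ∈ M, e ≠ f → Disjoint (Q.el e) (Q.el f)) ∧
          ∀ θ, |∑ e ∈ M, tst Q θ e - ∑ e, Q.wt e * tst Q θ e| ≤ δ * Fintype.card V := by
  have hpw : ∀ x : ℝ, 0 ≤ x → x ≤ 1 → ∀ n : ℕ, (1 + x) ^ n ≤ 1 + (2 ^ n - 1) * x := by
    intro x h0 h1 n
    induction n with
    | zero => simp
    | succ n ih =>
      have h2 : (1 + x) ^ (n + 1) ≤ (1 + (2 ^ n - 1) * x) * (1 + x) := by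
        rw [pow_succ]
        exact mul_le_mul_of_nonneg_right ih (by linarith)
      have h3 : (1 : ℝ) ≤ 2 ^ n := one_le_pow₀ (by norm_num)
      have h4 : (2 ^ n - 1) * (x * x) ≤ (2 ^ n - 1) * x :=
        mul_le_mul_of_nonneg_left (by nlinarith) (by linarith)
      rw [pow_succ (2 : ℝ) n]
      nlinarith
  have hD0 : (0 : ℝ) ≤ D := Nat.cast_nonneg _
  have hK0 : (0 : ℝ) ≤ K := Nat.cast_nonneg _
  obtain ⟨γ, hγ, C, hC, hnib⟩ := nibble (2 * K + 2) (by omega) (2 * K * D + 1 + K) (δ / 3)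
    (by nlinarith [mul_nonneg hK0 hD0]) (by positivity)
  have hp0 : (0 : ℝ) < 2 ^ K := by positivity
  have hp1 : (1 : ℝ) ≤ 2 ^ K := one_le_pow₀ (by norm_num)
  have hδ'0 : 0 < ε' / 2 ^ K := by positivity
  have hδ'1 : ε' / 2 ^ K ≤ 1 := by
    rw [div_le_one hp0]
    linarith
  have hKe : (1 + ε' / 2 ^ K) ^ K ≤ 1 + ε' := by
    refine (hpw _ hδ'0.le hδ'1 K).trans ?_
    have h1 : ((2 : ℝ) ^ K - 1) * (ε' / 2 ^ K) = ε' - ε' / 2 ^ K := by
      rw [sub_mul, mul_div_cancel₀ _ hp0.ne', one_mul]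
    rw [h1]
    linarith
  refine ⟨γ / 2, by positivity, ε' / 2 ^ K, hδ'0, hKe, fun A0 hA0 => ?_⟩
  obtain ⟨N0, hN0⟩ := exists_nat_ge (1 + A0 / γ + 80 * (K : ℝ) ^ 3 * A0 ^ 3 / γ + 4 * C ^ 2)
  have hA00 : 0 < A0 := by linarith
  refine ⟨N0, ?_⟩
  intro V _ _ Q V1 W D₁ hN h hd1 hd2
  obtain ⟨N, hNdef⟩ : ∃ N : ℝ, N = (Fintype.card V : ℝ) := ⟨_, rfl⟩
  have hNN : (N0 : ℝ) ≤ N := by
    rw [hNdef]
    exact_mod_cast hN
  have q1 : 0 ≤ A0 / γ := by positivity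
  have q2 : 0 ≤ 80 * (K : ℝ) ^ 3 * A0 ^ 3 / γ := by positivity
  have q3 : 0 ≤ 4 * C ^ 2 := by positivity
  have hN1 : 1 ≤ N := by linarith
  have hNp : 0 < N := by linarith
  have hb1 : A0 / N ≤ γ := by
    rw [div_le_iff₀ hNp]
    have h1 : A0 / γ ≤ N := by linarith
    rw [div_le_iff₀ hγ] at h1
    linarith
  have hb2 : 40 * (K : ℝ) ^ 3 * A0 ^ 3 / N ≤ γ / 2 := by
    rw [div_le_iff₀ hNp]
    have h1 : 80 * (K : ℝ) ^ 3 * A0 ^ 3 / γ ≤ N := by linarith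
    rw [div_le_iff₀ hγ] at h1
    linarith
  have hb3 : 4 * C ^ 2 ≤ N := by linarith
  have hdd := hδ'0.le
  have hA := hA00.le
  rw [hNdef] at hb1 hb2
  have hcd1 : 40 * (K : ℝ) ^ 3 * A0 ^ 3 / Fintype.card V ≤ γ := by linarith
  have hcd2 : γ / 2 + 40 * (K : ℝ) ^ 3 * A0 ^ 3 / Fintype.card V ≤ γ := by linarith
  have hcomm : ∀ x y : Q.Rs, cd Q.el Q.wt x y = cd Q.el Q.wt y x := by
    intro x y
    unfold cd
    rw [inter_comm]
  have hcod : ∀ x y : Q.Rs, x ≠ y → cd Q.el Q.wt x y ≤ γ := by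
    rintro (p | x | s) (p' | x' | s') hxy
    · rw [cd_pp h p p' fun h1 => hxy (by rw [h1])]
      exact hγ.le
    · exact (cd_pv h hdd hA0 hK p x').trans hcd1
    · exact (cd_pe h hdd hA0 hK p s').trans hcd1
    · rw [hcomm]
      exact (cd_pv h hdd hA0 hK p' x).trans hcd1
    · exact (cd_vv h hdd hA0 hK x x' fun h1 => hxy (by rw [h1])).trans hcd1
    · exact (cd_ve h hdd hA0 hK (by positivity) x s').trans hcd2
    · rw [hcomm]
      exact (cd_pe h hdd hA0 hK p' s).trans hcd1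
    · rw [hcomm]
      exact (cd_ve h hdd hA0 hK (by positivity) x' s).trans hcd2
    · exact (cd_ee h hdd hA0 hK s s' fun h1 => hxy (by rw [h1])).trans hcd1
  have hmean : ∀ θ, ∑ e, Q.wt e * tst Q θ e ≤ 3 * N := by
    rintro (v | v | v | i)
    · refine (mean1 h hdd hA hKe v).trans ?_
      have h1 := hd1 v
      rw [← hNdef] at h1
      have h2 := mul_le_mul_of_nonneg_left h1 (show 0 ≤ 1 + ε' by linarith)
      refine h2.trans ?_
      nlinarith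
    · refine (mean2 h hdd hA hKe v).trans ?_
      have h1 := hd2 v
      rw [← hNdef] at h1
      have h2 := mul_le_mul_of_nonneg_left h1 (show 0 ≤ 1 + ε' by linarith)
      refine h2.trans ?_
      nlinarith
    · refine (mean3_le h hdd hA v).trans ?_
      have h1 := h.load_le v
      rw [hNdef]
      exact_mod_cast h1
    · refine (mean4_le h hdd hA i).trans ?_
      have h1 := sum_sz_le h i
      have h2 : (∑ t, ((Q.d i).sz t : ℝ)) ≤ N := by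
        rw [hNdef]
        exact_mod_cast h1
      linarith
  have hcardT : (Fintype.card (Tst V Q.k) : ℝ) ≤ 6 * N := by
    have h1 : Fintype.card (Tst V Q.k) = Fintype.card V + (Fintype.card V +
        (Fintype.card V + Q.k)) := by
      simp only [Fintype.card_sum, Fintype.card_fin]
    have h2 := h.k_le
    have h3 : Fintype.card (Tst V Q.k) ≤ 6 * Fintype.card V := by omega
    rw [hNdef]
    exact_mod_cast h3
  have hlog : C * Real.log (Fintype.card (Tst V Q.k) + 2) ≤ 3 * N := by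
    have h0 : (0 : ℝ) ≤ Fintype.card (Tst V Q.k) := Nat.cast_nonneg _
    have h1 : Real.log (Fintype.card (Tst V Q.k) + 2) ≤ Real.log (8 * N) :=
      Real.log_le_log (by linarith) (by linarith)
    obtain ⟨r, hr⟩ : ∃ r : ℝ, r = Real.sqrt (8 * N) := ⟨_, rfl⟩
    have hr0 : 0 < r := by
      rw [hr]
      exact Real.sqrt_pos.2 (by linarith)
    have hr2 : r * r = 8 * N := by
      rw [hr]
      exact Real.mul_self_sqrt (by linarith)
    have h2 : Real.log (8 * N) ≤ 2 * r := by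
      rw [← hr2, Real.log_mul hr0.ne' hr0.ne']
      have h3 := Real.log_le_sub_one_of_pos hr0
      linarith
    have h4 : 16 / 3 * C ≤ r := by
      rw [hr]
      refine Real.le_sqrt_of_sq_le ?_
      nlinarith
    have h5 : C * Real.log (Fintype.card (Tst V Q.k) + 2) ≤ C * (2 * r) :=
      mul_le_mul_of_nonneg_left (h1.trans h2) hC.le
    have h6 : 16 / 3 * C * r ≤ r * r := mul_le_mul_of_nonneg_right h4 hr0.le
    nlinarith
  obtain ⟨M, hM0, hMd, hMt⟩ := hnib Q.Hy Q.Rs (Tst V Q.k) Q.el Q.wt (tst Q) (3 * N)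
    (el_nonempty Q) (fun e => el_card Q e ((h.dec e.1).sz_le e.2.1)) (wt_nonneg h)
    (fun e => (wt_le h hdd hA e).trans hb1) (dg_le_one h hdd hA hε hKe) hcod tst_nonneg
    (tst_sum h) hmean hlog
  refine ⟨M, fun e he => (hM0 e he).ne', hMd, fun θ => (hMt θ).trans (le_of_eq ?_)⟩
  rw [hNdef]
  ring

end MP_80c395_TP
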