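import Pool.Agent.Lib.MP_80c395_co_TP.Core2
import Pool.Agent.Lib.MP_80c395_co_TP.AMatch

/-!
# Project TP, part A: the nibble gives a partial embedding of nearly everything

`amatch` with `δ / 4` in place of `δ`; `N0` also such that `3 K^2 A0 ≤ (δ/4) N`.  Take `M`, then
`ex_ps`, `ps_pe`, `ps_disj`.
* `unc_card`: `≤ ∑ sz - (∑ sz) (1 - K^2 A0 / N) + (δ/4) N ≤ K^2 A0 + (δ/4) N ≤ δ N`
  (`mean4_ge`, `∑ sz ≤ N` by `sum_sz_le`).
* `dem1_le`: `load v - ∑_M ≤ load v * K^2 A0 / N + (δ/4) N ≤ 3 K^2 A0 + (δ/4) N`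
  (`mean3_ge`, `load_le`), `∑_M tst (inl v) ≤ (1+ε') dmd + (δ/4) N ≤ 2 u1 N + (δ/4) N` (`mean1`,
  `dmd ≥ 0`).
* `dem2_le`: `mean2`.
-/

set_option autoImplicit false

namespace MP_80c395_TP

open Finset

theorem acore (K D : ℕ) (hK : 1 ≤ K) (ε' δ : ℝ) (hε : 0 < ε') (hε1 : ε' ≤ 1) (hδ : 0 < δ) :
    ∃ γ₂ : ℝ, 0 < γ₂ ∧ ∃ δ' : ℝ, 0 < δ' ∧ ∀ A0 : ℝ, 1 ≤ A0 →
      ∃ N0 : ℕ, ∀ (V : Type) [Fintype V] [DecidableEq V] (Q : Dat V) (V1 W : Finset V) (D₁ : ℕ)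
        (u1 u2 : ℝ), u1 ≤ 1 → u2 ≤ 1 →
        N0 ≤ Fintype.card V → DatOK Q V1 W D₁ D K A0 δ' ε' γ₂ →
        (∀ v, dmd Q (fun i => (Q.d i).C1) v ≤ u1 * Fintype.card V) →
        (∀ v, dmd Q (fun i => (Q.d i).C2) v ≤ u2 * Fintype.card V) →
        ∃ (S : ∀ i, Finset (Fin (Q.m i))) (ψ : ∀ i, Fin (Q.m i) → V),
          PE Q.T W S ψ ∧ (∀ i, Disjoint (S i) ((Q.d i).C1 ∪ (Q.d i).C2)) ∧
          (∀ i, ∀ x ∈ unc Q S i, ∃ t j, (Q.d i).sg t j = x) ∧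
          (∀ i, ((unc Q S i).card : ℝ) ≤ δ * Fintype.card V) ∧
          (∀ v, (dem Q.T S ψ (fun i => (Q.d i).C1 ∪ unc Q S i) v : ℝ) ≤
            Q.cload (fun i => (Q.d i).C1) v + (2 * u1 + 2 * δ) * Fintype.card V) ∧
          (∀ v, (dem Q.T S ψ (fun i => (Q.d i).C2) v : ℝ) ≤
            Q.cload (fun i => (Q.d i).C2) v + (2 * u2 + δ) * Fintype.card V) := by
  obtain ⟨γ₂, hγ₂, δ', hδ', hpow, H⟩ := amatch K D hK ε' (δ / 4) hε hε1 (by positivity)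
  refine ⟨γ₂, hγ₂, δ', hδ', fun A0 hA0 => ?_⟩
  obtain ⟨N0, hN0⟩ := H A0 hA0
  refine ⟨max N0 (⌈3 * (K : ℝ) ^ 2 * A0 / (δ / 4)⌉₊ + 1), ?_⟩
  intro V _ _ Q V1 W D₁ u1 u2 hu1 hu2 hN h hd1 hd2
  have hA : 0 ≤ A0 := by linarith
  have hNpos : (0 : ℝ) < Fintype.card V := by
    have h1 : ⌈3 * (K : ℝ) ^ 2 * A0 / (δ / 4)⌉₊ + 1 ≤ Fintype.card V := (le_max_right _ _).trans hN
    have h2 : 0 < Fintype.card V := by omega
    exact_mod_cast h2
  have hbig : 3 * (K : ℝ) ^ 2 * A0 ≤ δ / 4 * Fintype.card V := by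
    have h1 : ⌈3 * (K : ℝ) ^ 2 * A0 / (δ / 4)⌉₊ ≤ Fintype.card V := by
      have := (le_max_right N0 (⌈3 * (K : ℝ) ^ 2 * A0 / (δ / 4)⌉₊ + 1)).trans hN
      omega
    have h2 : 3 * (K : ℝ) ^ 2 * A0 / (δ / 4) ≤ Fintype.card V :=
      (Nat.le_ceil _).trans (by exact_mod_cast h1)
    rw [div_le_iff₀ (by positivity)] at h2
    linarith
  have hKA : 0 ≤ (K : ℝ) ^ 2 * A0 := by positivity
  have hd1' : ∀ v, dmd Q (fun i => (Q.d i).C1) v ≤ Fintype.card V := fun v =>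
    (hd1 v).trans (by nlinarith)
  have hd2' : ∀ v, dmd Q (fun i => (Q.d i).C2) v ≤ Fintype.card V := fun v =>
    (hd2 v).trans (by nlinarith)
  have dmd0 : ∀ (X : ∀ i, Finset (Fin (Q.m i))) (v : V), 0 ≤ dmd Q X v := fun X v =>
    Finset.sum_nonneg fun i _ => Finset.sum_nonneg fun t _ => Finset.sum_nonneg fun j _ =>
      mul_nonneg (Nat.cast_nonneg _) (h.lw0 i t j v)
  obtain ⟨M, h0, hM, htest⟩ := hN0 V Q V1 W D₁ ((le_max_left _ _).trans hN) h hd1' hd2'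
  obtain ⟨S, ψ, hS⟩ := ex_ps h M hM
  refine ⟨S, ψ, ps_pe h M h0 hM S ψ hS, ps_disj h M S ψ hS, unc_sg h M S ψ hS, ?_, ?_, ?_⟩
  · intro i
    have e1 := unc_card h M hM S ψ hS i
    have e2 := (abs_le.1 (htest (Sum.inr (Sum.inr (Sum.inr i))))).1
    have e3 := mean4_ge h hδ'.le hA i
    have e4 : (∑ t, ((Q.d i).sz t : ℝ)) ≤ Fintype.card V := by
      have := sum_sz_le h i
      exact_mod_cast this
    have e5 : (∑ t, ((Q.d i).sz t : ℝ)) * ((K : ℝ) ^ 2 * (A0 / Fintype.card V)) ≤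
        (K : ℝ) ^ 2 * A0 := by
      calc (∑ t, ((Q.d i).sz t : ℝ)) * ((K : ℝ) ^ 2 * (A0 / Fintype.card V)) ≤
            Fintype.card V * ((K : ℝ) ^ 2 * (A0 / Fintype.card V)) :=
            mul_le_mul_of_nonneg_right e4 (by positivity)
        _ = (K : ℝ) ^ 2 * A0 := by field_simp
    rw [mul_sub, mul_one] at e3
    have e6 : 0 ≤ δ * Fintype.card V := by positivity
    linarith
  · intro v
    have e1 := dem1_le h M hM S ψ hS v
    have e2 := (abs_le.1 (htest (Sum.inr (Sum.inr (Sum.inl v))))).1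
    have e2' := (abs_le.1 (htest (Sum.inl v))).2
    have e3 := mean3_ge h hδ'.le hA v
    have e3' := mean1 h hδ'.le hA hpow v
    have e4 : (Q.load v : ℝ) ≤ 3 * Fintype.card V := by exact_mod_cast h.load_le v
    have e5 : (Q.load v : ℝ) * ((K : ℝ) ^ 2 * (A0 / Fintype.card V)) ≤
        3 * (K : ℝ) ^ 2 * A0 := by
      calc (Q.load v : ℝ) * ((K : ℝ) ^ 2 * (A0 / Fintype.card V)) ≤
            3 * Fintype.card V * ((K : ℝ) ^ 2 * (A0 / Fintype.card V)) :=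
            mul_le_mul_of_nonneg_right e4 (by positivity)
        _ = 3 * (K : ℝ) ^ 2 * A0 := by field_simp
    rw [mul_sub, mul_one] at e3
    have e6 : 0 ≤ δ * Fintype.card V := by positivity
    have e7 : (1 + ε') * dmd Q (fun i => (Q.d i).C1) v ≤ 2 * (u1 * Fintype.card V) := by
      have a1 := mul_le_mul_of_nonneg_right (show 1 + ε' ≤ 2 by linarith)
        (dmd0 (fun i => (Q.d i).C1) v)
      have a2 := hd1 v
      linarith
    linarith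
  · intro v
    have e1 := dem2_le h M hM S ψ hS v
    have e2' := (abs_le.1 (htest (Sum.inr (Sum.inl v)))).2
    have e3' := mean2 h hδ'.le hA hpow v
    have e6 : 0 ≤ δ * Fintype.card V := by positivity
    have e7 : (1 + ε') * dmd Q (fun i => (Q.d i).C2) v ≤ 2 * (u2 * Fintype.card V) := by
      have a1 := mul_le_mul_of_nonneg_right (show 1 + ε' ≤ 2 by linarith)
        (dmd0 (fun i => (Q.d i).C2) v)
      have a2 := hd2 v
      linarith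
    linarith

end MP_80c395_TP
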