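import Pool.Agent.Lib.MP_80c395_co_TP.APiece
import Pool.Agent.Lib.MP_80c395_co_TP.NDefs

/-!
# Project TP, part A: the weighted degrees are at most one

A sum over hyperedges is `∑ i, ∑ t, ∑ f` (`Fintype.sum_sigma`, or `Finset.sum_sigma'`).
`dg` (NDefs) is the sum of the weights of the hyperedges containing a resource; write it as
`∑ e, if x ∈ el e then wt e else 0` (`Finset.sum_filter`).  Use AEl (`mem_el_piece` ..).
* piece `(i,t)`: `wt_tot_le`.
* pair `(i,v)`: `≤ ∑ t, ∑ j, ∑ f with f j = v, wt ≤ (1 + ε') ∑ t ∑ j lw ≤ (1+ε')(1-ε') ≤ 1`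
  (`wt_marg`, `useV`).
* host edge `s`: if `own s ≠ none` the degree is `0`.  Let `s = s(a, b)` (`Sym2.ind`).  If `a = b`,
  every `e` with `s ∈ hE e` has `wt e = 0` (`wt_supp`: `f` is injective, and `f rt` is not the host
  of a centre; `hst = some u` means `u = φ i z`, `z ∈ Z` by `att_Z`).
  If `a ≠ b` and `own s = none`:
  `≤ ∑ i ∑ t (hst = some a: ∑ f rt = b, hst = some b: ∑ f rt = a)
   + ∑ i ∑ t ∑_{0<j} (∑ (f pr j, f j) = (a,b) + ∑ (f pr j, f j) = (b,a))
  ≤ (1 + ε') (star a b + star b a + light a b + light b a) ≤ (1+ε')(1-ε')` (`wt_root`,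
  `lw ≤ (1+ε') lw`; `wt_edge`; `useE`).
-/

set_option autoImplicit false

namespace MP_80c395_TP

open Finset

variable {V : Type} [Fintype V] [DecidableEq V] {Q : Dat V} {V1 W : Finset V} {D₁ D K : ℕ}
  {A0 δ' ε' γ₂ : ℝ}

private theorem ad_sum (x : Q.Rs) : dg Q.el Q.wt x =
    ∑ i, ∑ t, ∑ f : Fin ((Q.d i).sz t) → V,
      if x ∈ Q.el ⟨i, t, f⟩ then Q.wt ⟨i, t, f⟩ else 0 := by
  unfold dg st
  rw [Finset.sum_filter, Fintype.sum_sigma]
  refine Finset.sum_congr rfl fun i _ => ?_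
  rw [Fintype.sum_sigma]

theorem dg_piece (h : DatOK Q V1 W D₁ D K A0 δ' ε' γ₂) (hd : 0 ≤ δ') (hA : 0 ≤ A0)
    (p : Σ i : Fin Q.k, Fin (Q.d i).np) : dg Q.el Q.wt (Sum.inl p) ≤ 1 := by
  rw [ad_sum]
  have h1 : ∀ (i : Fin Q.k) (t : Fin (Q.d i).np), (∑ f : Fin ((Q.d i).sz t) → V,
      if (Sum.inl p : Q.Rs) ∈ Q.el ⟨i, t, f⟩ then Q.wt ⟨i, t, f⟩ else 0) =
      if p = ⟨i, t⟩ then ∑ f : Fin ((Q.d i).sz t) → V, Q.wt ⟨i, t, f⟩ else 0 := by
    intro i t
    by_cases hp : p = ⟨i, t⟩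
    · rw [if_pos hp]
      exact Finset.sum_congr rfl fun f _ => if_pos ((mem_el_piece Q _ _).2 hp)
    · rw [if_neg hp]
      exact Finset.sum_eq_zero fun f _ => if_neg fun h' => hp ((mem_el_piece Q _ _).1 h')
  have h2 : (∑ i, ∑ t, ∑ f : Fin ((Q.d i).sz t) → V,
      if (Sum.inl p : Q.Rs) ∈ Q.el ⟨i, t, f⟩ then Q.wt ⟨i, t, f⟩ else 0) =
      ∑ q : (Σ i : Fin Q.k, Fin (Q.d i).np), if p = q then
        ∑ f : Fin ((Q.d q.1).sz q.2) → V, Q.wt ⟨q.1, q.2, f⟩ else 0 := by
    rw [Fintype.sum_sigma]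
    exact Finset.sum_congr rfl fun i _ => Finset.sum_congr rfl fun t _ => h1 i t
  rw [h2, Finset.sum_ite_eq, if_pos (Finset.mem_univ _)]
  exact wt_tot_le h hd hA _ _

theorem dg_pair (h : DatOK Q V1 W D₁ D K A0 δ' ε' γ₂) (hd : 0 ≤ δ') (hA : 0 ≤ A0)
    (hε : 0 < ε') (hK : (1 + δ') ^ K ≤ 1 + ε') (p : Fin Q.k × V) :
    dg Q.el Q.wt (Sum.inr (Sum.inl p)) ≤ 1 := by
  rw [ad_sum]
  obtain ⟨i0, v⟩ := p
  rw [Finset.sum_eq_single i0 (fun i _ hi => Finset.sum_eq_zero fun t _ =>
    Finset.sum_eq_zero fun f _ => if_neg fun h' => hi ((mem_el_pair Q _ _ _).1 h').1)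
    (fun hn => absurd (Finset.mem_univ _) hn)]
  calc _ ≤ ∑ t, ∑ j, ∑ f ∈ univ.filter (fun f : Fin ((Q.d i0).sz t) → V => f j = v),
          Q.wt ⟨i0, t, f⟩ := by
        refine Finset.sum_le_sum fun t _ => ?_
        simp_rw [Finset.sum_filter]
        rw [Finset.sum_comm]
        refine Finset.sum_le_sum fun f _ => ?_
        have hnn : ∀ j ∈ (univ : Finset (Fin ((Q.d i0).sz t))),
            0 ≤ (if f j = v then Q.wt ⟨i0, t, f⟩ else 0) := by
          intro j _
          split_ifs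
          · exact wt_nonneg h _
          · exact le_rfl
        split_ifs with hm
        · obtain ⟨_, j, hj⟩ := (mem_el_pair Q _ _ _).1 hm
          have hs := Finset.single_le_sum hnn (Finset.mem_univ j)
          rw [if_pos hj] at hs
          exact hs
        · exact Finset.sum_nonneg hnn
    _ ≤ ∑ t, ∑ j, (1 + ε') * Q.lw i0 t j v := Finset.sum_le_sum fun t _ =>
        Finset.sum_le_sum fun j _ => wt_marg h hd hA hK i0 t j v
    _ = (1 + ε') * ∑ t, ∑ j, Q.lw i0 t j v := by simp_rw [Finset.mul_sum]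
    _ ≤ (1 + ε') * (1 - ε') := mul_le_mul_of_nonneg_left (h.useV i0 v) (by linarith)
    _ ≤ 1 := by nlinarith

private theorem ad_star_nonneg (h : DatOK Q V1 W D₁ D K A0 δ' ε' γ₂) (a b : V) :
    0 ≤ Q.star a b := by
  unfold Dat.star
  refine Finset.sum_nonneg fun i _ => Finset.sum_nonneg fun t _ => ?_
  split_ifs
  · exact h.lw0 _ _ _ _
  · exact le_rfl

open Classical in
private theorem ad_edge (h : DatOK Q V1 W D₁ D K A0 δ' ε' γ₂) (hd : 0 ≤ δ') (hA : 0 ≤ A0)
    (hK : (1 + δ') ^ K ≤ 1 + ε') (a b : V) (i : Fin Q.k)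
    (t : Fin (Q.d i).np) :
    (∑ f : Fin ((Q.d i).sz t) → V, if s(a, b) ∈ Q.hE ⟨i, t, f⟩ then Q.wt ⟨i, t, f⟩ else 0) ≤
      (∑ j, if 0 < j.val then (1 + ε') * (Q.lw i t ((Q.d i).pr t j) a * Q.kn i t j a b) +
        (1 + ε') * (Q.lw i t ((Q.d i).pr t j) b * Q.kn i t j b a) else 0) +
      ((if Q.hst i t = some a then Q.lw i t ((Q.d i).rt t) b else 0) +
        (if Q.hst i t = some b then Q.lw i t ((Q.d i).rt t) a else 0)) := by
  have hw : ∀ f : Fin ((Q.d i).sz t) → V, 0 ≤ Q.wt ⟨i, t, f⟩ := fun f => wt_nonneg h _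
  have h1 : ∀ f : Fin ((Q.d i).sz t) → V,
      (if s(a, b) ∈ Q.hE ⟨i, t, f⟩ then Q.wt ⟨i, t, f⟩ else 0) ≤
      (∑ j, if 0 < j.val then
        (if f ((Q.d i).pr t j) = a ∧ f j = b then Q.wt ⟨i, t, f⟩ else 0) +
        (if f ((Q.d i).pr t j) = b ∧ f j = a then Q.wt ⟨i, t, f⟩ else 0) else 0) +
      ((if Q.hst i t = some a then
          (if f ((Q.d i).rt t) = b then Q.wt ⟨i, t, f⟩ else 0) else 0) +
        (if Q.hst i t = some b then
          (if f ((Q.d i).rt t) = a then Q.wt ⟨i, t, f⟩ else 0) else 0)) := by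
    intro f
    have ite_nn : ∀ (P : Prop) [Decidable P] (x : ℝ), 0 ≤ x → 0 ≤ (if P then x else 0) := by
      intro P _ x hx
      split_ifs
      · exact hx
      · exact le_rfl
    have n1 : ∀ j ∈ (univ : Finset (Fin ((Q.d i).sz t))), 0 ≤ (if 0 < j.val then
        (if f ((Q.d i).pr t j) = a ∧ f j = b then Q.wt ⟨i, t, f⟩ else 0) +
        (if f ((Q.d i).pr t j) = b ∧ f j = a then Q.wt ⟨i, t, f⟩ else 0) else 0) := by
      intro j _
      exact ite_nn _ _ (add_nonneg (ite_nn _ _ (hw f)) (ite_nn _ _ (hw f)))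
    have n2 : 0 ≤ (if Q.hst i t = some a then
          (if f ((Q.d i).rt t) = b then Q.wt ⟨i, t, f⟩ else 0) else 0) :=
      ite_nn _ _ (ite_nn _ _ (hw f))
    have n3 : 0 ≤ (if Q.hst i t = some b then
          (if f ((Q.d i).rt t) = a then Q.wt ⟨i, t, f⟩ else 0) else 0) :=
      ite_nn _ _ (ite_nn _ _ (hw f))
    have n0 := Finset.sum_nonneg n1
    by_cases hm : s(a, b) ∈ Q.hE ⟨i, t, f⟩
    · rw [if_pos hm]
      rcases (mem_hE Q _ _).1 hm with ⟨j, hj, he⟩ | ⟨u, hu, he⟩
      · have hs := Finset.single_le_sum n1 (Finset.mem_univ j)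
        rw [if_pos hj] at hs
        have m1 := ite_nn (f ((Q.d i).pr t j) = a ∧ f j = b) _ (hw f)
        have m2 := ite_nn (f ((Q.d i).pr t j) = b ∧ f j = a) _ (hw f)
        rcases Sym2.eq_iff.1 he with ⟨e1, e2⟩ | ⟨e1, e2⟩
        · rw [if_pos (⟨e1.symm, e2.symm⟩ : f ((Q.d i).pr t j) = a ∧ f j = b)] at hs
          linarith
        · rw [if_pos (⟨e2.symm, e1.symm⟩ : f ((Q.d i).pr t j) = b ∧ f j = a)] at hs
          linarith
      · rcases Sym2.eq_iff.1 he with ⟨e1, e2⟩ | ⟨e1, e2⟩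
        · have m1 : (if Q.hst i t = some a then
              (if f ((Q.d i).rt t) = b then Q.wt ⟨i, t, f⟩ else 0) else 0) =
              Q.wt ⟨i, t, f⟩ := by
            rw [if_pos (by rw [e1]; exact hu), if_pos e2.symm]
          linarith
        · have m1 : (if Q.hst i t = some b then
              (if f ((Q.d i).rt t) = a then Q.wt ⟨i, t, f⟩ else 0) else 0) =
              Q.wt ⟨i, t, f⟩ := by
            rw [if_pos (by rw [e2]; exact hu), if_pos e1.symm]
          linarith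
    · rw [if_neg hm]
      linarith
  refine (Finset.sum_le_sum fun f _ => h1 f).trans ?_
  rw [Finset.sum_add_distrib, Finset.sum_add_distrib, Finset.sum_comm]
  refine add_le_add (Finset.sum_le_sum fun j _ => ?_) (add_le_add ?_ ?_)
  · by_cases hj : 0 < j.val
    · simp only [if_pos hj]
      rw [Finset.sum_add_distrib, ← Finset.sum_filter, ← Finset.sum_filter]
      exact add_le_add (wt_edge h hd hA hK i t j hj a b) (wt_edge h hd hA hK i t j hj b a)
    · simp only [if_neg hj, Finset.sum_const_zero]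
      exact le_rfl
  · by_cases hh : Q.hst i t = some a
    · simp only [if_pos hh]
      rw [← Finset.sum_filter]
      exact wt_root h hd hA i t b
    · simp only [if_neg hh, Finset.sum_const_zero]
      exact le_rfl
  · by_cases hh : Q.hst i t = some b
    · simp only [if_pos hh]
      rw [← Finset.sum_filter]
      exact wt_root h hd hA i t a
    · simp only [if_neg hh, Finset.sum_const_zero]
      exact le_rfl

theorem dg_edge (h : DatOK Q V1 W D₁ D K A0 δ' ε' γ₂) (hd : 0 ≤ δ') (hA : 0 ≤ A0)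
    (hε : 0 < ε') (hK : (1 + δ') ^ K ≤ 1 + ε') (s : Sym2 V) :
    dg Q.el Q.wt (Sum.inr (Sum.inr s)) ≤ 1 := by
  classical
  rw [ad_sum]
  induction s using Sym2.ind with
  | _ a b =>
  by_cases ho : Q.own s(a, b) = none
  · by_cases hab : a = b
    · subst hab
      refine (Finset.sum_eq_zero fun i _ => Finset.sum_eq_zero fun t _ =>
        Finset.sum_eq_zero fun f _ => ?_).trans_le zero_le_one
      by_cases hm : (Sum.inr (Sum.inr s(a, a)) : Q.Rs) ∈ Q.el ⟨i, t, f⟩
      · rw [if_pos hm]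
        by_contra hw
        obtain ⟨w1, w2, w3, w4⟩ := wt_supp h _ hw
        obtain ⟨-, hE⟩ := (mem_el_edge Q _ _).1 hm
        rcases (mem_hE Q _ _).1 hE with ⟨j, hj, he⟩ | ⟨u, hu, he⟩
        · have h2 : f ((Q.d i).pr t j) = f j := by
            rcases Sym2.eq_iff.1 he with ⟨e1, e2⟩ | ⟨e1, e2⟩
            · exact e1.symm.trans e2
            · exact e2.symm.trans e1
          have h3 := w1 h2
          have h4 := (h.dec i).pr_lt t j hj
          have h5 : ((Q.d i).pr t j).val = j.val := congrArg Fin.val h3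
          omega
        · have h2 : u = f ((Q.d i).rt t) := by
            rcases Sym2.eq_iff.1 he with ⟨e1, e2⟩ | ⟨e1, e2⟩
            · exact e1.symm.trans e2
            · exact e2.symm.trans e1
          have hu' : Q.hst i t = some u := hu
          unfold Dat.hst at hu'
          obtain ⟨z, hz, hzu⟩ := Option.map_eq_some_iff.1 hu'
          exact w3 _ z ((h.dec i).att_Z t z hz) (hzu.trans h2)
      · exact if_neg hm
    · have h1 : (∑ i, ∑ t, ∑ f : Fin ((Q.d i).sz t) → V,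
          if (Sum.inr (Sum.inr s(a, b)) : Q.Rs) ∈ Q.el ⟨i, t, f⟩ then Q.wt ⟨i, t, f⟩ else 0) ≤
          ∑ i, ∑ t, ((∑ j, if 0 < j.val then
              (1 + ε') * (Q.lw i t ((Q.d i).pr t j) a * Q.kn i t j a b) +
              (1 + ε') * (Q.lw i t ((Q.d i).pr t j) b * Q.kn i t j b a) else 0) +
            ((if Q.hst i t = some a then Q.lw i t ((Q.d i).rt t) b else 0) +
              (if Q.hst i t = some b then Q.lw i t ((Q.d i).rt t) a else 0))) := by
        refine Finset.sum_le_sum fun i _ => Finset.sum_le_sum fun t _ => ?_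
        refine le_trans (le_of_eq ?_) (ad_edge h hd hA hK a b i t)
        refine Finset.sum_congr rfl fun f _ => ?_
        by_cases hm : s(a, b) ∈ Q.hE ⟨i, t, f⟩
        · rw [if_pos hm, if_pos ((mem_el_edge Q _ _).2 ⟨ho, hm⟩)]
        · rw [if_neg hm, if_neg fun h' => hm ((mem_el_edge Q _ _).1 h').2]
      refine h1.trans ?_
      have h2 : (∑ i, ∑ t, ((∑ j, if 0 < j.val then
              (1 + ε') * (Q.lw i t ((Q.d i).pr t j) a * Q.kn i t j a b) +
              (1 + ε') * (Q.lw i t ((Q.d i).pr t j) b * Q.kn i t j b a) else 0) +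
            ((if Q.hst i t = some a then Q.lw i t ((Q.d i).rt t) b else 0) +
              (if Q.hst i t = some b then Q.lw i t ((Q.d i).rt t) a else 0)))) =
          (1 + ε') * Q.light a b + (1 + ε') * Q.light b a + (Q.star a b + Q.star b a) := by
        unfold Dat.light Dat.star
        simp only [Finset.mul_sum, ← Finset.sum_add_distrib]
        refine Finset.sum_congr rfl fun i _ => Finset.sum_congr rfl fun t _ => ?_
        congr 1
        · refine Finset.sum_congr rfl fun j _ => ?_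
          by_cases hj : 0 < j.val
          · simp only [if_pos hj]
          · simp only [if_neg hj, mul_zero, add_zero]
        · congr!
      rw [h2]
      have s1 := ad_star_nonneg h a b
      have s2 := ad_star_nonneg h b a
      have s3 := h.useE a b hab ho
      have s4 : (1 + ε') * (Q.star a b + Q.star b a + Q.light a b + Q.light b a) ≤
          (1 + ε') * (1 - ε') := mul_le_mul_of_nonneg_left s3 (by linarith)
      nlinarith [mul_nonneg hε.le s1, mul_nonneg hε.le s2, mul_self_nonneg ε']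
  · refine (Finset.sum_eq_zero fun i _ => Finset.sum_eq_zero fun t _ =>
      Finset.sum_eq_zero fun f _ => ?_).trans_le zero_le_one
    exact if_neg fun h' => ho ((mem_el_edge Q _ _).1 h').1

theorem dg_le_one (h : DatOK Q V1 W D₁ D K A0 δ' ε' γ₂) (hd : 0 ≤ δ') (hA : 0 ≤ A0)
    (hε : 0 < ε') (hK : (1 + δ') ^ K ≤ 1 + ε') (x : Q.Rs) : dg Q.el Q.wt x ≤ 1 := by
  rcases x with p | p | s
  · exact dg_piece h hd hA p
  · exact dg_pair h hd hA hε hK p
  · exact dg_edge h hd hA hε hK s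

end MP_80c395_TP
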