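import Pool.Agent.Lib.MP_80c395_co_TP.TDefs

/-!
# Project TP, part A: the resources used by a hyperedge

Unfold `Dat.el`, `Dat.hE`, `Dat.hst`; simp.  The hyperedge is `e = ⟨i, t, f⟩`, `e.1 = i`,
`e.2.1 = t`, `e.2.2 = f`.  `el_card`: `1 + sz + (sz + 1)`, `Finset.card_union_le`, `card_image_le`,
`card_filter_le`; `sz ≤ K`.
-/

set_option autoImplicit false

namespace MP_80c395_TP

open Finset

private theorem ael_hE {V : Type} (Q : Dat V) (e : Q.Hy) (s : Sym2 V) :
    s ∈ Q.hE e ↔ (∃ j : Fin ((Q.d e.1).sz e.2.1), 0 < j.val ∧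
        s = s(e.2.2 ((Q.d e.1).pr e.2.1 j), e.2.2 j)) ∨
      ∃ u, Q.hst e.1 e.2.1 = some u ∧ s = s(u, e.2.2 ((Q.d e.1).rt e.2.1)) := by
  classical
  unfold Dat.hE
  rw [Finset.mem_union, Finset.mem_image]
  refine or_congr ?_ ?_
  · constructor
    · rintro ⟨j, hj, hj2⟩
      exact ⟨j, (Finset.mem_filter.1 hj).2, hj2.symm⟩
    · rintro ⟨j, hj, hj2⟩
      exact ⟨j, Finset.mem_filter.2 ⟨Finset.mem_univ _, hj⟩, hj2.symm⟩
  · cases hh : Q.hst e.1 e.2.1 with
    | none =>
      simp only [Option.elim_none, Finset.notMem_empty, false_iff]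
      rintro ⟨u, hu, -⟩
      simp at hu
    | some u =>
      simp only [Option.elim_some, Finset.mem_singleton]
      constructor
      · intro h
        exact ⟨u, rfl, h⟩
      · rintro ⟨u', hu', h⟩
        rw [Option.some.injEq] at hu'
        rw [hu']
        exact h

private theorem ael_card {V : Type} (Q : Dat V) (e : Q.Hy) {K : ℕ}
    (h : (Q.d e.1).sz e.2.1 ≤ K) : (Q.el e).card ≤ 2 * K + 2 := by
  classical
  have hh : (Q.hE e).card ≤ K + 1 := by
    unfold Dat.hE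
    refine (Finset.card_union_le _ _).trans (add_le_add ?_ ?_)
    · refine Finset.card_image_le.trans ((Finset.card_filter_le _ _).trans ?_)
      rw [Finset.card_univ, Fintype.card_fin]
      exact h
    · cases Q.hst e.1 e.2.1 with
      | none => simp
      | some u => simp
  unfold Dat.el
  refine (Finset.card_union_le _ _).trans ?_
  refine (add_le_add (Finset.card_union_le _ _) Finset.card_image_le).trans ?_
  have h1 : (univ.image (fun j => (Sum.inr (Sum.inl (e.1, e.2.2 j)) : Q.Rs))).card ≤ K := by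
    refine Finset.card_image_le.trans ?_
    rw [Finset.card_univ, Fintype.card_fin]
    exact h
  have h2 := Finset.card_filter_le (Q.hE e) (fun s => Q.own s = none)
  rw [Finset.card_singleton]
  have h3 : ((Q.hE e).filter (fun s => Q.own s = none)).card ≤ K + 1 := h2.trans hh
  have key : ∀ a b : ℕ, a ≤ K → b ≤ K + 1 → 1 + a + b ≤ 2 * K + 2 := by intro a b ha hb; omega
  exact key _ _ h1 h3

variable {V : Type} [Fintype V] [DecidableEq V] (Q : Dat V)

theorem mem_hE (e : Q.Hy) (s : Sym2 V) :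
    s ∈ Q.hE e ↔ (∃ j : Fin ((Q.d e.1).sz e.2.1), 0 < j.val ∧
        s = s(e.2.2 ((Q.d e.1).pr e.2.1 j), e.2.2 j)) ∨
      ∃ u, Q.hst e.1 e.2.1 = some u ∧ s = s(u, e.2.2 ((Q.d e.1).rt e.2.1)) := by
  exact ael_hE Q e s

theorem mem_el_piece (e : Q.Hy) (p : Σ i : Fin Q.k, Fin (Q.d i).np) :
    Sum.inl p ∈ Q.el e ↔ p = ⟨e.1, e.2.1⟩ := by
  classical
  unfold Dat.el
  simp only [Finset.mem_union, Finset.mem_singleton, Finset.mem_image, Sum.inl.injEq,
    reduceCtorEq, and_false, exists_false, or_false]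

theorem mem_el_pair (e : Q.Hy) (i : Fin Q.k) (v : V) :
    Sum.inr (Sum.inl (i, v)) ∈ Q.el e ↔ e.1 = i ∧ ∃ j, e.2.2 j = v := by
  classical
  unfold Dat.el
  simp only [Finset.mem_union, Finset.mem_singleton, Finset.mem_image, Finset.mem_univ, true_and,
    Sum.inr.injEq, Sum.inl.injEq, Prod.mk.injEq, reduceCtorEq, and_false, exists_false, or_false,
    false_or]
  constructor
  · rintro ⟨j, h1, h2⟩
    exact ⟨h1, j, h2⟩
  · rintro ⟨h1, j, h2⟩
    exact ⟨j, h1, h2⟩

theorem mem_el_edge (e : Q.Hy) (s : Sym2 V) :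
    Sum.inr (Sum.inr s) ∈ Q.el e ↔ Q.own s = none ∧ s ∈ Q.hE e := by
  classical
  unfold Dat.el
  simp only [Finset.mem_union, Finset.mem_singleton, Finset.mem_image, Finset.mem_univ, true_and,
    Sum.inr.injEq, Sum.inl.injEq, Finset.mem_filter, reduceCtorEq, and_false, exists_false,
    false_or]
  constructor
  · rintro ⟨s', ⟨h1, h2⟩, rfl⟩
    exact ⟨h2, h1⟩
  · rintro ⟨h1, h2⟩
    exact ⟨s, ⟨h2, h1⟩, rfl⟩

theorem el_nonempty (e : Q.Hy) : (Q.el e).Nonempty := by
  exact ⟨Sum.inl ⟨e.1, e.2.1⟩, (mem_el_piece Q e _).2 rfl⟩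

theorem el_card (e : Q.Hy) {K : ℕ} (h : (Q.d e.1).sz e.2.1 ≤ K) :
    (Q.el e).card ≤ 2 * K + 2 := by
  exact ael_card Q e h

end MP_80c395_TP
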