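import Mathlib

/-!
# Project TP, part L: tree-indexed Markov chains (the law of the embedding of one piece)

`cw q lw kn f = lw 0 (f 0) * ∏_{0 < j} kn j (f (q j)) (f j)` with `q j < j`.  `lw j` for `0 < j` is
a function which dominates (up to factors `1 + δ'`) the law of the coordinate `j`.

Basic tool: integrate out the last coordinate.  For `k = k' + 1`, `k' ≥ 1`, no `j` has `q j = k'` (for
`0 < j`), so for every `G`:
`∑ f : Fin (k'+1) → V, cw f * G (Fin.init f) (f last)
 = ∑ g : Fin k' → V, cw' g * ∑ w, kn last (g (q last)) w * G g w`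
where `cw'` is the same product for the first `k'` coordinates (`Fin.snoc`, `Fin.init`,
`Fin.prod_univ_castSucc`, `Fin.snocEquiv` or `Fin.consEquiv`; restrict `q` by
`q' j = if h : (q j.castSucc).val < k' then ⟨_, h⟩ else j`).  (If you prefer another way, e.g. `q : ℕ → ℕ`
in auxiliary lemmas, that is fine.)

`ch_total`: induction on `k`, with `∑ w, kn .. w = 1`.
`ch_fix`: induction on `k`: if the last coordinate is in `J` the inner sum is one term, `≤ b`
(`b ≥ 0` follows from `lw1`, or is `hb`), otherwise it is `1`.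
`ch_edge_eq`: `∑ over f with f (q j) = a, f j = c` of `cw` `= (∑ over f with f (q j) = a of cw) * kn j a c`:
induction on `k`; if `j` is the last coordinate: inner sum; otherwise integrate out the last one.
`ch_root`: `∑ over f with f 0 = v` is `lw 0 v`, induction on `k`.
`ch_marg`: strong induction on `j`: for `0 < j`: `∑ over f j = v` is
`∑ a, (∑ over f (q j) = a) * kn j a v ≤ ∑ a, (1+δ')^(q j) * lw (q j) a * kn j a v
≤ (1+δ')^(q j + 1) * lw j v`.
`ch_edge`: from `ch_edge_eq` and `ch_marg`.
`ch_inj`: `f` is not injective iff `f i = f j` for some `i < j`; for a pair `i < j` the sum over `f` with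
`f i = f j` is at most `b`: integrate out the coordinates above `j`; then the coordinate `j` (last)
must take the value `f i`: factor `kn j (f (q j)) (f i) ≤ b`; or: it is
`∑ v, ∑ over f i = v, f j = v`, and generalise `ch_fix`.
-/

set_option autoImplicit false
set_option linter.unusedSectionVars false

namespace MP_80c395_TP

open Finset

variable {V : Type} [Fintype V] [DecidableEq V]

/-- the weight of `f` -/
def cw {k : ℕ} (q : Fin k → Fin k) (lw : Fin k → V → ℝ) (kn : Fin k → V → V → ℝ)
    (f : Fin k → V) : ℝ :=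
  ∏ j, if j.val = 0 then lw j (f j) else kn j (f (q j)) (f j)

/-- conditions -/
structure ChOK {k : ℕ} (q : Fin k → Fin k) (lw : Fin k → V → ℝ) (kn : Fin k → V → V → ℝ)
    (b δ' : ℝ) (hk : 0 < k) : Prop where
  q_lt : ∀ j, 0 < j.val → (q j).val < j.val
  lw0 : ∀ j v, 0 ≤ lw j v
  kn0 : ∀ j v w, 0 ≤ kn j v w
  lw1 : ∑ v, lw ⟨0, hk⟩ v = 1
  kn1 : ∀ j v, ∑ w, kn j v w = 1
  lwb : ∀ v, lw ⟨0, hk⟩ v ≤ b
  knb : ∀ j v w, kn j v w ≤ b
  dom : ∀ j w, 0 < j.val → ∑ v, lw (q j) v * kn j v w ≤ (1 + δ') * lw j w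
  d0 : 0 ≤ δ'
  b0 : 0 ≤ b

/-! ### Auxiliary: sequences indexed by `ℕ` -/

/-- extension of a finite sequence -/
private def chnExt (v0 : V) {k : ℕ} (f : Fin k → V) (n : ℕ) : V :=
  if h : n < k then f ⟨n, h⟩ else v0

private def chnKer (q : ℕ → ℕ) (l0 : V → ℝ) (kn : ℕ → V → V → ℝ) (j : ℕ) (f : ℕ → V) (w : V) : ℝ :=
  if j = 0 then l0 w else kn j (f (q j)) w

private def chnW (q : ℕ → ℕ) (l0 : V → ℝ) (kn : ℕ → V → V → ℝ) (k : ℕ) (f : ℕ → V) : ℝ :=
  ∏ j ∈ range k, chnKer q l0 kn j f (f j)

private def chnE (v0 : V) (q : ℕ → ℕ) (l0 : V → ℝ) (kn : ℕ → V → V → ℝ) (k : ℕ)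
    (G : (ℕ → V) → ℝ) : ℝ :=
  ∑ f : Fin k → V, chnW q l0 kn k (chnExt v0 f) * G (chnExt v0 f)

section

variable {v0 : V} {q : ℕ → ℕ} {l0 : V → ℝ} {kn : ℕ → V → V → ℝ} {K : ℕ} {b : ℝ}

/-- the hypotheses for the version with `ℕ` -/
private structure ChnOK (q : ℕ → ℕ) (l0 : V → ℝ) (kn : ℕ → V → V → ℝ) (b : ℝ) (K : ℕ) : Prop where
  q_lt : ∀ j, 0 < j → j < K → q j < j
  l00 : ∀ v, 0 ≤ l0 v
  kn0 : ∀ j < K, ∀ v w, 0 ≤ kn j v w
  l01 : ∑ v, l0 v = 1
  kn1 : ∀ j < K, ∀ v, ∑ w, kn j v w = 1
  l0b : ∀ v, l0 v ≤ b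
  knb : ∀ j < K, ∀ v w, kn j v w ≤ b
  b0 : 0 ≤ b

private theorem chnExt_snoc {k : ℕ} (g : Fin k → V) (w : V) :
    chnExt v0 (Fin.snoc (α := fun _ => V) g w : Fin (k + 1) → V) =
      Function.update (chnExt v0 g) k w := by
  funext n
  rcases lt_trichotomy n k with h | h | h
  · rw [Function.update_of_ne h.ne]
    have h1 : n < k + 1 := by omega
    simp only [chnExt, h, h1, dif_pos]
    have h2 : (⟨n, h1⟩ : Fin (k + 1)) = Fin.castSucc ⟨n, h⟩ := rfl
    rw [h2, Fin.snoc_castSucc]
  · subst h
    rw [Function.update_self]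
    simp only [chnExt, Nat.lt_succ_self, dif_pos]
    have h2 : (⟨n, Nat.lt_succ_self n⟩ : Fin (n + 1)) = Fin.last n := rfl
    rw [h2, Fin.snoc_last]
  · rw [Function.update_of_ne h.ne']
    have h1 : ¬ n < k + 1 := by omega
    have h2 : ¬ n < k := by omega
    simp only [chnExt, h1, h2, dif_neg, not_false_eq_true]

private theorem chnE_succ (H : ChnOK q l0 kn b K) {k : ℕ} (hk : k < K) (G : (ℕ → V) → ℝ) :
    chnE v0 q l0 kn (k + 1) G = chnE v0 q l0 kn k
      (fun f => ∑ w, chnKer q l0 kn k f w * G (Function.update f k w)) := by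
  unfold chnE
  rw [← (Fin.snocEquiv (fun _ => V)).sum_comp, Fintype.sum_prod_type_right]
  refine Finset.sum_congr rfl fun g _ => ?_
  rw [Finset.mul_sum]
  refine Finset.sum_congr rfl fun w _ => ?_
  have e : (Fin.snocEquiv (fun _ : Fin (k + 1) => V)) (w, g) =
      (Fin.snoc (α := fun _ => V) g w : Fin (k + 1) → V) := rfl
  rw [e, chnExt_snoc]
  set f := chnExt v0 g
  have hW : chnW q l0 kn k (Function.update f k w) = chnW q l0 kn k f := by
    unfold chnW
    refine Finset.prod_congr rfl fun j hj => ?_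
    have hj' : j < k := Finset.mem_range.1 hj
    unfold chnKer
    rcases Nat.eq_zero_or_pos j with h0 | h0
    · rw [if_pos h0, if_pos h0, Function.update_of_ne hj'.ne]
    · rw [if_neg h0.ne', if_neg h0.ne', Function.update_of_ne hj'.ne]
      rw [Function.update_of_ne]
      have := H.q_lt j h0 (hj'.trans hk)
      omega
  have hW' : chnW q l0 kn (k + 1) (Function.update f k w) =
      chnW q l0 kn k f * chnKer q l0 kn k f w := by
    unfold chnW at hW ⊢
    rw [Finset.prod_range_succ, hW, Function.update_self]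
    congr 1
    unfold chnKer
    rcases Nat.eq_zero_or_pos k with h0 | h0
    · rw [if_pos h0, if_pos h0]
    · rw [if_neg h0.ne', if_neg h0.ne', Function.update_of_ne]
      have := H.q_lt k h0 hk
      omega
  rw [hW', mul_assoc]

private theorem chnKer_sum (H : ChnOK q l0 kn b K) {k : ℕ} (hk : k < K) (f : ℕ → V) :
    ∑ w, chnKer q l0 kn k f w = 1 := by
  unfold chnKer
  rcases Nat.eq_zero_or_pos k with h0 | h0
  · simp only [if_pos h0]
    exact H.l01
  · simp only [if_neg h0.ne']
    exact H.kn1 k hk _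

private theorem chnKer_nonneg (H : ChnOK q l0 kn b K) {k : ℕ} (hk : k < K) (f : ℕ → V) (w : V) :
    0 ≤ chnKer q l0 kn k f w := by
  unfold chnKer
  split_ifs
  · exact H.l00 w
  · exact H.kn0 k hk _ _

private theorem chnKer_le (H : ChnOK q l0 kn b K) {k : ℕ} (hk : k < K) (f : ℕ → V) (w : V) :
    chnKer q l0 kn k f w ≤ b := by
  unfold chnKer
  split_ifs
  · exact H.l0b w
  · exact H.knb k hk _ _

private theorem chnW_nonneg (H : ChnOK q l0 kn b K) {k : ℕ} (hk : k ≤ K) (f : ℕ → V) :
    0 ≤ chnW q l0 kn k f :=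
  Finset.prod_nonneg fun j hj =>
    chnKer_nonneg H (lt_of_lt_of_le (Finset.mem_range.1 hj) hk) f _

private theorem chnE_mono (H : ChnOK q l0 kn b K) {k : ℕ} (hk : k ≤ K) {G G' : (ℕ → V) → ℝ}
    (h : ∀ f, G f ≤ G' f) : chnE v0 q l0 kn k G ≤ chnE v0 q l0 kn k G' :=
  Finset.sum_le_sum fun _ _ => mul_le_mul_of_nonneg_left (h _) (chnW_nonneg H hk _)

private theorem chnE_mul (k : ℕ) (a : ℝ) (G : (ℕ → V) → ℝ) :
    chnE v0 q l0 kn k (fun f => a * G f) = a * chnE v0 q l0 kn k G := by
  unfold chnE
  rw [Finset.mul_sum]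
  exact Finset.sum_congr rfl fun _ _ => by ring

private theorem chnE_step (H : ChnOK q l0 kn b K) {k : ℕ} (hk : k < K) {G : (ℕ → V) → ℝ}
    (hG : ∀ f w, G (Function.update f k w) = G f) :
    chnE v0 q l0 kn (k + 1) G = chnE v0 q l0 kn k G := by
  rw [chnE_succ H hk]
  congr 1
  funext f
  simp only [hG]
  rw [← Finset.sum_mul, chnKer_sum H hk, one_mul]

private theorem chnE_stab (H : ChnOK q l0 kn b K) {m k : ℕ} (hm : m ≤ k) (hk : k ≤ K)
    {G : (ℕ → V) → ℝ} (hG : ∀ j, m ≤ j → ∀ f w, G (Function.update f j w) = G f) :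
    chnE v0 q l0 kn k G = chnE v0 q l0 kn m G := by
  induction k, hm using Nat.le_induction with
  | base => rfl
  | succ k hmk ih => rw [chnE_step H (by omega) (hG k hmk), ih (by omega)]

private theorem chnE_zero (G : (ℕ → V) → ℝ) : chnE v0 q l0 kn 0 G = G (fun _ => v0) := by
  unfold chnE chnW
  rw [Fintype.sum_unique]
  simp only [Finset.range_zero, Finset.prod_empty, one_mul]
  congr 1

private theorem chnE_one (H : ChnOK q l0 kn b K) {k : ℕ} (hk : k ≤ K) :
    chnE v0 q l0 kn k (fun _ => 1) = 1 := by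
  rw [chnE_stab H (Nat.zero_le k) hk (fun _ _ _ _ => rfl), chnE_zero]

private theorem chnE_fix (H : ChnOK q l0 kn b K) (g : ℕ → V) {k : ℕ} (hk : k ≤ K) :
    ∀ J : Finset ℕ, J ⊆ range k →
      chnE v0 q l0 kn k (fun f => if ∀ j ∈ J, f j = g j then 1 else 0) ≤ b ^ J.card := by
  induction k with
  | zero =>
    intro J hJ
    have : J = ∅ := by simpa using hJ
    subst this
    rw [chnE_zero]
    simp
  | succ k ih =>
    intro J hJ
    rw [chnE_succ H (by omega)]
    by_cases hkJ : k ∈ J
    · have h1 : J.erase k ⊆ range k := by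
        intro j hj
        have h2 := hJ (Finset.mem_of_mem_erase hj)
        have h3 := Finset.ne_of_mem_erase hj
        rw [Finset.mem_range] at h2 ⊢
        omega
      have h2 := ih (by omega) _ h1
      have h3 : J.card = (J.erase k).card + 1 := (Finset.card_erase_add_one hkJ).symm
      rw [h3, pow_succ]
      calc chnE v0 q l0 kn k (fun f => ∑ w, chnKer q l0 kn k f w *
            (if ∀ j ∈ J, Function.update f k w j = g j then 1 else 0))
          ≤ chnE v0 q l0 kn k (fun f => b * (if ∀ j ∈ J.erase k, f j = g j then 1 else 0)) := by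
            refine chnE_mono H (by omega) fun f => ?_
            rw [Finset.sum_eq_single (g k)]
            · by_cases hf : ∀ j ∈ J.erase k, f j = g j
              · rw [if_pos hf, mul_one]
                split_ifs
                · rw [mul_one]
                  exact chnKer_le H (by omega) _ _
                · rw [mul_zero]
                  exact H.b0
              · rw [if_neg hf, mul_zero, if_neg, mul_zero]
                intro h4
                refine hf fun j hj => ?_
                have h5 := h4 j (Finset.mem_of_mem_erase hj)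
                rwa [Function.update_of_ne (Finset.ne_of_mem_erase hj)] at h5
            · intro w _ hw
              rw [if_neg, mul_zero]
              intro h4
              have h5 := h4 k hkJ
              rw [Function.update_self] at h5
              exact hw h5
            · intro h4
              exact absurd (Finset.mem_univ _) h4
        _ = b * chnE v0 q l0 kn k (fun f => if ∀ j ∈ J.erase k, f j = g j then 1 else 0) :=
            chnE_mul _ _ _
        _ ≤ b * b ^ (J.erase k).card := mul_le_mul_of_nonneg_left h2 H.b0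
        _ = _ := mul_comm _ _
    · have h1 : J ⊆ range k := by
        intro j hj
        have h2 := hJ hj
        have h3 : j ≠ k := fun h => hkJ (h ▸ hj)
        rw [Finset.mem_range] at h2 ⊢
        omega
      have h2 := ih (by omega) _ h1
      refine le_trans (le_of_eq ?_) h2
      congr 1
      funext f
      have h3 : ∀ w, (∀ j ∈ J, Function.update f k w j = g j) ↔ ∀ j ∈ J, f j = g j := by
        intro w
        refine forall₂_congr fun j hj => ?_
        have h4 : j ≠ k := fun h => hkJ (h ▸ hj)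
        rw [Function.update_of_ne h4]
      simp only [h3]
      rw [← Finset.sum_mul, chnKer_sum H (by omega), one_mul]

private theorem chnE_root (H : ChnOK q l0 kn b K) {k : ℕ} (h0 : 0 < k) (hk : k ≤ K) (v : V) :
    chnE v0 q l0 kn k (fun f => if f 0 = v then 1 else 0) = l0 v := by
  rw [chnE_stab H (m := 1) h0 hk, chnE_succ H (by omega), chnE_zero]
  · simp only [chnKer, if_true, Function.update_self]
    rw [Finset.sum_eq_single v]
    · rw [if_pos rfl, mul_one]
    · intro w _ hw
      rw [if_neg hw, mul_zero]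
    · intro h4
      exact absurd (Finset.mem_univ _) h4
  · intro j hj f w
    rw [Function.update_of_ne (by omega)]

private theorem chnE_edge (H : ChnOK q l0 kn b K) {j k : ℕ} (h0 : 0 < j) (hjk : j < k) (hk : k ≤ K)
    (a c : V) : chnE v0 q l0 kn k (fun f => if f (q j) = a ∧ f j = c then 1 else 0) =
      kn j a c * chnE v0 q l0 kn k (fun f => if f (q j) = a then 1 else 0) := by
  have hq := H.q_lt j h0 (by omega)
  rw [chnE_stab H (m := j + 1) hjk hk, chnE_succ H (by omega),
    chnE_stab H (m := j) (k := k) hjk.le hk, ← chnE_mul]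
  · congr 1
    funext f
    rw [Finset.sum_eq_single c]
    · simp only [chnKer, if_neg h0.ne', Function.update_self, and_true]
      rw [Function.update_of_ne hq.ne]
      by_cases hf : f (q j) = a
      · rw [if_pos hf, hf]
      · rw [if_neg hf, mul_zero, mul_zero]
    · intro w _ hw
      rw [Function.update_self, if_neg (fun h => hw h.2), mul_zero]
    · intro h4
      exact absurd (Finset.mem_univ _) h4
  · intro i hi f w
    rw [Function.update_of_ne (by omega)]
  · intro i hi f w
    rw [Function.update_of_ne (by omega), Function.update_of_ne (by omega)]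

private theorem chnE_coll (H : ChnOK q l0 kn b K) {i j k : ℕ} (hij : i < j) (hjk : j < k)
    (hk : k ≤ K) : chnE v0 q l0 kn k (fun f => if f i = f j then 1 else 0) ≤ b := by
  rw [chnE_stab H (m := j + 1) hjk hk, chnE_succ H (by omega)]
  · calc _ ≤ chnE v0 q l0 kn j (fun _ => b * 1) := by
          refine chnE_mono H (by omega) fun f => ?_
          rw [Finset.sum_eq_single (f i)]
          · rw [Function.update_self, Function.update_of_ne hij.ne, if_pos rfl, mul_one, mul_one]
            exact chnKer_le H (by omega) _ _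
          · intro w _ hw
            rw [Function.update_self, Function.update_of_ne hij.ne, if_neg hw.symm, mul_zero]
          · intro h4
            exact absurd (Finset.mem_univ _) h4
      _ = b * 1 := by
          rw [chnE_mul, chnE_one H (by omega)]
      _ = b := mul_one b
  · intro l hl f w
    rw [Function.update_of_ne (by omega), Function.update_of_ne (by omega)]

end

section

variable {k : ℕ} {q : Fin k → Fin k} {lw : Fin k → V → ℝ} {kn : Fin k → V → V → ℝ} {b δ' : ℝ}
  {hk : 0 < k}

private def chQ (q : Fin k → Fin k) (j : ℕ) : ℕ := if h : j < k then (q ⟨j, h⟩).val else 0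

private def chK (kn : Fin k → V → V → ℝ) (j : ℕ) (v w : V) : ℝ :=
  if h : j < k then kn ⟨j, h⟩ v w else 0

private theorem ch_ok (h : ChOK q lw kn b δ' hk) :
    ChnOK (chQ q) (lw ⟨0, hk⟩) (chK kn) b k where
  q_lt j h0 hj := by
    simp only [chQ, hj, dif_pos]
    exact h.q_lt ⟨j, hj⟩ h0
  l00 := h.lw0 _
  kn0 j hj v w := by
    simp only [chK, hj, dif_pos]
    exact h.kn0 _ v w
  l01 := h.lw1
  kn1 j hj v := by
    simp only [chK, hj, dif_pos]
    exact h.kn1 _ v
  l0b := h.lwb
  knb j hj v w := by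
    simp only [chK, hj, dif_pos]
    exact h.knb _ v w
  b0 := h.b0

private theorem ch_nonempty (h : ChOK q lw kn b δ' hk) : Nonempty V := by
  by_contra hV
  rw [not_nonempty_iff] at hV
  have h1 := h.lw1
  rw [Finset.sum_of_isEmpty] at h1
  exact zero_ne_one h1

private theorem ch_ext (v0 : V) (f : Fin k → V) (j : Fin k) : chnExt v0 f j.val = f j := by
  simp only [chnExt, j.2, dif_pos]

private theorem ch_W (h : ChOK q lw kn b δ' hk) (v0 : V) (f : Fin k → V) :
    chnW (chQ q) (lw ⟨0, hk⟩) (chK kn) k (chnExt v0 f) = cw q lw kn f := by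
  unfold chnW cw
  rw [Finset.prod_range]
  refine Finset.prod_congr rfl fun j _ => ?_
  unfold chnKer
  rcases Nat.eq_zero_or_pos j.val with h0 | h0
  · rw [if_pos h0, if_pos h0, ch_ext]
    have h1 : j = ⟨0, hk⟩ := Fin.ext h0
    rw [h1]
  · rw [if_neg h0.ne', if_neg h0.ne', ch_ext]
    simp only [chQ, chK, j.2, dif_pos, ch_ext]

private theorem ch_sum (h : ChOK q lw kn b δ' hk) (v0 : V) (P : (Fin k → V) → Prop)
    [DecidablePred P] (G : (ℕ → V) → ℝ) (hG : ∀ f, G (chnExt v0 f) = if P f then 1 else 0) :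
    ∑ f ∈ univ.filter P, cw q lw kn f =
      chnE v0 (chQ q) (lw ⟨0, hk⟩) (chK kn) k G := by
  unfold chnE
  rw [Finset.sum_filter]
  refine Finset.sum_congr rfl fun f _ => ?_
  rw [ch_W h, hG]
  split_ifs <;> simp

private theorem ch_edge_eq (h : ChOK q lw kn b δ' hk) (j : Fin k) (hj : 0 < j.val) (a c : V) :
    ∑ f ∈ univ.filter (fun f : Fin k → V => f (q j) = a ∧ f j = c), cw q lw kn f =
      kn j a c * ∑ f ∈ univ.filter (fun f : Fin k → V => f (q j) = a), cw q lw kn f := by
  obtain ⟨v0⟩ := ch_nonempty h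
  have hq : chQ q j.val = (q j).val := by
    simp only [chQ, j.2, dif_pos]
  rw [ch_sum h v0 _ (fun f => if f (chQ q j.val) = a ∧ f j.val = c then 1 else 0),
    ch_sum h v0 _ (fun f => if f (chQ q j.val) = a then 1 else 0),
    chnE_edge (ch_ok h) hj j.2 le_rfl]
  · congr 1
    simp only [chK, j.2, dif_pos]
  · intro f
    rw [hq, ch_ext]
  · intro f
    rw [hq, ch_ext, ch_ext]

theorem ch_nonneg (h : ChOK q lw kn b δ' hk) (f : Fin k → V) : 0 ≤ cw q lw kn f := by
  unfold cw
  refine Finset.prod_nonneg fun j _ => ?_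
  split_ifs
  · exact h.lw0 _ _
  · exact h.kn0 _ _ _

theorem ch_total (h : ChOK q lw kn b δ' hk) : ∑ f : Fin k → V, cw q lw kn f = 1 := by
  obtain ⟨v0⟩ := ch_nonempty h
  have h1 := ch_sum h v0 (fun _ => True) (fun _ => 1) (fun f => by simp)
  rw [Finset.filter_true, chnE_one (ch_ok h) le_rfl] at h1
  exact h1

theorem ch_fix (h : ChOK q lw kn b δ' hk) (J : Finset (Fin k)) (g : Fin k → V) :
    ∑ f ∈ univ.filter (fun f : Fin k → V => ∀ j ∈ J, f j = g j), cw q lw kn f ≤ b ^ J.card := by
  obtain ⟨v0⟩ := ch_nonempty h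
  have h1 := chnE_fix (v0 := v0) (ch_ok h) (chnExt v0 g) le_rfl (J.map Fin.valEmbedding) (by
    intro j hj
    rw [Finset.mem_map] at hj
    obtain ⟨i, -, rfl⟩ := hj
    exact Finset.mem_range.2 i.2)
  rw [Finset.card_map] at h1
  rw [ch_sum h v0 _ _ (fun f => ?_)]
  · exact h1
  · congr 1
    rw [eq_iff_iff]
    constructor
    · intro h2 j hj
      have h3 := h2 j.val (Finset.mem_map.2 ⟨j, hj, rfl⟩)
      rwa [ch_ext, ch_ext] at h3
    · intro h2 j hj
      rw [Finset.mem_map] at hj
      obtain ⟨i, hi, rfl⟩ := hj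
      show chnExt v0 f i.val = chnExt v0 g i.val
      rw [ch_ext, ch_ext]
      exact h2 i hi

theorem ch_root (h : ChOK q lw kn b δ' hk) (v : V) :
    ∑ f ∈ univ.filter (fun f : Fin k → V => f ⟨0, hk⟩ = v), cw q lw kn f = lw ⟨0, hk⟩ v := by
  obtain ⟨v0⟩ := ch_nonempty h
  rw [ch_sum h v0 _ (fun f => if f 0 = v then 1 else 0) (fun f => ?_),
    chnE_root (ch_ok h) hk le_rfl]
  rw [← ch_ext v0 f ⟨0, hk⟩]

theorem ch_marg (h : ChOK q lw kn b δ' hk) (j : Fin k) (v : V) :
    ∑ f ∈ univ.filter (fun f : Fin k → V => f j = v), cw q lw kn f ≤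
      (1 + δ') ^ j.val * lw j v := by
  obtain ⟨n, hn⟩ : ∃ n, n = j.val := ⟨_, rfl⟩
  induction n using Nat.strong_induction_on generalizing j v with
  | _ n ih =>
    rcases Nat.eq_zero_or_pos j.val with h0 | h0
    · have h1 : j = ⟨0, hk⟩ := Fin.ext h0
      subst h1
      rw [ch_root h]
      simp
    · have hq := h.q_lt j h0
      rw [← Finset.sum_fiberwise _ (fun f : Fin k → V => f (q j))]
      have hd : 1 ≤ 1 + δ' := by linarith [h.d0]
      calc ∑ a, ∑ f ∈ (univ.filter (fun f : Fin k → V => f j = v)).filter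
            (fun f => f (q j) = a), cw q lw kn f
          = ∑ a, kn j a v * ∑ f ∈ univ.filter (fun f : Fin k → V => f (q j) = a),
              cw q lw kn f := by
            refine Finset.sum_congr rfl fun a _ => ?_
            rw [← ch_edge_eq h j h0, Finset.filter_filter]
            refine Finset.sum_congr ?_ fun _ _ => rfl
            ext f
            simp only [Finset.mem_filter]
            tauto
        _ ≤ ∑ a, kn j a v * ((1 + δ') ^ (q j).val * lw (q j) a) :=
            Finset.sum_le_sum fun a _ => mul_le_mul_of_nonneg_left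
              (ih (q j).val (by omega) (q j) a rfl) (h.kn0 _ _ _)
        _ = (1 + δ') ^ (q j).val * ∑ a, lw (q j) a * kn j a v := by
            rw [Finset.mul_sum]
            exact Finset.sum_congr rfl fun a _ => by ring
        _ ≤ (1 + δ') ^ (q j).val * ((1 + δ') * lw j v) :=
            mul_le_mul_of_nonneg_left (h.dom j v h0) (pow_nonneg (by linarith) _)
        _ = (1 + δ') ^ ((q j).val + 1) * lw j v := by ring
        _ ≤ (1 + δ') ^ j.val * lw j v :=
            mul_le_mul_of_nonneg_right (pow_le_pow_right₀ hd hq) (h.lw0 _ _)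

theorem ch_edge (h : ChOK q lw kn b δ' hk) (j : Fin k) (hj : 0 < j.val) (a c : V) :
    ∑ f ∈ univ.filter (fun f : Fin k → V => f (q j) = a ∧ f j = c), cw q lw kn f ≤
      (1 + δ') ^ j.val * (lw (q j) a * kn j a c) := by
  have hq := h.q_lt j hj
  have hd : 1 ≤ 1 + δ' := by linarith [h.d0]
  rw [ch_edge_eq h j hj]
  calc kn j a c * ∑ f ∈ univ.filter (fun f : Fin k → V => f (q j) = a), cw q lw kn f
      ≤ kn j a c * ((1 + δ') ^ (q j).val * lw (q j) a) :=
        mul_le_mul_of_nonneg_left (ch_marg h (q j) a) (h.kn0 _ _ _)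
    _ = (1 + δ') ^ (q j).val * (lw (q j) a * kn j a c) := by ring
    _ ≤ (1 + δ') ^ j.val * (lw (q j) a * kn j a c) :=
        mul_le_mul_of_nonneg_right (pow_le_pow_right₀ hd hq.le)
          (mul_nonneg (h.lw0 _ _) (h.kn0 _ _ _))

theorem ch_inj (h : ChOK q lw kn b δ' hk) :
    ∑ f ∈ univ.filter (fun f : Fin k → V => ¬ Function.Injective f), cw q lw kn f ≤
      (k : ℝ) ^ 2 * b := by
  classical
  obtain ⟨v0⟩ := ch_nonempty h
  set S : Finset (Fin k × Fin k) := univ.filter (fun p => p.1 < p.2) with hS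
  calc ∑ f ∈ univ.filter (fun f : Fin k → V => ¬ Function.Injective f), cw q lw kn f
      ≤ ∑ f : Fin k → V, ∑ p ∈ S, (if f p.1 = f p.2 then cw q lw kn f else 0) := by
        rw [Finset.sum_filter]
        refine Finset.sum_le_sum fun f _ => ?_
        have h0 := ch_nonneg h f
        have h1 : ∀ p ∈ S, 0 ≤ (if f p.1 = f p.2 then cw q lw kn f else 0) := by
          intro p _
          split_ifs
          · exact h0
          · exact le_rfl
        by_cases hf : Function.Injective f
        · rw [if_neg (not_not.2 hf)]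
          exact Finset.sum_nonneg h1
        · rw [if_pos hf]
          simp only [Function.Injective, not_forall] at hf
          obtain ⟨i, j, hij, hne⟩ := hf
          rcases lt_or_gt_of_ne hne with hlt | hlt
          · refine le_trans (le_of_eq ?_) (Finset.single_le_sum h1
              (a := (i, j)) (by simp [hS, hlt]))
            rw [if_pos hij]
          · refine le_trans (le_of_eq ?_) (Finset.single_le_sum h1
              (a := (j, i)) (by simp [hS, hlt]))
            rw [if_pos hij.symm]
    _ = ∑ p ∈ S, ∑ f ∈ univ.filter (fun f : Fin k → V => f p.1 = f p.2), cw q lw kn f := by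
        rw [Finset.sum_comm]
        refine Finset.sum_congr rfl fun p _ => ?_
        rw [Finset.sum_filter]
    _ ≤ ∑ _p ∈ S, b := by
        refine Finset.sum_le_sum fun p hp => ?_
        have hp' : p.1 < p.2 := by simpa [hS] using hp
        rw [ch_sum h v0 _ (fun f => if f p.1.val = f p.2.val then 1 else 0) (fun f => ?_)]
        · exact chnE_coll (ch_ok h) hp' p.2.2 le_rfl
        · rw [ch_ext, ch_ext]
    _ = (S.card : ℝ) * b := by rw [Finset.sum_const, nsmul_eq_mul]
    _ ≤ (k : ℝ) ^ 2 * b := by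
        refine mul_le_mul_of_nonneg_right ?_ h.b0
        have h1 : S.card ≤ k ^ 2 := by
          refine (Finset.card_le_univ S).trans (le_of_eq ?_)
          rw [Fintype.card_prod, Fintype.card_fin, sq]
        exact_mod_cast h1

end

end MP_80c395_TP
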