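import Pool.Agent.Lib.MP_80c395_co_TP.AEl
import Pool.Agent.Lib.MP_80c395_co_TP.Chain

/-!
# Project TP, part A: the law of the embedding of one piece of one tree

Everything is Chain.lean (stubs `ch_..`) for `q = (Q.d i).pr t`, `lw = Q.lw i t`, `kn = Q.kn i t`,
`b = A0 / N`, `N = Fintype.card V`; `Q.cwt i t f = cw q lw kn f` by definition, and
`0 ≤ wt ≤ cwt` (`wt ⟨i,t,f⟩` is `cwt` if `f` is injective and `0` otherwise).  `chOK`: the fields of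
`DatOK` (`h.dec i`.pr_lt, lw0, kn0, lw1, kn1, lwA, knA, dom).  `(1 + δ')^j ≤ (1 + δ')^K ≤ 1 + ε'`.
`wt_le`: a single term of `ch_root`: `≤ lw root v ≤ A0 / N`.
`wt_tot_ge`: `∑ wt = ∑ cwt - ∑ over not injective f ≥ 1 - sz^2 * b`.
`wt_supp`: if `wt e ≠ 0` then `f` is injective and all factors of `cwt` are nonzero: the root is in
`V1`, not a host of a centre (`lwV`); for `0 < j`, `f j` is in `V1` and not a host of a centre
(`knV`), and then by `knO` for `v = f (pr j)`, `w = f j` the host edge is not owned by another tree.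
-/

set_option autoImplicit false

namespace MP_80c395_TP

open Finset

variable {V : Type} [Fintype V] [DecidableEq V] {Q : Dat V} {V1 W : Finset V} {D₁ D K : ℕ}
  {A0 δ' ε' γ₂ : ℝ}

omit [Fintype V] [DecidableEq V] in
private theorem cwt_eq_cw (i : Fin Q.k) (t : Fin (Q.d i).np) (f : Fin ((Q.d i).sz t) → V) :
    Q.cwt i t f = cw ((Q.d i).pr t) (Q.lw i t) (Q.kn i t) f := rfl

private theorem cwt_nn (h : DatOK Q V1 W D₁ D K A0 δ' ε' γ₂) (i : Fin Q.k)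
    (t : Fin (Q.d i).np) (f : Fin ((Q.d i).sz t) → V) : 0 ≤ Q.cwt i t f := by
  unfold Dat.cwt
  refine Finset.prod_nonneg fun j _ => ?_
  split_ifs
  · exact h.lw0 i t j (f j)
  · exact h.kn0 i t j (f ((Q.d i).pr t j)) (f j)

private theorem wt_mk_le (h : DatOK Q V1 W D₁ D K A0 δ' ε' γ₂) (i : Fin Q.k)
    (t : Fin (Q.d i).np) (f : Fin ((Q.d i).sz t) → V) :
    Q.wt ⟨i, t, f⟩ ≤ cw ((Q.d i).pr t) (Q.lw i t) (Q.kn i t) f := by
  rw [← cwt_eq_cw]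
  unfold Dat.wt
  split_ifs
  · exact le_rfl
  · exact cwt_nn h i t f

private theorem pow_dd (hd : 0 ≤ δ') (hK : (1 + δ') ^ K ≤ 1 + ε') {j : ℕ} (hj : j ≤ K) :
    (1 + δ') ^ j ≤ 1 + ε' :=
  le_trans (pow_le_pow_right₀ (by linarith) hj) hK

theorem chOK (h : DatOK Q V1 W D₁ D K A0 δ' ε' γ₂) (hd : 0 ≤ δ') (hA : 0 ≤ A0) (i : Fin Q.k)
    (t : Fin (Q.d i).np) :
    ChOK ((Q.d i).pr t) (Q.lw i t) (Q.kn i t) (A0 / Fintype.card V) δ' ((Q.d i).pos t) := by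
  exact
    { q_lt := (h.dec i).pr_lt t
      lw0 := h.lw0 i t
      kn0 := h.kn0 i t
      lw1 := h.lw1 i t
      kn1 := h.kn1 i t
      lwb := h.lwA i t
      knb := h.knA i t
      dom := h.dom i t
      d0 := hd
      b0 := div_nonneg hA (Nat.cast_nonneg _) }

theorem wt_nonneg (h : DatOK Q V1 W D₁ D K A0 δ' ε' γ₂) (e : Q.Hy) : 0 ≤ Q.wt e := by
  unfold Dat.wt
  split_ifs
  · exact cwt_nn h e.1 e.2.1 e.2.2
  · exact le_rfl

theorem wt_le (h : DatOK Q V1 W D₁ D K A0 δ' ε' γ₂) (hd : 0 ≤ δ') (hA : 0 ≤ A0) (e : Q.Hy) :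
    Q.wt e ≤ A0 / Fintype.card V := by
  obtain ⟨i, t, f⟩ := e
  refine (wt_mk_le h i t f).trans ?_
  have hc := chOK h hd hA i t
  have h1 := ch_root hc (f ⟨0, (Q.d i).pos t⟩)
  refine le_trans ?_ (le_trans h1.le (hc.lwb _))
  exact Finset.single_le_sum (f := fun f => cw ((Q.d i).pr t) (Q.lw i t) (Q.kn i t) f)
    (fun g _ => ch_nonneg hc g) (Finset.mem_filter.2 ⟨Finset.mem_univ f, rfl⟩)

theorem wt_tot_le (h : DatOK Q V1 W D₁ D K A0 δ' ε' γ₂) (hd : 0 ≤ δ') (hA : 0 ≤ A0)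
    (i : Fin Q.k) (t : Fin (Q.d i).np) :
    ∑ f : Fin ((Q.d i).sz t) → V, Q.wt ⟨i, t, f⟩ ≤ 1 := by
  refine le_trans (Finset.sum_le_sum fun f _ => wt_mk_le h i t f) ?_
  exact (ch_total (chOK h hd hA i t)).le

theorem wt_tot_ge (h : DatOK Q V1 W D₁ D K A0 δ' ε' γ₂) (hd : 0 ≤ δ') (hA : 0 ≤ A0)
    (i : Fin Q.k) (t : Fin (Q.d i).np) :
    1 - (K : ℝ) ^ 2 * (A0 / Fintype.card V) ≤
      ∑ f : Fin ((Q.d i).sz t) → V, Q.wt ⟨i, t, f⟩ := by
  classical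
  have hc := chOK h hd hA i t
  have h1 := ch_total hc
  have h2 := ch_inj hc
  have h3 : ∑ f : Fin ((Q.d i).sz t) → V, Q.wt ⟨i, t, f⟩ =
      ∑ f : Fin ((Q.d i).sz t) → V, cw ((Q.d i).pr t) (Q.lw i t) (Q.kn i t) f -
      ∑ f ∈ univ.filter (fun f : Fin ((Q.d i).sz t) → V => ¬ Function.Injective f),
        cw ((Q.d i).pr t) (Q.lw i t) (Q.kn i t) f := by
    rw [Finset.sum_filter, ← Finset.sum_sub_distrib]
    refine Finset.sum_congr rfl fun f _ => ?_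
    unfold Dat.wt
    by_cases hf : Function.Injective f
    · simp only [hf, if_true, not_true, if_false, sub_zero]
      rfl
    · simp only [hf, if_false, not_false_iff, if_true, sub_self]
  rw [h3, h1]
  have h4 : (((Q.d i).sz t : ℕ) : ℝ) ≤ (K : ℝ) := by exact_mod_cast (h.dec i).sz_le t
  have h5 : (((Q.d i).sz t : ℕ) : ℝ) ^ 2 * (A0 / Fintype.card V) ≤
      (K : ℝ) ^ 2 * (A0 / Fintype.card V) :=
    mul_le_mul_of_nonneg_right (pow_le_pow_left₀ (Nat.cast_nonneg _) h4 2) hc.b0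
  have h6 : ∑ f ∈ univ.filter (fun f : Fin ((Q.d i).sz t) → V => ¬ Function.Injective f),
      cw ((Q.d i).pr t) (Q.lw i t) (Q.kn i t) f ≤
      (((Q.d i).sz t : ℕ) : ℝ) ^ 2 * (A0 / Fintype.card V) := by
    refine le_trans (le_of_eq ?_) h2
    refine Finset.sum_congr ?_ fun _ _ => rfl
    ext f
    simp only [Finset.mem_filter]
  linarith

theorem wt_fix (h : DatOK Q V1 W D₁ D K A0 δ' ε' γ₂) (hd : 0 ≤ δ') (hA : 0 ≤ A0)
    (i : Fin Q.k) (t : Fin (Q.d i).np) (J : Finset (Fin ((Q.d i).sz t)))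
    (g : Fin ((Q.d i).sz t) → V) :
    ∑ f ∈ univ.filter (fun f : Fin ((Q.d i).sz t) → V => ∀ j ∈ J, f j = g j),
      Q.wt ⟨i, t, f⟩ ≤ (A0 / Fintype.card V) ^ J.card := by
  refine le_trans (Finset.sum_le_sum fun f _ => wt_mk_le h i t f) ?_
  exact ch_fix (chOK h hd hA i t) J g

theorem wt_root (h : DatOK Q V1 W D₁ D K A0 δ' ε' γ₂) (hd : 0 ≤ δ') (hA : 0 ≤ A0)
    (i : Fin Q.k) (t : Fin (Q.d i).np) (v : V) :
    ∑ f ∈ univ.filter (fun f : Fin ((Q.d i).sz t) → V => f ((Q.d i).rt t) = v),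
      Q.wt ⟨i, t, f⟩ ≤ Q.lw i t ((Q.d i).rt t) v := by
  refine le_trans (Finset.sum_le_sum fun f _ => wt_mk_le h i t f) ?_
  exact (ch_root (chOK h hd hA i t) v).le

theorem wt_marg (h : DatOK Q V1 W D₁ D K A0 δ' ε' γ₂) (hd : 0 ≤ δ') (hA : 0 ≤ A0)
    (hK : (1 + δ') ^ K ≤ 1 + ε') (i : Fin Q.k) (t : Fin (Q.d i).np)
    (j : Fin ((Q.d i).sz t)) (v : V) :
    ∑ f ∈ univ.filter (fun f : Fin ((Q.d i).sz t) → V => f j = v), Q.wt ⟨i, t, f⟩ ≤
      (1 + ε') * Q.lw i t j v := by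
  refine le_trans (Finset.sum_le_sum fun f _ => wt_mk_le h i t f) ?_
  refine le_trans (ch_marg (chOK h hd hA i t) j v) ?_
  have hj : j.val ≤ K := j.isLt.le.trans ((h.dec i).sz_le t)
  exact mul_le_mul_of_nonneg_right (pow_dd hd hK hj) (h.lw0 i t j v)

theorem wt_edge (h : DatOK Q V1 W D₁ D K A0 δ' ε' γ₂) (hd : 0 ≤ δ') (hA : 0 ≤ A0)
    (hK : (1 + δ') ^ K ≤ 1 + ε') (i : Fin Q.k) (t : Fin (Q.d i).np)
    (j : Fin ((Q.d i).sz t)) (hj : 0 < j.val) (a b : V) :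
    ∑ f ∈ univ.filter (fun f : Fin ((Q.d i).sz t) → V => f ((Q.d i).pr t j) = a ∧ f j = b),
      Q.wt ⟨i, t, f⟩ ≤ (1 + ε') * (Q.lw i t ((Q.d i).pr t j) a * Q.kn i t j a b) := by
  refine le_trans (Finset.sum_le_sum fun f _ => wt_mk_le h i t f) ?_
  refine le_trans (ch_edge (chOK h hd hA i t) j hj a b) ?_
  have hj : j.val ≤ K := j.isLt.le.trans ((h.dec i).sz_le t)
  exact mul_le_mul_of_nonneg_right (pow_dd hd hK hj)
    (mul_nonneg (h.lw0 i t _ a) (h.kn0 i t j a b))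

theorem wt_supp (h : DatOK Q V1 W D₁ D K A0 δ' ε' γ₂) (e : Q.Hy) (he : Q.wt e ≠ 0) :
    Function.Injective e.2.2 ∧ (∀ j, e.2.2 j ∈ V1) ∧
      (∀ j, ∀ z ∈ (Q.d e.1).Z, Q.φ e.1 z ≠ e.2.2 j) ∧
      ∀ s ∈ Q.hE e, Q.own s = none ∨ Q.own s = some e.1 := by
  obtain ⟨i, t, f⟩ := e
  have hinj : Function.Injective f := by
    by_contra hc
    apply he
    unfold Dat.wt
    rw [if_neg hc]
  have hcw : Q.cwt i t f ≠ 0 := by
    intro hc
    apply he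
    unfold Dat.wt
    rw [if_pos hinj]
    exact hc
  have hfac : ∀ j : Fin ((Q.d i).sz t),
      (if j.val = 0 then Q.lw i t j (f j) else Q.kn i t j (f ((Q.d i).pr t j)) (f j)) ≠ 0 := by
    intro j
    unfold Dat.cwt at hcw
    exact Finset.prod_ne_zero_iff.1 hcw j (Finset.mem_univ j)
  have hroot : Q.lw i t ((Q.d i).rt t) (f ((Q.d i).rt t)) ≠ 0 := by
    have h0 : ((Q.d i).rt t).val = 0 := rfl
    have := hfac ((Q.d i).rt t)
    rwa [if_pos h0] at this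
  have hV : ∀ j : Fin ((Q.d i).sz t), f j ∈ V1 ∧ ∀ z ∈ (Q.d i).Z, Q.φ i z ≠ f j := by
    intro j
    by_cases hj : j.val = 0
    · have hj' : j = (Q.d i).rt t := Fin.ext hj
      rw [hj']
      exact ⟨(h.lwV i t _ hroot).1, (h.lwV i t _ hroot).2.1⟩
    · have := hfac j
      rw [if_neg hj] at this
      exact h.knV i t j _ _ this
  refine ⟨hinj, fun j => (hV j).1, fun j => (hV j).2, ?_⟩
  intro s hs
  rcases (mem_hE Q ⟨i, t, f⟩ s).1 hs with ⟨j, hj, rfl⟩ | ⟨u, hu, rfl⟩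
  · have := hfac j
    rw [if_neg (Nat.pos_iff_ne_zero.1 hj)] at this
    exact (h.knO i t j _ _ (hV _).1 (hV _).2 this).2
  · exact (h.lwV i t _ hroot).2.2 u hu

end MP_80c395_TP
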