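import Pool.Agent.Lib.MP_80c395_co_TP.APiece

/-!
# Project TP, part A: from a matching to a partial embedding

`PS Q M S ψ`: `S i` consists of the centres and of the vertices of the covered pieces, placed as
the hyperedges of the matching `M` say.

`ex_ps`: if `⟨i,t,f⟩, ⟨i,t,f'⟩ ∈ M` then `f = f'` (they share the resource `inl ⟨i,t⟩`,
`mem_el_piece`).  By `DecOK.inj` a vertex `x` is `sg t j` for at most one pair `(t,j)`, and by
`sgZ` it is not in `Z`.  So `ψ` is well defined (for other vertices take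
`ψ i x = φ i x`); choose with `Classical.choose`, or prove for every `i, x` that there is a value
`v` with the required properties and use `choose`.

`ps_pe`: injectivity of `ψ i` on `S i`: two centres: `φ_inj`; a centre and a piece vertex: `wt_supp`
(`φ z ≠ f j`); two piece vertices `sg t j, sg t' j'`: `t ≠ t'`: both hyperedges would contain the
resource `inr (inl (i, v))` (`mem_el_pair`), contradiction to the matching property; `t = t'`: then
`f = f'` is injective (`wt_supp`).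
`out`: `φ_out`, and `f j ∈ V1`, disjoint from `W`.
`dst`: let `i ≠ j`.  An edge `{a,b}` of `T i` with `a, b ∈ S i` is one of: (a) both in `Z`: its
host edge `s` has `own s = some i` (`φ_own`); (b) one in `Z`, the other `sg t l`: then `att t = some z`,
`l = 0` (`e_Z`; note `(rt t) = 0`), `hst i t = some (φ i z)`, host edge in `hE e`; (c) both in pieces:
the same piece and parent and child (`e_in`), host edge in `hE e`.  In (b), (c):
`own s = none` or `own s = some i` (`wt_supp`).  So if the host edges of `{a,b}` in `T i` and `{c,e}` in `T j` were equal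
then `own s = none`, both are in (b) or (c), and the two hyperedges (different, because `i ≠ j`)
share the resource `inr (inr s)` (`mem_el_edge`), contradiction.
-/

set_option autoImplicit false

namespace MP_80c395_TP

open Finset

variable {V : Type} [Fintype V] [DecidableEq V] {Q : Dat V} {V1 W : Finset V} {D₁ D K : ℕ}
  {A0 δ' ε' γ₂ : ℝ}

/-- the partial embedding described by `M` -/
structure PS (Q : Dat V) (M : Finset Q.Hy) (S : ∀ i, Finset (Fin (Q.m i)))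
    (ψ : ∀ i, Fin (Q.m i) → V) : Prop where
  mem : ∀ i x, x ∈ S i ↔ x ∈ (Q.d i).Z ∨
    ∃ (t : Fin (Q.d i).np) (f : Fin ((Q.d i).sz t) → V) (j : Fin ((Q.d i).sz t)),
      (⟨i, t, f⟩ : Q.Hy) ∈ M ∧ (Q.d i).sg t j = x
  cen : ∀ i, ∀ x ∈ (Q.d i).Z, ψ i x = Q.φ i x
  pie : ∀ (i : Fin Q.k) (t : Fin (Q.d i).np) (f : Fin ((Q.d i).sz t) → V)
    (j : Fin ((Q.d i).sz t)), (⟨i, t, f⟩ : Q.Hy) ∈ M → ψ i ((Q.d i).sg t j) = f j

private theorem Core1_uniq {M : Finset Q.Hy}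
    (hM : ∀ e ∈ M, ∀ f ∈ M, e ≠ f → Disjoint (Q.el e) (Q.el f)) {i : Fin Q.k}
    {t : Fin (Q.d i).np} {f f' : Fin ((Q.d i).sz t) → V} (hf : (⟨i, t, f⟩ : Q.Hy) ∈ M)
    (hf' : (⟨i, t, f'⟩ : Q.Hy) ∈ M) : f = f' := by
  by_contra hne
  have h1 : (⟨i, t, f⟩ : Q.Hy) ≠ ⟨i, t, f'⟩ := by
    intro h2
    apply hne
    simpa using h2
  have h2 : (Sum.inl ⟨i, t⟩ : Q.Rs) ∈ Q.el ⟨i, t, f⟩ := (mem_el_piece Q _ _).2 rfl
  have h3 : (Sum.inl ⟨i, t⟩ : Q.Rs) ∈ Q.el ⟨i, t, f'⟩ := (mem_el_piece Q _ _).2 rfl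
  exact disjoint_left.1 (hM _ hf _ hf' h1) h2 h3

private theorem Core1_star (h : DatOK Q V1 W D₁ D K A0 δ' ε' γ₂) {i : Fin Q.k}
    {z : Fin (Q.m i)} (hz : z ∈ (Q.d i).Z) {t : Fin (Q.d i).np} {j : Fin ((Q.d i).sz t)}
    (f : Fin ((Q.d i).sz t) → V) (ha : (Q.T i).Adj ((Q.d i).sg t j) z) :
    s(Q.φ i z, f j) ∈ Q.hE ⟨i, t, f⟩ := by
  obtain ⟨h1, h2⟩ := (h.dec i).e_Z t j z hz ha
  rw [mem_hE]
  right
  refine ⟨Q.φ i z, ?_, ?_⟩
  · change ((Q.d i).att t).map (Q.φ i) = some (Q.φ i z)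
    rw [h1]
    rfl
  · have h3 : j = (Q.d i).rt t := Fin.ext h2
    rw [h3]

private theorem Core1_edge (h : DatOK Q V1 W D₁ D K A0 δ' ε' γ₂) {M : Finset Q.Hy}
    (h0 : ∀ e ∈ M, Q.wt e ≠ 0)
    (hM : ∀ e ∈ M, ∀ f ∈ M, e ≠ f → Disjoint (Q.el e) (Q.el f))
    {S : ∀ i, Finset (Fin (Q.m i))} {ψ : ∀ i, Fin (Q.m i) → V} (hS : PS Q M S ψ) (i : Fin Q.k)
    (a b : Fin (Q.m i)) (ha : a ∈ S i) (hb : b ∈ S i) (hab : (Q.T i).Adj a b) :
    Q.own s(ψ i a, ψ i b) = some i ∨ (Q.own s(ψ i a, ψ i b) = none ∧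
      ∃ (t : Fin (Q.d i).np) (f : Fin ((Q.d i).sz t) → V), (⟨i, t, f⟩ : Q.Hy) ∈ M ∧
        s(ψ i a, ψ i b) ∈ Q.hE ⟨i, t, f⟩) := by
  have key : ∀ (t : Fin (Q.d i).np) (f : Fin ((Q.d i).sz t) → V), (⟨i, t, f⟩ : Q.Hy) ∈ M →
      s(ψ i a, ψ i b) ∈ Q.hE ⟨i, t, f⟩ →
      Q.own s(ψ i a, ψ i b) = some i ∨ (Q.own s(ψ i a, ψ i b) = none ∧
      ∃ (t : Fin (Q.d i).np) (f : Fin ((Q.d i).sz t) → V), (⟨i, t, f⟩ : Q.Hy) ∈ M ∧
        s(ψ i a, ψ i b) ∈ Q.hE ⟨i, t, f⟩) := by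
    intro t f hf hs
    rcases (wt_supp h _ (h0 _ hf)).2.2.2 _ hs with h1 | h1
    · exact Or.inr ⟨h1, t, f, hf, hs⟩
    · exact Or.inl h1
  rcases (hS.mem i a).1 ha with hza | ⟨t, f, j, hf, rfl⟩
  · rcases (hS.mem i b).1 hb with hzb | ⟨t', f', j', hf', rfl⟩
    · left
      rw [hS.cen i a hza, hS.cen i b hzb]
      exact h.φ_own i a hza b hzb hab
    · refine key t' f' hf' ?_
      rw [hS.cen i a hza, hS.pie i t' f' j' hf']
      exact Core1_star h hza f' hab.symm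
  · rcases (hS.mem i b).1 hb with hzb | ⟨t', f', j', hf', rfl⟩
    · refine key t f hf ?_
      rw [hS.cen i b hzb, hS.pie i t f j hf, Sym2.eq_swap]
      exact Core1_star h hzb f hab
    · obtain ⟨rfl, hj⟩ := (h.dec i).e_in t j t' j' hab
      obtain rfl := Core1_uniq hM hf hf'
      refine key t f hf ?_
      rw [hS.pie i t f j hf, hS.pie i t f j' hf', mem_hE]
      left
      rcases hj with ⟨hj, hp⟩ | ⟨hj, hp⟩
      · refine ⟨j, hj, ?_⟩
        have h3 : (Q.d i).pr t j = j' := Fin.ext hp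
        change s(f j, f j') = s(f ((Q.d i).pr t j), f j)
        rw [h3, Sym2.eq_swap]
      · refine ⟨j', hj, ?_⟩
        have h3 : (Q.d i).pr t j' = j := Fin.ext hp
        change s(f j, f j') = s(f ((Q.d i).pr t j'), f j')
        rw [h3]

theorem ex_ps (h : DatOK Q V1 W D₁ D K A0 δ' ε' γ₂) (M : Finset Q.Hy)
    (hM : ∀ e ∈ M, ∀ f ∈ M, e ≠ f → Disjoint (Q.el e) (Q.el f)) :
    ∃ S ψ, PS Q M S ψ := by
  classical
  have hex : ∀ i (x : Fin (Q.m i)), ∃ v : V, (x ∈ (Q.d i).Z → v = Q.φ i x) ∧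
      ∀ (t : Fin (Q.d i).np) (f : Fin ((Q.d i).sz t) → V) (j : Fin ((Q.d i).sz t)),
        (⟨i, t, f⟩ : Q.Hy) ∈ M → (Q.d i).sg t j = x → v = f j := by
    intro i x
    by_cases hx : ∃ (t : Fin (Q.d i).np) (f : Fin ((Q.d i).sz t) → V)
        (j : Fin ((Q.d i).sz t)), (⟨i, t, f⟩ : Q.Hy) ∈ M ∧ (Q.d i).sg t j = x
    · obtain ⟨t, f, j, hf, rfl⟩ := hx
      refine ⟨f j, fun hz => absurd hz ((h.dec i).sgZ t j), ?_⟩
      intro t' f' j' hf' hj'
      obtain ⟨rfl, hjj⟩ := (h.dec i).inj t' j' t j hj'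
      rw [Core1_uniq hM hf' hf, Fin.ext hjj]
    · exact ⟨Q.φ i x, fun _ => rfl, fun t f j hf hj => absurd ⟨t, f, j, hf, hj⟩ hx⟩
  choose ψ hψ1 hψ2 using hex
  refine ⟨fun i => univ.filter (fun x => x ∈ (Q.d i).Z ∨
    ∃ (t : Fin (Q.d i).np) (f : Fin ((Q.d i).sz t) → V) (j : Fin ((Q.d i).sz t)),
      (⟨i, t, f⟩ : Q.Hy) ∈ M ∧ (Q.d i).sg t j = x), ψ, ⟨fun i x => ?_, hψ1, ?_⟩⟩
  · simp only [mem_filter, mem_univ, true_and]
  · intro i t f j hf
    exact hψ2 i _ t f j hf rfl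

theorem ps_pe (h : DatOK Q V1 W D₁ D K A0 δ' ε' γ₂) (M : Finset Q.Hy)
    (h0 : ∀ e ∈ M, Q.wt e ≠ 0)
    (hM : ∀ e ∈ M, ∀ f ∈ M, e ≠ f → Disjoint (Q.el e) (Q.el f))
    (S : ∀ i, Finset (Fin (Q.m i))) (ψ : ∀ i, Fin (Q.m i) → V) (hS : PS Q M S ψ) :
    PE Q.T W S ψ := by
  refine ⟨?_, ?_, ?_⟩
  · intro i x hx y hy hxy
    rcases (hS.mem i x).1 hx with hzx | ⟨t, f, j, hf, rfl⟩
    · rcases (hS.mem i y).1 hy with hzy | ⟨t', f', j', hf', rfl⟩
      · rw [hS.cen i x hzx, hS.cen i y hzy] at hxy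
        exact h.φ_inj i x hzx y hzy hxy
      · rw [hS.cen i x hzx, hS.pie i t' f' j' hf'] at hxy
        exact absurd hxy ((wt_supp h _ (h0 _ hf')).2.2.1 j' x hzx)
    · rcases (hS.mem i y).1 hy with hzy | ⟨t', f', j', hf', rfl⟩
      · rw [hS.cen i y hzy, hS.pie i t f j hf] at hxy
        exact absurd hxy.symm ((wt_supp h _ (h0 _ hf)).2.2.1 j y hzy)
      · rw [hS.pie i t f j hf, hS.pie i t' f' j' hf'] at hxy
        by_cases htt : t = t'
        · subst htt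
          obtain rfl := Core1_uniq hM hf hf'
          have h1 : j = j' := (wt_supp h _ (h0 _ hf)).1 hxy
          rw [h1]
        · exfalso
          have h1 : (⟨i, t, f⟩ : Q.Hy) ≠ ⟨i, t', f'⟩ := by
            intro h2
            apply htt
            have h3 := congrArg (fun e : Q.Hy => (⟨e.1, e.2.1⟩ : Σ i : Fin Q.k,
              Fin (Q.d i).np)) h2
            simpa using h3
          have h2 : (Sum.inr (Sum.inl (i, f j)) : Q.Rs) ∈ Q.el ⟨i, t, f⟩ :=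
            (mem_el_pair Q _ _ _).2 ⟨rfl, j, rfl⟩
          have h3 : (Sum.inr (Sum.inl (i, f j)) : Q.Rs) ∈ Q.el ⟨i, t', f'⟩ :=
            (mem_el_pair Q _ _ _).2 ⟨rfl, j', hxy.symm⟩
          exact disjoint_left.1 (hM _ hf _ hf' h1) h2 h3
  · intro i x hx
    rcases (hS.mem i x).1 hx with hzx | ⟨t, f, j, hf, rfl⟩
    · rw [hS.cen i x hzx]
      exact h.φ_out i x hzx
    · rw [hS.pie i t f j hf]
      exact disjoint_left.1 h.V1W ((wt_supp h _ (h0 _ hf)).2.1 j)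
  · intro i j hij a ha b hb c hc e he hab hce heq
    rcases Core1_edge h h0 hM hS i a b ha hb hab with h1 | ⟨h1, t, f, hf, hs⟩
    · rcases Core1_edge h h0 hM hS j c e hc he hce with h2 | ⟨h2, -⟩
      · rw [heq, h2] at h1
        exact hij (Option.some.inj h1).symm
      · rw [heq, h2] at h1
        exact absurd h1 (by simp)
    · rcases Core1_edge h h0 hM hS j c e hc he hce with h2 | ⟨h2, t', f', hf', hs'⟩
      · rw [heq, h2] at h1
        exact absurd h1 (by simp)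
      · have h3 : (⟨i, t, f⟩ : Q.Hy) ≠ ⟨j, t', f'⟩ := by
          intro h4
          exact hij (congrArg Sigma.fst h4)
        have h4 : (Sum.inr (Sum.inr s(ψ i a, ψ i b)) : Q.Rs) ∈ Q.el ⟨i, t, f⟩ :=
          (mem_el_edge Q _ _).2 ⟨h1, hs⟩
        have h5 : (Sum.inr (Sum.inr s(ψ i a, ψ i b)) : Q.Rs) ∈ Q.el ⟨j, t', f'⟩ := by
          rw [heq]
          exact (mem_el_edge Q _ _).2 ⟨h2, hs'⟩
        exact disjoint_left.1 (hM _ hf _ hf' h3) h4 h5

end MP_80c395_TP
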