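import Pool.Agent.Lib.MP_80c395_co_TP.Core1
import Pool.Agent.Lib.MP_80c395_co_TP.ATest

/-!
# Project TP, part A: counting for the partial embedding

`unc i` = the vertices outside of `S i ∪ C1 ∪ C2`: by `cover` these are the vertices `sg t j` with
`t` not covered (no `⟨i,t,f⟩ ∈ M`).  `S i` is disjoint from `C1`, `C2` (`Z1`, `Z2`, `sg1`, `sg2`).

`unc_card`: `|unc i| = ∑ over t not covered, sz t = ∑ t, sz t - ∑ over covered t, sz t`, and the last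
sum is `∑ e ∈ M, tst (tree i) e` (every covered `t` has exactly one `f`: matching, resource of the
piece).

`dem1`: `dem T S ψ (C1 ∪ unc) v = ∑ i, ∑ y ∈ S i with ψ y = v, nb (C1 ∪ unc) y`,
`nb (A ∪ B) ≤ nb A + nb B`.  For `y ∈ Z`: `nb C1 y` sums to `cload C1 v`; `nb unc y` = number of
`x ∈ unc` adjacent to `y`: such `x = sg t j` has `att t = some y`, `j = 0` (`e_Z`), `t` not covered; so
in total at most the number of `(i,t)` not covered with `hst i t = some v`,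
which is `load v - ∑ e ∈ M, tst (third kind, v) e`.  For `y = sg t j`, `⟨i,t,f⟩ ∈ M`, `f j = v`:
`nb unc y = 0` (`x = sg t' j'` adjacent to `y` has `t' = t` by `e_in`, so `x ∈ S i`); `nb C1 y`
sums to `∑ e ∈ M, tst (inl v) e`.
`dem2`: the same for `C2` without `unc`.
-/

set_option autoImplicit false

namespace MP_80c395_TP

open Finset

variable {V : Type} [Fintype V] [DecidableEq V] {Q : Dat V} {V1 W : Finset V} {D₁ D K : ℕ}
  {A0 δ' ε' γ₂ : ℝ}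

/-- the vertices of the pieces which are not covered -/
def unc (Q : Dat V) (S : ∀ i, Finset (Fin (Q.m i))) (i : Fin Q.k) : Finset (Fin (Q.m i)) :=
  univ \ (S i ∪ ((Q.d i).C1 ∪ (Q.d i).C2))

theorem ps_disj (h : DatOK Q V1 W D₁ D K A0 δ' ε' γ₂) (M : Finset Q.Hy)
    (S : ∀ i, Finset (Fin (Q.m i))) (ψ : ∀ i, Fin (Q.m i) → V) (hS : PS Q M S ψ) (i : Fin Q.k) :
    Disjoint (S i) ((Q.d i).C1 ∪ (Q.d i).C2) := by
  rw [disjoint_left]
  intro x hx hc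
  rw [mem_union] at hc
  rcases (hS.mem i x).1 hx with hz | ⟨t, f, j, hf, rfl⟩
  · rcases hc with hc | hc
    · exact disjoint_left.1 (h.dec i).Z1 hz hc
    · exact disjoint_left.1 (h.dec i).Z2 hz hc
  · rcases hc with hc | hc
    · exact (h.dec i).sg1 t j hc
    · exact (h.dec i).sg2 t j hc

theorem unc_sg (h : DatOK Q V1 W D₁ D K A0 δ' ε' γ₂) (M : Finset Q.Hy)
    (S : ∀ i, Finset (Fin (Q.m i))) (ψ : ∀ i, Fin (Q.m i) → V) (hS : PS Q M S ψ) (i : Fin Q.k)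
    (x : Fin (Q.m i)) (hx : x ∈ unc Q S i) : ∃ t j, (Q.d i).sg t j = x := by
  unfold unc at hx
  rw [mem_sdiff, mem_union, mem_union] at hx
  rcases (h.dec i).cover x with hz | hc | hc | hs
  · exact absurd (Or.inl ((hS.mem i x).2 (Or.inl hz))) hx.2
  · exact absurd (Or.inr (Or.inl hc)) hx.2
  · exact absurd (Or.inr (Or.inr hc)) hx.2
  · exact hs

private theorem Core2_biUnion {α β : Type*} [DecidableEq β] (s : Finset α)
    (t : α → Finset β) (f : β → ℕ) :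
    ∑ x ∈ s.biUnion t, f x ≤ ∑ i ∈ s, ∑ x ∈ t i, f x := by
  classical
  induction s using Finset.induction_on with
  | empty => simp
  | insert a s ha ih =>
    rw [biUnion_insert, sum_insert ha]
    have h1 : ∑ x ∈ t a ∪ s.biUnion t, f x ≤ ∑ x ∈ t a, f x + ∑ x ∈ s.biUnion t, f x := by
      rw [← sum_union_inter]
      exact Nat.le_add_right _ _
    exact h1.trans (Nat.add_le_add_left ih _)

private theorem Core2_image {α β : Type*} [DecidableEq β] (s : Finset α) (t : α → β)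
    (f : β → ℕ) :
    ∑ x ∈ s.image t, f x ≤ ∑ i ∈ s, f (t i) := by
  have h1 := Core2_biUnion s (fun i => {t i}) f
  rw [biUnion_singleton] at h1
  simpa using h1

/-- the covered pieces -/
private theorem Core2_P {M : Finset Q.Hy}
    (hM : ∀ e ∈ M, ∀ f ∈ M, e ≠ f → Disjoint (Q.el e) (Q.el f)) :
    ∃ P : Finset (Σ i : Fin Q.k, Fin (Q.d i).np),
      (∀ i t, (⟨i, t⟩ : Σ i : Fin Q.k, Fin (Q.d i).np) ∈ P ↔ ∃ f, (⟨i, t, f⟩ : Q.Hy) ∈ M) ∧
      ∀ G : (Σ i : Fin Q.k, Fin (Q.d i).np) → ℝ, ∑ e ∈ M, G ⟨e.1, e.2.1⟩ =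
        ∑ i, ∑ t, if (⟨i, t⟩ : Σ i : Fin Q.k, Fin (Q.d i).np) ∈ P then G ⟨i, t⟩ else 0 := by
  classical
  have hinj : ∀ e ∈ M, ∀ f ∈ M, (⟨e.1, e.2.1⟩ : Σ i : Fin Q.k, Fin (Q.d i).np) = ⟨f.1, f.2.1⟩ →
      e = f := by
    intro e he f hf hef
    by_contra hne
    have h2 : (Sum.inl ⟨e.1, e.2.1⟩ : Q.Rs) ∈ Q.el e := (mem_el_piece Q _ _).2 rfl
    have h3 : (Sum.inl ⟨e.1, e.2.1⟩ : Q.Rs) ∈ Q.el f := (mem_el_piece Q _ _).2 hef
    exact disjoint_left.1 (hM _ he _ hf hne) h2 h3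
  refine ⟨M.image (fun e => ⟨e.1, e.2.1⟩), ?_, ?_⟩
  · intro i t
    rw [mem_image]
    constructor
    · rintro ⟨⟨i', t', f⟩, he, h1⟩
      simp only [Sigma.mk.injEq] at h1
      obtain ⟨rfl, h2⟩ := h1
      obtain rfl := eq_of_heq h2
      exact ⟨f, he⟩
    · rintro ⟨f, hf⟩
      exact ⟨_, hf, rfl⟩
  · intro G
    rw [← sum_image (f := G) (s := M)
      (g := fun e => (⟨e.1, e.2.1⟩ : Σ i : Fin Q.k, Fin (Q.d i).np)) hinj]
    rw [← Fintype.sum_sigma' (f := fun i t =>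
      if (⟨i, t⟩ : Σ i : Fin Q.k, Fin (Q.d i).np) ∈ M.image (fun e =>
        (⟨e.1, e.2.1⟩ : Σ i : Fin Q.k, Fin (Q.d i).np)) then G ⟨i, t⟩ else 0)]
    rw [← sum_filter]
    refine sum_congr ?_ fun _ _ => rfl
    ext p
    simp only [mem_filter, mem_univ, true_and]

theorem unc_card (h : DatOK Q V1 W D₁ D K A0 δ' ε' γ₂) (M : Finset Q.Hy)
    (hM : ∀ e ∈ M, ∀ f ∈ M, e ≠ f → Disjoint (Q.el e) (Q.el f))
    (S : ∀ i, Finset (Fin (Q.m i))) (ψ : ∀ i, Fin (Q.m i) → V) (hS : PS Q M S ψ) (i : Fin Q.k) :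
    ((unc Q S i).card : ℝ) ≤ ∑ t, ((Q.d i).sz t : ℝ) -
      ∑ e ∈ M, tst Q (Sum.inr (Sum.inr (Sum.inr i))) e := by
  classical
  obtain ⟨P, hP, hPs⟩ := Core2_P hM
  have h1 : ∑ e ∈ M, tst Q (Sum.inr (Sum.inr (Sum.inr i))) e =
      ∑ t, if (⟨i, t⟩ : Σ i : Fin Q.k, Fin (Q.d i).np) ∈ P then ((Q.d i).sz t : ℝ) else 0 := by
    have h2 := hPs (fun p => if p.1 = i then ((Q.d p.1).sz p.2 : ℝ) else 0)
    have h3 : ∑ e ∈ M, tst Q (Sum.inr (Sum.inr (Sum.inr i))) e =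
        ∑ e ∈ M, if e.1 = i then ((Q.d e.1).sz e.2.1 : ℝ) else 0 := rfl
    rw [h3, h2]
    rw [sum_eq_single i]
    · refine sum_congr rfl fun t _ => ?_
      simp
    · intro i' _ hne
      refine sum_eq_zero fun t _ => ?_
      simp [hne]
    · intro h4
      exact absurd (mem_univ _) h4
  have h2 : (unc Q S i).card ≤ ∑ t,
      if (⟨i, t⟩ : Σ i : Fin Q.k, Fin (Q.d i).np) ∈ P then 0 else (Q.d i).sz t := by
    have h3 : unc Q S i ⊆ (univ.filter (fun t : Fin (Q.d i).np =>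
        (⟨i, t⟩ : Σ i : Fin Q.k, Fin (Q.d i).np) ∉ P)).biUnion
        (fun t => univ.image ((Q.d i).sg t)) := by
      intro x hx
      obtain ⟨t, j, rfl⟩ := unc_sg h M S ψ hS i x hx
      rw [mem_biUnion]
      refine ⟨t, ?_, mem_image_of_mem _ (mem_univ _)⟩
      rw [mem_filter]
      refine ⟨mem_univ _, fun ht => ?_⟩
      obtain ⟨f, hf⟩ := (hP i t).1 ht
      unfold unc at hx
      rw [mem_sdiff, mem_union] at hx
      exact hx.2 (Or.inl ((hS.mem i _).2 (Or.inr ⟨t, f, j, hf, rfl⟩)))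
    refine (card_le_card h3).trans (card_biUnion_le.trans ?_)
    rw [sum_filter]
    refine sum_le_sum fun t _ => ?_
    by_cases ht : (⟨i, t⟩ : Σ i : Fin Q.k, Fin (Q.d i).np) ∈ P
    · simp [ht]
    · simp only [ht, not_false_eq_true, if_true, if_false]
      refine card_image_le.trans ?_
      rw [card_univ, Fintype.card_fin]
  have h3 : ((unc Q S i).card : ℝ) ≤ ∑ t,
      if (⟨i, t⟩ : Σ i : Fin Q.k, Fin (Q.d i).np) ∈ P then (0 : ℝ) else (Q.d i).sz t := by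
    have h4 : ((unc Q S i).card : ℝ) ≤ ((∑ t,
      if (⟨i, t⟩ : Σ i : Fin Q.k, Fin (Q.d i).np) ∈ P then 0 else (Q.d i).sz t : ℕ) : ℝ) := by
      exact_mod_cast h2
    refine h4.trans (le_of_eq ?_)
    push_cast
    rfl
  have h4 : (∑ t, ((Q.d i).sz t : ℝ)) =
      (∑ t, if (⟨i, t⟩ : Σ i : Fin Q.k, Fin (Q.d i).np) ∈ P then (0 : ℝ) else (Q.d i).sz t) +
      ∑ t, if (⟨i, t⟩ : Σ i : Fin Q.k, Fin (Q.d i).np) ∈ P then ((Q.d i).sz t : ℝ) else 0 := by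
    rw [← sum_add_distrib]
    refine sum_congr rfl fun t _ => ?_
    split_ifs <;> simp
  rw [h1, h4]
  linarith

private theorem Core2_dem (h : DatOK Q V1 W D₁ D K A0 δ' ε' γ₂) (M : Finset Q.Hy)
    (S : ∀ i, Finset (Fin (Q.m i))) (ψ : ∀ i, Fin (Q.m i) → V) (hS : PS Q M S ψ)
    (X : ∀ i, Finset (Fin (Q.m i))) (v : V) :
    dem Q.T S ψ X v ≤ Q.cload X v + ∑ e ∈ M, ∑ j, if e.2.2 j = v then
      nb (Q.T e.1) (X e.1) ((Q.d e.1).sg e.2.1 j) else 0 := by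
  classical
  obtain ⟨A, hA⟩ : ∃ A : Finset (Σ i : Fin Q.k, Fin (Q.m i)), A =
      univ.sigma (fun i => ((S i).filter (fun y => ψ i y = v)).filter
        (fun y => y ∉ (Q.d i).Z)) := ⟨_, rfl⟩
  have h1 : dem Q.T S ψ X v ≤ Q.cload X v + ∑ p ∈ A, nb (Q.T p.1) (X p.1) p.2 := by
    rw [hA, sum_sigma]
    unfold dem Dat.cload
    rw [← sum_add_distrib]
    refine sum_le_sum fun i _ => ?_
    have e0 : ∑ y ∈ (S i).filter (fun y => ψ i y = v), nb (Q.T i) (X i) y ≤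
        ∑ z ∈ (Q.d i).Z.filter (fun z => Q.φ i z = v), nb (Q.T i) (X i) z +
        ∑ s ∈ ((S i).filter (fun y => ψ i y = v)).filter (fun y => y ∉ (Q.d i).Z),
          nb (Q.T i) (X i) s := by
      rw [← sum_filter_add_sum_filter_not ((S i).filter (fun y => ψ i y = v))
        (fun y => y ∈ (Q.d i).Z)]
      refine Nat.add_le_add_right (sum_le_sum_of_subset ?_) _
      intro y hy
      rw [mem_filter, mem_filter] at hy
      rw [mem_filter]
      refine ⟨hy.2, ?_⟩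
      rw [← hS.cen i y hy.2]
      exact hy.1.2
    convert e0
    rfl
  have h2 : A ⊆ M.biUnion (fun e => (univ.filter (fun j => e.2.2 j = v)).image
      (fun j => (⟨e.1, (Q.d e.1).sg e.2.1 j⟩ : Σ i : Fin Q.k, Fin (Q.m i)))) := by
    rintro ⟨i, y⟩ hy
    rw [hA, mem_sigma, mem_filter, mem_filter] at hy
    obtain ⟨-, ⟨hyS, hyv⟩, hyZ⟩ := hy
    rcases (hS.mem i y).1 hyS with hz | ⟨t, f, j, hf, rfl⟩
    · exact absurd hz hyZ
    · rw [mem_biUnion]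
      refine ⟨_, hf, ?_⟩
      rw [mem_image]
      refine ⟨j, ?_, rfl⟩
      rw [mem_filter]
      refine ⟨mem_univ _, ?_⟩
      change ψ i ((Q.d i).sg t j) = v at hyv
      rw [hS.pie i t f j hf] at hyv
      exact hyv
  have h3 : ∑ p ∈ A, nb (Q.T p.1) (X p.1) p.2 ≤ ∑ e ∈ M, ∑ j, if e.2.2 j = v then
      nb (Q.T e.1) (X e.1) ((Q.d e.1).sg e.2.1 j) else 0 := by
    refine (sum_le_sum_of_subset h2).trans ((Core2_biUnion _ _ _).trans ?_)
    refine sum_le_sum fun e _ => ?_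
    rw [← sum_filter]
    exact Core2_image _ _ _
  exact h1.trans (Nat.add_le_add_left h3 _)

open Classical in
private theorem Core2_unc (h : DatOK Q V1 W D₁ D K A0 δ' ε' γ₂) (M : Finset Q.Hy)
    (S : ∀ i, Finset (Fin (Q.m i))) (ψ : ∀ i, Fin (Q.m i) → V) (hS : PS Q M S ψ)
    (P : Finset (Σ i : Fin Q.k, Fin (Q.d i).np))
    (hP : ∀ i t, (⟨i, t⟩ : Σ i : Fin Q.k, Fin (Q.d i).np) ∈ P ↔ ∃ f, (⟨i, t, f⟩ : Q.Hy) ∈ M)
    (i : Fin Q.k) (v : V) :
    ∑ y ∈ (S i).filter (fun y => ψ i y = v), nb (Q.T i) (unc Q S i) y ≤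
      (univ.filter (fun t : Fin (Q.d i).np =>
      Q.hst i t = some v ∧ (⟨i, t⟩ : Σ i : Fin Q.k, Fin (Q.d i).np) ∉ P)).card := by
  have h1 : ∀ y ∈ (S i).filter (fun y => ψ i y = v), nb (Q.T i) (unc Q S i) y ≤
      (univ.filter (fun t : Fin (Q.d i).np => (Q.d i).att t = some y ∧
        (⟨i, t⟩ : Σ i : Fin Q.k, Fin (Q.d i).np) ∉ P)).card := by
    intro y hy
    rw [mem_filter] at hy
    unfold nb
    have h2 : (unc Q S i).filter (fun x => (Q.T i).Adj y x) ⊆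
        (univ.filter (fun t : Fin (Q.d i).np => (Q.d i).att t = some y ∧
        (⟨i, t⟩ : Σ i : Fin Q.k, Fin (Q.d i).np) ∉ P)).image
          (fun t => (Q.d i).sg t ((Q.d i).rt t)) := by
      intro x hx
      rw [mem_filter] at hx
      obtain ⟨hxu, hxy⟩ := hx
      obtain ⟨t, j, rfl⟩ := unc_sg h M S ψ hS i x hxu
      have hxS : (Q.d i).sg t j ∉ S i := by
        unfold unc at hxu
        rw [mem_sdiff, mem_union] at hxu
        exact fun h3 => hxu.2 (Or.inl h3)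
      rcases (hS.mem i y).1 hy.1 with hz | ⟨t', f, j', hf, rfl⟩
      · obtain ⟨h3, h4⟩ := (h.dec i).e_Z t j y hz hxy.symm
        rw [mem_image]
        refine ⟨t, ?_, ?_⟩
        · rw [mem_filter]
          refine ⟨mem_univ _, h3, fun h5 => ?_⟩
          obtain ⟨f, hf⟩ := (hP i t).1 h5
          exact hxS ((hS.mem i _).2 (Or.inr ⟨t, f, j, hf, rfl⟩))
        · have h5 : j = (Q.d i).rt t := Fin.ext h4
          rw [h5]
      · obtain ⟨rfl, -⟩ := (h.dec i).e_in t' j' t j hxy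
        exact absurd ((hS.mem i _).2 (Or.inr ⟨t', f, j, hf, rfl⟩)) hxS
    exact (card_le_card h2).trans card_image_le
  refine (sum_le_sum h1).trans ?_
  rw [← card_biUnion]
  · refine card_le_card ?_
    intro t ht
    rw [mem_biUnion] at ht
    obtain ⟨y, hy, ht⟩ := ht
    rw [mem_filter] at hy ht
    rw [mem_filter]
    refine ⟨mem_univ _, ?_, ht.2.2⟩
    have hz := (h.dec i).att_Z t y ht.2.1
    change ((Q.d i).att t).map (Q.φ i) = some v
    rw [ht.2.1, ← hy.2, hS.cen i y hz]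
    rfl
  · intro y _ y' _ hne
    rw [Function.onFun, disjoint_left]
    intro t ht ht'
    rw [mem_filter] at ht ht'
    apply hne
    have h3 := ht.2.1.symm.trans ht'.2.1
    exact Option.some.inj h3

theorem dem1_le (h : DatOK Q V1 W D₁ D K A0 δ' ε' γ₂) (M : Finset Q.Hy)
    (hM : ∀ e ∈ M, ∀ f ∈ M, e ≠ f → Disjoint (Q.el e) (Q.el f))
    (S : ∀ i, Finset (Fin (Q.m i))) (ψ : ∀ i, Fin (Q.m i) → V) (hS : PS Q M S ψ) (v : V) :
    (dem Q.T S ψ (fun i => (Q.d i).C1 ∪ unc Q S i) v : ℝ) ≤ Q.cload (fun i => (Q.d i).C1) v +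
      (Q.load v - ∑ e ∈ M, tst Q (Sum.inr (Sum.inr (Sum.inl v))) e) +
      ∑ e ∈ M, tst Q (Sum.inl v) e := by
  classical
  obtain ⟨P, hP, hPs⟩ := Core2_P hM
  have h1 : dem Q.T S ψ (fun i => (Q.d i).C1 ∪ unc Q S i) v ≤
      dem Q.T S ψ (fun i => (Q.d i).C1) v + dem Q.T S ψ (unc Q S) v := by
    unfold dem
    rw [← sum_add_distrib]
    refine sum_le_sum fun i _ => ?_
    rw [← sum_add_distrib]
    refine sum_le_sum fun y _ => ?_
    unfold nb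
    rw [filter_union]
    exact card_union_le _ _
  have h2 := Core2_dem h M S ψ hS (fun i => (Q.d i).C1) v
  have h3 : ((∑ e ∈ M, ∑ j, if e.2.2 j = v then
      nb (Q.T e.1) (Q.d e.1).C1 ((Q.d e.1).sg e.2.1 j) else 0 : ℕ) : ℝ) =
      ∑ e ∈ M, tst Q (Sum.inl v) e := by
    push_cast
    rfl
  have h4 : dem Q.T S ψ (unc Q S) v ≤ ∑ i, (univ.filter (fun t : Fin (Q.d i).np =>
      Q.hst i t = some v ∧ (⟨i, t⟩ : Σ i : Fin Q.k, Fin (Q.d i).np) ∉ P)).card := by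
    unfold dem
    refine sum_le_sum fun i _ => ?_
    convert Core2_unc h M S ψ hS P hP i v
    rfl
  have h5 : ∑ e ∈ M, tst Q (Sum.inr (Sum.inr (Sum.inl v))) e =
      ((∑ i, (univ.filter (fun t : Fin (Q.d i).np =>
      Q.hst i t = some v ∧ (⟨i, t⟩ : Σ i : Fin Q.k, Fin (Q.d i).np) ∈ P)).card : ℕ) : ℝ) := by
    have h6 := hPs (fun p => if Q.hst p.1 p.2 = some v then (1 : ℝ) else 0)
    have h7 : ∑ e ∈ M, tst Q (Sum.inr (Sum.inr (Sum.inl v))) e =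
        ∑ e ∈ M, if Q.hst e.1 e.2.1 = some v then (1 : ℝ) else 0 := rfl
    rw [h7, h6, Nat.cast_sum]
    refine sum_congr rfl fun i _ => ?_
    rw [card_filter, Nat.cast_sum]
    refine sum_congr rfl fun t _ => ?_
    by_cases hp : (⟨i, t⟩ : Σ i : Fin Q.k, Fin (Q.d i).np) ∈ P
    · simp [hp]
    · simp [hp]
  have h6 : Q.load v = ∑ i, (univ.filter (fun t : Fin (Q.d i).np =>
      Q.hst i t = some v ∧ (⟨i, t⟩ : Σ i : Fin Q.k, Fin (Q.d i).np) ∈ P)).card +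
      ∑ i, (univ.filter (fun t : Fin (Q.d i).np =>
      Q.hst i t = some v ∧ (⟨i, t⟩ : Σ i : Fin Q.k, Fin (Q.d i).np) ∉ P)).card := by
    unfold Dat.load
    rw [← sum_add_distrib]
    refine sum_congr rfl fun i _ => ?_
    have h8 := card_filter_add_card_filter_not (s := univ.filter (fun t : Fin (Q.d i).np =>
      Q.hst i t = some v)) (fun t => (⟨i, t⟩ : Σ i : Fin Q.k, Fin (Q.d i).np) ∈ P)
    rw [filter_filter, filter_filter] at h8
    convert h8.symm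
  have h7 : (Q.load v : ℝ) = ((∑ i, (univ.filter (fun t : Fin (Q.d i).np =>
      Q.hst i t = some v ∧ (⟨i, t⟩ : Σ i : Fin Q.k, Fin (Q.d i).np) ∈ P)).card : ℕ) : ℝ) +
      ((∑ i, (univ.filter (fun t : Fin (Q.d i).np =>
      Q.hst i t = some v ∧ (⟨i, t⟩ : Σ i : Fin Q.k, Fin (Q.d i).np) ∉ P)).card : ℕ) : ℝ) := by
    rw [h6]
    push_cast
    rfl
  rw [h5, ← h3]
  have h8 : (dem Q.T S ψ (fun i => (Q.d i).C1 ∪ unc Q S i) v : ℝ) ≤
      ((dem Q.T S ψ (fun i => (Q.d i).C1) v : ℕ) : ℝ) + ((dem Q.T S ψ (unc Q S) v : ℕ) : ℝ) := by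
    exact_mod_cast h1
  have h9 : ((dem Q.T S ψ (fun i => (Q.d i).C1) v : ℕ) : ℝ) ≤
      (Q.cload (fun i => (Q.d i).C1) v : ℝ) + ((∑ e ∈ M, ∑ j, if e.2.2 j = v then
      nb (Q.T e.1) (Q.d e.1).C1 ((Q.d e.1).sg e.2.1 j) else 0 : ℕ) : ℝ) := by
    exact_mod_cast h2
  have h10 : ((dem Q.T S ψ (unc Q S) v : ℕ) : ℝ) ≤
      ((∑ i, (univ.filter (fun t : Fin (Q.d i).np =>
      Q.hst i t = some v ∧ (⟨i, t⟩ : Σ i : Fin Q.k, Fin (Q.d i).np) ∉ P)).card : ℕ) : ℝ) := by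
    exact_mod_cast h4
  linarith

theorem dem2_le (h : DatOK Q V1 W D₁ D K A0 δ' ε' γ₂) (M : Finset Q.Hy)
    (hM : ∀ e ∈ M, ∀ f ∈ M, e ≠ f → Disjoint (Q.el e) (Q.el f))
    (S : ∀ i, Finset (Fin (Q.m i))) (ψ : ∀ i, Fin (Q.m i) → V) (hS : PS Q M S ψ) (v : V) :
    (dem Q.T S ψ (fun i => (Q.d i).C2) v : ℝ) ≤ Q.cload (fun i => (Q.d i).C2) v +
      ∑ e ∈ M, tst Q (Sum.inr (Sum.inl v)) e := by
  have h2 := Core2_dem h M S ψ hS (fun i => (Q.d i).C2) v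
  have h3 : ((∑ e ∈ M, ∑ j, if e.2.2 j = v then
      nb (Q.T e.1) (Q.d e.1).C2 ((Q.d e.1).sg e.2.1 j) else 0 : ℕ) : ℝ) =
      ∑ e ∈ M, tst Q (Sum.inr (Sum.inl v)) e := by
    classical
    push_cast
    rfl
  rw [← h3]
  exact_mod_cast h2

end MP_80c395_TP
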