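import Pool.Agent.Lib.MP_80c395_co_TP.TDefs

/-!
# Project TP, part T: cutting a forest into pieces of at most `K` vertices

Induction on `|W|`.  If every connected `P ⊆ W` has at most `K` vertices take `C = ∅`.  Otherwise
there is a connected `P ⊆ W` with `|P| ≥ K + 1`.  Choose a root `r : Fin m` of the tree `T` (`T` is
connected) and for a vertex `x` let `B x` be the set of the vertices `y ∈ W` such that `x` is joined
to `y` inside of `W` and `x` is on the path from `r` to `y` (the descendants of `x` in its component
of `T[W]`).  The top vertex `x₀` of the component of `P` (the one with the smallest distance from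
`r`) has `P ⊆ B x₀`, so some `x ∈ W` has `|B x| ≥ K + 1`.  Choose such an `x` with the
largest distance from `r` (or with `|B x|` minimal).  Then for the connected subsets `P'` of `B x` without `x`: `P' ⊆ B y` for the
top vertex `y` of `P'`, a descendant of `x` of larger distance, so `|P'| ≤ |B y| ≤ K`.  Vertices of
`B x \ {x}` have no neighbours in `W \ B x`.  Apply the induction hypothesis to `W \ B x`: it gives
`C'`; let `C = C' ∪ {x}`.  A connected `P' ⊆ W \ C` is contained in `B x \ {x}` or in
`(W \ B x) \ C'` (no edges between).  `(K+1) |C| ≤ (K+1) + |W \ B x| ≤ |W|`.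

Other ways are possible: e.g. order the vertices by distance from `r` (parent function
`par y` = next vertex on the path to `r`), define from the bottom
`R y = 1 + ∑ R c` over the children `c ∈ W` of `y` with `R c ≤ K`, `C = {y ∈ W | R y > K}`.
-/

set_option autoImplicit false

namespace MP_80c395_TP

open Finset

private theorem par_ex {m : ℕ} {T : SimpleGraph (Fin m)} (hT : T.IsTree) :
    ∃ (d : Fin m → ℕ) (par : Fin m → Fin m), ∀ x y, T.Adj x y →
      (par x = y ∧ d y < d x) ∨ (par y = x ∧ d x < d y) := by
  obtain ⟨r⟩ := hT.connected.nonempty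
  have hex : ∀ x, ∃ p : T.Walk r x, p.IsPath ∧ p.length = T.dist r x := fun x =>
    (hT.connected r x).exists_path_of_dist
  choose p hp hl using hex
  have key : ∀ x y, T.Adj x y → T.dist r x = T.dist r y + 1 → (p x).penultimate = y := by
    intro x y hxy hd
    by_cases hy : y ∈ (p x).support
    · exact (hT.isAcyclic.eq_penultimate_of_adj_end (hp x) hxy hy).symm
    · have hx : x ∈ (p y).support :=
        hT.isAcyclic.mem_support_of_ne_mem_support_of_adj_of_isPath (hp y) (hp x) hxy.symm hy
      have h1 := hT.isAcyclic.path_concat (hp x) (hp y) hxy hx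
      have h2 : (p y).length = (p x).length + 1 := by
        rw [h1, SimpleGraph.Walk.length_concat]
      rw [hl, hl] at h2
      omega
  refine ⟨fun x => T.dist r x, fun x => (p x).penultimate, fun x y hxy => ?_⟩
  rcases hT.dist_eq_dist_add_one_of_adj r hxy with h | h
  · left
    exact ⟨key x y hxy h, by show T.dist r y < T.dist r x; omega⟩
  · right
    exact ⟨key y x hxy.symm h, by show T.dist r x < T.dist r y; omega⟩

/-- `b ∈ W` is a child of `a` -/
private def St {m : ℕ} (d : Fin m → ℕ) (par : Fin m → Fin m) (W : Finset (Fin m))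
    (a b : Fin m) : Prop :=
  b ∈ W ∧ par b = a ∧ d a < d b

private theorem top_ex {m : ℕ} {T : SimpleGraph (Fin m)} {d : Fin m → ℕ}
    {par : Fin m → Fin m} (hadj : ∀ x y, T.Adj x y →
      (par x = y ∧ d y < d x) ∨ (par y = x ∧ d x < d y)) {P : Finset (Fin m)}
    (hP : Cn T P) (hne : P.Nonempty) :
    ∃ t ∈ P, ∀ y ∈ P, Relation.ReflTransGen (St d par P) t y := by
  obtain ⟨t, ht, hmin⟩ := P.exists_min_image d hne
  refine ⟨t, ht, fun y hy => ?_⟩
  have key : ∀ (a b : (P : Set (Fin m))) (_ : (T.induce (P : Set (Fin m))).Walk a b),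
      Relation.ReflTransGen (St d par P) t a → Relation.ReflTransGen (St d par P) t b := by
    intro a b w
    induction w with
    | nil => exact id
    | @cons u v _ h q ih =>
      intro ha
      apply ih
      have hv : (v : Fin m) ∈ P := v.2
      rcases hadj (u : Fin m) (v : Fin m) h with ⟨h1, h2⟩ | ⟨h1, h2⟩
      · rcases Relation.ReflTransGen.cases_tail ha with h3 | ⟨c, hc, hc'⟩
        · exfalso
          have h4 := hmin _ hv
          rw [← h3] at h4
          omega
        · have h5 : (v : Fin m) = c := h1.symm.trans hc'.2.1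
          rw [h5]
          exact hc
      · exact ha.tail ⟨hv, h1, h2⟩
  obtain ⟨w⟩ := hP ⟨t, ht⟩ ⟨y, hy⟩
  exact key _ _ w Relation.ReflTransGen.refl

theorem cut_forest {m : ℕ} {T : SimpleGraph (Fin m)} (hT : T.IsTree) (K : ℕ)
    (W : Finset (Fin m)) :
    ∃ C ⊆ W, (K + 1) * C.card ≤ W.card ∧
      ∀ P : Finset (Fin m), P ⊆ W \ C → Cn T P → P.card ≤ K := by
  classical
  obtain ⟨d, par, hadj⟩ := par_ex hT
  induction hn : W.card using Nat.strong_induction_on generalizing W with
  | _ n ih =>
  by_cases hall : ∀ P : Finset (Fin m), P ⊆ W → Cn T P → P.card ≤ K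
  · exact ⟨∅, by simp, by simp, by simpa using hall⟩
  push Not at hall
  obtain ⟨P, hPW, hP, hPK⟩ := hall
  set B : Fin m → Finset (Fin m) := fun x =>
    Finset.univ.filter (fun y => Relation.ReflTransGen (St d par W) x y) with hBdef
  have hmB : ∀ x y, y ∈ B x ↔ Relation.ReflTransGen (St d par W) x y := by
    intro x y
    simp [hBdef]
  have hmono : ∀ (P' : Finset (Fin m)), P' ⊆ W → ∀ a b,
      Relation.ReflTransGen (St d par P') a b → Relation.ReflTransGen (St d par W) a b := by
    intro P' hP' a b hab
    exact Relation.ReflTransGen.mono (fun _ _ h => ⟨hP' h.1, h.2⟩) _ _ hab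
  obtain ⟨t, htP, ht⟩ := top_ex hadj hP (Finset.card_pos.1 (by omega))
  have htB : P ⊆ B t := fun y hy => (hmB t y).2 (hmono P hPW _ _ (ht y hy))
  obtain ⟨x, hx, hxmax⟩ := (W.filter (fun x => K < (B x).card)).exists_max_image d
    ⟨t, Finset.mem_filter.2 ⟨hPW htP, lt_of_lt_of_le hPK (Finset.card_le_card htB)⟩⟩
  obtain ⟨hxW, hxK⟩ := Finset.mem_filter.1 hx
  have hBW : B x ⊆ W := by
    intro y hy
    rcases Relation.ReflTransGen.cases_tail ((hmB x y).1 hy) with h3 | ⟨c, -, hc'⟩
    · rw [h3]
      exact hxW
    · exact hc'.1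
  have hcW : (W \ B x).card + (B x).card = W.card := Finset.card_sdiff_add_card_eq_card hBW
  obtain ⟨C', hC', hcard, hC''⟩ := ih (W \ B x).card (by omega) (W \ B x) rfl
  refine ⟨insert x C', ?_, ?_, ?_⟩
  · intro y hy
    rcases Finset.mem_insert.1 hy with rfl | hy
    · exact hxW
    · exact (Finset.mem_sdiff.1 (hC' hy)).1
  · have h1 : (insert x C').card ≤ C'.card + 1 := Finset.card_insert_le _ _
    have h2 : (K + 1) * (insert x C').card ≤ (K + 1) * (C'.card + 1) :=
      Nat.mul_le_mul_left _ h1
    rw [Nat.mul_add, Nat.mul_one] at h2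
    omega
  · intro P' hP' hcn
    have hP'W : P' ⊆ W := fun y hy => (Finset.mem_sdiff.1 (hP' hy)).1
    have hxP' : x ∉ P' := fun h => (Finset.mem_sdiff.1 (hP' h)).2 (Finset.mem_insert_self _ _)
    rcases P'.eq_empty_or_nonempty with rfl | hne
    · simp
    obtain ⟨s, hsP, hs⟩ := top_ex hadj hcn hne
    by_cases hsB : s ∈ B x
    · have hlt : d x < d s := by
        have hgen : ∀ a b, Relation.ReflTransGen (St d par W) a b → a = b ∨ d a < d b := by
          intro a b hab
          induction hab with
          | refl => exact Or.inl rfl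
          | tail _ h ih' =>
            right
            rcases ih' with rfl | h'
            · exact h.2.2
            · exact h'.trans h.2.2
        rcases hgen _ _ ((hmB x s).1 hsB) with h | h
        · exact absurd (h ▸ hsP) hxP'
        · exact h
      have hsK : (B s).card ≤ K := by
        by_contra hc
        have := hxmax s (Finset.mem_filter.2 ⟨hP'W hsP, by omega⟩)
        omega
      exact (Finset.card_le_card fun y hy =>
        (hmB s y).2 (hmono P' hP'W _ _ (hs y hy))).trans hsK
    · refine hC'' P' (fun y hy => ?_) hcn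
      have hy2 := Finset.mem_sdiff.1 (hP' hy)
      have hyC : y ∉ C' := fun h => hy2.2 (Finset.mem_insert_of_mem h)
      have hyB : y ∉ B x := by
        have hgen : ∀ b, Relation.ReflTransGen (St d par P') s b → b ∉ B x := by
          intro b hb
          induction hb with
          | refl => exact hsB
          | tail _ h ih' =>
            intro hb
            rcases Relation.ReflTransGen.cases_tail ((hmB _ _).1 hb) with h3 | ⟨c, hc, hc'⟩
            · exact hxP' (h3 ▸ h.1)
            · exact ih' ((hmB _ _).2 ((h.2.1.symm.trans hc'.2.1) ▸ hc))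
        exact hgen y (hs y hy)
      exact Finset.mem_sdiff.2 ⟨Finset.mem_sdiff.2 ⟨hy2.1, hyB⟩, hyC⟩

end MP_80c395_TP
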