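import Pool.Agent.Lib.MP_80c395_co_TP.TDefs

/-!
# Project TP, part T: enumeration of a connected set of vertices of a tree, components

`enum_piece`: first show by induction on `l`, `1 ≤ l ≤ |P|`: there is an enumeration
`σ 0 = x0, .., σ (l-1)` of distinct elements of `P` and `q` with `q j < j`, `σ j ~ σ (q j)` for
`0 < j < l`.  Step: the set `A` of the first `l` elements is not all of `P`; `P` is connected,
so there is an edge from some `σ i` to a vertex of `P \ A` (otherwise no walk in `P` leaves `A`); take
that vertex as `σ l`, `q l = i`.  For `l = |P|` all of `P` is enumerated.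
Edges: let `σ i ~ σ j`, say `i < j`, so `0 < j`.  Suppose `q j ≠ i`.  Then the edge `σ i ~ σ j` is no
bridge of the tree: `σ i` is joined to `σ (q j)` by a walk with vertices in `{σ 0, .., σ (j-1)}` and
`σ (q j) ~ σ j`; contradiction.

`comps`: the components of `T[W]`: `(T.induce W).ConnectedComponent` is a finite type
(`Fintype`, via `Classical`), number them by `Fin np` (`Fintype.equivFin`), and let `P t` be the set
of vertices of the component.
-/

set_option autoImplicit false

namespace MP_80c395_TP

open Finset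

private theorem enumP_aux {m : ℕ} {T : SimpleGraph (Fin m)} {P : Finset (Fin m)}
    (hP : Cn T P) {x0 : Fin m} (hx : x0 ∈ P) (l : ℕ) (h1 : 1 ≤ l) (h2 : l ≤ P.card) :
    ∃ (σ : ℕ → Fin m) (q : ℕ → ℕ), σ 0 = x0 ∧ (∀ j, j < l → σ j ∈ P) ∧
      (∀ i j, i < l → j < l → σ i = σ j → i = j) ∧
      (∀ j, 0 < j → j < l → q j < j ∧ T.Adj (σ (q j)) (σ j)) := by
  classical
  induction l, h1 using Nat.le_induction with
  | base =>
    refine ⟨fun _ => x0, fun _ => 0, rfl, fun _ _ => hx, ?_, ?_⟩
    · intro i j hi hj _
      omega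
    · intro j hj hj'
      omega
  | succ l hl ih =>
    obtain ⟨σ, q, h0, hmem, hinj, hq⟩ := ih (by omega)
    set A : Finset (Fin m) := (range l).image σ with hA
    have hAc : A.card = l := by
      rw [hA, card_image_of_injOn, card_range]
      intro i hi j hj hij
      exact hinj i j (by simpa using hi) (by simpa using hj) hij
    have hAP : A ⊆ P := by
      intro x hx'
      rw [hA, mem_image] at hx'
      obtain ⟨j, hj, rfl⟩ := hx'
      exact hmem j (mem_range.mp hj)
    have hx0A : x0 ∈ A := by
      rw [hA, mem_image]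
      exact ⟨0, mem_range.mpr (by omega), h0⟩
    have hex : ∃ a ∈ A, ∃ b ∈ P, b ∉ A ∧ T.Adj a b := by
      by_contra hno
      push Not at hno
      have hnot : ¬ P ⊆ A := by
        intro hPA
        have := card_le_card hPA
        omega
      obtain ⟨y, hyP, hyA⟩ := not_subset.mp hnot
      have hreach : (T.induce (P : Set (Fin m))).Reachable ⟨x0, hx⟩ ⟨y, hyP⟩ := hP _ _
      obtain ⟨w⟩ := hreach
      have key : ∀ (u v : (P : Set (Fin m))) (w : (T.induce (P : Set (Fin m))).Walk u v),
          u.1 ∈ A → v.1 ∈ A := by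
        intro u v w
        induction w with
        | nil => exact fun h => h
        | @cons u v w h p ih' =>
          intro hu
          apply ih'
          by_contra hv
          exact hno u.1 hu v.1 v.2 hv (by simpa using h)
      exact hyA (key _ _ w hx0A)
    obtain ⟨a, haA, b, hbP, hbA, hab⟩ := hex
    rw [hA, mem_image] at haA
    obtain ⟨i0, hi0, rfl⟩ := haA
    have hi0' : i0 < l := mem_range.mp hi0
    have hbne : ∀ j, j < l → σ j ≠ b := by
      intro j hj he
      apply hbA
      rw [hA, mem_image]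
      exact ⟨j, mem_range.mpr hj, he⟩
    refine ⟨Function.update σ l b, Function.update q l i0, ?_, ?_, ?_, ?_⟩
    · rw [Function.update_of_ne (by omega), h0]
    · intro j hj
      by_cases hjl : j = l
      · subst hjl
        simpa using hbP
      · rw [Function.update_of_ne hjl]
        exact hmem j (by omega)
    · intro i j hi hj hij
      by_cases hil : i = l
      · by_cases hjl : j = l
        · omega
        · rw [hil, Function.update_self, Function.update_of_ne hjl] at hij
          exact absurd hij.symm (hbne j (by omega))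
      · by_cases hjl : j = l
        · rw [hjl, Function.update_self, Function.update_of_ne hil] at hij
          exact absurd hij (hbne i (by omega))
        · rw [Function.update_of_ne hil, Function.update_of_ne hjl] at hij
          exact hinj i j (by omega) (by omega) hij
    · intro j hj hjl
      by_cases hj' : j = l
      · subst hj'
        rw [Function.update_self, Function.update_self,
          Function.update_of_ne (by omega : i0 ≠ j)]
        exact ⟨hi0', hab⟩
      · obtain ⟨h3, h4⟩ := hq j hj (by omega)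
        rw [Function.update_of_ne hj', Function.update_of_ne hj',
          Function.update_of_ne (by omega : q j ≠ l)]
        exact ⟨h3, h4⟩

private theorem enumP_edge {m : ℕ} {T : SimpleGraph (Fin m)} (hT : T.IsTree) {l : ℕ}
    {σ : ℕ → Fin m} {q : ℕ → ℕ} (hinj : ∀ i j, i < l → j < l → σ i = σ j → i = j)
    (hq : ∀ j, 0 < j → j < l → q j < j ∧ T.Adj (σ (q j)) (σ j)) {i j : ℕ} (hij : i < j)
    (hj : j < l) (hadj : T.Adj (σ i) (σ j)) : q j = i := by
  by_contra hne
  have hbr : T.IsBridge s(σ i, σ j) :=
    (SimpleGraph.isAcyclic_iff_forall_adj_isBridge.mp hT.isAcyclic) hadj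
  rw [SimpleGraph.isBridge_iff] at hbr
  have hr : ∀ k, k < j → (T.deleteEdges {s(σ i, σ j)}).Reachable (σ 0) (σ k) := by
    intro k
    induction k using Nat.strong_induction_on with
    | _ k ih =>
      intro hk
      rcases Nat.eq_zero_or_pos k with h0 | h0
      · subst h0
        exact SimpleGraph.Reachable.refl _
      · obtain ⟨h3, h4⟩ := hq k h0 (by omega)
        refine (ih (q k) h3 (by omega)).trans (SimpleGraph.Adj.reachable ?_)
        rw [SimpleGraph.deleteEdges_adj]
        refine ⟨h4, ?_⟩
        intro h5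
        rw [Set.mem_singleton_iff, Sym2.eq_iff] at h5
        rcases h5 with ⟨_, h5⟩ | ⟨h5, _⟩
        · have := hinj k j (by omega) hj h5
          omega
        · have := hinj (q k) j (by omega) hj h5
          omega
  obtain ⟨h3, h4⟩ := hq j (by omega) hj
  apply hbr
  refine ((hr i hij).symm.trans (hr (q j) h3)).trans (SimpleGraph.Adj.reachable ?_)
  rw [SimpleGraph.deleteEdges_adj]
  refine ⟨h4, ?_⟩
  intro h5
  rw [Set.mem_singleton_iff, Sym2.eq_iff] at h5
  rcases h5 with ⟨h5, _⟩ | ⟨h5, _⟩
  · exact hne (hinj (q j) i (by omega) (by omega) h5)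
  · have := hinj (q j) j (by omega) hj h5
    omega

theorem enum_piece {m : ℕ} {T : SimpleGraph (Fin m)} (hT : T.IsTree) {P : Finset (Fin m)}
    (hP : Cn T P) {x0 : Fin m} (hx : x0 ∈ P) :
    ∃ (l : ℕ) (hl : 0 < l) (σ : Fin l → Fin m) (q : Fin l → Fin l), l = P.card ∧
      Function.Injective σ ∧ (∀ x, x ∈ P ↔ ∃ j, σ j = x) ∧ σ ⟨0, hl⟩ = x0 ∧
      (∀ j, 0 < j.val → (q j).val < j.val) ∧
      ∀ i j, T.Adj (σ i) (σ j) →
        (0 < i.val ∧ (q i).val = j.val) ∨ (0 < j.val ∧ (q j).val = i.val) := by
  classical
  have hl : 0 < P.card := card_pos.mpr ⟨x0, hx⟩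
  obtain ⟨σ, q, h0, hmem, hinj, hq⟩ := enumP_aux hP hx P.card hl le_rfl
  have hqlt : ∀ j : Fin P.card, (if 0 < j.val then q j.val else 0) < P.card := by
    intro j
    split_ifs with h
    · have := (hq j.val h j.2).1
      have := j.2
      omega
    · exact hl
  refine ⟨P.card, hl, fun j => σ j.val, fun j => ⟨if 0 < j.val then q j.val else 0, hqlt j⟩,
    rfl, ?_, ?_, h0, ?_, ?_⟩
  · intro i j hij
    exact Fin.ext (hinj i.val j.val i.2 j.2 hij)
  · intro x
    have himg : (univ : Finset (Fin P.card)).image (fun j => σ j.val) = P := by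
      apply eq_of_subset_of_card_le
      · intro y hy
        rw [mem_image] at hy
        obtain ⟨j, _, rfl⟩ := hy
        exact hmem j.val j.2
      · rw [card_image_of_injective, card_univ, Fintype.card_fin]
        intro i j hij
        exact Fin.ext (hinj i.val j.val i.2 j.2 hij)
    constructor
    · intro hxP
      rw [← himg, mem_image] at hxP
      obtain ⟨j, _, hj⟩ := hxP
      exact ⟨j, hj⟩
    · rintro ⟨j, rfl⟩
      exact hmem j.val j.2
  · intro j hj
    simp only [hj, if_true]
    exact (hq j.val hj j.2).1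
  · intro i j hadj
    have hne : i.val ≠ j.val := by
      intro h
      have : i = j := Fin.ext h
      subst this
      exact T.loopless.irrefl _ hadj
    rcases Nat.lt_or_gt_of_ne hne with h | h
    · right
      have hj0 : 0 < j.val := by omega
      refine ⟨hj0, ?_⟩
      simp only [hj0, if_true]
      exact enumP_edge hT hinj hq h j.2 hadj
    · left
      have hi0 : 0 < i.val := by omega
      refine ⟨hi0, ?_⟩
      simp only [hi0, if_true]
      exact enumP_edge hT hinj hq h i.2 hadj.symm

theorem comps {m : ℕ} (T : SimpleGraph (Fin m)) (W : Finset (Fin m)) :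
    ∃ (np : ℕ) (P : Fin np → Finset (Fin m)), (∀ t, (P t).Nonempty) ∧ (∀ t, Cn T (P t)) ∧
      (∀ x, x ∈ W ↔ ∃ t, x ∈ P t) ∧ (∀ t t' x, x ∈ P t → x ∈ P t' → t = t') ∧
      ∀ t t' x y, x ∈ P t → y ∈ P t' → T.Adj x y → t = t' := by
  classical
  let G := T.induce (W : Set (Fin m))
  have : Finite G.ConnectedComponent := Quot.finite _
  have : Fintype G.ConnectedComponent := Fintype.ofFinite _
  let e := Fintype.equivFin G.ConnectedComponent
  let P : Fin (Fintype.card G.ConnectedComponent) → Finset (Fin m) := fun t =>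
    univ.filter (fun x => ∃ h : x ∈ (W : Set (Fin m)), G.connectedComponentMk ⟨x, h⟩ = e.symm t)
  have hPm : ∀ t x, x ∈ P t ↔ ∃ h : x ∈ (W : Set (Fin m)),
      G.connectedComponentMk ⟨x, h⟩ = e.symm t := by
    intro t x
    simp only [P, mem_filter, mem_univ, true_and]
  refine ⟨_, P, ?_, ?_, ?_, ?_, ?_⟩
  · intro t
    obtain ⟨v, hv⟩ := (e.symm t).nonempty_supp
    refine ⟨v.1, (hPm t v.1).mpr ⟨v.2, ?_⟩⟩
    simpa using hv
  · intro t
    have key : ∀ (u v : (W : Set (Fin m))) (w : G.Walk u v) (hu : u.1 ∈ P t) (hv : v.1 ∈ P t),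
        (T.induce (P t : Set (Fin m))).Reachable ⟨u.1, hu⟩ ⟨v.1, hv⟩ := by
      intro u v w
      induction w with
      | nil =>
        intro hu hv
        exact SimpleGraph.Reachable.refl _
      | @cons u v w h p ih =>
        intro hu hw
        have hv : v.1 ∈ P t := by
          obtain ⟨h1, h2⟩ := (hPm t u.1).mp hu
          refine (hPm t v.1).mpr ⟨v.2, ?_⟩
          rw [← h2]
          exact (SimpleGraph.ConnectedComponent.eq.mpr h.reachable).symm
        refine SimpleGraph.Reachable.trans (SimpleGraph.Adj.reachable ?_) (ih hv hw)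
        have h' : T.Adj u.1 v.1 := by simpa [G] using h
        simpa using h'
    intro x y
    obtain ⟨hx1, hx2⟩ := (hPm t x.1).mp x.2
    obtain ⟨hy1, hy2⟩ := (hPm t y.1).mp y.2
    have hr : G.Reachable ⟨x.1, hx1⟩ ⟨y.1, hy1⟩ :=
      SimpleGraph.ConnectedComponent.eq.mp (hx2.trans hy2.symm)
    obtain ⟨w⟩ := hr
    exact key _ _ w x.2 y.2
  · intro x
    constructor
    · intro hxW
      refine ⟨e (G.connectedComponentMk ⟨x, hxW⟩), (hPm _ x).mpr ⟨hxW, ?_⟩⟩
      simp
    · rintro ⟨t, ht⟩
      obtain ⟨h, _⟩ := (hPm t x).mp ht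
      exact h
  · intro t t' x h1 h2
    obtain ⟨_, h3⟩ := (hPm t x).mp h1
    obtain ⟨_, h4⟩ := (hPm t' x).mp h2
    exact e.symm.injective (h3.symm.trans h4)
  · intro t t' x y h1 h2 hadj
    obtain ⟨hx1, h3⟩ := (hPm t x).mp h1
    obtain ⟨hy1, h4⟩ := (hPm t' y).mp h2
    have h5 : G.Adj ⟨x, hx1⟩ ⟨y, hy1⟩ := by simpa [G] using hadj
    have h6 : G.connectedComponentMk ⟨x, hx1⟩ = G.connectedComponentMk ⟨y, hy1⟩ :=
      SimpleGraph.ConnectedComponent.eq.mpr h5.reachable
    exact e.symm.injective (h3.symm.trans (h6.trans h4))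

end MP_80c395_TP
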