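import Pool.Agent.Lib.MP_80c395_co_TP.OneEdge
import Pool.Agent.Lib.MP_80c395_co_TP.CutK
import Pool.Agent.Lib.MP_80c395_co_TP.EnumP

/-!
# Project TP, part T: existence of the decomposition of a tree

`deg_count`: `d * |{x | d < deg x}| ≤ 2 m`: the sum of all degrees of a tree on `m` vertices is
`2 (m - 1)` (`SimpleGraph.sum_degrees_eq_twice_card_edges`, `IsTree.card_edgeFinset`; relate
`nb T univ x` to `T.degree x`).

`exists_dec`: `one_edge` gives `Z, C2` (call `C` there `C2`), `cut_forest` for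
`W = univ \ (Z ∪ C2)` gives `C1 ⊆ W`, `comps` for `W \ C1` gives the pieces `P t`, each with at most
`K` vertices.  Root of `P t`: if some `x ∈ P t` is adjacent to some `z ∈ Z`, choose such a pair,
`att t = some z`, root `x` (by `one_edge` the pair `(x, z)` is unique);
otherwise `att t = none`, any root.  `enum_piece` gives `sz t, sg t, pr t`.
Vertices outside of `Z` have degree `≤ D`; `cZ`: `Z ⊆ {x | D₁ < deg x}` and `deg_count`;
`c2`: `|C2| ≤ |{x | D < deg x}|`; `c1`: `(K + 1) |C1| ≤ |W| ≤ m`.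
-/

set_option autoImplicit false

namespace MP_80c395_TP

open Finset

theorem deg_count {m : ℕ} {T : SimpleGraph (Fin m)} (hT : T.IsTree) (d : ℕ) :
    d * (univ.filter (fun x => d < nb T univ x)).card ≤ 2 * m := by
  classical
  have hdeg : ∀ x, nb T univ x = T.degree x := by
    intro x
    unfold nb
    rw [← SimpleGraph.card_neighborFinset_eq_degree]
    congr 1
    ext y
    simp
  have hsum : ∑ x, nb T univ x + 2 = 2 * m := by
    have h1 := T.sum_degrees_eq_twice_card_edges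
    have h2 := hT.card_edgeFinset
    rw [Fintype.card_fin] at h2
    have h3 : ∑ x, nb T univ x = ∑ x, T.degree x := Finset.sum_congr rfl (fun x _ => hdeg x)
    rw [h3]
    have h4 : T.edgeFinset.card + 1 = m := by
      convert h2 using 2
    have h5 : ∑ x, T.degree x = 2 * T.edgeFinset.card := by
      convert h1 using 2
    rw [h5]
    omega
  have h6 : d * (univ.filter (fun x => d < nb T univ x)).card ≤
      ∑ x ∈ univ.filter (fun x => d < nb T univ x), nb T univ x := by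
    rw [mul_comm, ← smul_eq_mul]
    exact Finset.card_nsmul_le_sum _ _ _ (fun x hx => le_of_lt (Finset.mem_filter.1 hx).2)
  have h7 : ∑ x ∈ univ.filter (fun x => d < nb T univ x), nb T univ x ≤ ∑ x, nb T univ x :=
    Finset.sum_le_sum_of_subset (Finset.filter_subset _ _)
  omega

theorem exists_dec {m : ℕ} {T : SimpleGraph (Fin m)} (hT : T.IsTree) (D₁ D K : ℕ)
    (hD : D₁ ≤ D) : ∃ d : Dec m, DecOK T d D₁ D K := by
  classical
  obtain ⟨Z, C2, hZC, hZ1, hZ2, hC2, hC2c, hone⟩ := one_edge hT D₁ D hD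
  obtain ⟨C1, hC1W, hC1c, hC1P⟩ := cut_forest hT K (univ \ (Z ∪ C2))
  obtain ⟨np, P, hPne, hPc, hPm, hPd, hPe⟩ := comps T ((univ \ (Z ∪ C2)) \ C1)
  have hPsub : ∀ t, P t ⊆ (univ \ (Z ∪ C2)) \ C1 := fun t x hx => (hPm x).2 ⟨t, hx⟩
  have hPdis : ∀ t, Disjoint (P t) (Z ∪ C2) := by
    intro t
    rw [Finset.disjoint_left]
    intro x hx hx2
    have h1 := hPsub t hx
    rw [Finset.mem_sdiff, Finset.mem_sdiff] at h1
    exact h1.1.2 hx2
  -- roots
  have hroot : ∀ t, ∃ (x0 : Fin m) (a : Option (Fin m)), x0 ∈ P t ∧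
      (∀ z, a = some z → z ∈ Z ∧ T.Adj x0 z) ∧
      (∀ x ∈ P t, ∀ z ∈ Z, T.Adj x z → a = some z ∧ x = x0) := by
    intro t
    by_cases h : ∃ x ∈ P t, ∃ z ∈ Z, T.Adj x z
    · obtain ⟨x, hx, z, hz, hxz⟩ := h
      refine ⟨x, some z, hx, ?_, ?_⟩
      · intro z' hz'
        obtain rfl : z = z' := Option.some.inj hz'
        exact ⟨hz, hxz⟩
      · intro x' hx' z' hz' hxz'
        obtain ⟨h1, h2⟩ := hone (P t) (hPc t) (hPdis t) x hx x' hx' z hz z' hz' hxz hxz'
        exact ⟨by rw [h2], h1.symm⟩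
    · obtain ⟨x0, hx0⟩ := hPne t
      refine ⟨x0, none, hx0, ?_, ?_⟩
      · intro z hz
        exact absurd hz (by simp)
      · intro x hx z hz hxz
        exact absurd ⟨x, hx, z, hz, hxz⟩ h
  choose x0 at0 hx0 hat1 hat2 using hroot
  have henum := fun t => enum_piece hT (hPc t) (hx0 t)
  choose l hl σ q hlc hσi hσm hσ0 hqlt hσe using henum
  have hσP : ∀ t j, σ t j ∈ P t := fun t j => (hσm t _).2 ⟨j, rfl⟩
  have hσW : ∀ t j, σ t j ∉ Z ∧ σ t j ∉ C2 ∧ σ t j ∉ C1 := by
    intro t j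
    have h1 := hPsub t (hσP t j)
    rw [Finset.mem_sdiff, Finset.mem_sdiff, Finset.mem_union] at h1
    exact ⟨fun h => h1.1.2 (Or.inl h), fun h => h1.1.2 (Or.inr h), h1.2⟩
  have hdegZ : ∀ x, x ∉ Z → nb T univ x ≤ D := by
    intro x hx
    by_contra h
    exact hx (hZ2 x (by omega))
  refine ⟨⟨Z, C1, C2, np, l, σ, q, at0, hl⟩, ?_⟩
  constructor
  · -- sz_le
    intro t
    change l t ≤ K
    rw [hlc t]
    exact hC1P (P t) (hPsub t) (hPc t)
  · -- inj
    intro t j t' j' h
    change σ t j = σ t' j' at h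
    have h1 : t = t' := hPd t t' (σ t j) (hσP t j) (h ▸ hσP t' j')
    subst h1
    exact ⟨rfl, congrArg Fin.val (hσi t h)⟩
  · -- pr_lt
    intro t j hj
    exact hqlt t j hj
  · -- cover
    intro x
    change x ∈ Z ∨ x ∈ C1 ∨ x ∈ C2 ∨ ∃ t j, σ t j = x
    by_cases h1 : x ∈ Z
    · exact Or.inl h1
    by_cases h2 : x ∈ C1
    · exact Or.inr (Or.inl h2)
    by_cases h3 : x ∈ C2
    · exact Or.inr (Or.inr (Or.inl h3))
    · refine Or.inr (Or.inr (Or.inr ?_))
      obtain ⟨t, ht⟩ := (hPm x).1 (by simp [h1, h2, h3])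
      obtain ⟨j, hj⟩ := (hσm t x).1 ht
      exact ⟨t, j, hj⟩
  · intro t j
    exact (hσW t j).1
  · intro t j
    exact (hσW t j).2.2
  · intro t j
    exact (hσW t j).2.1
  · -- Z1
    change Disjoint Z C1
    rw [Finset.disjoint_left]
    intro x hx hx1
    have h1 := hC1W hx1
    rw [Finset.mem_sdiff, Finset.mem_union] at h1
    exact h1.2 (Or.inl hx)
  · exact hZC
  · -- C12
    change Disjoint C1 C2
    rw [Finset.disjoint_left]
    intro x hx hx2
    have h1 := hC1W hx
    rw [Finset.mem_sdiff, Finset.mem_union] at h1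
    exact h1.2 (Or.inr hx2)
  · -- e_in
    intro t j t' j' h
    change T.Adj (σ t j) (σ t' j') at h
    have h1 : t = t' := hPe t t' _ _ (hσP t j) (hσP t' j') h
    subst h1
    exact ⟨rfl, hσe t j j' h⟩
  · -- e_Z
    intro t j z hz h
    change T.Adj (σ t j) z at h
    obtain ⟨h1, h2⟩ := hat2 t (σ t j) (hσP t j) z hz h
    refine ⟨h1, ?_⟩
    have h3 : σ t j = σ t ⟨0, hl t⟩ := by rw [h2, hσ0 t]
    have h4 := hσi t h3
    rw [h4]
  · -- att_Z
    intro t z h
    exact (hat1 t z h).1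
  · -- att_adj
    intro t z h
    change T.Adj (σ t ⟨0, hl t⟩) z
    rw [hσ0 t]
    exact (hat1 t z h).2
  · -- deg_sg
    intro t j
    exact hdegZ _ (hσW t j).1
  · -- deg1
    intro x hx
    apply hdegZ
    intro hxZ
    have h1 := hC1W hx
    rw [Finset.mem_sdiff, Finset.mem_union] at h1
    exact h1.2 (Or.inl hxZ)
  · intro x hx
    exact hC2 x hx
  · -- cZ
    change D₁ * Z.card ≤ 2 * m
    refine le_trans (Nat.mul_le_mul_left _ (Finset.card_le_card ?_)) (deg_count hT D₁)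
    intro x hx
    rw [Finset.mem_filter]
    exact ⟨Finset.mem_univ _, hZ1 x hx⟩
  · -- c1
    change K * C1.card ≤ m
    have h1 : (univ \ (Z ∪ C2)).card ≤ m := by
      refine le_trans (Finset.card_le_univ _) ?_
      simp
    have h2 : K * C1.card ≤ (K + 1) * C1.card := Nat.mul_le_mul_right _ (by omega)
    omega
  · -- c2
    change D * C2.card ≤ 2 * m
    exact le_trans (Nat.mul_le_mul_left _ hC2c) (deg_count hT D)

end MP_80c395_TP
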