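import Pool.Agent.Lib.MP_80c395_co_TP.TDefs

/-!
# Project TP, part G: greedy completion into a fresh set of hosts

The elements `(i, x)`, `x ∈ X i`, are placed one after the other (any order) at hosts of `W`.
State: a set `Y` of placed pairs (`Y i ⊆ X i`), `ψ` on `S i ∪ Y i`, such that
(1) `ψ i` is injective on `S i ∪ Y i`, `ψ i x ∈ W` for `x ∈ Y i`;
(2) no host edge is used by two different trees (as in `PE.dst`, for `S i ∪ Y i`);
(3) every `w ∈ W` is used by at most `b` of the placed pairs.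
Step: let `x ∈ X i \ Y i`.  Forbidden `w ∈ W`:
* `w = ψ i x'` for some `x' ∈ Y i`: at most `N1`;
* `w` used by `b` placed pairs: at most `(∑ |X i|) / b ≤ Nt / b` (double counting,
  `Nat.le_div_iff_mul_le`);
* for a neighbour `y ∈ S i ∪ Y i` of `x` (at most `a` of them), `w` with `s(w, ψ i y)` used by another
  tree `j`: say `s(w, ψ i y) = s(ψ j c, ψ j e)`, `T j`-adjacent `c, e ∈ S j ∪ Y j`.
  As `w ∈ W`, and `S j` is placed outside of `W`, one of `c, e`, say `c`, has `ψ j c = w`, `c ∈ Y j` (the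
  pair is ordered: `ψ j c = w`, `ψ j e = v := ψ i y`).
  If `y ∈ S i`: `v ∉ W`, so `e ∈ S j`; the map `w ↦ (j, c)` is injective, and the number of
  `(j, c, e)` with `c ∈ X j`, `e ∈ S j`, `ψ j e = v`, adjacent, is `dem T S ψ X v ≤ U`.
  If `y ∈ Y i`: `v ∈ W`, so `e ∈ Y j` with `ψ j e = v`: at most `b` pairs `(j, e)`, each with at most
  `a` neighbours `c ∈ X j`: at most `a * b`.
Total at most `N1 + Nt / b + a * max U (a * b) < |W|`, so some `w ∈ W` is allowed; place `x` there.
(2) is preserved: the new used host edges of the tree `i` are `s(w, ψ i y)`, `y` a neighbour of `x` in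
`S i ∪ Y i`.
Suggestion: induction on a `Finset` of `Σ i, Fin (m i)` contained in all pairs, or on the number of
unplaced pairs; use `Function.update` twice for the new `ψ`.
-/

set_option autoImplicit false

namespace MP_80c395_TP

open Finset

/-- the placed elements -/
private def gPl {k : ℕ} {m : Fin k → ℕ} (S : ∀ i, Finset (Fin (m i)))
    (Q : Finset (Σ i, Fin (m i))) (i : Fin k) (x : Fin (m i)) : Prop :=
  x ∈ S i ∨ (⟨i, x⟩ : Σ i, Fin (m i)) ∈ Q

/-- the state of the greedy procedure -/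
private structure GSt {k : ℕ} {m : Fin k → ℕ} (T : ∀ i, SimpleGraph (Fin (m i))) {V : Type}
    [DecidableEq V] (W : Finset V) (S : ∀ i, Finset (Fin (m i))) (ψ : ∀ i, Fin (m i) → V)
    (b : ℕ) (Q : Finset (Σ i, Fin (m i))) (ψ' : ∀ i, Fin (m i) → V) : Prop where
  A : ∀ i x, (⟨i, x⟩ : Σ i, Fin (m i)) ∉ Q → ψ' i x = ψ i x
  B : ∀ i x, (⟨i, x⟩ : Σ i, Fin (m i)) ∈ Q → ψ' i x ∈ W
  C : ∀ i x y, gPl S Q i x → gPl S Q i y → ψ' i x = ψ' i y → x = y
  D : ∀ i j, i ≠ j → ∀ a b c e, gPl S Q i a → gPl S Q i b → gPl S Q j c → gPl S Q j e →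
    (T i).Adj a b → (T j).Adj c e → s(ψ' i a, ψ' i b) ≠ s(ψ' j c, ψ' j e)
  E : ∀ w, (Q.filter (fun q => ψ' q.1 q.2 = w)).card ≤ b

open Classical in
private theorem g_step {k : ℕ} {m : Fin k → ℕ} (T : ∀ i, SimpleGraph (Fin (m i))) {V : Type}
    [Fintype V] [DecidableEq V] (W W' : Finset V)
    (S : ∀ i, Finset (Fin (m i))) (ψ : ∀ i, Fin (m i) → V) (hPE : PE T (W ∪ W') S ψ)
    (X : ∀ i, Finset (Fin (m i))) (hXS : ∀ i, Disjoint (X i) (S i)) (a N1 Nt b U : ℕ)
    (hdeg : ∀ i, ∀ x ∈ X i, nb (T i) univ x ≤ a)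
    (hN1 : ∀ i, (X i).card ≤ N1) (hNt : ∑ i, (X i).card ≤ Nt) (hb : 0 < b)
    (hU : ∀ v, dem T S ψ X v ≤ U)
    (hW : N1 + Nt / b + a * max U (a * b) < W.card)
    (Q : Finset (Σ i, Fin (m i))) (hQ : Q ⊆ (univ : Finset (Fin k)).sigma X)
    (i : Fin k) (x : Fin (m i)) (hx : x ∈ X i) (hxQ : (⟨i, x⟩ : Σ i, Fin (m i)) ∉ Q)
    (ψ' : ∀ i, Fin (m i) → V) (h : GSt T W S ψ b Q ψ') :
    ∃ ψ'' : ∀ i, Fin (m i) → V, GSt T W S ψ b (insert ⟨i, x⟩ Q) ψ'' := by
  have hSQ : ∀ j y, y ∈ S j → (⟨j, y⟩ : Σ i, Fin (m i)) ∉ Q := by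
    intro j y hy hyQ
    have h1 := hQ hyQ
    rw [Finset.mem_sigma] at h1
    exact (Finset.disjoint_left.1 (hXS j) h1.2 hy)
  have hSW : ∀ j y, y ∈ S j → ψ' j y ∉ W := by
    intro j y hy hw
    rw [h.A j y (hSQ j y hy)] at hw
    exact hPE.out j y hy (Finset.mem_union_left _ hw)
  -- forbidden sets
  let F1 : Finset V := (Q.filter (fun q => q.1 = i)).image (fun q => ψ' q.1 q.2)
  let F2 : Finset V := W.filter (fun w => b ≤ (Q.filter (fun q => ψ' q.1 q.2 = w)).card)
  let R : Fin (m i) → Finset (Σ i, Fin (m i)) := fun y =>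
    Q.filter (fun q => ∃ e, gPl S Q q.1 e ∧ (T q.1).Adj q.2 e ∧ ψ' q.1 e = ψ' i y)
  let N : Finset (Fin (m i)) := (univ.filter (fun y => (T i).Adj x y)).filter
    (fun y => gPl S Q i y)
  let F3 : Finset V := N.biUnion (fun y => (R y).image (fun q => ψ' q.1 q.2))
  have hF1 : F1.card ≤ N1 := by
    refine Finset.card_image_le.trans ?_
    refine le_trans ?_ (hN1 i)
    have h1 : Q.filter (fun q => q.1 = i) ⊆ (X i).image (fun y => (⟨i, y⟩ : Σ i, Fin (m i))) := by
      rintro ⟨j, y⟩ hq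
      rw [Finset.mem_filter] at hq
      obtain ⟨hq1, hq2⟩ := hq
      dsimp only at hq2
      subst hq2
      have h2 := hQ hq1
      rw [Finset.mem_sigma] at h2
      exact Finset.mem_image.2 ⟨y, h2.2, rfl⟩
    exact (Finset.card_le_card h1).trans Finset.card_image_le
  have hQc : Q.card ≤ Nt := by
    refine (Finset.card_le_card hQ).trans ?_
    rw [Finset.card_sigma]
    exact hNt
  have hF2 : F2.card ≤ Nt / b := by
    rw [Nat.le_div_iff_mul_le hb]
    have h1 : F2.card * b ≤ ∑ w ∈ F2, (Q.filter (fun q => ψ' q.1 q.2 = w)).card := by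
      rw [← smul_eq_mul, ← Finset.sum_const]
      exact Finset.sum_le_sum (fun w hw => (Finset.mem_filter.1 hw).2)
    have h2 : ∑ w ∈ F2, (Q.filter (fun q => ψ' q.1 q.2 = w)).card ≤ Q.card := by
      rw [← Finset.card_biUnion]
      · exact Finset.card_le_card (Finset.biUnion_subset.2 (fun w _ => Finset.filter_subset _ _))
      · intro w _ w' _ hww'
        refine Finset.disjoint_left.2 ?_
        intro q hq hq'
        exact hww' ((Finset.mem_filter.1 hq).2.symm.trans (Finset.mem_filter.1 hq').2)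
    exact h1.trans (h2.trans hQc)
  have hR : ∀ y ∈ N, (R y).card ≤ max U (a * b) := by
    intro y hy
    obtain ⟨hy1, hy2⟩ := Finset.mem_filter.1 hy
    rcases hy2 with hyS | hyQ
    · -- `y ∈ S i`
      refine le_trans ?_ (le_max_left _ _)
      refine le_trans ?_ (hU (ψ i y))
      have hyv : ψ' i y = ψ i y := h.A i y (hSQ i y hyS)
      have hyW : ψ' i y ∉ W := hSW i y hyS
      have h1 : R y ⊆ (univ : Finset (Fin k)).sigma (fun j =>
          ((S j).filter (fun e => ψ j e = ψ i y)).biUnion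
            (fun e => (X j).filter (fun c => (T j).Adj e c))) := by
        rintro ⟨j, c⟩ hq
        obtain ⟨hq1, e, he, hce, hev⟩ := Finset.mem_filter.1 hq
        dsimp only at he hce hev
        have hc := (Finset.mem_sigma.1 (hQ hq1)).2
        have heS : e ∈ S j := by
          rcases he with he | he
          · exact he
          · exact absurd (hev ▸ h.B j e he) hyW
        rw [Finset.mem_sigma]
        refine ⟨Finset.mem_univ _, ?_⟩
        rw [Finset.mem_biUnion]
        refine ⟨e, Finset.mem_filter.2 ⟨heS, ?_⟩, Finset.mem_filter.2 ⟨hc, hce.symm⟩⟩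
        rw [← h.A j e (hSQ j e heS), hev, hyv]
      refine (Finset.card_le_card h1).trans ?_
      rw [Finset.card_sigma]
      unfold dem
      refine Finset.sum_le_sum (fun j _ => ?_)
      refine Finset.card_biUnion_le.trans (le_of_eq ?_)
      refine Finset.sum_congr ?_ (fun e _ => ?_)
      · ext e
        simp only [Finset.mem_filter]
      · unfold nb
        congr 1
    · -- `y ∈ Y i`
      refine le_trans ?_ (le_max_right _ _)
      have hyW : ψ' i y ∈ W := h.B i y hyQ
      have h1 : R y ⊆ (Q.filter (fun q => ψ' q.1 q.2 = ψ' i y)).biUnion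
          (fun q' => (univ.filter (fun c => (T q'.1).Adj q'.2 c)).image
            (fun c => (⟨q'.1, c⟩ : Σ i, Fin (m i)))) := by
        rintro ⟨j, c⟩ hq
        obtain ⟨hq1, e, he, hce, hev⟩ := Finset.mem_filter.1 hq
        dsimp only at he hce hev
        have heQ : (⟨j, e⟩ : Σ i, Fin (m i)) ∈ Q := by
          rcases he with he | he
          · exact absurd (hev ▸ hyW) (hSW j e he)
          · exact he
        rw [Finset.mem_biUnion]
        refine ⟨⟨j, e⟩, Finset.mem_filter.2 ⟨heQ, hev⟩, ?_⟩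
        exact Finset.mem_image.2 ⟨c, Finset.mem_filter.2 ⟨Finset.mem_univ _, hce.symm⟩, rfl⟩
      refine (Finset.card_le_card h1).trans ?_
      refine Finset.card_biUnion_le.trans ?_
      have h2 : ∀ q' ∈ Q.filter (fun q => ψ' q.1 q.2 = ψ' i y),
          ((univ.filter (fun c => (T q'.1).Adj q'.2 c)).image
            (fun c => (⟨q'.1, c⟩ : Σ i, Fin (m i)))).card ≤ a := by
        intro q' hq'
        refine Finset.card_image_le.trans ?_
        have h3 := (Finset.mem_sigma.1 (hQ (Finset.mem_filter.1 hq').1)).2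
        have h4 := hdeg q'.1 q'.2 h3
        unfold nb at h4
        refine le_trans (le_of_eq ?_) h4
        congr 1
      refine (Finset.sum_le_card_nsmul _ _ a h2).trans ?_
      rw [smul_eq_mul, mul_comm]
      exact Nat.mul_le_mul_left a (h.E _)
  have hF3 : F3.card ≤ a * max U (a * b) := by
    refine Finset.card_biUnion_le.trans ?_
    refine (Finset.sum_le_card_nsmul _ _ (max U (a * b))
      (fun y hy => Finset.card_image_le.trans (hR y hy))).trans ?_
    rw [smul_eq_mul]
    refine Nat.mul_le_mul_right _ ?_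
    refine (Finset.card_le_card (Finset.filter_subset _ _)).trans ?_
    have h4 := hdeg i x hx
    unfold nb at h4
    refine le_trans (le_of_eq ?_) h4
    congr 1
  have hF : (F1 ∪ F2 ∪ F3).card < W.card := by
    refine lt_of_le_of_lt ?_ hW
    refine (Finset.card_union_le _ _).trans ?_
    refine add_le_add ?_ hF3
    exact (Finset.card_union_le _ _).trans (add_le_add hF1 hF2)
  obtain ⟨w, hwW, hwF⟩ := Finset.exists_mem_notMem_of_card_lt_card hF
  rw [Finset.mem_union, Finset.mem_union, not_or, not_or] at hwF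
  obtain ⟨⟨hw1, hw2⟩, hw3⟩ := hwF
  -- consequences
  have k1 : ∀ y, (⟨i, y⟩ : Σ i, Fin (m i)) ∈ Q → ψ' i y ≠ w := by
    intro y hy he
    exact hw1 (Finset.mem_image.2 ⟨⟨i, y⟩, Finset.mem_filter.2 ⟨hy, rfl⟩, he⟩)
  have k2 : (Q.filter (fun q => ψ' q.1 q.2 = w)).card < b := by
    by_contra hc
    exact hw2 (Finset.mem_filter.2 ⟨hwW, not_lt.1 hc⟩)
  have k3 : ∀ y, gPl S Q i y → (T i).Adj x y → ∀ j c e, gPl S Q j c → gPl S Q j e →
      (T j).Adj c e → ψ' j c = w → ψ' j e ≠ ψ' i y := by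
    intro y hy hxy j c e hc he hce hcw hev
    have hcQ : (⟨j, c⟩ : Σ i, Fin (m i)) ∈ Q := by
      rcases hc with hc | hc
      · exact absurd (hcw ▸ hwW) (hSW j c hc)
      · exact hc
    refine hw3 (Finset.mem_biUnion.2 ⟨y, ?_, ?_⟩)
    · exact Finset.mem_filter.2 ⟨Finset.mem_filter.2 ⟨Finset.mem_univ _, hxy⟩, hy⟩
    · exact Finset.mem_image.2 ⟨⟨j, c⟩, Finset.mem_filter.2 ⟨hcQ, e, he, hce, hev⟩, hcw⟩
  -- the new map
  let p : Σ i, Fin (m i) := ⟨i, x⟩
  let ψ'' : ∀ i, Fin (m i) → V := fun j y =>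
    if (⟨j, y⟩ : Σ i, Fin (m i)) = p then w else ψ' j y
  have e1 : ψ'' i x = w := if_pos rfl
  have e2 : ∀ j y, (⟨j, y⟩ : Σ i, Fin (m i)) ≠ p → ψ'' j y = ψ' j y := fun j y hne =>
    if_neg hne
  have e2i : ∀ y, y ≠ x → ψ'' i y = ψ' i y := by
    intro y hy
    refine e2 i y (fun he => hy ?_)
    exact eq_of_heq (Sigma.mk.inj he).2
  have e2j : ∀ j, j ≠ i → ∀ y, ψ'' j y = ψ' j y := by
    intro j hj y
    exact e2 j y (fun he => hj (Sigma.mk.inj he).1)
  have pl : ∀ j y, gPl S (insert p Q) j y → (⟨j, y⟩ : Σ i, Fin (m i)) ≠ p → gPl S Q j y := by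
    intro j y hy hne
    rcases hy with hy | hy
    · exact Or.inl hy
    · exact Or.inr ((Finset.mem_insert.1 hy).resolve_left hne)
  have pli : ∀ y, gPl S (insert p Q) i y → y ≠ x → gPl S Q i y := by
    intro y hy hne
    exact pl i y hy (fun he => hne (eq_of_heq (Sigma.mk.inj he).2))
  have plj : ∀ j, j ≠ i → ∀ y, gPl S (insert p Q) j y → gPl S Q j y := by
    intro j hj y hy
    exact pl j y hy (fun he => hj (Sigma.mk.inj he).1)
  have c0 : ∀ y, gPl S (insert p Q) i y → y ≠ x → ψ'' i y ≠ w := by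
    intro y hy hne he
    rw [e2i y hne] at he
    rcases pli y hy hne with h1 | h1
    · exact hSW i y h1 (he ▸ hwW)
    · exact k1 y h1 he
  -- the core of the condition on host edges
  have d0 : ∀ j, j ≠ i → ∀ a b c e, gPl S (insert p Q) i a → gPl S (insert p Q) i b →
      gPl S Q j c → gPl S Q j e → (T i).Adj a b → (T j).Adj c e →
      s(ψ'' i a, ψ'' i b) ≠ s(ψ' j c, ψ' j e) := by
    intro j hj a b c e ha hb hc he hab hce heq
    by_cases hax : a = x
    · subst hax
      have hbx : b ≠ a := fun hh => (T i).loopless.irrefl a (hh ▸ hab)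
      rw [e1, e2i b hbx, Sym2.eq_iff] at heq
      rcases heq with ⟨h1, h2⟩ | ⟨h1, h2⟩
      · exact k3 b (pli b hb hbx) hab j c e hc he hce h1.symm h2.symm
      · exact k3 b (pli b hb hbx) hab j e c he hc hce.symm h1.symm h2.symm
    · by_cases hbx : b = x
      · subst hbx
        rw [e1, e2i a hax, Sym2.eq_iff] at heq
        rcases heq with ⟨h1, h2⟩ | ⟨h1, h2⟩
        · exact k3 a (pli a ha hax) hab.symm j e c he hc hce.symm h2.symm h1.symm
        · exact k3 a (pli a ha hax) hab.symm j c e hc he hce h2.symm h1.symm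
      · rw [e2i a hax, e2i b hbx] at heq
        exact h.D i j (Ne.symm hj) a b c e (pli a ha hax) (pli b hb hbx) hc he hab hce heq
  refine ⟨ψ'', ?_, ?_, ?_, ?_, ?_⟩
  · intro j y hy
    rw [Finset.mem_insert, not_or] at hy
    rw [e2 j y hy.1]
    exact h.A j y hy.2
  · intro j y hy
    by_cases hne : (⟨j, y⟩ : Σ i, Fin (m i)) = p
    · have : ψ'' j y = w := if_pos hne
      rw [this]
      exact hwW
    · rw [e2 j y hne]
      exact h.B j y ((Finset.mem_insert.1 hy).resolve_left hne)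
  · intro j y z hy hz heq
    by_cases hj : j = i
    · subst hj
      by_cases hyx : y = x
      · by_cases hzx : z = x
        · rw [hyx, hzx]
        · exfalso
          rw [hyx, e1] at heq
          exact c0 z hz hzx heq.symm
      · by_cases hzx : z = x
        · exfalso
          rw [hzx, e1] at heq
          exact c0 y hy hyx heq
        · rw [e2i y hyx, e2i z hzx] at heq
          exact h.C j y z (pli y hy hyx) (pli z hz hzx) heq
    · rw [e2j j hj, e2j j hj] at heq
      exact h.C j y z (plj j hj y hy) (plj j hj z hz) heq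
  · intro j1 j2 hjj a b c e ha hb hc he hab hce heq
    by_cases h1 : j1 = i
    · subst h1
      rw [e2j j2 (Ne.symm hjj) c, e2j j2 (Ne.symm hjj) e] at heq
      exact d0 j2 (Ne.symm hjj) a b c e ha hb (plj j2 (Ne.symm hjj) c hc)
        (plj j2 (Ne.symm hjj) e he) hab hce heq
    · by_cases h2 : j2 = i
      · subst h2
        rw [e2j j1 h1 a, e2j j1 h1 b] at heq
        exact d0 j1 h1 c e a b hc he (plj j1 h1 a ha) (plj j1 h1 b hb) hce hab heq.symm
      · rw [e2j j1 h1, e2j j1 h1, e2j j2 h2, e2j j2 h2] at heq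
        exact h.D j1 j2 hjj a b c e (plj j1 h1 a ha) (plj j1 h1 b hb) (plj j2 h2 c hc)
          (plj j2 h2 e he) hab hce heq
  · intro w'
    have hfil : ∀ u, Q.filter (fun q => ψ'' q.1 q.2 = u) = Q.filter (fun q => ψ' q.1 q.2 = u) := by
      intro u
      refine Finset.filter_congr (fun q hq => ?_)
      have : ψ'' q.1 q.2 = ψ' q.1 q.2 := by
        refine e2 q.1 q.2 (fun hh => hxQ ?_)
        rw [← show p = ⟨i, x⟩ from rfl, ← hh]
        exact hq
      rw [this]
    by_cases hww : w' = w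
    · subst hww
      have h1 : (insert p Q).filter (fun q => ψ'' q.1 q.2 = w') ⊆
          insert p (Q.filter (fun q => ψ'' q.1 q.2 = w')) := by
        intro q hq
        obtain ⟨hq1, hq2⟩ := Finset.mem_filter.1 hq
        rcases Finset.mem_insert.1 hq1 with hq1 | hq1
        · exact Finset.mem_insert.2 (Or.inl hq1)
        · exact Finset.mem_insert.2 (Or.inr (Finset.mem_filter.2 ⟨hq1, hq2⟩))
      refine (Finset.card_le_card h1).trans ?_
      refine (Finset.card_insert_le _ _).trans ?_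
      rw [hfil]
      exact k2
    · have h1 : (insert p Q).filter (fun q => ψ'' q.1 q.2 = w') ⊆
          Q.filter (fun q => ψ'' q.1 q.2 = w') := by
        intro q hq
        obtain ⟨hq1, hq2⟩ := Finset.mem_filter.1 hq
        rcases Finset.mem_insert.1 hq1 with hq1 | hq1
        · exfalso
          rw [hq1] at hq2
          exact hww (hq2.symm.trans e1)
        · exact Finset.mem_filter.2 ⟨hq1, hq2⟩
      refine (Finset.card_le_card h1).trans ?_
      rw [hfil]
      exact h.E w'

theorem greedy {k : ℕ} {m : Fin k → ℕ} (T : ∀ i, SimpleGraph (Fin (m i))) {V : Type}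
    [Fintype V] [DecidableEq V] (W W' : Finset V) (hWW : Disjoint W W')
    (S : ∀ i, Finset (Fin (m i))) (ψ : ∀ i, Fin (m i) → V) (hPE : PE T (W ∪ W') S ψ)
    (X : ∀ i, Finset (Fin (m i))) (hXS : ∀ i, Disjoint (X i) (S i)) (a N1 Nt b U : ℕ)
    (hdeg : ∀ i, ∀ x ∈ X i, nb (T i) univ x ≤ a)
    (hN1 : ∀ i, (X i).card ≤ N1) (hNt : ∑ i, (X i).card ≤ Nt) (hb : 0 < b)
    (hU : ∀ v, dem T S ψ X v ≤ U)
    (hW : N1 + Nt / b + a * max U (a * b) < W.card) :
    ∃ ψ' : ∀ i, Fin (m i) → V, (∀ i, ∀ x ∈ S i, ψ' i x = ψ i x) ∧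
      (∀ i, ∀ x ∈ X i, ψ' i x ∈ W) ∧ PE T W' (fun i => S i ∪ X i) ψ' ∧
      ∀ w ∈ W, ∑ i, ((X i).filter (fun x => ψ' i x = w)).card ≤ b := by
  classical
  have key : ∀ Q : Finset (Σ i, Fin (m i)), Q ⊆ (univ : Finset (Fin k)).sigma X →
      ∃ ψ' : ∀ i, Fin (m i) → V, GSt T W S ψ b Q ψ' := by
    intro Q
    induction Q using Finset.induction_on with
    | empty =>
      intro _
      refine ⟨ψ, ?_, ?_, ?_, ?_, ?_⟩
      · intro i x _
        rfl
      · intro i x hx
        exact absurd hx (Finset.notMem_empty _)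
      · intro i x y hx hy he
        exact hPE.inj i x (hx.resolve_right (Finset.notMem_empty _)) y
          (hy.resolve_right (Finset.notMem_empty _)) he
      · intro i j hij a b c e ha hb hc he hab hce
        exact hPE.dst i j hij a (ha.resolve_right (Finset.notMem_empty _)) b
          (hb.resolve_right (Finset.notMem_empty _)) c
          (hc.resolve_right (Finset.notMem_empty _)) e
          (he.resolve_right (Finset.notMem_empty _)) hab hce
      · intro w
        simp
    | insert p Q hp ih =>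
      intro hpQ
      obtain ⟨i, x⟩ := p
      obtain ⟨ψ', h'⟩ := ih (fun q hq => hpQ (Finset.mem_insert_of_mem hq))
      have hx : x ∈ X i := (Finset.mem_sigma.1 (hpQ (Finset.mem_insert_self _ _))).2
      obtain ⟨ψ'', h''⟩ := g_step T W W' S ψ hPE X hXS a N1 Nt b U hdeg hN1 hNt hb hU hW Q
        (fun q hq => hpQ (Finset.mem_insert_of_mem hq)) i x hx hp ψ' h'
      refine ⟨ψ'', ?_⟩
      convert h''
  obtain ⟨ψ', h'⟩ := key _ (Finset.Subset.refl _)
  have hX : ∀ i x, x ∈ X i → (⟨i, x⟩ : Σ i, Fin (m i)) ∈ (univ : Finset (Fin k)).sigma X :=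
    fun i x hx => Finset.mem_sigma.2 ⟨Finset.mem_univ _, hx⟩
  have hS : ∀ i x, x ∈ S i → ψ' i x = ψ i x := by
    intro i x hx
    refine h'.A i x (fun hh => ?_)
    exact Finset.disjoint_left.1 (hXS i) (Finset.mem_sigma.1 hh).2 hx
  have hP : ∀ i x, x ∈ S i ∪ X i → gPl S ((univ : Finset (Fin k)).sigma X) i x := by
    intro i x hx
    rcases Finset.mem_union.1 hx with hx | hx
    · exact Or.inl hx
    · exact Or.inr (hX i x hx)
  refine ⟨ψ', hS, fun i x hx => h'.B i x (hX i x hx), ⟨?_, ?_, ?_⟩, ?_⟩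
  · intro i x hx y hy he
    exact h'.C i x y (hP i x hx) (hP i y hy) he
  · intro i x hx hw
    rcases Finset.mem_union.1 hx with hx | hx
    · rw [hS i x hx] at hw
      exact hPE.out i x hx (Finset.mem_union_right _ hw)
    · exact Finset.disjoint_left.1 hWW (h'.B i x (hX i x hx)) hw
  · intro i j hij a ha b hb c hc e he hab hce
    exact h'.D i j hij a b c e (hP i a ha) (hP i b hb) (hP j c hc) (hP j e he) hab hce
  · intro w _
    have h1 := h'.E w
    refine le_trans (le_of_eq ?_) h1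
    rw [← Finset.card_sigma]
    congr 1
    ext ⟨i, x⟩
    simp only [Finset.mem_sigma, Finset.mem_filter, Finset.mem_univ, true_and]

end MP_80c395_TP
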