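import Pool.Agent.Lib.MP_dcb6ed_co_CD.Hoeff

/-!
# Project TP, part N: the bounded differences inequality (McDiarmid, with the constant 4)

`EW w F`, `PW w A` (Pool/Agent/Lib/MP_dcb6ed_co_CD/Defs.lean, Pw.lean) are expectation and
probability in the finite product space `I → S` with the coordinate weights `w i`.

`mcd_gen`: suppose `|F ω - F ω'| ≤ c i` if `ω, ω'` differ only in the coordinate `i`.  Then
`E exp (s (F - E F)) ≤ exp (s² ∑ i, c i ^ 2)` for all real `s`.
Proof: by induction on the finite set `V` of coordinates show: if `Dep V F` and `F` has the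
bounded differences `c`, then `EW w (fun ω => exp (s * F ω)) ≤ exp (s * EW w F + s^2 * ∑ i ∈ V, c i ^ 2)`.
`V = ∅`: `F` is constant (`ew_const`).  `V = insert i V'`: let
`G ω := ∑ a, w i a * F (Function.update ω i a)`.  Then `Dep V' G`, `G` has the bounded differences
`c` (average), and `EW w G = EW w F`
(the coordinate `i` is integrated out: `EW w (fun ω => ∑ a, w i a * F (update ω i a)) = EW w F`;
prove this with the sum over all `ω`, e.g. via `Equiv.funSplitAt`, `Equiv.piSplitAt` or
`Fintype.sum_equiv`, the weight is the product `w i (ω i)` times the weight of the others, and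
`∑ a, w i a = 1`).
For fixed `ω` and all `a`: `|F (update ω i a) - G ω| ≤ c i` (`G ω` is an average of the numbers
`F (update ω i b)`), so with
`exp x ≤ x + exp (x^2)` (`exp_le_add_exp_sq`) and `x = s (F - G)`:
`∑ a, w i a * exp (s F (update ω i a)) ≤ exp (s G ω) * (0 + exp (s^2 * c i ^ 2))`.
So `E exp (s F) = E (∑ a, w i a exp (s F (update ω i a))) ≤ exp (s^2 c_i^2) E exp (s G)`; now
the induction hypothesis for `G`.
At the end take `V = univ`, and multiply by `exp (- s * EW w F)`.

`mcd_up`: `markov` with `exp (s (F - E F) - s * lam)`, `s = lam / (2 C)`: the probability is at most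
`exp (s^2 C - s lam) = exp (- lam^2 / (4 C))`.  `mcd_lo`: apply `mcd_up` to `-F`.
-/

set_option autoImplicit false

namespace MP_80c395_TP

open Finset Pool.Agent.Lib.CD

variable {I S : Type} [Fintype I] [DecidableEq I] [Fintype S] [DecidableEq S]

/-- exchange the coordinate `i` of `ω` with `a` -/
private def mcdSw (i : I) (p : (I → S) × S) : (I → S) × S := (Function.update p.1 i p.2, p.1 i)

omit [Fintype I] [Fintype S] [DecidableEq S] in
private theorem mcdSw_inv (i : I) : Function.Involutive (mcdSw (S := S) i) := by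
  rintro ⟨ω, a⟩
  simp [mcdSw]

omit [Fintype S] [DecidableEq S] in
private theorem mcd_weight (w : I → S → ℝ) (i : I) (ω : I → S) (a : S) :
    (∏ j, w j (Function.update ω i a j)) * w i (ω i) = (∏ j, w j (ω j)) * w i a := by
  rw [← Finset.mul_prod_erase Finset.univ (fun j => w j (Function.update ω i a j))
    (Finset.mem_univ i), ← Finset.mul_prod_erase Finset.univ (fun j => w j (ω j))
    (Finset.mem_univ i)]
  have h : ∏ j ∈ Finset.univ.erase i, w j (Function.update ω i a j) =
      ∏ j ∈ Finset.univ.erase i, w j (ω j) := by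
    refine Finset.prod_congr rfl fun j hj => ?_
    rw [Function.update_of_ne (Finset.ne_of_mem_erase hj)]
  rw [h, Function.update_self]
  ring

omit [DecidableEq S] in
/-- integrate out the coordinate `i` -/
private theorem mcd_out {w : I → S → ℝ} (hw : IsW w) (i : I) (F : (I → S) → ℝ) :
    EW w (fun ω => ∑ a, w i a * F (Function.update ω i a)) = EW w F := by
  have h1 : EW w (fun ω => ∑ a, w i a * F (Function.update ω i a)) =
      ∑ p : (I → S) × S, ((∏ j, w j (p.1 j)) * w i p.2) * F (Function.update p.1 i p.2) := by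
    rw [EW, ← Finset.univ_product_univ, Finset.sum_product]
    refine Finset.sum_congr rfl fun ω _ => ?_
    rw [Finset.mul_sum]
    exact Finset.sum_congr rfl fun a _ => by ring
  have h2 : EW w F = ∑ p : (I → S) × S, ((∏ j, w j (p.1 j)) * w i p.2) * F p.1 := by
    rw [EW, ← Finset.univ_product_univ, Finset.sum_product]
    refine Finset.sum_congr rfl fun ω _ => ?_
    have e : ∀ a, ((∏ j, w j (ω j)) * w i a) * F ω = w i a * ((∏ j, w j (ω j)) * F ω) :=
      fun a => by ring
    simp only [e]
    rw [← Finset.sum_mul, hw.one, one_mul]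
  rw [h1, h2, ← Equiv.sum_comp (mcdSw_inv (S := S) i).toPerm]
  refine Finset.sum_congr rfl fun p _ => ?_
  rw [Function.Involutive.coe_toPerm]
  obtain ⟨ω, a⟩ := p
  simp only [mcdSw, Function.update_idem, Function.update_eq_self]
  rw [mcd_weight]

omit [Fintype I] [DecidableEq I] [DecidableEq S] in
private theorem mcd_avg {w : I → S → ℝ} (hw : IsW w) (i : I) (f g : S → ℝ) {c : ℝ}
    (h : ∀ a, |f a - g a| ≤ c) : |∑ a, w i a * f a - ∑ a, w i a * g a| ≤ c := by
  rw [← Finset.sum_sub_distrib]
  refine (Finset.abs_sum_le_sum_abs _ _).trans ?_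
  calc ∑ a, |w i a * f a - w i a * g a| ≤ ∑ a, w i a * c := by
        refine Finset.sum_le_sum fun a _ => ?_
        rw [← mul_sub, abs_mul, abs_of_nonneg (hw.nonneg i a)]
        exact mul_le_mul_of_nonneg_left (h a) (hw.nonneg i a)
    _ = c := by rw [← Finset.sum_mul, hw.one, one_mul]

omit [Fintype I] [DecidableEq I] [DecidableEq S] in
private theorem mcd_one {w : I → S → ℝ} (hw : IsW w) (i : I) (f : S → ℝ) {c : ℝ}
    (h : ∀ a b, |f a - f b| ≤ c) (s : ℝ) :
    ∑ a, w i a * Real.exp (s * f a) ≤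
      Real.exp (s ^ 2 * c ^ 2) * Real.exp (s * ∑ a, w i a * f a) := by
  obtain ⟨G, hG⟩ : ∃ G : ℝ, G = ∑ a, w i a * f a := ⟨_, rfl⟩
  rw [← hG]
  have hdev : ∀ a, |f a - G| ≤ c := by
    intro a
    have h1 : f a = ∑ b, w i b * f a := by rw [← Finset.sum_mul, hw.one, one_mul]
    have h2 := mcd_avg hw i (fun _ => f a) f (fun b => h a b)
    rwa [← h1, ← hG] at h2
  have h3 : ∀ a, Real.exp (s * f a) ≤
      Real.exp (s * G) * (s * (f a - G) + Real.exp (s ^ 2 * c ^ 2)) := by
    intro a
    have e1 : Real.exp (s * f a) = Real.exp (s * G) * Real.exp (s * (f a - G)) := by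
      rw [← Real.exp_add]
      congr 1
      ring
    rw [e1]
    refine mul_le_mul_of_nonneg_left ?_ (Real.exp_pos _).le
    have a1 := exp_le_add_exp_sq (s * (f a - G))
    have a2 : (f a - G) ^ 2 ≤ c ^ 2 := sq_le_sq' (abs_le.1 (hdev a)).1 (abs_le.1 (hdev a)).2
    have a3 : (s * (f a - G)) ^ 2 ≤ s ^ 2 * c ^ 2 := by
      rw [mul_pow]
      exact mul_le_mul_of_nonneg_left a2 (sq_nonneg s)
    have a4 := Real.exp_le_exp.2 a3
    linarith
  calc ∑ a, w i a * Real.exp (s * f a)
      ≤ ∑ a, w i a * (Real.exp (s * G) * (s * (f a - G) + Real.exp (s ^ 2 * c ^ 2))) :=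
        Finset.sum_le_sum fun a _ => mul_le_mul_of_nonneg_left (h3 a) (hw.nonneg i a)
    _ = Real.exp (s * G) * s * (∑ a, w i a * f a) +
        (Real.exp (s * G) * (Real.exp (s ^ 2 * c ^ 2) - s * G)) * ∑ a, w i a := by
        rw [Finset.mul_sum, Finset.mul_sum, ← Finset.sum_add_distrib]
        exact Finset.sum_congr rfl fun a _ => by ring
    _ = Real.exp (s ^ 2 * c ^ 2) * Real.exp (s * G) := by
        rw [hw.one, ← hG]
        ring

private theorem mcd_ind {w : I → S → ℝ} (hw : IsW w) (c : I → ℝ) (s : ℝ) (V : Finset I) :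
    ∀ F : (I → S) → ℝ, Dep V F →
      (∀ (i : I) (ω ω' : I → S), (∀ j, j ≠ i → ω j = ω' j) → |F ω - F ω'| ≤ c i) →
      EW w (fun ω => Real.exp (s * F ω)) ≤
        Real.exp (s * EW w F + s ^ 2 * ∑ i ∈ V, c i ^ 2) := by
  induction V using Finset.induction_on with
  | empty =>
    intro F hF _
    rcases isEmpty_or_nonempty (I → S) with he | ⟨⟨ω0⟩⟩
    · have : EW w (fun ω => Real.exp (s * F ω)) = 0 := by
        unfold EW
        exact Finset.sum_eq_zero fun ω _ => (he.false ω).elim
      rw [this]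
      exact (Real.exp_pos _).le
    · have hc : F = fun _ => F ω0 := by
        funext ω
        exact hF ω ω0 (fun i hi => absurd hi (Finset.notMem_empty i))
      rw [hc, ew_const hw, ew_const hw, Finset.sum_empty, mul_zero, add_zero]
  | insert i V hi ih =>
    intro F hF hL
    set G : (I → S) → ℝ := fun ω => ∑ a, w i a * F (Function.update ω i a) with hG
    have hGd : Dep V G := by
      intro ω ω' h
      refine Finset.sum_congr rfl fun a _ => ?_
      rw [hF (Function.update ω i a) (Function.update ω' i a)]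
      intro j hj
      by_cases hji : j = i
      · subst hji
        rw [Function.update_self, Function.update_self]
      · rw [Function.update_of_ne hji, Function.update_of_ne hji]
        exact h j (Finset.mem_of_mem_insert_of_ne hj hji)
    have hGL : ∀ (k : I) (ω ω' : I → S), (∀ j, j ≠ k → ω j = ω' j) → |G ω - G ω'| ≤ c k := by
      intro k ω ω' h
      refine mcd_avg hw i (fun a => F (Function.update ω i a))
        (fun a => F (Function.update ω' i a)) fun a => ?_
      refine hL k _ _ fun j hj => ?_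
      by_cases hji : j = i
      · subst hji
        rw [Function.update_self, Function.update_self]
      · rw [Function.update_of_ne hji, Function.update_of_ne hji]
        exact h j hj
    have hGE : EW w G = EW w F := mcd_out hw i F
    have h1 := ih G hGd hGL
    have h2 : EW w (fun ω => Real.exp (s * F ω)) ≤
        Real.exp (s ^ 2 * c i ^ 2) * EW w (fun ω => Real.exp (s * G ω)) := by
      rw [← ew_smul, ← mcd_out hw i (fun ω => Real.exp (s * F ω))]
      refine ew_mono hw fun ω => ?_
      refine mcd_one hw i (fun a => F (Function.update ω i a)) (fun a b => ?_) s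
      refine hL i _ _ fun j hj => ?_
      rw [Function.update_of_ne hj, Function.update_of_ne hj]
    refine h2.trans ((mul_le_mul_of_nonneg_left h1 (Real.exp_pos _).le).trans (le_of_eq ?_))
    rw [← Real.exp_add, hGE, Finset.sum_insert hi]
    congr 1
    ring

theorem mcd_gen {w : I → S → ℝ} (hw : IsW w) (F : (I → S) → ℝ) (c : I → ℝ)
    (hL : ∀ (i : I) (ω ω' : I → S), (∀ j, j ≠ i → ω j = ω' j) → |F ω - F ω'| ≤ c i) (s : ℝ) :
    EW w (fun ω => Real.exp (s * (F ω - EW w F))) ≤ Real.exp (s ^ 2 * ∑ i, c i ^ 2) := by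
  have h1 := mcd_ind hw c s Finset.univ F
    (fun ω ω' h => congrArg F (funext fun i => h i (Finset.mem_univ i))) hL
  have e1 : (fun ω => Real.exp (s * (F ω - EW w F))) =
      fun ω => Real.exp (-(s * EW w F)) * Real.exp (s * F ω) := by
    funext ω
    rw [← Real.exp_add]
    congr 1
    ring
  rw [e1, ew_smul]
  refine (mul_le_mul_of_nonneg_left h1 (Real.exp_pos _).le).trans (le_of_eq ?_)
  rw [← Real.exp_add]
  congr 1
  ring

theorem mcd_up {w : I → S → ℝ} (hw : IsW w) (F : (I → S) → ℝ) (c : I → ℝ)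
    (hL : ∀ (i : I) (ω ω' : I → S), (∀ j, j ≠ i → ω j = ω' j) → |F ω - F ω'| ≤ c i)
    {C lam : ℝ} (hC : ∑ i, c i ^ 2 ≤ C) (hC0 : 0 < C) (hl : 0 ≤ lam) :
    PW w (fun ω => EW w F + lam ≤ F ω) ≤ Real.exp (-(lam ^ 2 / (4 * C))) := by
  have hs : 0 ≤ lam / (2 * C) := by positivity
  have e1 : PW w (fun ω => EW w F + lam ≤ F ω) ≤
      EW w (fun ω => Real.exp (-(lam / (2 * C) * lam)) *
        Real.exp (lam / (2 * C) * (F ω - EW w F))) := by
    refine markov hw (fun ω => (mul_pos (Real.exp_pos _) (Real.exp_pos _)).le) fun ω hω => ?_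
    rw [← Real.exp_add]
    refine Real.one_le_exp ?_
    nlinarith
  rw [ew_smul] at e1
  refine le_trans e1 (le_trans (mul_le_mul_of_nonneg_left
    (mcd_gen hw F c hL (lam / (2 * C))) (Real.exp_pos _).le) ?_)
  rw [← Real.exp_add]
  refine Real.exp_le_exp.2 ?_
  have h2 : (lam / (2 * C)) ^ 2 * ∑ i, c i ^ 2 ≤ (lam / (2 * C)) ^ 2 * C :=
    mul_le_mul_of_nonneg_left hC (sq_nonneg _)
  refine (add_le_add_right h2 _).trans (le_of_eq ?_)
  field_simp
  ring

theorem mcd_lo {w : I → S → ℝ} (hw : IsW w) (F : (I → S) → ℝ) (c : I → ℝ)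
    (hL : ∀ (i : I) (ω ω' : I → S), (∀ j, j ≠ i → ω j = ω' j) → |F ω - F ω'| ≤ c i)
    {C lam : ℝ} (hC : ∑ i, c i ^ 2 ≤ C) (hC0 : 0 < C) (hl : 0 ≤ lam) :
    PW w (fun ω => F ω ≤ EW w F - lam) ≤ Real.exp (-(lam ^ 2 / (4 * C))) := by
  have h1 := mcd_up hw (fun ω => (-1) * F ω) c (fun i ω ω' h => by
    have h2 := hL i ω ω' h
    rw [← mul_sub, abs_mul, abs_neg, abs_one, one_mul]
    exact h2) hC hC0 hl
  refine le_trans (pw_mono hw fun ω hω => ?_) h1
  rw [ew_smul]
  linarith

end MP_80c395_TP
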