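import Pool.Agent.Lib.MP_80c395_co_TP.NDefs

/-!
# Project TP, part N: basic estimates for one round

`sum_nbr_le`: a hyperedge `f` of `nbr el e` contains a vertex `x ∈ el e`, so the sum is at most
`∑ x ∈ el e, dg el w x ≤ R` (`Finset.sum_le_sum_of_subset_of_nonneg` and `Finset.sum_biUnion_le`,
or `Finset.card_nsmul..`; nonnegative weights).
`w_le_one`: `el e` contains some `x`, and `w e ≤ dg el w x ≤ 1`.
`ew_le`: `ε ≤ ε * R ≤ 1/4`.
`prod_ge` (Weierstrass): induction on `T`: for `x, y` with `0 ≤ a ≤ 1` and `p ≤ 1`: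
`(1 - a) (1 - b) ≥ 1 - a - b` if `0 ≤ b`; more precisely with `P = ∏ ≥ 1 - b` and `0 ≤ P ≤ 1`:
`(1 - a) P = P - a P ≥ (1 - b) - a`.
`pe_lo`, `kap_lo`: `prod_ge` and `sum_nbr_le`.
`vv_le`: `vv = (1 - ε) w / pe ≤ w / (1 - ε R) ≤ (1 + 2 ε R) w` because `(1 + 2 y)(1 - y) ≥ 1` for
`0 ≤ y ≤ 1/2`.  `vv_le2`: `pe ≥ 3/4`, `1 - ε ≤ 1`.
-/

set_option autoImplicit false

namespace MP_80c395_TP

open Finset Pool.Agent.Lib.CD

variable {E X : Type} [Fintype E] [DecidableEq E] [DecidableEq X]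
variable {el : E → Finset X} {w : E → ℝ} {R : ℕ} {ε γ : ℝ}

private theorem NBase_biUnion {A B : Type} [DecidableEq B] (s : Finset A) (t : A → Finset B)
    {g : B → ℝ} (hg : ∀ b, 0 ≤ g b) : ∑ b ∈ s.biUnion t, g b ≤ ∑ a ∈ s, ∑ b ∈ t a, g b := by
  classical
  induction s using Finset.induction_on with
  | empty => simp
  | insert a s ha ih =>
    rw [biUnion_insert, sum_insert ha]
    have h1 := sum_union_inter (s₁ := t a) (s₂ := s.biUnion t) (f := g)
    have h2 : 0 ≤ ∑ b ∈ t a ∩ s.biUnion t, g b := sum_nonneg fun b _ => hg b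
    linarith

theorem mem_nbr {e f : E} : f ∈ nbr el e ↔ ¬ Disjoint (el e) (el f) := by
  rw [nbr, mem_filter]
  exact ⟨fun h => h.2, fun h => ⟨mem_univ _, h⟩⟩

theorem mem_nbr_comm {e f : E} : f ∈ nbr el e ↔ e ∈ nbr el f := by
  rw [mem_nbr, mem_nbr, disjoint_comm]

theorem mem_st {e : E} {x : X} : e ∈ st el x ↔ x ∈ el e := by
  rw [st, mem_filter]
  exact ⟨fun h => h.2, fun h => ⟨mem_univ _, h⟩⟩

theorem mem_nbr_self (hS : St el w R ε γ) (e : E) : e ∈ nbr el e := by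
  rw [mem_nbr, disjoint_self_iff_empty]
  exact (hS.ne e).ne_empty

theorem st_sub_nbr {e : E} {x : X} (hx : x ∈ el e) : st el x ⊆ nbr el e := by
  intro f hf
  rw [mem_st] at hf
  rw [mem_nbr]
  exact fun h => (disjoint_left.1 h hx) hf

theorem sum_nbr_le (hS : St el w R ε γ) (e : E) : ∑ f ∈ nbr el e, w f ≤ R := by
  have h1 : nbr el e ⊆ (el e).biUnion (st el) := by
    intro f hf
    rw [mem_nbr, not_disjoint_iff] at hf
    obtain ⟨x, hx, hxf⟩ := hf
    exact mem_biUnion.2 ⟨x, hx, mem_st.2 hxf⟩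
  calc ∑ f ∈ nbr el e, w f ≤ ∑ f ∈ (el e).biUnion (st el), w f :=
        sum_le_sum_of_subset_of_nonneg h1 fun f _ _ => hS.w0 f
    _ ≤ ∑ x ∈ el e, ∑ f ∈ st el x, w f := by
        refine NBase_biUnion (el e) (st el) (fun f => hS.w0 f)
    _ ≤ ∑ _x ∈ el e, (1 : ℝ) := sum_le_sum fun x _ => hS.deg x
    _ = ((el e).card : ℝ) := by rw [sum_const, nsmul_eq_mul, mul_one]
    _ ≤ R := by exact_mod_cast hS.card e

theorem w_le_one (hS : St el w R ε γ) (e : E) : w e ≤ 1 := by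
  obtain ⟨x, hx⟩ := hS.ne e
  exact (single_le_sum (f := w) (fun f _ => hS.w0 f) (mem_st.2 hx)).trans (hS.deg x)

private theorem NBase_e1 (hS : St el w R ε γ) : ε ≤ 1 / 4 := by
  have h1 : (1 : ℝ) ≤ R := by exact_mod_cast hS.R0
  have h2 := mul_le_mul_of_nonneg_left h1 hS.e0.le
  linarith [hS.eR]

theorem ew_le (hS : St el w R ε γ) (e : E) : ε * w e ≤ 1 / 4 := by
  have h2 := mul_le_mul_of_nonneg_left (w_le_one hS e) hS.e0.le
  linarith [NBase_e1 hS]

theorem ew_ge (hS : St el w R ε γ) (e : E) : 0 ≤ ε * w e := mul_nonneg hS.e0.le (hS.w0 e)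

theorem isW_sw (hS : St el w R ε γ) : IsW (sw ε w) := by
  refine ⟨fun e b => ?_, fun e => ?_⟩
  · unfold sw
    split_ifs
    · exact ew_ge hS e
    · linarith [ew_le hS e]
  · simp [sw]

theorem prod_le_one (hS : St el w R ε γ) (T : Finset E) : ∏ f ∈ T, (1 - ε * w f) ≤ 1 :=
  Finset.prod_le_one (fun f _ => by linarith [ew_le hS f]) fun f _ => by linarith [ew_ge hS f]

theorem prod_pos' (hS : St el w R ε γ) (T : Finset E) : 0 < ∏ f ∈ T, (1 - ε * w f) :=
  prod_pos fun f _ => by linarith [ew_le hS f]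

theorem prod_ge (hS : St el w R ε γ) (T : Finset E) :
    1 - ε * ∑ f ∈ T, w f ≤ ∏ f ∈ T, (1 - ε * w f) := by
  induction T using Finset.induction_on with
  | empty => simp
  | insert a T ha ih =>
    rw [sum_insert ha, prod_insert ha]
    have h1 := prod_le_one hS T
    have h2 := mul_le_mul_of_nonneg_left h1 (ew_ge hS a)
    nlinarith [ih]

theorem pe_lo (hS : St el w R ε γ) (e : E) : 1 - ε * R ≤ pe el ε w e := by
  have h1 := prod_ge hS (nbr el e)
  have h2 := mul_le_mul_of_nonneg_left (sum_nbr_le hS e) hS.e0.le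
  exact (by linarith : 1 - ε * R ≤ 1 - ε * ∑ f ∈ nbr el e, w f).trans h1

theorem pe_lo' (hS : St el w R ε γ) (e : E) : 3 / 4 ≤ pe el ε w e := by
  have h1 := pe_lo hS e
  linarith [hS.eR]

theorem pe_le_one (hS : St el w R ε γ) (e : E) : pe el ε w e ≤ 1 := prod_le_one hS _

theorem kap_lo (hS : St el w R ε γ) (x : X) : 1 - ε * dg el w x ≤ kap el ε w x :=
  prod_ge hS (st el x)

theorem kap_lo' (hS : St el w R ε γ) (x : X) : 3 / 4 ≤ kap el ε w x := by
  have h1 := kap_lo hS x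
  have h2 := mul_le_mul_of_nonneg_left (hS.deg x) hS.e0.le
  linarith [NBase_e1 hS]

theorem kap_le_one (hS : St el w R ε γ) (x : X) : kap el ε w x ≤ 1 := prod_le_one hS _

theorem dg_nonneg (hS : St el w R ε γ) (x : X) : 0 ≤ dg el w x := sum_nonneg fun f _ => hS.w0 f

theorem vv_nonneg (hS : St el w R ε γ) (e : E) : 0 ≤ vv el ε w e := by
  have h1 := pe_lo' hS e
  exact div_nonneg (mul_nonneg (by linarith [NBase_e1 hS]) (hS.w0 e)) (by linarith)

theorem vv_mul_pe (hS : St el w R ε γ) (e : E) : vv el ε w e * pe el ε w e = (1 - ε) * w e := by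
  have h1 := pe_lo' hS e
  exact div_mul_cancel₀ _ (by linarith)

theorem vv_le (hS : St el w R ε γ) (e : E) : vv el ε w e ≤ (1 + 2 * ε * R) * w e := by
  have h1 := pe_lo' hS e
  have h2 := pe_lo hS e
  have h3 : 0 ≤ ε * R := mul_nonneg hS.e0.le (Nat.cast_nonneg R)
  have h4 := hS.eR
  unfold vv
  rw [div_le_iff₀ (by linarith)]
  have h5 : (1 + 2 * ε * R) * (1 - ε * R) * w e ≤ (1 + 2 * ε * R) * w e * pe el ε w e := by
    have h6 := mul_le_mul_of_nonneg_left h2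
      (mul_nonneg (by linarith : 0 ≤ 1 + 2 * ε * R) (hS.w0 e))
    linarith
  have h7 : 1 ≤ (1 + 2 * ε * R) * (1 - ε * R) := by nlinarith
  have h8 := mul_le_mul_of_nonneg_right h7 (hS.w0 e)
  have h9 := mul_nonneg hS.e0.le (hS.w0 e)
  linarith

theorem vv_le2 (hS : St el w R ε γ) (e : E) : vv el ε w e ≤ 2 * w e := by
  have h1 := vv_le hS e
  have h2 : (1 + 2 * ε * R) * w e ≤ 2 * w e :=
    mul_le_mul_of_nonneg_right (by linarith [hS.eR]) (hS.w0 e)
  exact h1.trans h2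

end MP_80c395_TP
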