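import Pool.Agent.Lib.MP_80c395_co_TP.NVar

/-!
# Project TP, part N: expectations of the new weights and of the accepted weight

`E_nw_le`: `nw ≤ vv` on survival, `0` otherwise (`1 + ε^2 ≥ 1`), so `E nw ≤ vv * pe = (1-ε) w`.

`E_nw_ge`: `nw e ≥ vv / (1 + ε^2) * (1_{Surv e} - ∑ x ∈ el e, 1_{1 + ε^2 < Sx x})`.  Expectation:
`≥ vv / (1 + ε^2) * (pe - R * 8 ε R^2 γ / ε^4)` (`p_surv`, `p_big` with `ξ = ε^2`),
`8 R^3 γ / ε^3 ≤ ε^2 / 2` by `hg`; `vv * pe = (1-ε) w`, `vv ≤ (4/3)(1-ε) w`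
(`pe ≥ 3/4`).  So `≥ (1-ε) w (1 - (2/3) ε^2) / (1 + ε^2) ≥ (1-ε) w (1 - (5/3) ε^2)
≥ (1 - ε - 2 ε^2) w`.

`E_tot_le`, `E_tot_ge`: linearity, `h ≥ 0`.

`E_acc_le`, `E_acc_ge`: linearity and `p_acpt`; the product over `(nbr e).erase e` is at most `1`
and at least `1 - ε * ∑ w ≥ 1 - ε R` (`prod_ge`, `sum_nbr_le`).
-/

set_option autoImplicit false

namespace MP_80c395_TP

open Finset Pool.Agent.Lib.CD

variable {E X : Type} [Fintype E] [DecidableEq E] [DecidableEq X]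
variable {el : E → Finset X} {w : E → ℝ} {R : ℕ} {ε γ : ℝ}

open Classical in
private theorem nexp_surv (hS : St el w R ε γ) (e : E) :
    EW (sw ε w) (fun ω => if Surv el ω e then (1 : ℝ) else 0) = pe el ε w e := by
  rw [← p_surv hS e, Pw_eq]

theorem E_nw_le (hS : St el w R ε γ) (e : E) :
    EW (sw ε w) (fun ω => nw el ε w ω e) ≤ (1 - ε) * w e := by
  classical
  have hv := vv_nonneg hS e
  rw [← vv_mul_pe hS e, ← nexp_surv hS e, ← ew_smul]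
  refine ew_mono (isW_sw hS) fun ω => ?_
  unfold nw
  by_cases h : Surv el ω e
  · rw [if_pos h, mul_one]
    split_ifs
    · refine div_le_self hv ?_
      nlinarith [sq_nonneg ε]
    · exact hv
  · rw [if_neg (fun h' => h h'.1), if_neg h, mul_zero]

theorem E_nw_ge (hS : St el w R ε γ) (hg : 16 * (R : ℝ) ^ 3 * γ ≤ ε ^ 5) (e : E) :
    (1 - ε - 2 * ε ^ 2) * w e ≤ EW (sw ε w) (fun ω => nw el ε w ω e) := by
  classical
  have hv := vv_nonneg hS e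
  have he0 := hS.e0
  have h1e : 0 < 1 + ε ^ 2 := by positivity
  have hlow : EW (sw ε w) (fun ω => vv el ε w e / (1 + ε ^ 2) *
      ((if Surv el ω e then (1 : ℝ) else 0) +
        (-1) * ∑ x ∈ el e, (if 1 + ε ^ 2 < Sx el ε w x ω then (1 : ℝ) else 0))) ≤
      EW (sw ε w) (fun ω => nw el ε w ω e) := by
    refine ew_mono (isW_sw hS) fun ω => ?_
    have hs0 : ∀ x ∈ el e, (0:ℝ) ≤ (if 1 + ε ^ 2 < Sx el ε w x ω then (1 : ℝ) else 0) := by
      intro x _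
      split_ifs <;> norm_num
    have hsum := Finset.sum_nonneg hs0
    have hvd : 0 ≤ vv el ε w e / (1 + ε ^ 2) := div_nonneg hv h1e.le
    unfold nw
    by_cases h : Surv el ω e ∧ ∀ x ∈ el e, Sx el ε w x ω ≤ 1 + ε ^ 2
    · rw [if_pos h, if_pos h.1]
      nlinarith
    · rw [if_neg h]
      by_cases h2 : Surv el ω e
      · have h3 : ∃ x ∈ el e, 1 + ε ^ 2 < Sx el ε w x ω := by
          by_contra h4
          push Not at h4
          exact h ⟨h2, h4⟩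
        obtain ⟨x, hx, hx2⟩ := h3
        have h5 : (1:ℝ) ≤ ∑ x ∈ el e, (if 1 + ε ^ 2 < Sx el ε w x ω then (1 : ℝ) else 0) := by
          calc (1:ℝ) = (if 1 + ε ^ 2 < Sx el ε w x ω then (1 : ℝ) else 0) := by rw [if_pos hx2]
            _ ≤ _ := Finset.single_le_sum hs0 hx
        rw [if_pos h2]
        nlinarith
      · rw [if_neg h2]
        nlinarith
  refine le_trans ?_ hlow
  rw [ew_smul, ew_add, ew_smul, ew_sum, nexp_surv hS e]
  have hp : ∀ x : X, EW (sw ε w) (fun ω => if 1 + ε ^ 2 < Sx el ε w x ω then (1 : ℝ) else 0) ≤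
      8 * ε * R ^ 2 * γ / (ε ^ 2) ^ 2 := by
    intro x
    have h := p_big hS x (by positivity : 0 < ε ^ 2)
    rwa [Pw_eq] at h
  have hcR : ((el e).card : ℝ) ≤ R := by exact_mod_cast hS.card e
  have hγ := hS.g0
  have hq0 : 0 ≤ 8 * ε * R ^ 2 * γ / (ε ^ 2) ^ 2 := by positivity
  have hsum : ∑ x ∈ el e,
      EW (sw ε w) (fun ω => if 1 + ε ^ 2 < Sx el ε w x ω then (1 : ℝ) else 0) ≤ ε ^ 2 / 2 := by
    refine (Finset.sum_le_card_nsmul _ _ _ fun x _ => hp x).trans ?_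
    rw [nsmul_eq_mul]
    refine (mul_le_mul_of_nonneg_right hcR hq0).trans ?_
    rw [← mul_div_assoc, div_le_iff₀ (by positivity)]
    have h1 := mul_le_mul_of_nonneg_right hg he0.le
    have e1 : (R : ℝ) * (8 * ε * R ^ 2 * γ) = (16 * (R : ℝ) ^ 3 * γ * ε) / 2 := by ring
    have e2 : ε ^ 2 / 2 * (ε ^ 2) ^ 2 = (ε ^ 5 * ε) / 2 := by ring
    rw [e1, e2]
    linarith
  obtain ⟨D, hD⟩ : ∃ D : ℝ, D = ∑ x ∈ el e,
      EW (sw ε w) (fun ω => if 1 + ε ^ 2 < Sx el ε w x ω then (1 : ℝ) else 0) := ⟨_, rfl⟩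
  rw [← hD] at hsum ⊢
  obtain ⟨v, hvv⟩ : ∃ v : ℝ, v = vv el ε w e := ⟨_, rfl⟩
  obtain ⟨q, hq⟩ : ∃ q : ℝ, q = pe el ε w e := ⟨_, rfl⟩
  have hvp := vv_mul_pe hS e
  have hq34 := pe_lo' hS e
  rw [← hvv] at hv hvp ⊢
  rw [← hq] at hvp hq34 ⊢
  have hw0 := hS.w0 e
  have he14 : ε ≤ 1 / 4 := by
    have h1 := hS.eR
    have h2 : (1:ℝ) ≤ R := by exact_mod_cast hS.R0
    nlinarith
  rw [div_mul_eq_mul_div, le_div_iff₀ h1e]
  have h1 : v * (3 / 4) ≤ (1 - ε) * w e := by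
    rw [← hvp]
    exact mul_le_mul_of_nonneg_left hq34 hv
  have h2 : v * D ≤ v * (ε ^ 2 / 2) := mul_le_mul_of_nonneg_left hsum hv
  have h3 : v * (ε ^ 2 / 2) ≤ (4 / 3 * ((1 - ε) * w e)) * (ε ^ 2 / 2) :=
    mul_le_mul_of_nonneg_right (by linarith) (by positivity)
  have h4 : v * (q + -1 * D) = (1 - ε) * w e - v * D := by
    rw [← hvp]
    ring
  rw [h4]
  have h5 : 0 ≤ w e * (1 / 3 * ε ^ 2 + 5 / 3 * ε ^ 3 + 2 * ε ^ 4) := by positivity
  nlinarith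

private theorem nexp_lin (h : E → ℝ) :
    EW (sw ε w) (fun ω => ∑ e, nw el ε w ω e * h e) =
      ∑ e, h e * EW (sw ε w) (fun ω => nw el ε w ω e) := by
  rw [ew_sum]
  refine Finset.sum_congr rfl fun e _ => ?_
  rw [← ew_smul]
  congr 1
  funext ω
  exact mul_comm _ _

theorem E_tot_le (hS : St el w R ε γ) (h : E → ℝ) (h0 : ∀ e, 0 ≤ h e) :
    EW (sw ε w) (fun ω => ∑ e, nw el ε w ω e * h e) ≤ (1 - ε) * ∑ e, w e * h e := by
  rw [nexp_lin, Finset.mul_sum]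
  refine Finset.sum_le_sum fun e _ => ?_
  have h1 := mul_le_mul_of_nonneg_left (E_nw_le hS e) (h0 e)
  linarith

theorem E_tot_ge (hS : St el w R ε γ) (hg : 16 * (R : ℝ) ^ 3 * γ ≤ ε ^ 5) (h : E → ℝ)
    (h0 : ∀ e, 0 ≤ h e) :
    (1 - ε - 2 * ε ^ 2) * ∑ e, w e * h e ≤
      EW (sw ε w) (fun ω => ∑ e, nw el ε w ω e * h e) := by
  rw [nexp_lin, Finset.mul_sum]
  refine Finset.sum_le_sum fun e _ => ?_
  have h1 := mul_le_mul_of_nonneg_left (E_nw_ge hS hg e) (h0 e)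
  linarith

private theorem nexp_acc (hS : St el w R ε γ) (h : E → ℝ) :
    EW (sw ε w) (acc el h) =
      ∑ e, h e * (ε * w e * ∏ f ∈ (nbr el e).erase e, (1 - ε * w f)) := by
  classical
  have h1 : acc el h = fun ω => ∑ e, h e * (if Acpt el ω e then (1 : ℝ) else 0) := by
    funext ω
    unfold acc
    refine Finset.sum_congr rfl fun e _ => ?_
    by_cases hA : Acpt el ω e
    · rw [if_pos hA, if_pos hA, mul_one]
    · rw [if_neg hA, if_neg hA, mul_zero]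
  rw [h1, ew_sum]
  refine Finset.sum_congr rfl fun e _ => ?_
  rw [ew_smul, ← p_acpt hS e, Pw_eq]

theorem E_acc_le (hS : St el w R ε γ) (h : E → ℝ) (h0 : ∀ e, 0 ≤ h e) :
    EW (sw ε w) (acc el h) ≤ ε * ∑ e, w e * h e := by
  rw [nexp_acc hS, Finset.mul_sum]
  refine Finset.sum_le_sum fun e _ => ?_
  have h1 := prod_le_one hS ((nbr el e).erase e)
  have h2 : 0 ≤ h e * (ε * w e) := mul_nonneg (h0 e) (ew_ge hS e)
  have h3 := mul_le_mul_of_nonneg_left h1 h2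
  nlinarith

theorem E_acc_ge (hS : St el w R ε γ) (h : E → ℝ) (h0 : ∀ e, 0 ≤ h e) :
    ε * (1 - ε * R) * ∑ e, w e * h e ≤ EW (sw ε w) (acc el h) := by
  rw [nexp_acc hS, Finset.mul_sum]
  refine Finset.sum_le_sum fun e _ => ?_
  have h1 := prod_ge hS ((nbr el e).erase e)
  have h4 : ∑ f ∈ (nbr el e).erase e, w f ≤ R :=
    (Finset.sum_le_sum_of_subset_of_nonneg (Finset.erase_subset _ _)
      fun f _ _ => hS.w0 f).trans (sum_nbr_le hS e)
  have h5 : ε * ∑ f ∈ (nbr el e).erase e, w f ≤ ε * R :=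
    mul_le_mul_of_nonneg_left h4 hS.e0.le
  have h6 : 1 - ε * R ≤ ∏ f ∈ (nbr el e).erase e, (1 - ε * w f) := by linarith
  have h2 : 0 ≤ h e * (ε * w e) := mul_nonneg (h0 e) (ew_ge hS e)
  have h3 := mul_le_mul_of_nonneg_left h6 h2
  nlinarith

end MP_80c395_TP
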