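import Pool.Agent.Lib.MP_80c395_co_TP.NIter

/-!
# Project TP, part N: the nibble for hypergraphs with bounded support degree

Choose `ε = min (1 / (4 R)) (δ / (4 (R + 2)))`, `J ≥ 1` with `(1 - ε)^J ≤ δ / 4`,
`γ = ε^5 / (16 R^3 (1 + 2 ε R)^J)`.  Given `Δ, Q` let
`C = 3 * 256 * J^2 * (R Δ)^4 * Q / δ^2`.  Apply `iter` with `S = Q s`, `lam = δ s / (8 J)`:
`lam^2 / (4 (R Δ)^4 Q s) = δ^2 s / (256 J^2 (R Δ)^4 Q) ≥ 3 log (card Θ + 2)`, so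
`4 card Θ * exp (- ..) ≤ 4 card Θ / (card Θ + 2)^3 < 1`.  (`s > 0` because `log (card Θ + 2) > 0`.)
Error: `(δ/4 + δ/4) s + 2 J lam = (3/4) δ s`.  (`0 ≤ ∑ w h ≤ s`.)
-/

set_option autoImplicit false

namespace MP_80c395_TP

open Finset Pool.Agent.Lib.CD

theorem nib (R : ℕ) (hR : 1 ≤ R) (δ : ℝ) (hδ : 0 < δ) (hδ1 : δ ≤ 1) :
    ∃ γ : ℝ, 0 < γ ∧ ∀ (Δ : ℕ) (Q : ℝ), 1 ≤ Δ → 1 ≤ Q → ∃ C : ℝ, 0 < C ∧
      ∀ (E X Θ : Type) [Fintype E] [DecidableEq E] [DecidableEq X] [Fintype Θ]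
        (el : E → Finset X) (w : E → ℝ) (h : Θ → E → ℝ) (s : ℝ),
        (∀ e, (el e).Nonempty) → (∀ e, (el e).card ≤ R) → (∀ e, 0 ≤ w e) → (∀ e, w e ≤ γ) →
        (∀ x, dg el w x ≤ 1) → (∀ x y, x ≠ y → cd el w x y ≤ γ) →
        (∀ x, (st el x).card ≤ Δ) → (∀ θ e, 0 ≤ h θ e) → (∀ θ e, h θ e ≤ 1) →
        (∀ θ, ∑ e, h θ e ≤ Q * s) → (∀ θ, ∑ e, w e * h θ e ≤ s) →
        C * Real.log (Fintype.card Θ + 2) ≤ s →
        ∃ M : Finset E, (∀ e ∈ M, 0 < w e) ∧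
          (∀ e ∈ M, ∀ f ∈ M, e ≠ f → Disjoint (el e) (el f)) ∧
          ∀ θ, |∑ e ∈ M, h θ e - ∑ e, w e * h θ e| ≤ δ * s := by
  have hR0 : (0 : ℝ) < R := by exact_mod_cast hR
  set ε : ℝ := min (1 / (4 * R)) (δ / (4 * (R + 2))) with hε
  have hε0 : 0 < ε := lt_min (by positivity) (by positivity)
  have hεR : ε * R ≤ 1 / 4 := by
    have h1 : ε ≤ 1 / (4 * R) := min_le_left _ _
    have h2 := mul_le_mul_of_nonneg_right h1 hR0.le
    have h3 : 1 / (4 * (R : ℝ)) * R = 1 / 4 := by field_simp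
    rwa [h3] at h2
  have hε2 : ε * (R + 2) ≤ δ / 4 := by
    have h1 : ε ≤ δ / (4 * (R + 2)) := min_le_right _ _
    have h2 := mul_le_mul_of_nonneg_right h1 (by positivity : (0 : ℝ) ≤ R + 2)
    have h3 : δ / (4 * ((R : ℝ) + 2)) * (R + 2) = δ / 4 := by field_simp
    rwa [h3] at h2
  have hR1 : (1 : ℝ) ≤ R := by exact_mod_cast hR
  have hε1 : ε ≤ 1 / 4 := by nlinarith
  obtain ⟨J0, hJ0⟩ := exists_pow_lt_of_lt_one (by positivity : (0 : ℝ) < δ / 4)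
    (by linarith : 1 - ε < 1)
  set J : ℕ := J0 + 1 with hJ
  have hJ1 : (1 : ℝ) ≤ J := by
    rw [hJ]
    push_cast
    linarith [(Nat.cast_nonneg J0 : (0 : ℝ) ≤ J0)]
  have hpow : (1 - ε) ^ J ≤ δ / 4 :=
    (pow_le_pow_of_le_one (by linarith) (by linarith) (Nat.le_succ J0)).trans hJ0.le
  set γ : ℝ := ε ^ 5 / (16 * (R : ℝ) ^ 3 * (1 + 2 * ε * R) ^ J) with hγ
  have hγ0 : 0 < γ := by positivity
  have hγe : 16 * (R : ℝ) ^ 3 * ((1 + 2 * ε * R) ^ J * γ) = ε ^ 5 := by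
    rw [hγ]
    field_simp
  refine ⟨γ, hγ0, fun Δ Q hΔ1 hQ1 => ?_⟩
  have hΔ0 : (0 : ℝ) < Δ := by exact_mod_cast hΔ1
  have hQ0 : 0 < Q := by linarith
  have hJpos : (0 : ℝ) < J := by linarith
  refine ⟨768 * (J : ℝ) ^ 2 * ((R : ℝ) * Δ) ^ 4 * Q / δ ^ 2, by positivity, ?_⟩
  intro E X Θ _ _ _ _ el w h s hne hcard hw0 hwg hdg hcd hΔ h0 h1 hSum hs hlog
  set n : ℝ := (Fintype.card Θ : ℝ) with hn
  have hn0 : 0 ≤ n := Nat.cast_nonneg _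
  have hlogpos : 0 < Real.log (n + 2) := Real.log_pos (by linarith)
  have hs0 : 0 < s := lt_of_lt_of_le (by positivity) hlog
  have hSt : St el w R ε γ :=
    { ne := hne
      card := hcard
      w0 := hw0
      wg := hwg
      deg := hdg
      cod := hcd
      R0 := hR
      g0 := hγ0.le
      e0 := hε0
      eR := hεR }
  have hlam : 0 < δ * s / (8 * J) := by positivity
  have hexp : 4 * n * Real.exp (-((δ * s / (8 * J)) ^ 2 /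
      (4 * (((R : ℝ) * Δ) ^ 4 * (Q * s))))) < 1 := by
    have h2 : (δ * s / (8 * J)) ^ 2 / (4 * (((R : ℝ) * Δ) ^ 4 * (Q * s))) =
        s * (δ ^ 2 / (256 * (J : ℝ) ^ 2 * ((R : ℝ) * Δ) ^ 4 * Q)) := by
      field_simp
      ring
    have h3 : 3 * Real.log (n + 2) ≤
        s * (δ ^ 2 / (256 * (J : ℝ) ^ 2 * ((R : ℝ) * Δ) ^ 4 * Q)) := by
      have h4 := mul_le_mul_of_nonneg_right hlog
        (by positivity : 0 ≤ δ ^ 2 / (256 * (J : ℝ) ^ 2 * ((R : ℝ) * Δ) ^ 4 * Q))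
      refine le_trans (le_of_eq ?_) h4
      field_simp
      ring
    rw [h2]
    have h5 : Real.exp (-(s * (δ ^ 2 / (256 * (J : ℝ) ^ 2 * ((R : ℝ) * Δ) ^ 4 * Q)))) ≤
        ((n + 2) ^ 3)⁻¹ := by
      have h6 : Real.exp (-(3 * Real.log (n + 2))) = ((n + 2) ^ 3)⁻¹ := by
        rw [Real.exp_neg, mul_comm, Real.exp_mul, Real.exp_log (by linarith)]
        norm_num
      rw [← h6]
      exact Real.exp_le_exp.2 (by linarith)
    have h7 : 0 < (n + 2) ^ 3 := by positivity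
    calc 4 * n * Real.exp _ ≤ 4 * n * ((n + 2) ^ 3)⁻¹ :=
          mul_le_mul_of_nonneg_left h5 (by positivity)
      _ < 1 := by
          rw [← div_eq_mul_inv, div_lt_one h7]
          nlinarith [pow_nonneg hn0 3, sq_nonneg n]
  obtain ⟨M, hM1, hM2, hM3⟩ := iter hSt hΔ1 hΔ h h0 h1 (by positivity : 0 < Q * s) hSum hlam hexp J
    hγe.le
  refine ⟨M, hM1, hM2, fun θ => (hM3 θ).trans ?_⟩
  have hW0 : 0 ≤ ∑ e, w e * h θ e :=
    Finset.sum_nonneg fun e _ => mul_nonneg (hw0 e) (h0 θ e)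
  have h8 : ((1 - ε) ^ J + ε * (R + 2)) * ∑ e, w e * h θ e ≤ δ / 2 * s := by
    refine mul_le_mul ?_ (hs θ) hW0 (by positivity)
    linarith
  have h9 : 2 * (J : ℝ) * (δ * s / (8 * J)) = δ / 4 * s := by
    field_simp
    ring
  rw [h9]
  have h10 : 0 ≤ δ * s := by positivity
  linarith

end MP_80c395_TP
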