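import Pool.Agent.Lib.MP_80c395_co_TP.NRound

/-!
# Project TP, part N: iteration of the rounds

`iter_aux`: induction on `J`, for all `w, γ`.  `J = 0`: `M = ∅`.  Step: `round` gives `M₁, w'`; the
induction hypothesis for `w'`, `γ' = (1 + 2 ε R) γ` gives `M'` with `0 < w' e` for `e ∈ M'`;
these `e` are
disjoint from all members of `M₁` (and `e ∉ M₁` since `el e` is nonempty), `M = M₁ ∪ M'`.  Sums over
`M` split.  With `W = ∑ w h`, `W' = ∑ w' h`: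
upper bound: `≤ ε W + lam + (1 - (1-ε)^J) W' + 2 J lam` and `W' ≤ (1-ε) W + lam` gives
`≤ (1 - (1-ε)^(J+1)) W + 2 (J+1) lam` (`0 ≤ 1 - (1-ε)^J ≤ 1`).
lower bound with `r = 1 - ε - 2 ε^2 ∈ [0,1]`, `b = (1 - ε R) / (1 + 2 ε) ∈ [0,1]`:
`≥ ε (1 - ε R) W - lam + b (1 - r^J) W' - 2 J lam`, `W' ≥ r W - lam`:
`≥ (ε (1 - ε R) + b r (1 - r^J)) W - 2 (J+1) lam`, and `ε (1 - ε R) = b (1 - r)` because
`1 - r = ε (1 + 2 ε)`; so the coefficient is `b (1 - r^(J+1))`.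

`iter`: `b ≥ 1 - ε R - 2 ε`, `b ≤ 1`, `0 ≤ r ≤ 1 - ε`, so `b (1 - r^J) ≥ 1 - ε (R + 2) - (1-ε)^J`;
`W ≥ 0`.
-/

set_option autoImplicit false

namespace MP_80c395_TP

open Finset Pool.Agent.Lib.CD

variable {E X : Type} [Fintype E] [DecidableEq E] [DecidableEq X]
variable {el : E → Finset X} {R : ℕ} {ε : ℝ}

theorem iter_aux {Δ : ℕ} (hΔ1 : 1 ≤ Δ) (hΔ : ∀ x, (st el x).card ≤ Δ)
    {Θ : Type} [Fintype Θ] (h : Θ → E → ℝ) (h0 : ∀ θ e, 0 ≤ h θ e) (h1 : ∀ θ e, h θ e ≤ 1)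
    {S : ℝ} (hS0 : 0 < S) (hSum : ∀ θ, ∑ e, h θ e ≤ S) {lam : ℝ} (hl : 0 < lam)
    (hcard : 4 * (Fintype.card Θ : ℝ) *
      Real.exp (-(lam ^ 2 / (4 * (((R : ℝ) * Δ) ^ 4 * S)))) < 1) (J : ℕ) :
    ∀ (w : E → ℝ) (γ : ℝ), St el w R ε γ →
      16 * (R : ℝ) ^ 3 * ((1 + 2 * ε * R) ^ J * γ) ≤ ε ^ 5 →
      ∃ M : Finset E, (∀ e ∈ M, 0 < w e) ∧
        (∀ e ∈ M, ∀ f ∈ M, e ≠ f → Disjoint (el e) (el f)) ∧
        ∀ θ, (∑ e ∈ M, h θ e ≤ (1 - (1 - ε) ^ J) * ∑ e, w e * h θ e + 2 * J * lam) ∧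
          ((1 - ε * R) / (1 + 2 * ε) * (1 - (1 - ε - 2 * ε ^ 2) ^ J) * ∑ e, w e * h θ e -
            2 * J * lam ≤ ∑ e ∈ M, h θ e) := by
  induction J with
  | zero =>
    intro w γ hS _
    refine ⟨∅, fun e he => absurd he (Finset.notMem_empty e),
      fun e he => absurd he (Finset.notMem_empty e), fun θ => ⟨?_, ?_⟩⟩
    · simp
    · simp
  | succ J ih =>
    intro w γ hS hg
    have hε0 := hS.e0
    have hR1 : (1 : ℝ) ≤ R := by exact_mod_cast hS.R0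
    have hεR := hS.eR
    have hε4 : ε ≤ 1 / 4 := by nlinarith
    have hγ0 := hS.g0
    have hpow1 : (1 : ℝ) ≤ (1 + 2 * ε * R) ^ (J + 1) := one_le_pow₀ (by nlinarith)
    have hg1 : 16 * (R : ℝ) ^ 3 * γ ≤ ε ^ 5 := by
      refine le_trans ?_ hg
      refine mul_le_mul_of_nonneg_left ?_ (by positivity)
      nlinarith
    obtain ⟨M₁, w', hM1, hM2, hM3, hS', hT⟩ := round hS hg1 hΔ1 hΔ h h0 h1 hS0 hSum hl hcard
    obtain ⟨M', hM1', hM2', hT'⟩ := ih w' ((1 + 2 * ε * R) * γ) hS' (by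
      have e1 : (1 + 2 * ε * R) ^ J * ((1 + 2 * ε * R) * γ) = (1 + 2 * ε * R) ^ (J + 1) * γ := by
        rw [pow_succ]
        ring
      rw [e1]
      exact hg)
    have hdis : ∀ e ∈ M', ∀ f ∈ M₁, Disjoint (el e) (el f) := fun e he =>
      (hM3 e (hM1' e he).ne').2
    have hdisj : Disjoint M₁ M' := by
      rw [Finset.disjoint_left]
      intro e he he'
      have h2 := hdis e he' e he
      rw [disjoint_self, Finset.bot_eq_empty] at h2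
      exact (hS.ne e).ne_empty h2
    refine ⟨M₁ ∪ M', ?_, ?_, fun θ => ?_⟩
    · intro e he
      rcases Finset.mem_union.1 he with he | he
      · exact hM1 e he
      · exact (hM3 e (hM1' e he).ne').1
    · intro e he f hf hne
      rcases Finset.mem_union.1 he with he | he <;> rcases Finset.mem_union.1 hf with hf | hf
      · exact hM2 e he f hf hne
      · exact (hdis f hf e he).symm
      · exact hdis e he f hf
      · exact hM2' e he f hf hne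
    · rw [Finset.sum_union hdisj]
      obtain ⟨a1, a2, a3, a4⟩ := hT θ
      obtain ⟨b1, b2⟩ := hT' θ
      set W := ∑ e, w e * h θ e
      set W' := ∑ e, w' e * h θ e
      have hq0 : 0 ≤ (1 - ε) ^ J := pow_nonneg (by linarith) J
      have hq1 : (1 - ε) ^ J ≤ 1 := pow_le_one₀ (by linarith) (by linarith)
      have hr : 0 ≤ 1 - ε - 2 * ε ^ 2 := by nlinarith
      have hr1 : 1 - ε - 2 * ε ^ 2 ≤ 1 := by nlinarith
      have hr0 : 0 ≤ (1 - ε - 2 * ε ^ 2) ^ J := pow_nonneg hr J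
      have hrJ : (1 - ε - 2 * ε ^ 2) ^ J ≤ 1 := pow_le_one₀ hr hr1
      have hb : (1 - ε * R) / (1 + 2 * ε) * (1 + 2 * ε) = 1 - ε * R :=
        div_mul_cancel₀ _ (by linarith)
      have hb0 : 0 ≤ (1 - ε * R) / (1 + 2 * ε) := div_nonneg (by linarith) (by linarith)
      have hb1 : (1 - ε * R) / (1 + 2 * ε) ≤ 1 := by
        rw [div_le_one (by linarith)]
        nlinarith
      set b : ℝ := (1 - ε * R) / (1 + 2 * ε)
      push_cast
      constructor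
      · have c1 : (1 - (1 - ε) ^ J) * W' ≤ (1 - (1 - ε) ^ J) * ((1 - ε) * W + lam) :=
          mul_le_mul_of_nonneg_left a4 (by linarith)
        have c2 : (1 - (1 - ε) ^ J) * lam ≤ 1 * lam :=
          mul_le_mul_of_nonneg_right (by linarith) hl.le
        rw [pow_succ]
        nlinarith [c1, c2, a2, b1]
      · have c0 : 0 ≤ b * (1 - (1 - ε - 2 * ε ^ 2) ^ J) := mul_nonneg hb0 (by linarith)
        have c3 : b * (1 - (1 - ε - 2 * ε ^ 2) ^ J) ≤ 1 :=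
          mul_le_one₀ hb1 (by linarith) (by linarith)
        have c1 := mul_le_mul_of_nonneg_left a3 c0
        have c2 : b * (1 - (1 - ε - 2 * ε ^ 2) ^ J) * lam ≤ 1 * lam :=
          mul_le_mul_of_nonneg_right c3 hl.le
        have e1 : ε * (1 - ε * R) * W = b * (ε + 2 * ε ^ 2) * W := by
          rw [← hb]
          ring
        have e2 : b * (1 - (1 - ε - 2 * ε ^ 2) ^ (J + 1)) * W = b * (ε + 2 * ε ^ 2) * W +
            b * (1 - (1 - ε - 2 * ε ^ 2) ^ J) * ((1 - ε - 2 * ε ^ 2) * W) := by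
          rw [pow_succ]
          ring
        rw [e2, ← e1]
        linarith [c1, c2, a1, b2, mul_sub (b * (1 - (1 - ε - 2 * ε ^ 2) ^ J))
          ((1 - ε - 2 * ε ^ 2) * W) lam]

theorem iter {w : E → ℝ} {γ : ℝ} (hS : St el w R ε γ) {Δ : ℕ} (hΔ1 : 1 ≤ Δ)
    (hΔ : ∀ x, (st el x).card ≤ Δ)
    {Θ : Type} [Fintype Θ] (h : Θ → E → ℝ) (h0 : ∀ θ e, 0 ≤ h θ e) (h1 : ∀ θ e, h θ e ≤ 1)
    {S : ℝ} (hS0 : 0 < S) (hSum : ∀ θ, ∑ e, h θ e ≤ S) {lam : ℝ} (hl : 0 < lam)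
    (hcard : 4 * (Fintype.card Θ : ℝ) *
      Real.exp (-(lam ^ 2 / (4 * (((R : ℝ) * Δ) ^ 4 * S)))) < 1) (J : ℕ)
    (hg : 16 * (R : ℝ) ^ 3 * ((1 + 2 * ε * R) ^ J * γ) ≤ ε ^ 5) :
    ∃ M : Finset E, (∀ e ∈ M, 0 < w e) ∧
      (∀ e ∈ M, ∀ f ∈ M, e ≠ f → Disjoint (el e) (el f)) ∧
      ∀ θ, |∑ e ∈ M, h θ e - ∑ e, w e * h θ e| ≤
        ((1 - ε) ^ J + ε * (R + 2)) * ∑ e, w e * h θ e + 2 * J * lam := by
  obtain ⟨M, hM1, hM2, hT⟩ := iter_aux hΔ1 hΔ h h0 h1 hS0 hSum hl hcard J w γ hS hg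
  refine ⟨M, hM1, hM2, fun θ => ?_⟩
  obtain ⟨b1, b2⟩ := hT θ
  have hε0 := hS.e0
  have hR1 : (1 : ℝ) ≤ R := by exact_mod_cast hS.R0
  have hεR := hS.eR
  have hε4 : ε ≤ 1 / 4 := by nlinarith
  have hW : 0 ≤ ∑ e, w e * h θ e :=
    Finset.sum_nonneg fun e _ => mul_nonneg (hS.w0 e) (h0 θ e)
  set W := ∑ e, w e * h θ e
  have hq0 : 0 ≤ (1 - ε) ^ J := pow_nonneg (by linarith) J
  have hr : 0 ≤ 1 - ε - 2 * ε ^ 2 := by nlinarith
  have hr0 : 0 ≤ (1 - ε - 2 * ε ^ 2) ^ J := pow_nonneg hr J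
  have hrq : (1 - ε - 2 * ε ^ 2) ^ J ≤ (1 - ε) ^ J := pow_le_pow_left₀ hr (by nlinarith) J
  have hb : (1 - ε * R) / (1 + 2 * ε) * (1 + 2 * ε) = 1 - ε * R :=
    div_mul_cancel₀ _ (by linarith)
  have hb1 : (1 - ε * R) / (1 + 2 * ε) ≤ 1 := by
    rw [div_le_one (by linarith)]
    nlinarith
  set b : ℝ := (1 - ε * R) / (1 + 2 * ε)
  have hJ : (0 : ℝ) ≤ 2 * J * lam := by positivity
  rw [abs_le]
  constructor
  · have c1 : 1 - ((1 - ε) ^ J + ε * (R + 2)) ≤ b * (1 - (1 - ε - 2 * ε ^ 2) ^ J) := by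
      have c2 : b * (1 - ε - 2 * ε ^ 2) ^ J ≤ 1 * (1 - ε - 2 * ε ^ 2) ^ J :=
        mul_le_mul_of_nonneg_right hb1 hr0
      have c3 : 1 - ε * R - 2 * ε ≤ b := by
        have c4 : 2 * ε * b ≤ 2 * ε * 1 := mul_le_mul_of_nonneg_left hb1 (by linarith)
        linarith [hb, c4, mul_add b 1 (2 * ε), mul_comm b (2 * ε)]
      have e1 : b * (1 - (1 - ε - 2 * ε ^ 2) ^ J) = b - b * (1 - ε - 2 * ε ^ 2) ^ J := by ring
      rw [e1]
      have e2 : ε * ((R : ℝ) + 2) = ε * R + 2 * ε := by ring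
      rw [e2]
      linarith
    have c5 := mul_le_mul_of_nonneg_right c1 hW
    have e3 : (1 - ((1 - ε) ^ J + ε * (R + 2))) * W = W - ((1 - ε) ^ J + ε * (R + 2)) * W := by
      ring
    rw [e3] at c5
    linarith
  · have c6 : 0 ≤ ε * (R + 2) * W := by positivity
    have c7 : 0 ≤ (1 - ε) ^ J * W := mul_nonneg hq0 hW
    have e4 : (1 - (1 - ε) ^ J) * W = W - (1 - ε) ^ J * W := by ring
    have e5 : ((1 - ε) ^ J + ε * (R + 2)) * W = (1 - ε) ^ J * W + ε * (R + 2) * W := by ring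
    rw [e4] at b1
    rw [e5]
    linarith

end MP_80c395_TP
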