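import Pool.Agent.Lib.MP_80c395_co_TP.NBase

/-!
# Project TP, part N: bounded differences

Let `ω, ω'` differ only in the coordinate `g`.  `Surv e` and `Acpt e` are unchanged unless
`g ∈ nbr e`, i.e. `e ∈ nbr g` (for `Acpt`: `e ∈ nbr e`); so `Sx x` is unchanged unless some
`e ∈ nbr g` contains `x`; so `nw e` is unchanged unless `e ∈ nbr g` or `e` meets some
`e' ∈ nbr g`, i.e. `e ∈ B2 g` (`nbr g ⊆ B2 g` since `e ∈ nbr e`).  For `e ∈ B2 g` the change is at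
most `h e`, because `0 ≤ nw ≤ 1` (`nw ≤ vv ≤ 2 w ≤ 2 γ ≤ 1` by `hg`, `R ≥ 1`, `ε ≤ 1/4`).

`card_nbr`: `nbr e` is covered by the `st x`, `x ∈ el e`.  `card_B2`: `card_biUnion_le`.
`sum_sq`: let `c g = ∑ e ∈ B2 g, h e ≤ |B2 g| ≤ (R Δ)^2`; `∑ c g ^ 2 ≤ (R Δ)^2 ∑ c g`, and
`∑ g, c g = ∑ e, h e * |{g | e ∈ B2 g}|`, `e ∈ B2 g ↔ g ∈ B2 e` (symmetry of `nbr`), so the
last sum is at most `(R Δ)^2 ∑ e, h e`.
-/

set_option autoImplicit false

namespace MP_80c395_TP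

open Finset Pool.Agent.Lib.CD

variable {E X : Type} [Fintype E] [DecidableEq E] [DecidableEq X]
variable {el : E → Finset X} {w : E → ℝ} {R : ℕ} {ε γ : ℝ}

private theorem NLip_surv {g : E} {ω ω' : E → Bool} (hω : ∀ j, j ≠ g → ω j = ω' j) {e : E}
    (he : e ∉ nbr el g) : Surv el ω e ↔ Surv el ω' e := by
  have h1 : ∀ f ∈ nbr el e, f ≠ g := by
    rintro f hf rfl
    exact he (mem_nbr_comm.1 hf)
  constructor
  · intro h f hf
    rw [← hω f (h1 f hf)]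
    exact h f hf
  · intro h f hf
    rw [hω f (h1 f hf)]
    exact h f hf

private theorem NLip_acpt (hS : St el w R ε γ) {g : E} {ω ω' : E → Bool}
    (hω : ∀ j, j ≠ g → ω j = ω' j) {e : E} (he : e ∉ nbr el g) :
    Acpt el ω e ↔ Acpt el ω' e := by
  have h1 : ∀ f ∈ nbr el e, f ≠ g := by
    rintro f hf rfl
    exact he (mem_nbr_comm.1 hf)
  have h2 : e ≠ g := by
    rintro rfl
    exact he (mem_nbr_self hS _)
  unfold Acpt
  rw [hω e h2]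
  constructor
  · rintro ⟨h3, h4⟩
    refine ⟨h3, fun f hf hfe => ?_⟩
    rw [← hω f (h1 f hf)]
    exact h4 f hf hfe
  · rintro ⟨h3, h4⟩
    refine ⟨h3, fun f hf hfe => ?_⟩
    rw [hω f (h1 f hf)]
    exact h4 f hf hfe

private theorem NLip_sub (hS : St el w R ε γ) (g : E) : nbr el g ⊆ B2 el g := by
  intro e he
  exact mem_biUnion.2 ⟨e, he, mem_nbr_self hS e⟩

private theorem NLip_comm {e g : E} : e ∈ B2 el g ↔ g ∈ B2 el e := by
  have key : ∀ {e g : E}, e ∈ B2 el g → g ∈ B2 el e := by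
    intro e g h
    obtain ⟨f, hf, hef⟩ := mem_biUnion.1 h
    exact mem_biUnion.2 ⟨f, mem_nbr_comm.1 hef, mem_nbr_comm.1 hf⟩
  exact ⟨key, key⟩

private theorem NLip_sum {F F' h : E → ℝ} {B : Finset E} (h1 : ∀ e, e ∉ B → F e = F' e)
    (h2 : ∀ e ∈ B, |F e - F' e| ≤ h e) : |∑ e, F e - ∑ e, F' e| ≤ ∑ e ∈ B, h e := by
  rw [← sum_sub_distrib]
  have h3 : ∑ e, (F e - F' e) = ∑ e ∈ B, (F e - F' e) := by
    symm
    refine sum_subset (subset_univ _) fun e _ he => ?_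
    rw [h1 e he, sub_self]
  rw [h3]
  exact (abs_sum_le_sum_abs _ _).trans (sum_le_sum h2)

private theorem NLip_nw (hS : St el w R ε γ) {g : E} {ω ω' : E → Bool}
    (hω : ∀ j, j ≠ g → ω j = ω' j) {e : E} (he : e ∉ B2 el g) :
    nw el ε w ω e = nw el ε w ω' e := by
  classical
  have h1 : Surv el ω e ↔ Surv el ω' e :=
    NLip_surv hω fun h => he (NLip_sub hS g h)
  have h2 : ∀ x ∈ el e, Sx el ε w x ω = Sx el ε w x ω' := by
    intro x hx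
    unfold Sx
    refine sum_congr rfl fun e' he' => ?_
    have h3 : Surv el ω e' ↔ Surv el ω' e' := by
      refine NLip_surv hω fun h => he ?_
      refine mem_biUnion.2 ⟨e', h, ?_⟩
      rw [mem_nbr, not_disjoint_iff]
      exact ⟨x, mem_st.1 he', hx⟩
    simp only [h3]
  have h3 : (Surv el ω e ∧ ∀ x ∈ el e, Sx el ε w x ω ≤ 1 + ε ^ 2) ↔
      (Surv el ω' e ∧ ∀ x ∈ el e, Sx el ε w x ω' ≤ 1 + ε ^ 2) := by
    rw [h1]
    refine and_congr_right fun _ => forall₂_congr fun x hx => ?_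
    rw [h2 x hx]
  unfold nw
  simp only [h3]

theorem nw_nonneg (hS : St el w R ε γ) (ω : E → Bool) (e : E) : 0 ≤ nw el ε w ω e := by
  have h1 := vv_nonneg hS e
  unfold nw
  split_ifs
  · positivity
  · exact le_rfl

theorem nw_le_vv (hS : St el w R ε γ) (ω : E → Bool) (e : E) :
    nw el ε w ω e ≤ vv el ε w e := by
  have h1 := vv_nonneg hS e
  unfold nw
  split_ifs
  · exact div_le_self h1 (by nlinarith [sq_nonneg ε])
  · exact h1

theorem nw_le_one (hS : St el w R ε γ) (hg : 16 * (R : ℝ) ^ 3 * γ ≤ ε ^ 5) (ω : E → Bool)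
    (e : E) : nw el ε w ω e ≤ 1 := by
  refine (nw_le_vv hS ω e).trans ((vv_le2 hS e).trans ?_)
  have h1 := hS.wg e
  have h2 : (1 : ℝ) ≤ R := by exact_mod_cast hS.R0
  have h3 : (1 : ℝ) ≤ (R : ℝ) ^ 3 := one_le_pow₀ h2
  have h4 : ε ≤ 1 := by
    have := hS.eR
    nlinarith [hS.e0]
  have h5 : ε ^ 5 ≤ 1 := pow_le_one₀ hS.e0.le h4
  have h6 : 16 * γ ≤ 16 * (R : ℝ) ^ 3 * γ := by
    have := mul_le_mul_of_nonneg_right h3 hS.g0
    linarith
  linarith [hS.g0]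

theorem lip_acc (hS : St el w R ε γ) (h : E → ℝ) (h0 : ∀ e, 0 ≤ h e) (g : E)
    (ω ω' : E → Bool) (hω : ∀ j, j ≠ g → ω j = ω' j) :
    |acc el h ω - acc el h ω'| ≤ ∑ e ∈ B2 el g, h e := by
  classical
  unfold acc
  refine NLip_sum (fun e he => ?_) (fun e _ => ?_)
  · have h1 : Acpt el ω e ↔ Acpt el ω' e :=
      NLip_acpt hS hω fun h => he (NLip_sub hS g h)
    simp only [h1]
  · have h1 := h0 e
    split_ifs
    · rw [sub_self, abs_zero]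
      exact h1
    · rw [sub_zero, abs_of_nonneg h1]
    · rw [zero_sub, abs_neg, abs_of_nonneg h1]
    · rw [sub_self, abs_zero]
      exact h1

theorem lip_nw (hS : St el w R ε γ) (hg : 16 * (R : ℝ) ^ 3 * γ ≤ ε ^ 5) (h : E → ℝ)
    (h0 : ∀ e, 0 ≤ h e) (g : E) (ω ω' : E → Bool) (hω : ∀ j, j ≠ g → ω j = ω' j) :
    |∑ e, nw el ε w ω e * h e - ∑ e, nw el ε w ω' e * h e| ≤ ∑ e ∈ B2 el g, h e := by
  refine NLip_sum (fun e he => ?_) (fun e _ => ?_)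
  · rw [NLip_nw hS hω he]
  · have h1 := h0 e
    have h2 := nw_nonneg hS ω e
    have h3 := nw_nonneg hS ω' e
    have h4 := nw_le_one hS hg ω e
    have h5 := nw_le_one hS hg ω' e
    rw [← sub_mul, abs_mul, abs_of_nonneg h1]
    have h6 : |nw el ε w ω e - nw el ε w ω' e| ≤ 1 := abs_le.2 ⟨by linarith, by linarith⟩
    nlinarith

theorem card_nbr (hS : St el w R ε γ) {Δ : ℕ} (hΔ : ∀ x, (st el x).card ≤ Δ) (e : E) :
    (nbr el e).card ≤ R * Δ := by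
  have h1 : nbr el e ⊆ (el e).biUnion (st el) := by
    intro f hf
    rw [mem_nbr, not_disjoint_iff] at hf
    obtain ⟨x, hx, hxf⟩ := hf
    exact mem_biUnion.2 ⟨x, hx, mem_st.2 hxf⟩
  calc (nbr el e).card ≤ ((el e).biUnion (st el)).card := card_le_card h1
    _ ≤ (el e).card * Δ := card_biUnion_le_card_mul _ _ _ fun x _ => hΔ x
    _ ≤ R * Δ := Nat.mul_le_mul_right _ (hS.card e)

theorem card_B2 (hS : St el w R ε γ) {Δ : ℕ} (hΔ : ∀ x, (st el x).card ≤ Δ) (e : E) :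
    (B2 el e).card ≤ (R * Δ) ^ 2 := by
  calc (B2 el e).card ≤ (nbr el e).card * (R * Δ) :=
        card_biUnion_le_card_mul _ _ _ fun f _ => card_nbr hS hΔ f
    _ ≤ R * Δ * (R * Δ) := Nat.mul_le_mul_right _ (card_nbr hS hΔ e)
    _ = (R * Δ) ^ 2 := by ring

theorem sum_sq (hS : St el w R ε γ) {Δ : ℕ} (hΔ : ∀ x, (st el x).card ≤ Δ) (h : E → ℝ)
    (h0 : ∀ e, 0 ≤ h e) (h1 : ∀ e, h e ≤ 1) :
    ∑ g, (∑ e ∈ B2 el g, h e) ^ 2 ≤ ((R : ℝ) * Δ) ^ 4 * ∑ e, h e := by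
  have hB : ∀ g, ((B2 el g).card : ℝ) ≤ ((R : ℝ) * Δ) ^ 2 := by
    intro g
    have := card_B2 hS hΔ g
    exact_mod_cast this
  have hc0 : ∀ g, 0 ≤ ∑ e ∈ B2 el g, h e := fun g => sum_nonneg fun e _ => h0 e
  have hc1 : ∀ g, ∑ e ∈ B2 el g, h e ≤ ((R : ℝ) * Δ) ^ 2 := by
    intro g
    refine le_trans ?_ (hB g)
    have := sum_le_card_nsmul (B2 el g) h 1 fun e _ => h1 e
    rwa [nsmul_eq_mul, mul_one] at this
  have h2 : ∑ g, (∑ e ∈ B2 el g, h e) ^ 2 ≤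
      ((R : ℝ) * Δ) ^ 2 * ∑ g, ∑ e ∈ B2 el g, h e := by
    rw [mul_sum]
    refine sum_le_sum fun g _ => ?_
    rw [pow_two (∑ e ∈ B2 el g, h e)]
    exact mul_le_mul_of_nonneg_right (hc1 g) (hc0 g)
  have h3 : ∑ g, ∑ e ∈ B2 el g, h e = ∑ e, ∑ g ∈ B2 el e, h e := by
    refine sum_comm' fun g e => ?_
    constructor
    · rintro ⟨-, h4⟩
      exact ⟨NLip_comm.1 h4, mem_univ _⟩
    · rintro ⟨h4, -⟩
      exact ⟨mem_univ _, NLip_comm.1 h4⟩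
  have h4 : ∑ e, ∑ g ∈ B2 el e, h e ≤ ((R : ℝ) * Δ) ^ 2 * ∑ e, h e := by
    rw [mul_sum]
    refine sum_le_sum fun e _ => ?_
    rw [sum_const, nsmul_eq_mul]
    exact mul_le_mul_of_nonneg_right (hB e) (h0 e)
  calc ∑ g, (∑ e ∈ B2 el g, h e) ^ 2 ≤ ((R : ℝ) * Δ) ^ 2 * ∑ g, ∑ e ∈ B2 el g, h e := h2
    _ ≤ ((R : ℝ) * Δ) ^ 2 * (((R : ℝ) * Δ) ^ 2 * ∑ e, h e) := by
        rw [h3]
        exact mul_le_mul_of_nonneg_left h4 (by positivity)
    _ = ((R : ℝ) * Δ) ^ 4 * ∑ e, h e := by ring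

end MP_80c395_TP
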