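import Pool.Agent.Lib.MP_80c395_co_TP.NBase

/-!
# Project TP, part N: probabilities of survival and acceptance

All by `pw_all` (Pool/Agent/Lib/MP_dcb6ed_co_CD/Pw.lean): the probability that all coordinates in
a finite set `T` have prescribed values is a product.  `∑ s, if s = false then sw ε w f s else 0`
`= 1 - ε * w f` (`Fintype.sum_bool`).  `p_surv2`: `Surv e ∧ Surv e'` iff all `f ∈ nbr e ∪ nbr e'`
have `ω f = false`.
`p_acpt`: the event is: for all `f ∈ nbr el e`, `ω f = true` if `f = e`, `ω f = false` if `f ≠ e`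
(`e ∈ nbr el e` by `mem_nbr_self`); so `pw_all` with `P f b := if f = e then b = true else b = false`
gives `∏ f ∈ nbr el e, ..`, split off the factor of `e` with `Finset.mul_prod_erase`.
`surv_unt`: `st_sub_nbr`.
-/

set_option autoImplicit false

namespace MP_80c395_TP

open Finset Pool.Agent.Lib.CD

variable {E X : Type} [Fintype E] [DecidableEq E] [DecidableEq X]
variable {el : E → Finset X} {w : E → ℝ} {R : ℕ} {ε γ : ℝ}

/-- the probability that all coordinates in `T` are `false` -/
private theorem NProb_false (hS : St el w R ε γ) (T : Finset E) :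
    PW (sw ε w) (fun ω : E → Bool => ∀ f ∈ T, ω f = false) = ∏ f ∈ T, (1 - ε * w f) := by
  have h := pw_all (isW_sw hS) T (fun _ b => b = false)
  rw [h]
  refine Finset.prod_congr rfl fun f _ => ?_
  rw [Fintype.sum_bool]
  simp [sw]

theorem p_surv (hS : St el w R ε γ) (e : E) :
    PW (sw ε w) (fun ω => Surv el ω e) = pe el ε w e :=
  NProb_false hS (nbr el e)

theorem p_surv2 (hS : St el w R ε γ) (e e' : E) :
    PW (sw ε w) (fun ω => Surv el ω e ∧ Surv el ω e') =
      ∏ f ∈ nbr el e ∪ nbr el e', (1 - ε * w f) := by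
  rw [← NProb_false hS]
  congr 1
  funext ω
  refine propext ⟨fun h f hf => ?_, fun h => ⟨fun f hf => ?_, fun f hf => ?_⟩⟩
  · rcases Finset.mem_union.1 hf with hf | hf
    · exact h.1 f hf
    · exact h.2 f hf
  · exact h f (Finset.mem_union_left _ hf)
  · exact h f (Finset.mem_union_right _ hf)

theorem p_unt (hS : St el w R ε γ) (x : X) :
    PW (sw ε w) (fun ω => Unt el ω x) = kap el ε w x :=
  NProb_false hS (st el x)

theorem p_acpt (hS : St el w R ε γ) (e : E) :
    PW (sw ε w) (fun ω => Acpt el ω e) =
      ε * w e * ∏ f ∈ (nbr el e).erase e, (1 - ε * w f) := by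
  have h := pw_all (isW_sw hS) (nbr el e) (fun f b => if f = e then b = true else b = false)
  have h1 : (fun ω : E → Bool => Acpt el ω e) =
      fun ω => ∀ f ∈ nbr el e, if f = e then ω f = true else ω f = false := by
    funext ω
    refine propext ⟨fun h f hf => ?_, fun h => ⟨?_, fun f hf hfe => ?_⟩⟩
    · by_cases hfe : f = e
      · rw [if_pos hfe, hfe]
        exact h.1
      · rw [if_neg hfe]
        exact h.2 f hf hfe
    · have := h e (mem_nbr_self hS e)
      rwa [if_pos rfl] at this
    · have := h f hf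
      rwa [if_neg hfe] at this
  rw [h1, h, ← Finset.mul_prod_erase (nbr el e) _ (mem_nbr_self hS e)]
  congr 1
  · rw [Fintype.sum_bool]
    simp [sw]
  · refine Finset.prod_congr rfl fun f hf => ?_
    have hfe : f ≠ e := (Finset.mem_erase.1 hf).1
    rw [Fintype.sum_bool]
    simp [sw, hfe]

theorem surv_unt {e : E} {x : X} (hx : x ∈ el e) {ω : E → Bool} (h : Surv el ω e) :
    Unt el ω x :=
  fun f hf => h f (st_sub_nbr hx hf)

end MP_80c395_TP
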