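import Pool.Agent.Lib.MP_80c395_co_TP.NExp
import Pool.Agent.Lib.MP_80c395_co_TP.NLip
import Pool.Agent.Lib.MP_80c395_co_TP.McD

/-!
# Project TP, part N: one round of the nibble

Apply `mcd_up`, `mcd_lo` (McD, stub) with `c g = ∑ e ∈ B2 el g, h θ e`, `C = (R Δ)^4 * S`
(`sum_sq`, `lip_acc`, `lip_nw`), to `acc el (h θ)` and to `ω ↦ ∑ e, nw ω e * h θ e`.  The event that
for some `θ` one of the four deviations by at least `lam` occurs has probability at most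
`4 * card Θ * exp (- lam^2 / (4 C)) < 1` (`pw_ex`, `pw_or`), so the complement has positive
probability (`pw_not`), and by `pw_pos` it contains an `ω` with `0 < sw ε w e (ω e)` for all `e`:
so `ω e = true` implies `0 < w e`.  Let `M` = accepted hyperedges (`Acpt el ω e`), `w' = nw ω`.
* two accepted hyperedges `e ≠ f` are disjoint: otherwise `f ∈ nbr e`, so `ω f = false`.
* `w' e ≠ 0` implies `Surv e`, hence no `f ∈ M` meets `e` (`ω f = true`), and `w e ≠ 0`.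
* `St` for `w'`: `nw ≤ vv ≤ (1 + 2 ε R) w` gives `wg` and `cod`; `deg`: if `Sx x ≤ 1 + ε^2` then
  `∑ e ∈ st x, nw e ≤ Sx x / (1 + ε^2) ≤ 1`, and otherwise all these `nw e` are `0`.
* the bounds for the tests: `E_acc_le`, `E_acc_ge`, `E_tot_le`, `E_tot_ge`.
-/

set_option autoImplicit false

namespace MP_80c395_TP

open Finset Pool.Agent.Lib.CD

variable {E X : Type} [Fintype E] [DecidableEq E] [DecidableEq X]
variable {el : E → Finset X} {w : E → ℝ} {R : ℕ} {ε γ : ℝ}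

theorem round (hS : St el w R ε γ) (hg : 16 * (R : ℝ) ^ 3 * γ ≤ ε ^ 5)
    {Δ : ℕ} (hΔ1 : 1 ≤ Δ) (hΔ : ∀ x, (st el x).card ≤ Δ)
    {Θ : Type} [Fintype Θ] (h : Θ → E → ℝ) (h0 : ∀ θ e, 0 ≤ h θ e) (h1 : ∀ θ e, h θ e ≤ 1)
    {S : ℝ} (hS0 : 0 < S) (hSum : ∀ θ, ∑ e, h θ e ≤ S) {lam : ℝ} (hl : 0 < lam)
    (hcard : 4 * (Fintype.card Θ : ℝ) *
      Real.exp (-(lam ^ 2 / (4 * (((R : ℝ) * Δ) ^ 4 * S)))) < 1) :
    ∃ (M : Finset E) (w' : E → ℝ),
      (∀ e ∈ M, 0 < w e) ∧ (∀ e ∈ M, ∀ f ∈ M, e ≠ f → Disjoint (el e) (el f)) ∧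
      (∀ e, w' e ≠ 0 → 0 < w e ∧ ∀ f ∈ M, Disjoint (el e) (el f)) ∧
      St el w' R ε ((1 + 2 * ε * R) * γ) ∧
      ∀ θ, (ε * (1 - ε * R) * ∑ e, w e * h θ e - lam ≤ ∑ e ∈ M, h θ e) ∧
        (∑ e ∈ M, h θ e ≤ ε * ∑ e, w e * h θ e + lam) ∧
        ((1 - ε - 2 * ε ^ 2) * ∑ e, w e * h θ e - lam ≤ ∑ e, w' e * h θ e) ∧
        (∑ e, w' e * h θ e ≤ (1 - ε) * ∑ e, w e * h θ e + lam) := by
  classical
  have hw := isW_sw hS
  have hR1 : (1 : ℝ) ≤ R := by exact_mod_cast hS.R0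
  have hΔ1' : (1 : ℝ) ≤ Δ := by exact_mod_cast hΔ1
  have hC0 : 0 < ((R : ℝ) * Δ) ^ 4 * S := by positivity
  have hε := hS.e0
  have hsq : ∀ θ, ∑ g, (∑ e ∈ B2 el g, h θ e) ^ 2 ≤ ((R : ℝ) * Δ) ^ 4 * S := fun θ =>
    (sum_sq hS hΔ (h θ) (h0 θ) (h1 θ)).trans
      (mul_le_mul_of_nonneg_left (hSum θ) (by positivity))
  have p1 : ∀ θ, PW (sw ε w) (fun ω => EW (sw ε w) (acc el (h θ)) + lam ≤ acc el (h θ) ω) ≤
      Real.exp (-(lam ^ 2 / (4 * (((R : ℝ) * Δ) ^ 4 * S)))) := fun θ =>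
    mcd_up hw _ (fun g => ∑ e ∈ B2 el g, h θ e)
      (fun g ω ω' hω => lip_acc hS (h θ) (h0 θ) g ω ω' hω) (hsq θ) hC0 hl.le
  have p2 : ∀ θ, PW (sw ε w) (fun ω => acc el (h θ) ω ≤ EW (sw ε w) (acc el (h θ)) - lam) ≤
      Real.exp (-(lam ^ 2 / (4 * (((R : ℝ) * Δ) ^ 4 * S)))) := fun θ =>
    mcd_lo hw _ (fun g => ∑ e ∈ B2 el g, h θ e)
      (fun g ω ω' hω => lip_acc hS (h θ) (h0 θ) g ω ω' hω) (hsq θ) hC0 hl.le
  have p3 : ∀ θ, PW (sw ε w) (fun ω => EW (sw ε w) (fun ω => ∑ e, nw el ε w ω e * h θ e) + lam ≤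
      ∑ e, nw el ε w ω e * h θ e) ≤
      Real.exp (-(lam ^ 2 / (4 * (((R : ℝ) * Δ) ^ 4 * S)))) := fun θ =>
    mcd_up hw _ (fun g => ∑ e ∈ B2 el g, h θ e)
      (fun g ω ω' hω => lip_nw hS hg (h θ) (h0 θ) g ω ω' hω) (hsq θ) hC0 hl.le
  have p4 : ∀ θ, PW (sw ε w) (fun ω => ∑ e, nw el ε w ω e * h θ e ≤
      EW (sw ε w) (fun ω => ∑ e, nw el ε w ω e * h θ e) - lam) ≤
      Real.exp (-(lam ^ 2 / (4 * (((R : ℝ) * Δ) ^ 4 * S)))) := fun θ =>
    mcd_lo hw _ (fun g => ∑ e ∈ B2 el g, h θ e)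
      (fun g ω ω' hω => lip_nw hS hg (h θ) (h0 θ) g ω ω' hω) (hsq θ) hC0 hl.le
  obtain ⟨Bd, hBd⟩ : ∃ Bd : Θ → (E → Bool) → Prop, Bd = fun θ ω =>
      (EW (sw ε w) (acc el (h θ)) + lam ≤ acc el (h θ) ω) ∨
      ((acc el (h θ) ω ≤ EW (sw ε w) (acc el (h θ)) - lam) ∨
      ((EW (sw ε w) (fun ω => ∑ e, nw el ε w ω e * h θ e) + lam ≤
        ∑ e, nw el ε w ω e * h θ e) ∨
      (∑ e, nw el ε w ω e * h θ e ≤
        EW (sw ε w) (fun ω => ∑ e, nw el ε w ω e * h θ e) - lam))) := ⟨_, rfl⟩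
  have pB : ∀ θ, PW (sw ε w) (Bd θ) ≤
      4 * Real.exp (-(lam ^ 2 / (4 * (((R : ℝ) * Δ) ^ 4 * S)))) := by
    intro θ
    rw [hBd]
    refine (pw_or hw _ _).trans ?_
    have q1 := pw_or hw (fun ω => acc el (h θ) ω ≤ EW (sw ε w) (acc el (h θ)) - lam)
      (fun ω => (EW (sw ε w) (fun ω => ∑ e, nw el ε w ω e * h θ e) + lam ≤
        ∑ e, nw el ε w ω e * h θ e) ∨ (∑ e, nw el ε w ω e * h θ e ≤
        EW (sw ε w) (fun ω => ∑ e, nw el ε w ω e * h θ e) - lam))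
    have q2 := pw_or hw (fun ω => EW (sw ε w) (fun ω => ∑ e, nw el ε w ω e * h θ e) + lam ≤
        ∑ e, nw el ε w ω e * h θ e) (fun ω => ∑ e, nw el ε w ω e * h θ e ≤
        EW (sw ε w) (fun ω => ∑ e, nw el ε w ω e * h θ e) - lam)
    linarith [p1 θ, p2 θ, p3 θ, p4 θ]
  have pE : PW (sw ε w) (fun ω => ∃ θ ∈ (univ : Finset Θ), Bd θ ω) < 1 := by
    refine ((pw_ex hw univ Bd).trans (Finset.sum_le_sum fun θ _ => pB θ)).trans_lt ?_
    rw [Finset.sum_const, nsmul_eq_mul, Finset.card_univ]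
    linarith
  have pN : 0 < PW (sw ε w) (fun ω => ¬ ∃ θ ∈ (univ : Finset Θ), Bd θ ω) := by
    rw [pw_not hw]
    linarith
  obtain ⟨ω, hω, hgood⟩ := pw_pos hw pN
  have hε2 : (0 : ℝ) < 1 + ε ^ 2 := by positivity
  have hnwv : ∀ e, nw el ε w ω e ≤ (1 + 2 * ε * R) * w e := fun e =>
    (nw_le_vv hS ω e).trans (vv_le hS e)
  have hfac : (0 : ℝ) ≤ 1 + 2 * ε * R := by positivity
  refine ⟨univ.filter (fun e => Acpt el ω e), nw el ε w ω, ?_, ?_, ?_, ?_, ?_⟩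
  · intro e he
    have h2 := hω e
    rw [(mem_filter.1 he).2.1] at h2
    simp only [sw, if_true] at h2
    exact (pos_iff_pos_of_mul_pos h2).1 hε
  · intro e he f hf hef
    by_contra hd
    have h2 := (mem_filter.1 he).2.2 f (mem_nbr.2 hd) (Ne.symm hef)
    rw [(mem_filter.1 hf).2.1] at h2
    exact absurd h2 (by decide)
  · intro e he
    have hc : Surv el ω e ∧ ∀ x ∈ el e, Sx el ε w x ω ≤ 1 + ε ^ 2 := by
      by_contra hc
      exact he (if_neg hc)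
    constructor
    · refine lt_of_le_of_ne (hS.w0 e) fun h2 => he ?_
      unfold nw
      rw [if_pos hc]
      unfold vv
      rw [← h2, mul_zero, zero_div, zero_div]
    · intro f hf
      by_contra hd
      have h2 := hc.1 f (mem_nbr.2 hd)
      rw [(mem_filter.1 hf).2.1] at h2
      exact absurd h2 (by decide)
  · refine ⟨hS.ne, hS.card, nw_nonneg hS ω, fun e => (hnwv e).trans
      (mul_le_mul_of_nonneg_left (hS.wg e) hfac), fun x => ?_, fun x y hxy => ?_, hS.R0,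
      mul_nonneg hfac hS.g0, hS.e0, hS.eR⟩
    · unfold dg
      by_cases hx : Sx el ε w x ω ≤ 1 + ε ^ 2
      · have h2 : ∑ e ∈ st el x, nw el ε w ω e ≤
            (∑ e ∈ st el x, if Surv el ω e then vv el ε w e else 0) / (1 + ε ^ 2) := by
          rw [Finset.sum_div]
          refine Finset.sum_le_sum fun e _ => ?_
          unfold nw
          by_cases hc : Surv el ω e ∧ ∀ x ∈ el e, Sx el ε w x ω ≤ 1 + ε ^ 2
          · rw [if_pos hc, if_pos hc.1]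
          · rw [if_neg hc]
            refine div_nonneg ?_ hε2.le
            split_ifs
            · exact vv_nonneg hS e
            · exact le_rfl
        refine h2.trans ?_
        rw [div_le_one hε2]
        exact hx
      · rw [Finset.sum_eq_zero]
        · exact zero_le_one
        · intro e he
          exact if_neg fun hc => hx (hc.2 x (mem_st.1 he))
    · unfold cd
      refine (Finset.sum_le_sum fun e _ => hnwv e).trans ?_
      rw [← Finset.mul_sum]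
      exact mul_le_mul_of_nonneg_left (hS.cod x y hxy) hfac
  · intro θ
    have hg' : ¬ Bd θ ω := fun hb => hgood ⟨θ, mem_univ θ, hb⟩
    rw [hBd] at hg'
    simp only [not_or, not_le] at hg'
    obtain ⟨g1, g2, g3, g4⟩ := hg'
    have hM : ∑ e ∈ univ.filter (fun e => Acpt el ω e), h θ e = acc el (h θ) ω := by
      rw [Finset.sum_filter]
      unfold acc
      refine Finset.sum_congr rfl fun e _ => ?_
      by_cases ha : Acpt el ω e
      · rw [if_pos ha]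
      · rw [if_neg ha]
    rw [hM]
    have k1 := E_acc_ge hS (h θ) (h0 θ)
    have k2 := E_acc_le hS (h θ) (h0 θ)
    have k3 := E_tot_ge hS hg (h θ) (h0 θ)
    have k4 := E_tot_le hS (h θ) (h0 θ)
    exact ⟨by linarith, by linarith, by linarith, by linarith⟩

end MP_80c395_TP
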