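import Pool.Agent.Lib.MP_80c395_co_TP.NProb

/-!
# Project TP, part N: the weighted number of surviving hyperedges at a vertex

`E_Sx`: linearity (`ew_sum`), `EW (fun ω => if Surv .. then c else 0) = c * pe` (`p_surv`, `Pw_eq`,
`ew_smul`) and `vv_mul_pe`.

`E_Sx2`: `(Sx)^2 = ∑ e ∈ st x, ∑ e' ∈ st x, if Surv e ∧ Surv e' then vv e * vv e' else 0`, so
`E (Sx^2) = ∑ ∑ vv e vv e' P2`, `P2 = ∏ over nbr e ∪ nbr e'` (`p_surv2`)
`= pe e * pe e' / ∏ over nbr e ∩ nbr e'` (`Finset.prod_union_inter`).  `st x ⊆ nbr e ∩ nbr e'`, so the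
last product is `kap x * Q` with `Q = ∏` over `Z := (nbr e ∩ nbr e') \ st x`.  With
`vv e * pe e = (1 - ε) w e` the term is `(1 - ε)^2 w e w e' / (kap x * Q)`.  Now
`Q ≥ 1 - ε ∑ f ∈ Z, w f ≥ 3/4` (`prod_ge`, `sum_nbr_le`), so `1 / Q ≤ 1 + (4/3) ε ∑ f ∈ Z, w f`
(`1 / (1 - y) = 1 + y / (1 - y)`, `y ≤ 1/4`).
* If `el e ∩ el e' = {x}`: every `f ∈ Z` does not contain `x`, meets `el e` in some `y ≠ x` and
  `el e'` in some `y' ≠ x`, and `y ≠ y'`; so `∑ f ∈ Z, w f ≤ ∑ y ∈ el e, ∑ y' ∈ el e',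
  [y ≠ y'] cd y y' ≤ R^2 γ`.
* If there is `y ∈ el e ∩ el e'`, `y ≠ x`: `∑ f ∈ Z, w f ≤ R`.  For fixed `e` the weight `w e'` of
  these `e'` sums to at most `∑ y ∈ el e, [y ≠ x] cd x y ≤ R γ`.
Hence `E (Sx^2) - ((1-ε) dg)^2 / kap ≤ (1 / kap) (∑ e ∈ st x, ∑ e' ∈ st x, w e w e' (4/3) ε R^2 γ
+ ∑ e ∈ st x, w e (4/3) ε R * R γ) ≤ (4/3) * 2 * (4/3) ε R^2 γ ≤ 8 ε R^2 γ` (`dg ≤ 1`, `kap ≥ 3/4`).

`p_big` (Chebyshev under the condition that `x` is untouched): let `m = (1 - ε) dg / kap`; `m ≤ 1`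
because `(1 - ε) dg ≤ 1 - ε dg ≤ kap` (`dg ≤ 1`, `kap_lo`).  If `Unt` fails at `x` then `Sx = 0`
(`surv_unt`).  So the indicator of `1 + ξ < Sx` is at most `ξ⁻² (Sx - m)^2 1_Unt`, and
`(Sx - m)^2 1_Unt = Sx^2 - 2 m Sx + m^2 1_Unt`, with expectation
`E Sx^2 - 2 m (1-ε) dg + m^2 kap ≤ m^2 kap + 8 ε R^2 γ - 2 m^2 kap + m^2 kap`
(`((1-ε) dg)^2 / kap = m^2 kap`, `p_unt`, `E_Sx`).  Use `markov`.
-/

set_option autoImplicit false

namespace MP_80c395_TP

open Finset Pool.Agent.Lib.CD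

variable {E X : Type} [Fintype E] [DecidableEq E] [DecidableEq X]
variable {el : E → Finset X} {w : E → ℝ} {R : ℕ} {ε γ : ℝ}

private theorem NVar_ite (u : E → Bool → ℝ) (A : (E → Bool) → Prop) [DecidablePred A] (c : ℝ) :
    EW u (fun ω => if A ω then c else 0) = c * PW u A := by
  rw [Pw_eq, ← ew_smul]
  congr 1
  funext ω
  split_ifs <;> simp

omit [Fintype E] in
private theorem NVar_cover {ι : Type} {w : E → ℝ} (hw : ∀ e, 0 ≤ w e) (Z : Finset E)
    (T : Finset ι) (V : ι → Finset E) (h : ∀ f ∈ Z, ∃ i ∈ T, f ∈ V i) :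
    ∑ f ∈ Z, w f ≤ ∑ i ∈ T, ∑ f ∈ V i, w f := by
  calc ∑ f ∈ Z, w f ≤ ∑ f ∈ Z, ∑ i ∈ T, (if f ∈ V i then w f else 0) := by
        refine Finset.sum_le_sum fun f hf => ?_
        obtain ⟨i, hi, hfi⟩ := h f hf
        refine le_trans (le_of_eq (if_pos hfi).symm) (Finset.single_le_sum
          (f := fun i => if f ∈ V i then w f else 0) (fun j _ => ?_) hi)
        split_ifs
        · exact hw f
        · exact le_rfl
    _ = ∑ i ∈ T, ∑ f ∈ Z, (if f ∈ V i then w f else 0) := Finset.sum_comm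
    _ ≤ ∑ i ∈ T, ∑ f ∈ V i, w f := by
        refine Finset.sum_le_sum fun i _ => ?_
        rw [Finset.sum_ite_mem]
        exact Finset.sum_le_sum_of_subset_of_nonneg Finset.inter_subset_right
          fun f _ _ => hw f

theorem E_Sx (hS : St el w R ε γ) (x : X) :
    EW (sw ε w) (Sx el ε w x) = (1 - ε) * dg el w x := by
  classical
  have h1 : EW (sw ε w) (Sx el ε w x) =
      ∑ e ∈ st el x, EW (sw ε w) (fun ω => if Surv el ω e then vv el ε w e else 0) := by
    rw [← ew_sum]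
    congr 1
  rw [h1, dg, Finset.mul_sum]
  refine Finset.sum_congr rfl fun e _ => ?_
  rw [NVar_ite, p_surv hS, vv_mul_pe hS]

/-- the sum over `Z` -/
private theorem NVar_Z (hS : St el w R ε γ) (x : X) {e e' : E} (h : ∀ y ∈ el e, y ∈ el e' → y = x) :
    ∑ f ∈ (nbr el e ∩ nbr el e') \ st el x, w f ≤ (R : ℝ) ^ 2 * γ := by
  have h1 : ∑ f ∈ (nbr el e ∩ nbr el e') \ st el x, w f ≤
      ∑ p ∈ (el e ×ˢ el e').filter (fun p => p.1 ≠ p.2), ∑ f ∈ st el p.1 ∩ st el p.2, w f := by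
    refine NVar_cover hS.w0 _ _ _ fun f hf => ?_
    obtain ⟨hf1, hf2⟩ := Finset.mem_sdiff.1 hf
    obtain ⟨hf3, hf4⟩ := Finset.mem_inter.1 hf1
    rw [mem_nbr, Finset.not_disjoint_iff] at hf3 hf4
    rw [mem_st] at hf2
    obtain ⟨y, hy1, hy2⟩ := hf3
    obtain ⟨z, hz1, hz2⟩ := hf4
    refine ⟨(y, z), Finset.mem_filter.2 ⟨Finset.mem_product.2 ⟨hy1, hz1⟩, ?_⟩, ?_⟩
    · intro hyz
      have hyz' : y = z := hyz
      subst hyz'
      exact hf2 (h y hy1 hz1 ▸ hy2)
    · exact Finset.mem_inter.2 ⟨mem_st.2 hy2, mem_st.2 hz2⟩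
  refine h1.trans ?_
  calc ∑ p ∈ (el e ×ˢ el e').filter (fun p => p.1 ≠ p.2), ∑ f ∈ st el p.1 ∩ st el p.2, w f
      ≤ ∑ p ∈ (el e ×ˢ el e').filter (fun p => p.1 ≠ p.2), γ :=
        Finset.sum_le_sum fun p hp => hS.cod _ _ (Finset.mem_filter.1 hp).2
    _ = (((el e ×ˢ el e').filter (fun p => p.1 ≠ p.2)).card : ℝ) * γ := by
        rw [Finset.sum_const, nsmul_eq_mul]
    _ ≤ (R : ℝ) ^ 2 * γ := by
        refine mul_le_mul_of_nonneg_right ?_ hS.g0
        have h2 : ((el e ×ˢ el e').filter (fun p => p.1 ≠ p.2)).card ≤ R * R := by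
          refine (Finset.card_filter_le _ _).trans ?_
          rw [Finset.card_product]
          exact Nat.mul_le_mul (hS.card e) (hS.card e')
        have h3 : ((((el e ×ˢ el e').filter (fun p => p.1 ≠ p.2)).card : ℕ) : ℝ) ≤
            ((R * R : ℕ) : ℝ) := by exact_mod_cast h2
        rw [sq]
        exact_mod_cast h3

/-- the term of the pair `e, e'` -/
private theorem NVar_term (hS : St el w R ε γ) (x : X) {e e' : E} (he : e ∈ st el x)
    (he' : e' ∈ st el x) {s : ℝ} (hs : ∑ f ∈ (nbr el e ∩ nbr el e') \ st el x, w f ≤ s) :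
    vv el ε w e * vv el ε w e' * ∏ f ∈ nbr el e ∪ nbr el e', (1 - ε * w f) ≤
      (1 - ε) ^ 2 * (w e * w e') / kap el ε w x + 16 / 9 * (w e * w e') * (ε * s) := by
  have hk : 3 / 4 ≤ kap el ε w x := kap_lo' hS x
  have hk0 : 0 < kap el ε w x := by linarith
  have hsub : st el x ⊆ nbr el e ∩ nbr el e' :=
    Finset.subset_inter (st_sub_nbr (mem_st.1 he)) (st_sub_nbr (mem_st.1 he'))
  have h1 := Finset.prod_union_inter (s₁ := nbr el e) (s₂ := nbr el e')
    (f := fun f => 1 - ε * w f)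
  have h2 := Finset.prod_sdiff (f := fun f => 1 - ε * w f) hsub
  set Q := ∏ f ∈ (nbr el e ∩ nbr el e') \ st el x, (1 - ε * w f) with hQ
  set P := ∏ f ∈ nbr el e ∪ nbr el e', (1 - ε * w f) with hP
  set t := ∑ f ∈ (nbr el e ∩ nbr el e') \ st el x, w f with ht
  have h3 : P * (Q * kap el ε w x) = pe el ε w e * pe el ε w e' := by
    rw [← h2] at h1
    exact h1
  have hQ0 : 0 < Q := prod_pos' hS _
  have hQ1 : 1 - ε * t ≤ Q := prod_ge hS _
  have ht0 : 0 ≤ t := Finset.sum_nonneg fun f _ => hS.w0 f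
  have htR : t ≤ R := by
    refine le_trans (Finset.sum_le_sum_of_subset_of_nonneg ?_ fun f _ _ => hS.w0 f)
      (sum_nbr_le hS e)
    exact Finset.sdiff_subset.trans Finset.inter_subset_left
  have hy : ε * t ≤ 1 / 4 := (mul_le_mul_of_nonneg_left htR hS.e0.le).trans hS.eR
  have hy0 : 0 ≤ ε * t := mul_nonneg hS.e0.le ht0
  have hinv : 1 / Q ≤ 1 + 4 / 3 * (ε * t) := by
    rw [div_le_iff₀ hQ0]
    have : (1 + 4 / 3 * (ε * t)) * (1 - ε * t) ≤ (1 + 4 / 3 * (ε * t)) * Q :=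
      mul_le_mul_of_nonneg_left hQ1 (by linarith)
    nlinarith
  have h4 : vv el ε w e * vv el ε w e' * P =
      (1 - ε) ^ 2 * (w e * w e') / kap el ε w x * (1 / Q) := by
    have h5 := vv_mul_pe hS e
    have h6 := vv_mul_pe hS e'
    have h7 : vv el ε w e * vv el ε w e' * P * (kap el ε w x * Q) =
        (1 - ε) ^ 2 * (w e * w e') := by
      calc vv el ε w e * vv el ε w e' * P * (kap el ε w x * Q)
          = vv el ε w e * vv el ε w e' * (P * (Q * kap el ε w x)) := by ring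
        _ = (vv el ε w e * pe el ε w e) * (vv el ε w e' * pe el ε w e') := by
            rw [h3]
            ring
        _ = (1 - ε) ^ 2 * (w e * w e') := by
            rw [h5, h6]
            ring
    rw [← h7]
    field_simp
  rw [h4]
  have hww : 0 ≤ w e * w e' := mul_nonneg (hS.w0 e) (hS.w0 e')
  have hε1 : ε ≤ 1 / 4 := by
    have h8 : (1 : ℝ) ≤ R := by exact_mod_cast hS.R0
    have h9 := hS.eR
    have h10 := hS.e0
    nlinarith
  have hA0 : 0 ≤ (1 - ε) ^ 2 * (w e * w e') / kap el ε w x := by positivity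
  have hA1 : (1 - ε) ^ 2 * (w e * w e') / kap el ε w x ≤ 4 / 3 * (w e * w e') := by
    rw [div_le_iff₀ hk0]
    have h11 : (1 - ε) ^ 2 ≤ 1 := by
      have := hS.e0
      nlinarith
    have h12 : (1 - ε) ^ 2 * (w e * w e') ≤ 1 * (w e * w e') :=
      mul_le_mul_of_nonneg_right h11 hww
    nlinarith
  calc (1 - ε) ^ 2 * (w e * w e') / kap el ε w x * (1 / Q)
      ≤ (1 - ε) ^ 2 * (w e * w e') / kap el ε w x * (1 + 4 / 3 * (ε * t)) :=
        mul_le_mul_of_nonneg_left hinv hA0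
    _ = (1 - ε) ^ 2 * (w e * w e') / kap el ε w x +
        (1 - ε) ^ 2 * (w e * w e') / kap el ε w x * (4 / 3 * (ε * t)) := by ring
    _ ≤ (1 - ε) ^ 2 * (w e * w e') / kap el ε w x +
        4 / 3 * (w e * w e') * (4 / 3 * (ε * s)) := by
        refine add_le_add le_rfl (mul_le_mul hA1 ?_ (by positivity) (by positivity))
        exact mul_le_mul_of_nonneg_left (mul_le_mul_of_nonneg_left hs hS.e0.le) (by norm_num)
    _ = _ := by ring

theorem E_Sx2 (hS : St el w R ε γ) (x : X) :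
    EW (sw ε w) (fun ω => Sx el ε w x ω ^ 2) ≤
      ((1 - ε) * dg el w x) ^ 2 / kap el ε w x + 8 * ε * R ^ 2 * γ := by
  classical
  have h1 : EW (sw ε w) (fun ω => Sx el ε w x ω ^ 2) =
      ∑ e ∈ st el x, ∑ e' ∈ st el x, vv el ε w e * vv el ε w e' *
        ∏ f ∈ nbr el e ∪ nbr el e', (1 - ε * w f) := by
    have h2 : (fun ω => Sx el ε w x ω ^ 2) = fun ω => ∑ e ∈ st el x, ∑ e' ∈ st el x,
        if Surv el ω e ∧ Surv el ω e' then vv el ε w e * vv el ε w e' else 0 := by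
      funext ω
      unfold Sx
      rw [sq, Finset.sum_mul_sum]
      refine Finset.sum_congr rfl fun e _ => Finset.sum_congr rfl fun e' _ => ?_
      by_cases h3 : Surv el ω e <;> by_cases h4 : Surv el ω e' <;> simp [h3, h4]
    rw [h2, ew_sum]
    refine Finset.sum_congr rfl fun e _ => ?_
    rw [ew_sum]
    refine Finset.sum_congr rfl fun e' _ => ?_
    rw [NVar_ite, p_surv2 hS]
  rw [h1]
  have hγ := hS.g0
  have hε := hS.e0
  have hR0 : (0 : ℝ) ≤ R := Nat.cast_nonneg R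
  have hdg0 : 0 ≤ dg el w x := dg_nonneg hS x
  have hdg1 : dg el w x ≤ 1 := hS.deg x
  -- the pairs with a second common vertex
  set B : E → E → Prop := fun e e' => ∃ y ∈ el e, y ≠ x ∧ y ∈ el e' with hB
  have h2 : ∀ e ∈ st el x, ∀ e' ∈ st el x, vv el ε w e * vv el ε w e' *
      ∏ f ∈ nbr el e ∪ nbr el e', (1 - ε * w f) ≤
      (1 - ε) ^ 2 * (w e * w e') / kap el ε w x + 16 / 9 * (w e * w e') *
        (ε * ((R : ℝ) ^ 2 * γ + if B e e' then (R : ℝ) else 0)) := by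
    intro e he e' he'
    refine NVar_term hS x he he' ?_
    by_cases hb : B e e'
    · rw [if_pos hb]
      have h3 : ∑ f ∈ (nbr el e ∩ nbr el e') \ st el x, w f ≤ R := by
        refine le_trans (Finset.sum_le_sum_of_subset_of_nonneg ?_ fun f _ _ => hS.w0 f)
          (sum_nbr_le hS e)
        exact Finset.sdiff_subset.trans Finset.inter_subset_left
      have h4 : 0 ≤ (R : ℝ) ^ 2 * γ := by positivity
      linarith
    · rw [if_neg hb, add_zero]
      refine NVar_Z hS x fun y hy hy' => ?_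
      by_contra hne
      exact hb ⟨y, hy, hne, hy'⟩
  -- the weight of the bad partners
  have h5 : ∀ e ∈ st el x, ∑ e' ∈ st el x, w e' * (if B e e' then (R : ℝ) else 0) ≤
      (R : ℝ) ^ 2 * γ := by
    intro e he
    have h6 : ∑ e' ∈ (st el x).filter (fun e' => B e e'), w e' ≤
        ∑ y ∈ (el e).filter (fun y => x ≠ y), ∑ f ∈ st el x ∩ st el y, w f := by
      refine NVar_cover hS.w0 _ _ _ fun f hf => ?_
      obtain ⟨hf1, y, hy1, hy2, hy3⟩ := Finset.mem_filter.1 hf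
      exact ⟨y, Finset.mem_filter.2 ⟨hy1, Ne.symm hy2⟩,
        Finset.mem_inter.2 ⟨hf1, mem_st.2 hy3⟩⟩
    have h7 : ∑ y ∈ (el e).filter (fun y => x ≠ y), ∑ f ∈ st el x ∩ st el y, w f ≤
        (R : ℝ) * γ := by
      calc ∑ y ∈ (el e).filter (fun y => x ≠ y), ∑ f ∈ st el x ∩ st el y, w f
          ≤ ∑ y ∈ (el e).filter (fun y => x ≠ y), γ :=
            Finset.sum_le_sum fun y hy => hS.cod _ _ (Finset.mem_filter.1 hy).2
        _ = (((el e).filter (fun y => x ≠ y)).card : ℝ) * γ := by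
            rw [Finset.sum_const, nsmul_eq_mul]
        _ ≤ (R : ℝ) * γ := by
            refine mul_le_mul_of_nonneg_right ?_ hγ
            exact_mod_cast (Finset.card_filter_le _ _).trans (hS.card e)
    calc ∑ e' ∈ st el x, w e' * (if B e e' then (R : ℝ) else 0)
        = (∑ e' ∈ (st el x).filter (fun e' => B e e'), w e') * R := by
          rw [Finset.sum_filter, Finset.sum_mul]
          refine Finset.sum_congr rfl fun e' _ => ?_
          split_ifs <;> ring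
      _ ≤ ((R : ℝ) * γ) * R := mul_le_mul_of_nonneg_right (h6.trans h7) hR0
      _ = (R : ℝ) ^ 2 * γ := by ring
  calc ∑ e ∈ st el x, ∑ e' ∈ st el x, vv el ε w e * vv el ε w e' *
        ∏ f ∈ nbr el e ∪ nbr el e', (1 - ε * w f)
      ≤ ∑ e ∈ st el x, ∑ e' ∈ st el x, ((1 - ε) ^ 2 * (w e * w e') / kap el ε w x +
        16 / 9 * (w e * w e') * (ε * ((R : ℝ) ^ 2 * γ + if B e e' then (R : ℝ) else 0))) :=
        Finset.sum_le_sum fun e he => Finset.sum_le_sum fun e' he' => h2 e he e' he'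
    _ = (1 - ε) ^ 2 / kap el ε w x * (dg el w x * dg el w x) +
        16 / 9 * ε * ((R : ℝ) ^ 2 * γ) * (dg el w x * dg el w x) +
        16 / 9 * ε * ∑ e ∈ st el x, w e *
          ∑ e' ∈ st el x, w e' * (if B e e' then (R : ℝ) else 0) := by
        have hdd : dg el w x * dg el w x = ∑ e ∈ st el x, ∑ e' ∈ st el x, w e * w e' := by
          unfold dg
          rw [Finset.sum_mul_sum]
        rw [hdd]
        simp only [Finset.mul_sum, ← Finset.sum_add_distrib]
        refine Finset.sum_congr rfl fun e _ => Finset.sum_congr rfl fun e' _ => ?_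
        ring
    _ ≤ (1 - ε) ^ 2 / kap el ε w x * (dg el w x * dg el w x) +
        16 / 9 * ε * ((R : ℝ) ^ 2 * γ) * 1 + 16 / 9 * ε * ((R : ℝ) ^ 2 * γ) := by
        have k1 : dg el w x * dg el w x ≤ 1 := by nlinarith
        have k2 : ∑ e ∈ st el x, w e *
            ∑ e' ∈ st el x, w e' * (if B e e' then (R : ℝ) else 0) ≤ (R : ℝ) ^ 2 * γ := by
          calc ∑ e ∈ st el x, w e *
              ∑ e' ∈ st el x, w e' * (if B e e' then (R : ℝ) else 0)
              ≤ ∑ e ∈ st el x, w e * ((R : ℝ) ^ 2 * γ) :=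
                Finset.sum_le_sum fun e he => mul_le_mul_of_nonneg_left (h5 e he) (hS.w0 e)
            _ = dg el w x * ((R : ℝ) ^ 2 * γ) := by
                rw [dg, Finset.sum_mul]
            _ ≤ 1 * ((R : ℝ) ^ 2 * γ) := mul_le_mul_of_nonneg_right hdg1 (by positivity)
            _ = _ := one_mul _
        have k3 : 0 ≤ 16 / 9 * ε * ((R : ℝ) ^ 2 * γ) := by positivity
        have k4 : 0 ≤ 16 / 9 * ε := by positivity
        have k5 := mul_le_mul_of_nonneg_left k1 k3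
        have k6 := mul_le_mul_of_nonneg_left k2 k4
        linarith
    _ ≤ ((1 - ε) * dg el w x) ^ 2 / kap el ε w x + 8 * ε * R ^ 2 * γ := by
        have k1 : (1 - ε) ^ 2 / kap el ε w x * (dg el w x * dg el w x) =
            ((1 - ε) * dg el w x) ^ 2 / kap el ε w x := by ring
        have k2 : 0 ≤ ε * ((R : ℝ) ^ 2 * γ) := by positivity
        rw [k1]
        nlinarith

theorem p_big (hS : St el w R ε γ) (x : X) {ξ : ℝ} (hξ : 0 < ξ) :
    PW (sw ε w) (fun ω => 1 + ξ < Sx el ε w x ω) ≤ 8 * ε * R ^ 2 * γ / ξ ^ 2 := by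
  classical
  have hk0 : 0 < kap el ε w x := lt_of_lt_of_le (by norm_num) (kap_lo' hS x)
  obtain ⟨m, hm⟩ : ∃ m : ℝ, m * kap el ε w x = (1 - ε) * dg el w x :=
    ⟨(1 - ε) * dg el w x / kap el ε w x, div_mul_cancel₀ _ hk0.ne'⟩
  have hm1 : m ≤ 1 := by
    have h1 := kap_lo hS x
    have h2 := hS.deg x
    have h3 : m * kap el ε w x ≤ 1 * kap el ε w x := by
      rw [hm, one_mul]
      linarith
    exact le_of_mul_le_mul_right h3 hk0
  have hS0 : ∀ ω, ¬ Unt el ω x → Sx el ε w x ω = 0 := by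
    intro ω hω
    unfold Sx
    refine Finset.sum_eq_zero fun e he => ?_
    rw [if_neg]
    exact fun h => hω (surv_unt (mem_st.1 he) h)
  have hF : ∀ ω, (Sx el ε w x ω ^ 2 + (-2 * m) * Sx el ε w x ω +
      m ^ 2 * (if Unt el ω x then 1 else 0)) =
      (Sx el ε w x ω - m) ^ 2 * (if Unt el ω x then 1 else 0) := by
    intro ω
    by_cases h : Unt el ω x
    · rw [if_pos h]
      ring
    · rw [if_neg h, hS0 ω h]
      ring
  have h1 : PW (sw ε w) (fun ω => 1 + ξ < Sx el ε w x ω) ≤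
      EW (sw ε w) (fun ω => (ξ ^ 2)⁻¹ * (Sx el ε w x ω ^ 2 + (-2 * m) * Sx el ε w x ω +
        m ^ 2 * (if Unt el ω x then 1 else 0))) := by
    refine markov (isW_sw hS) (fun ω => ?_) (fun ω hω => ?_)
    · rw [hF]
      split_ifs <;> positivity
    · rw [hF]
      have h2 : Unt el ω x := by
        by_contra h
        rw [hS0 ω h] at hω
        linarith
      rw [if_pos h2, mul_one, inv_mul_eq_div, le_div_iff₀ (by positivity), one_mul]
      nlinarith
  refine h1.trans ?_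
  rw [ew_smul, ew_add, ew_add, ew_smul, ew_smul, ← Pw_eq, p_unt hS, E_Sx hS, ← hm]
  have h2 := E_Sx2 hS x
  have h3 : ((1 - ε) * dg el w x) ^ 2 / kap el ε w x = m ^ 2 * kap el ε w x := by
    rw [← hm]
    field_simp
  rw [h3] at h2
  rw [inv_mul_eq_div]
  refine div_le_div_of_nonneg_right ?_ (by positivity)
  linarith

end MP_80c395_TP
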