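import Pool.Agent.Lib.MP_80c395_co_TP.TDefs

/-!
# Project TP, part T: separating the vertices of large degree

`sep_step`: let `P` be connected and disjoint from `Z ∪ C`, `x, x' ∈ P`, `z, z' ∈ Z`, `x ~ z`,
`x' ~ z'`, `(x, z) ≠ (x', z')`; let `h, h'` be joined to `z, z'` inside of `Z`.  Then `h` and `h'` are
joined in `T - C` (`C` disjoint from `Z`) but not in `T - (C ∪ {x})`.
Proof.  `h .. z x .. (P) .. x' z' .. h'` avoids `C`.  Suppose that there is a walk from `h` to `h'` in
`T - (C ∪ {x})`.  Then there is a walk from `z` to `z'` which avoids `x` (`x ∉ Z`), hence a path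
`p₁` from `z` to `z'` which avoids `x`.  There is also a path from `x` to `x'` inside of `P`; adding
`z` and `z'` (both not in `P`) gives, if `z ≠ z'`, a path `p₂` from `z` to `z'` through `x`; in a
tree the path is unique (`SimpleGraph.IsAcyclic.path_unique`), contradiction.  If `z = z'` then
`x ≠ x'`, and `z x .. x' z` is a cycle (again: `x` and `x'` are joined by a path inside of `P` and by
the path `x z x'`), contradiction.

`one_edge`: consider the pairs `(Z, C)` with (1) `Z ⊇ H₀ := {x | D < deg x}`, `D₁ < deg z` for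
`z ∈ Z`; (2) `C` disjoint from `Z`, `deg x ≤ D₁` for `x ∈ C`; (3) every `z ∈ Z` is joined inside of
`Z` to some `h ∈ H₀`; (4) `C = ∅`, or there is `A ⊆ H₀` with `|A| = |C| + 1` whose elements are
pairwise not joined in `T - C`.  `(H₀, ∅)` is such a pair.  Take one with `|Z| + |C|` maximal.  If the
last claim fails we have `P, x, x', z, z'`.  `x ∉ Z ∪ C`.  If `D₁ < deg x` then `(Z ∪ {x}, C)` is
also such a pair (`x ~ z`).  Otherwise `(Z, C ∪ {x})` is such a pair: (4): let `h, h' ∈ H₀` be joined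
to `z, z'` inside of `Z` (by (3)); by `sep_step` they are joined in `T - C` but not in
`T - (C ∪ {x})`.  (So `H₀ ≠ ∅`; if `C = ∅` let `A = {h}`.)  If some `a ∈ A` is joined to `h` in
`T - C` (so to `h'`), replace `a` by `h, h'`; otherwise add `h`.  (Joined in
`T - (C ∪ {x})` implies joined in `T - C`.)  In both cases we get `|A| + 1` elements of `H₀`
which are pairwise not joined in `T - (C ∪ {x})`.  Contradiction to the maximality.
So `|C| ≤ |H₀|`.
-/

set_option autoImplicit false

namespace MP_80c395_TP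

open Finset

/-- `x` and `y` are joined by a walk all of whose vertices are in `A` -/
def Jn {m : ℕ} (T : SimpleGraph (Fin m)) (A : Finset (Fin m)) (x y : Fin m) : Prop :=
  ∃ (hx : x ∈ A) (hy : y ∈ A), (T.induce (A : Set (Fin m))).Reachable ⟨x, hx⟩ ⟨y, hy⟩

section oe

variable {m : ℕ} {T : SimpleGraph (Fin m)} {A B : Finset (Fin m)} {x y z : Fin m}

private theorem OneEdge_refl (hx : x ∈ A) : Jn T A x x :=
  ⟨hx, hx, SimpleGraph.Reachable.refl _⟩

private theorem OneEdge_symm (h : Jn T A x y) : Jn T A y x := by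
  obtain ⟨hx, hy, h⟩ := h
  exact ⟨hy, hx, h.symm⟩

private theorem OneEdge_trans (h : Jn T A x y) (h' : Jn T A y z) : Jn T A x z := by
  obtain ⟨hx, hy, h⟩ := h
  obtain ⟨hy', hz, h'⟩ := h'
  exact ⟨hx, hz, h.trans h'⟩

private theorem OneEdge_mono (hAB : A ⊆ B) (h : Jn T A x y) : Jn T B x y := by
  obtain ⟨hx, hy, h⟩ := h
  have hAB' : (A : Set (Fin m)) ≤ (B : Set (Fin m)) := fun v hv => hAB hv
  exact ⟨hAB hx, hAB hy, h.map (SimpleGraph.induceHomOfLE T hAB').toHom⟩

private theorem OneEdge_adj (hx : x ∈ A) (hy : y ∈ A) (h : T.Adj x y) : Jn T A x y :=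
  ⟨hx, hy, SimpleGraph.Adj.reachable (by simpa using h)⟩

private theorem OneEdge_walk0 {u v : (A : Set (Fin m))}
    (p : (T.induce (A : Set (Fin m))).Walk u v) :
    ∃ q : T.Walk u.1 v.1, ∀ w ∈ q.support, w ∈ A := by
  induction p with
  | nil => exact ⟨SimpleGraph.Walk.nil, fun w hw => by
      rw [SimpleGraph.Walk.support_nil, List.mem_singleton] at hw
      rw [hw]
      exact Subtype.prop _⟩
  | cons hadj p ih =>
      obtain ⟨q, hq⟩ := ih
      refine ⟨SimpleGraph.Walk.cons (by simpa using hadj) q, fun w hw => ?_⟩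
      rw [SimpleGraph.Walk.support_cons, List.mem_cons] at hw
      rcases hw with h | h
      · rw [h]
        exact Subtype.prop _
      · exact hq w h

private theorem OneEdge_walk (h : Jn T A x y) : ∃ p : T.Walk x y, ∀ v ∈ p.support, v ∈ A := by
  obtain ⟨hx, hy, ⟨p⟩⟩ := h
  exact OneEdge_walk0 p

private theorem OneEdge_cn (hP : Cn T A) (hx : x ∈ A) (hy : y ∈ A) : Jn T A x y :=
  ⟨hx, hy, hP ⟨x, hx⟩ ⟨y, hy⟩⟩

end oe

theorem sep_step {m : ℕ} {T : SimpleGraph (Fin m)} (hT : T.IsTree) {Z C P : Finset (Fin m)}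
    (hZC : Disjoint Z C) (hP : Cn T P) (hPZ : Disjoint P (Z ∪ C)) {x x' z z' h h' : Fin m}
    (hx : x ∈ P) (hx' : x' ∈ P) (hz : z ∈ Z) (hz' : z' ∈ Z) (hxz : T.Adj x z)
    (hxz' : T.Adj x' z') (hne : ¬ (x = x' ∧ z = z')) (hh : Jn T Z z h) (hh' : Jn T Z z' h') :
    Jn T (univ \ C) h h' ∧ ¬ Jn T (univ \ (insert x C)) h h' := by
  have hPZ' : Disjoint P Z := (disjoint_union_right.1 hPZ).1
  have hPC : Disjoint P C := (disjoint_union_right.1 hPZ).2
  have hZsub : Z ⊆ univ \ C := fun v hv => mem_sdiff.2 ⟨mem_univ _, disjoint_left.1 hZC hv⟩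
  have hPsub : P ⊆ univ \ C := fun v hv => mem_sdiff.2 ⟨mem_univ _, disjoint_left.1 hPC hv⟩
  have hxZ : x ∉ Z := disjoint_left.1 hPZ' hx
  refine ⟨?_, ?_⟩
  · have h1 : Jn T (univ \ C) h z := OneEdge_mono hZsub (OneEdge_symm hh)
    have h2 : Jn T (univ \ C) z x := OneEdge_adj (hZsub hz) (hPsub hx) hxz.symm
    have h3 : Jn T (univ \ C) x x' := OneEdge_mono hPsub (OneEdge_cn hP hx hx')
    have h4 : Jn T (univ \ C) x' z' := OneEdge_adj (hPsub hx') (hZsub hz') hxz'
    have h5 : Jn T (univ \ C) z' h' := OneEdge_mono hZsub hh'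
    exact OneEdge_trans h1 (OneEdge_trans h2 (OneEdge_trans h3 (OneEdge_trans h4 h5)))
  · intro hcon
    have hbr : T.IsBridge s(x, z) :=
      SimpleGraph.isAcyclic_iff_forall_adj_isBridge.1 hT.isAcyclic hxz
    rw [SimpleGraph.isBridge_iff_forall_walk_mem_edges] at hbr
    -- the walk from `z` to `z'` avoiding `x`
    have hsub1 : Z ⊆ univ \ {x} := fun v hv => mem_sdiff.2 ⟨mem_univ _, fun h0 => by
      rw [mem_singleton] at h0
      exact hxZ (h0 ▸ hv)⟩
    have hsub2 : univ \ (insert x C) ⊆ univ \ {x} := fun v hv => mem_sdiff.2 ⟨mem_univ _,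
      fun h0 => (mem_sdiff.1 hv).2 (by
        rw [mem_singleton] at h0
        rw [h0]
        exact mem_insert_self _ _)⟩
    have h1 : Jn T (univ \ {x}) z z' := OneEdge_trans (OneEdge_mono hsub1 hh)
      (OneEdge_trans (OneEdge_mono hsub2 hcon) (OneEdge_mono hsub1 (OneEdge_symm hh')))
    obtain ⟨p1, hp1⟩ := OneEdge_walk h1
    obtain ⟨p2, hp2⟩ := OneEdge_walk (OneEdge_cn hP hx hx')
    have hmem := hbr (p2.append (SimpleGraph.Walk.cons hxz' p1.reverse))
    rw [SimpleGraph.Walk.edges_append, List.mem_append, SimpleGraph.Walk.edges_cons,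
      List.mem_cons, SimpleGraph.Walk.edges_reverse, List.mem_reverse] at hmem
    rcases hmem with h2 | h2 | h2
    · have h3 := hp2 z (p2.snd_mem_support_of_mem_edges h2)
      exact disjoint_left.1 hPZ' h3 hz
    · rw [Sym2.eq_iff] at h2
      rcases h2 with ⟨h3, h4⟩ | ⟨h3, h4⟩
      · exact hne ⟨h3, h4⟩
      · exact hxZ (h3 ▸ hz')
    · have h3 := hp1 x (p1.fst_mem_support_of_mem_edges h2)
      simp at h3

theorem one_edge {m : ℕ} {T : SimpleGraph (Fin m)} (hT : T.IsTree) (D₁ D : ℕ) (hD : D₁ ≤ D) :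
    ∃ Z C : Finset (Fin m), Disjoint Z C ∧ (∀ x ∈ Z, D₁ < nb T univ x) ∧
      (∀ x, D < nb T univ x → x ∈ Z) ∧ (∀ x ∈ C, nb T univ x ≤ D₁) ∧
      C.card ≤ (univ.filter (fun x => D < nb T univ x)).card ∧
      ∀ P, Cn T P → Disjoint P (Z ∪ C) → ∀ x ∈ P, ∀ x' ∈ P, ∀ z ∈ Z, ∀ z' ∈ Z,
        T.Adj x z → T.Adj x' z' → x = x' ∧ z = z' := by
  classical
  obtain ⟨H₀, hH₀⟩ : ∃ H₀ : Finset (Fin m), H₀ = univ.filter (fun x => D < nb T univ x) :=
    ⟨_, rfl⟩
  have hmH : ∀ x, x ∈ H₀ ↔ D < nb T univ x := fun x => by simp [hH₀]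
  obtain ⟨OK, hOK⟩ : ∃ OK : Finset (Fin m) × Finset (Fin m) → Prop, OK = fun Q =>
      H₀ ⊆ Q.1 ∧ (∀ z ∈ Q.1, D₁ < nb T univ z) ∧ Disjoint Q.1 Q.2 ∧
      (∀ x ∈ Q.2, nb T univ x ≤ D₁) ∧ (∀ z ∈ Q.1, ∃ h ∈ H₀, Jn T Q.1 z h) ∧
      (Q.2 = ∅ ∨ ∃ A ⊆ H₀, Q.2.card + 1 ≤ A.card ∧
        ∀ a ∈ A, ∀ b ∈ A, a ≠ b → ¬ Jn T (univ \ Q.2) a b) := ⟨_, rfl⟩
  have hne : ((univ : Finset (Finset (Fin m) × Finset (Fin m))).filter OK).Nonempty := by
    refine ⟨(H₀, ∅), mem_filter.2 ⟨mem_univ _, ?_⟩⟩
    rw [hOK]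
    refine ⟨Subset.refl _, fun z hz => lt_of_le_of_lt hD ((hmH z).1 hz), disjoint_empty_right _,
      fun x hx => absurd hx (notMem_empty x), fun z hz => ⟨z, hz, OneEdge_refl hz⟩, Or.inl rfl⟩
  obtain ⟨⟨Z, C⟩, hZC, hmax⟩ := exists_max_image _ (fun Q => Q.1.card + Q.2.card) hne
  have hok := (mem_filter.1 hZC).2
  rw [hOK] at hok
  obtain ⟨o1, o2, o3, o4, o5, o6⟩ := hok
  simp only at o1 o2 o3 o4 o5 o6
  have hmax' : ∀ Q, OK Q → Q.1.card + Q.2.card ≤ Z.card + C.card := fun Q hQ =>
    hmax Q (mem_filter.2 ⟨mem_univ _, hQ⟩)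
  refine ⟨Z, C, o3, o2, fun x hx => o1 ((hmH x).2 hx), o4, ?_, ?_⟩
  · rw [← hH₀]
    rcases o6 with h | ⟨A, hA, hc, -⟩
    · rw [h, card_empty]
      exact Nat.zero_le _
    · have := card_le_card hA
      omega
  · intro P hP hPZ x hx x' hx' z hz z' hz' hxz hxz'
    by_contra hcon
    have hPZ' : Disjoint P Z := (disjoint_union_right.1 hPZ).1
    have hPC : Disjoint P C := (disjoint_union_right.1 hPZ).2
    have hxZ : x ∉ Z := disjoint_left.1 hPZ' hx
    have hxC : x ∉ C := disjoint_left.1 hPC hx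
    rcases lt_or_ge D₁ (nb T univ x) with hdeg | hdeg
    · -- add `x` to `Z`
      have hsub : Z ⊆ insert x Z := subset_insert _ _
      have h1 : OK (insert x Z, C) := by
        rw [hOK]
        refine ⟨o1.trans hsub, ?_, ?_, o4, ?_, o6⟩
        · intro v hv
          rcases mem_insert.1 hv with h0 | h0
          · rw [h0]
            exact hdeg
          · exact o2 v h0
        · exact disjoint_insert_left.2 ⟨hxC, o3⟩
        · intro v hv
          rcases mem_insert.1 hv with h0 | h0
          · obtain ⟨h, hh, hj⟩ := o5 z hz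
            refine ⟨h, hh, ?_⟩
            rw [h0]
            exact OneEdge_trans (OneEdge_adj (mem_insert_self _ _) (hsub hz) hxz)
              (OneEdge_mono hsub hj)
          · obtain ⟨h, hh, hj⟩ := o5 v h0
            exact ⟨h, hh, OneEdge_mono hsub hj⟩
      have h2 := hmax' _ h1
      simp only [card_insert_of_notMem hxZ] at h2
      omega
    · -- add `x` to `C`
      obtain ⟨h, hh, hj⟩ := o5 z hz
      obtain ⟨h', hh', hj'⟩ := o5 z' hz'
      obtain ⟨s1, s2⟩ := sep_step hT o3 hP hPZ hx hx' hz hz' hxz hxz' hcon hj hj'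
      have hZC' : ∀ v ∈ Z, v ∈ univ \ C := fun v hv =>
        mem_sdiff.2 ⟨mem_univ _, disjoint_left.1 o3 hv⟩
      have hZx : ∀ v ∈ Z, v ∈ univ \ insert x C := fun v hv =>
        mem_sdiff.2 ⟨mem_univ _, fun h0 => by
          rcases mem_insert.1 h0 with h3 | h3
          · exact hxZ (h3 ▸ hv)
          · exact disjoint_left.1 o3 hv h3⟩
      have hcx : univ \ insert x C ⊆ univ \ C := sdiff_subset_sdiff (Subset.refl _)
        (subset_insert _ _)
      obtain ⟨A, hA, hAc, hAp⟩ : ∃ A ⊆ H₀, C.card + 1 ≤ A.card ∧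
          ∀ a ∈ A, ∀ b ∈ A, a ≠ b → ¬ Jn T (univ \ C) a b := by
        rcases o6 with h0 | h0
        · refine ⟨{h}, singleton_subset_iff.2 hh, by rw [h0]; simp, ?_⟩
          intro a ha b hb hab
          rw [mem_singleton] at ha hb
          exact absurd (ha.trans hb.symm) hab
        · exact h0
      obtain ⟨A1, hA1⟩ : ∃ A1, A1 = A.filter (fun a => ¬ Jn T (univ \ C) a h) := ⟨_, rfl⟩
      have hA1m : ∀ a, a ∈ A1 ↔ a ∈ A ∧ ¬ Jn T (univ \ C) a h := fun a => by
        rw [hA1, mem_filter]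
      have hcard1 : A.card ≤ A1.card + 1 := by
        have e1 := card_filter_add_card_filter_not (s := A) (fun a => Jn T (univ \ C) a h)
        have e2 : (A.filter (fun a => Jn T (univ \ C) a h)).card ≤ 1 := by
          rw [card_le_one]
          intro a ha b hb
          by_contra hab
          exact hAp a (mem_filter.1 ha).1 b (mem_filter.1 hb).1 hab
            (OneEdge_trans (mem_filter.1 ha).2 (OneEdge_symm (mem_filter.1 hb).2))
        rw [← hA1] at e1
        omega
      have hrh : Jn T (univ \ C) h h := OneEdge_refl (hZC' h (o1 hh))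
      have hnh' : h' ∉ A1 := fun h0 => ((hA1m h').1 h0).2 (OneEdge_symm s1)
      have hhh' : h ≠ h' := fun h0 => s2 (h0 ▸ OneEdge_refl (hZx h (o1 hh)))
      have hnh : h ∉ insert h' A1 := fun h0 => by
        rcases mem_insert.1 h0 with h3 | h3
        · exact hhh' h3
        · exact ((hA1m h).1 h3).2 hrh
      have hcard2 : (insert h (insert h' A1)).card = A1.card + 2 := by
        rw [card_insert_of_notMem hnh, card_insert_of_notMem hnh']
      have hA1p : ∀ a ∈ A1, ¬ Jn T (univ \ insert x C) a h ∧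
          ¬ Jn T (univ \ insert x C) a h' := fun a ha => by
        have h3 := ((hA1m a).1 ha).2
        exact ⟨fun h4 => h3 (OneEdge_mono hcx h4),
          fun h4 => h3 (OneEdge_trans (OneEdge_mono hcx h4) (OneEdge_symm s1))⟩
      have h1 : OK (Z, insert x C) := by
        rw [hOK]
        refine ⟨o1, o2, disjoint_insert_right.2 ⟨hxZ, o3⟩, ?_, o5, Or.inr
          ⟨insert h (insert h' A1), ?_, ?_, ?_⟩⟩
        · intro v hv
          rcases mem_insert.1 hv with h0 | h0
          · rw [h0]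
            exact hdeg
          · exact o4 v h0
        · intro v hv
          rcases mem_insert.1 hv with h0 | h0
          · rw [h0]
            exact hh
          · rcases mem_insert.1 h0 with h3 | h3
            · rw [h3]
              exact hh'
            · exact hA ((hA1m v).1 h3).1
        · rw [hcard2, card_insert_of_notMem hxC]
          omega
        · intro a ha b hb hab
          rcases mem_insert.1 ha with ha1 | ha1
          · rcases mem_insert.1 hb with hb1 | hb1
            · exact absurd (ha1.trans hb1.symm) hab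
            · rcases mem_insert.1 hb1 with hb2 | hb2
              · rw [ha1, hb2]
                exact s2
              · rw [ha1]
                exact fun h4 => (hA1p b hb2).1 (OneEdge_symm h4)
          · rcases mem_insert.1 ha1 with ha2 | ha2
            · rcases mem_insert.1 hb with hb1 | hb1
              · rw [ha2, hb1]
                exact fun h4 => s2 (OneEdge_symm h4)
              · rcases mem_insert.1 hb1 with hb2 | hb2
                · exact absurd (ha2.trans hb2.symm) hab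
                · rw [ha2]
                  exact fun h4 => (hA1p b hb2).2 (OneEdge_symm h4)
            · rcases mem_insert.1 hb with hb1 | hb1
              · rw [hb1]
                exact (hA1p a ha2).1
              · rcases mem_insert.1 hb1 with hb2 | hb2
                · rw [hb2]
                  exact (hA1p a ha2).2
                · exact fun h4 => hAp a ((hA1m a).1 ha2).1 b ((hA1m b).1 hb2).1 hab
                    (OneEdge_mono hcx h4)
      have h2 := hmax' _ h1
      simp only [card_insert_of_notMem hxC] at h2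
      omega

end MP_80c395_TP
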