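import Mathlib

/-!
# Project TP: the uniform reversible law

`Al` is a set of hosts, `bad` a symmetric relation (forbidden pairs).  For `v : V` let
`Ok v = {w ∈ Al | ¬ bad v w, w ≠ v}`; `|Ok v| ≥ |Al| - η M ≥ (1 - 2 η) M` for every `v` (`hbad`), so
`Ok v` is not empty.  Put `κ v w = 1 / |Ok v|` for `w ∈ Ok v`, else `0`;
`Tot = ∑ v ∈ Al, |Ok v|`, `π v = |Ok v| / Tot` for `v ∈ Al`, else `0`.
Stationary: for `w ∈ Al`: `∑ v, π v κ v w = |{v ∈ Al | w ∈ Ok v}| / Tot = |Ok w| / Tot` by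
the symmetry of `bad`; for `w ∉ Al` both sides are `0`.
Bounds: `κ ≤ 1 / ((1 - 2 η) M) ≤ (1 + 4 η) / M`; `Tot ≥ (1 - η) M (1 - 2 η) M`, `|Ok v| ≤ |Al| ≤ M`,
so `π v ≤ 1 / ((1 - η) (1 - 2 η) M) ≤ (1 + 8 η) / M` (`η ≤ 1/16`).
`ρ u v = π v / p` for `v ∈ Ok u`, else `0`, `p = ∑ v ∈ Ok u, π v ≥ 1 - η M (1 + 8 η) / M ≥ 1 - 2 η`
(`Al \ Ok u` has at most `η M` elements), so `ρ u v ≤ π v / (1 - 2 η) ≤ (1 + 4 η) π v`.
`M > 0`.
-/

set_option autoImplicit false

namespace MP_80c395_TP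

open Finset

theorem rev_law {V : Type} [Fintype V] [DecidableEq V] (Al : Finset V) (bad : V → V → Prop)
    (hsym : ∀ v w, bad v w → bad w v) [DecidableRel bad] (M η : ℝ) (hM : 0 < M) (hη : 0 ≤ η)
    (hη1 : η ≤ 1 / 16) (hAl : (1 - η) * M ≤ Al.card) (hAl' : (Al.card : ℝ) ≤ M)
    (hbad : ∀ v, ((Al.filter (fun w => bad v w ∨ w = v)).card : ℝ) ≤ η * M) :
    ∃ (π : V → ℝ) (κ : V → V → ℝ) (ρ : V → V → ℝ),
      (∀ v, 0 ≤ π v) ∧ ∑ v, π v = 1 ∧ (∀ v, π v ≠ 0 → v ∈ Al) ∧ (∀ v, π v ≤ (1 + 8 * η) / M) ∧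
      (∀ v w, 0 ≤ κ v w) ∧ (∀ v, ∑ w, κ v w = 1) ∧
      (∀ v w, κ v w ≠ 0 → w ∈ Al ∧ ¬ bad v w ∧ v ≠ w) ∧ (∀ v w, κ v w ≤ (1 + 4 * η) / M) ∧
      (∀ w, ∑ v, π v * κ v w = π w) ∧
      (∀ u v, 0 ≤ ρ u v) ∧ (∀ u, ∑ v, ρ u v = 1) ∧ (∀ u v, ρ u v ≠ 0 → v ∈ Al ∧ ¬ bad u v) ∧
      (∀ u v, ρ u v ≤ (1 + 4 * η) * π v) := by
  classical
  let Ok : V → Finset V := fun v => Al.filter (fun w => ¬ (bad v w ∨ w = v))
  have memOk : ∀ v w, w ∈ Ok v ↔ w ∈ Al ∧ ¬ bad v w ∧ w ≠ v := by
    intro v w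
    simp only [Ok, Finset.mem_filter, not_or, ne_eq]
  have symOk : ∀ v w, v ∈ Al → w ∈ Ok v → v ∈ Ok w := by
    intro v w hv hw
    rw [memOk] at hw ⊢
    exact ⟨hv, fun h => hw.2.1 (hsym _ _ h), fun h => hw.2.2 h.symm⟩
  let c : V → ℝ := fun v => ((Ok v).card : ℝ)
  have hcadd : ∀ v, ((Al.filter (fun w => bad v w ∨ w = v)).card : ℝ) + c v = Al.card := by
    intro v
    have h := Finset.card_filter_add_card_filter_not (s := Al) (fun w => bad v w ∨ w = v)
    simp only [c, Ok]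
    exact_mod_cast h
  have hc : ∀ v, (1 - 2 * η) * M ≤ c v := by
    intro v
    have h1 := hcadd v
    have h2 := hbad v
    nlinarith
  have h12 : 0 < (1 - 2 * η) * M := by
    apply mul_pos _ hM
    linarith
  have hc0 : ∀ v, 0 < c v := fun v => lt_of_lt_of_le h12 (hc v)
  have hcle : ∀ v, c v ≤ Al.card := by
    intro v
    have h1 := hcadd v
    have h2 : (0 : ℝ) ≤ ((Al.filter (fun w => bad v w ∨ w = v)).card : ℝ) := Nat.cast_nonneg _
    linarith
  have hAl0 : (0 : ℝ) < Al.card := by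
    refine lt_of_lt_of_le ?_ hAl
    apply mul_pos _ hM
    linarith
  let Tot : ℝ := ∑ v ∈ Al, c v
  have hTot : (Al.card : ℝ) * ((1 - 2 * η) * M) ≤ Tot := by
    have h := Finset.card_nsmul_le_sum Al c ((1 - 2 * η) * M) (fun v _ => hc v)
    rw [nsmul_eq_mul] at h
    exact h
  have hTot0 : 0 < Tot := lt_of_lt_of_le (mul_pos hAl0 h12) hTot
  have hinv : 1 / ((1 - 2 * η) * M) ≤ (1 + 4 * η) / M := by
    rw [div_le_div_iff₀ h12 hM]
    have : 1 ≤ (1 + 4 * η) * (1 - 2 * η) := by nlinarith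
    nlinarith
  let π : V → ℝ := fun v => if v ∈ Al then c v / Tot else 0
  let κ : V → V → ℝ := fun v w => if w ∈ Ok v then 1 / c v else 0
  let p : V → ℝ := fun u => ∑ v ∈ Ok u, π v
  let ρ : V → V → ℝ := fun u v => if v ∈ Ok u then π v / p u else 0
  have hπ0 : ∀ v, 0 ≤ π v := by
    intro v
    simp only [π]
    split_ifs
    · exact div_nonneg (hc0 v).le hTot0.le
    · exact le_rfl
  have hπAl : ∀ v, π v ≠ 0 → v ∈ Al := by
    intro v hv
    by_contra h
    exact hv (by simp only [π, if_neg h])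
  have hπsumAl : ∑ v ∈ Al, π v = 1 := by
    have : ∑ v ∈ Al, π v = ∑ v ∈ Al, c v / Tot :=
      Finset.sum_congr rfl (fun v hv => by simp only [π, if_pos hv])
    rw [this, ← Finset.sum_div]
    exact div_self hTot0.ne'
  have hπsum : ∑ v, π v = 1 := by
    rw [← hπsumAl]
    symm
    apply Finset.sum_subset (Finset.subset_univ _)
    intro v _ hv
    simp only [π, if_neg hv]
  have hπle : ∀ v, π v ≤ (1 + 4 * η) / M := by
    intro v
    have hM' : 0 ≤ (1 + 4 * η) / M := by positivity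
    simp only [π]
    split_ifs
    · refine le_trans ?_ hinv
      rw [div_le_div_iff₀ hTot0 h12]
      calc c v * ((1 - 2 * η) * M) ≤ (Al.card : ℝ) * ((1 - 2 * η) * M) :=
            mul_le_mul_of_nonneg_right (hcle v) h12.le
        _ ≤ Tot := hTot
        _ = 1 * Tot := (one_mul _).symm
    · exact hM'
  have hp : ∀ u, 1 - 2 * η ≤ p u := by
    intro u
    have hsplit : ∑ v ∈ Al.filter (fun w => bad u w ∨ w = u), π v + p u = 1 := by
      rw [← hπsumAl]
      exact Finset.sum_filter_add_sum_filter_not Al (fun w => bad u w ∨ w = u) π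
    have hb : ∑ v ∈ Al.filter (fun w => bad u w ∨ w = u), π v ≤ 2 * η := by
      have h := Finset.sum_le_card_nsmul (Al.filter (fun w => bad u w ∨ w = u)) π
        ((1 + 4 * η) / M) (fun v _ => hπle v)
      rw [nsmul_eq_mul] at h
      refine h.trans ?_
      have h2 : ((Al.filter (fun w => bad u w ∨ w = u)).card : ℝ) * ((1 + 4 * η) / M) ≤
          (η * M) * ((1 + 4 * η) / M) :=
        mul_le_mul_of_nonneg_right (hbad u) (by positivity)
      refine h2.trans ?_
      have h3 : (η * M) * ((1 + 4 * η) / M) = η * (1 + 4 * η) := by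
        field_simp
      rw [h3]
      nlinarith
    linarith
  have hp0 : ∀ u, 0 < p u := fun u => lt_of_lt_of_le (by linarith) (hp u)
  refine ⟨π, κ, ρ, hπ0, hπsum, hπAl, ?_, ?_, ?_, ?_, ?_, ?_, ?_, ?_, ?_, ?_⟩
  · intro v
    refine (hπle v).trans ?_
    apply div_le_div_of_nonneg_right _ hM.le
    linarith
  · intro v w
    simp only [κ]
    split_ifs
    · exact div_nonneg zero_le_one (hc0 v).le
    · exact le_rfl
  · intro v
    simp only [κ]
    rw [Finset.sum_ite_mem, Finset.univ_inter, Finset.sum_const, nsmul_eq_mul]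
    exact mul_one_div_cancel (hc0 v).ne'
  · intro v w hw
    have h : w ∈ Ok v := by
      by_contra h
      exact hw (by simp only [κ, if_neg h])
    rw [memOk] at h
    exact ⟨h.1, h.2.1, fun e => h.2.2 e.symm⟩
  · intro v w
    have hM' : 0 ≤ (1 + 4 * η) / M := by positivity
    simp only [κ]
    split_ifs
    · exact (one_div_le_one_div_of_le h12 (hc v)).trans hinv
    · exact hM'
  · intro w
    have h1 : ∀ v, π v * κ v w = if v ∈ Al ∧ w ∈ Ok v then 1 / Tot else 0 := by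
      intro v
      simp only [π, κ]
      by_cases hv : v ∈ Al
      · by_cases hw : w ∈ Ok v
        · rw [if_pos hv, if_pos hw, if_pos ⟨hv, hw⟩]
          have := (hc0 v).ne'
          have := hTot0.ne'
          field_simp
        · rw [if_neg hw, mul_zero, if_neg (fun h => hw h.2)]
      · rw [if_neg hv, zero_mul, if_neg (fun h => hv h.1)]
    simp only [h1]
    by_cases hw : w ∈ Al
    · have h2 : ∀ v, (v ∈ Al ∧ w ∈ Ok v) ↔ v ∈ Ok w := by
        intro v
        constructor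
        · rintro ⟨ha, hb⟩
          exact symOk v w ha hb
        · intro h
          exact ⟨((memOk w v).1 h).1, symOk w v hw h⟩
      simp only [h2, π, if_pos hw]
      rw [Finset.sum_ite_mem, Finset.univ_inter, Finset.sum_const, nsmul_eq_mul]
      simp only [c]
      ring
    · simp only [π, if_neg hw]
      apply Finset.sum_eq_zero
      intro v _
      rw [if_neg]
      rintro ⟨_, hb⟩
      exact hw ((memOk v w).1 hb).1
  · intro u v
    simp only [ρ]
    split_ifs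
    · exact div_nonneg (hπ0 v) (hp0 u).le
    · exact le_rfl
  · intro u
    simp only [ρ]
    rw [Finset.sum_ite_mem, Finset.univ_inter, ← Finset.sum_div]
    exact div_self (hp0 u).ne'
  · intro u v hv
    have h : v ∈ Ok u := by
      by_contra h
      exact hv (by simp only [ρ, if_neg h])
    rw [memOk] at h
    exact ⟨h.1, h.2.1⟩
  · intro u v
    simp only [ρ]
    split_ifs
    · rw [div_le_iff₀ (hp0 u)]
      have h1 : 1 ≤ (1 + 4 * η) * p u := by
        have := hp u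
        nlinarith
      have h2 := mul_le_mul_of_nonneg_left h1 (hπ0 v)
      linarith
    · exact mul_nonneg (by linarith) (hπ0 v)

end MP_80c395_TP
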