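import Pool.Agent.Lib.MP_80c395_co_TP.TDefs

/-!
# Project TP, stage 1: the data for the nibble

The law of a root is `ρ i t`, the law of any other vertex is (up to the factor `c`) `π i`, all kernels
are `κ i`.  `mk_ok`: the fields of `DatOK`.
* `dom`: `0 < j`.  If `pr j = 0` then `∑ v, ρ i t v κ i v w ≤ c ∑ v, π i v κ i v w = c π i w`; otherwise
  `∑ v, c π i v κ i v w = c π i w`; and `c π i w ≤ (1 + δ') c π i w`.
* `useV`: every term is at most `r`, there are `∑ t, sz t` terms.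
* `useE`: `star a b ≤ load a * r ≤ Lm r`; `light a b ≤ (∑ i, ∑ t, (sz t - 1)) r^2` (for every `0 < j`:
  `lw (pr j) a ≤ r`, `kn ≤ r`).
* `cod`: every term is at most `r`.
-/

set_option autoImplicit false

namespace MP_80c395_TP

open Finset

variable {V : Type}

private theorem s1mk_ite {τ : Type} [Fintype τ] (P : τ → Prop) (I1 I2 : DecidablePred P)
    (f : τ → ℝ) {r : ℝ} (h : ∀ t, P t → f t ≤ r) :
    (∑ t, @ite _ (P t) (I1 t) (f t) 0) ≤ ((@Finset.filter _ P I2 univ).card : ℝ) * r := by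
  obtain rfl : I1 = I2 := Subsingleton.elim _ _
  have h1 : (∑ t, if P t then f t else 0) ≤ ∑ t, if P t then r else 0 := by
    apply Finset.sum_le_sum
    intro t _
    split_ifs with h2
    · exact h t h2
    · exact le_refl _
  refine le_trans h1 (le_of_eq ?_)
  rw [← Finset.sum_filter, Finset.sum_const, nsmul_eq_mul]

private theorem s1mk_card {n : ℕ} (hn : 0 < n) :
    ((univ.filter (fun j : Fin n => 0 < j.val)).card : ℝ) ≤ (n : ℝ) - 1 := by
  obtain ⟨k, rfl⟩ : ∃ k, n = k + 1 := ⟨n - 1, by omega⟩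
  have h1 : univ.filter (fun j : Fin (k + 1) => 0 < j.val) ⊆ univ.erase 0 := by
    intro j hj
    rw [Finset.mem_filter] at hj
    rw [Finset.mem_erase]
    refine ⟨?_, Finset.mem_univ _⟩
    rintro rfl
    exact absurd hj.2 (by simp)
  have h2 := Finset.card_le_card h1
  rw [Finset.card_erase_of_mem (Finset.mem_univ _), Finset.card_univ, Fintype.card_fin] at h2
  have h3 : ((univ.filter (fun j : Fin (k + 1) => 0 < j.val)).card : ℝ) ≤ (k : ℝ) := by
    exact_mod_cast (by omega : (univ.filter (fun j : Fin (k + 1) => 0 < j.val)).card ≤ k)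
  push_cast
  linarith

private theorem s1mk_dbl {m : ℕ} (T : SimpleGraph (Fin m)) (X : Finset (Fin m)) {B : ℕ}
    (hX : ∀ x ∈ X, nb T univ x ≤ B) : ∑ x, nb T X x ≤ X.card * B := by
  classical
  have h1 : ∑ x, nb T X x = ∑ y ∈ X, nb T univ y := by
    unfold nb
    simp only [Finset.card_filter]
    rw [Finset.sum_comm]
    refine Finset.sum_congr rfl (fun y _ => Finset.sum_congr rfl (fun x _ => ?_))
    simp only [T.adj_comm]
  rw [h1, ← smul_eq_mul]
  exact Finset.sum_le_card_nsmul _ _ _ hX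

private theorem s1mk_inj {m np : ℕ} {sz : Fin np → ℕ} (sg : (t : Fin np) → Fin (sz t) → Fin m)
    (inj : ∀ t j t' j', sg t j = sg t' j' → t = t' ∧ j.val = j'.val) (f : Fin m → ℕ) :
    ∑ t, ∑ j, f (sg t j) ≤ ∑ x, f x := by
  classical
  have h1 : ∑ t, ∑ j, f (sg t j) = ∑ a : (Σ t : Fin np, Fin (sz t)), f (sg a.1 a.2) := by
    rw [Fintype.sum_sigma]
  have hinj : Function.Injective (fun a : (Σ t : Fin np, Fin (sz t)) => sg a.1 a.2) := by
    rintro ⟨t, j⟩ ⟨t', j'⟩ h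
    obtain ⟨h2, h3⟩ := inj t j t' j' h
    subst h2
    have h4 : j = j' := Fin.ext h3
    rw [h4]
  have h2 : ∑ a : (Σ t : Fin np, Fin (sz t)), f (sg a.1 a.2) =
      ∑ x ∈ univ.image (fun a : (Σ t : Fin np, Fin (sz t)) => sg a.1 a.2), f x := by
    rw [Finset.sum_image (fun a _ b _ h => hinj h)]
  rw [h1, h2]
  exact Finset.sum_le_sum_of_subset (Finset.subset_univ _)

/-- the data with root laws `ρ`, stationary laws `π` and kernels `κ` -/
def mkDat (k : ℕ) (m : Fin k → ℕ) (T : ∀ i, SimpleGraph (Fin (m i))) (d : ∀ i, Dec (m i))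
    (φ : ∀ i, Fin (m i) → V) (own : Sym2 V → Option (Fin k)) (c : ℝ) (π : Fin k → V → ℝ)
    (κ : Fin k → V → V → ℝ) (ρ : ∀ i, Fin (d i).np → V → ℝ) : Dat V where
  k := k
  m := m
  T := T
  d := d
  φ := φ
  own := own
  lw := fun i t j v => if j.val = 0 then ρ i t v else c * π i v
  kn := fun i _ _ v w => κ i v w

theorem mk_ok [Fintype V] [DecidableEq V] (k : ℕ) (m : Fin k → ℕ)
    (T : ∀ i, SimpleGraph (Fin (m i))) (d : ∀ i, Dec (m i)) (φ : ∀ i, Fin (m i) → V)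
    (own : Sym2 V → Option (Fin k)) (c : ℝ) (π : Fin k → V → ℝ) (κ : Fin k → V → V → ℝ)
    (ρ : ∀ i, Fin (d i).np → V → ℝ) (V1 W : Finset V) (D₁ D K : ℕ)
    (A0 δ' ε' γ₂ r Lm : ℝ)
    (tree : ∀ i, (T i).IsTree) (dec : ∀ i, DecOK (T i) (d i) D₁ D K)
    (k_le : k ≤ 3 * Fintype.card V) (m_le : ∀ i, m i ≤ Fintype.card V) (V1W : Disjoint V1 W)
    (φ_inj : ∀ i, ∀ x ∈ (d i).Z, ∀ y ∈ (d i).Z, φ i x = φ i y → x = y)
    (φ_out : ∀ i, ∀ x ∈ (d i).Z, φ i x ∉ W)
    (φ_own : ∀ i, ∀ x ∈ (d i).Z, ∀ y ∈ (d i).Z, (T i).Adj x y → own s(φ i x, φ i y) = some i)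
    (load_le : ∀ u, (mkDat k m T d φ own c π κ ρ).load u ≤ 3 * Fintype.card V)
    (hc : 1 ≤ c) (hδ : 0 ≤ δ') (hr : r ≤ A0 / Fintype.card V) (r0 : 0 ≤ r)
    (π0 : ∀ i v, 0 ≤ π i v) (πr : ∀ i v, c * π i v ≤ r)
    (κ0 : ∀ i v w, 0 ≤ κ i v w) (κ1 : ∀ i v, ∑ w, κ i v w = 1) (κr : ∀ i v w, κ i v w ≤ r)
    (κV : ∀ i v w, κ i v w ≠ 0 → w ∈ V1 ∧ (∀ z ∈ (d i).Z, φ i z ≠ w) ∧ v ≠ w ∧
      own s(v, w) = none)
    (stat : ∀ i w, ∑ v, π i v * κ i v w = π i w)
    (ρ0 : ∀ i t v, 0 ≤ ρ i t v) (ρ1 : ∀ i t, ∑ v, ρ i t v = 1)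
    (ρc : ∀ i t v, ρ i t v ≤ c * π i v)
    (ρV : ∀ i t v, ρ i t v ≠ 0 → v ∈ V1 ∧ (∀ z ∈ (d i).Z, φ i z ≠ v) ∧
      ∀ u, ((d i).att t).map (φ i) = some u → own s(u, v) = none)
    (nV : ∀ i, (∑ t, ((d i).sz t : ℝ)) * r ≤ 1 - ε')
    (nL : ∀ u, ((mkDat k m T d φ own c π κ ρ).load u : ℝ) ≤ Lm)
    (nE : 2 * r * Lm + 2 * r ^ 2 * ∑ i, ∑ t, (((d i).sz t : ℝ) - 1) ≤ 1 - ε')
    (nC : ∀ i u, ((univ.filter (fun t => ((d i).att t).map (φ i) = some u)).card : ℝ) * r ≤ γ₂) :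
    DatOK (mkDat k m T d φ own c π κ ρ) V1 W D₁ D K A0 δ' ε' γ₂ := by
  classical
  have hlw0 : ∀ i t (j : Fin ((d i).sz t)) v,
      0 ≤ (if j.val = 0 then ρ i t v else c * π i v) := by
    intro i t j v
    split_ifs
    · exact ρ0 i t v
    · exact mul_nonneg (by linarith) (π0 i v)
  have hlwc : ∀ i t (j : Fin ((d i).sz t)) v,
      (if j.val = 0 then ρ i t v else c * π i v) ≤ c * π i v := by
    intro i t j v
    split_ifs
    · exact ρc i t v
    · exact le_refl _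
  have hlwr : ∀ i t (j : Fin ((d i).sz t)) v,
      (if j.val = 0 then ρ i t v else c * π i v) ≤ r :=
    fun i t j v => le_trans (hlwc i t j v) (πr i v)
  have hstar : ∀ a b, (mkDat k m T d φ own c π κ ρ).star a b ≤ Lm * r := by
    intro a b
    refine le_trans ?_ (mul_le_mul_of_nonneg_right (nL a) r0)
    unfold Dat.star Dat.load
    push_cast
    rw [Finset.sum_mul]
    refine Finset.sum_le_sum (fun i _ => ?_)
    exact s1mk_ite _ _ _ _ (fun t _ => hlwr i t ((d i).rt t) b)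
  have hlight : ∀ a b, (mkDat k m T d φ own c π κ ρ).light a b ≤
      (∑ i, ∑ t, (((d i).sz t : ℝ) - 1)) * r ^ 2 := by
    intro a b
    unfold Dat.light
    rw [Finset.sum_mul]
    refine Finset.sum_le_sum (fun i _ => ?_)
    rw [Finset.sum_mul]
    refine Finset.sum_le_sum (fun t _ => ?_)
    refine le_trans (s1mk_ite (r := r ^ 2) _ _ (fun j => inferInstance) _ (fun j _ => ?_)) ?_
    · rw [sq]
      exact mul_le_mul (hlwr i t _ a) (κr i a b) (κ0 i a b) r0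
    · exact mul_le_mul_of_nonneg_right (s1mk_card ((d i).pos t)) (sq_nonneg r)
  have hrt : ∀ i t v, (mkDat k m T d φ own c π κ ρ).lw i t ((d i).rt t) v = ρ i t v := by
    intro i t v
    change (if ((d i).rt t).val = 0 then ρ i t v else c * π i v) = ρ i t v
    rw [if_pos (show ((d i).rt t).val = 0 from rfl)]
  constructor
  · exact tree
  · exact dec
  · exact k_le
  · exact m_le
  · exact V1W
  · exact φ_inj
  · exact φ_out
  · exact φ_own
  · exact load_le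
  · exact hlw0
  · exact fun i _ _ v w => κ0 i v w
  · intro i t
    rw [← ρ1 i t]
    exact Finset.sum_congr rfl (fun v _ => hrt i t v)
  · exact fun i _ _ v => κ1 i v
  · intro i t v
    exact le_trans (hlwr i t ((d i).rt t) v) hr
  · exact fun i _ _ v w => le_trans (κr i v w) hr
  · -- lwV
    intro i t v h
    have h1 : ρ i t v ≠ 0 := by
      rw [← hrt i t v]
      exact h
    obtain ⟨h2, h3, h4⟩ := ρV i t v h1
    exact ⟨h2, h3, fun u hu => Or.inl (h4 u hu)⟩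
  · -- knV
    intro i t j v w h
    obtain ⟨h2, h3, _, _⟩ := κV i v w h
    exact ⟨h2, h3⟩
  · -- knO
    intro i t j v w _ _ h
    obtain ⟨_, _, h4, h5⟩ := κV i v w h
    exact ⟨h4, Or.inl h5⟩
  · -- dom
    intro i t j w hj
    have h1 : (mkDat k m T d φ own c π κ ρ).lw i t j w = c * π i w := by
      change (if j.val = 0 then ρ i t w else c * π i w) = c * π i w
      rw [if_neg (by omega)]
    rw [h1]
    have h2 : ∑ v, (mkDat k m T d φ own c π κ ρ).lw i t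
        (((mkDat k m T d φ own c π κ ρ).d i).pr t j) v *
        (mkDat k m T d φ own c π κ ρ).kn i t j v w ≤ ∑ v, c * π i v * κ i v w := by
      refine Finset.sum_le_sum (fun v _ => ?_)
      exact mul_le_mul_of_nonneg_right (hlwc i t _ v) (κ0 i v w)
    have h3 : ∑ v, c * π i v * κ i v w = c * π i w := by
      rw [← stat i w, Finset.mul_sum]
      exact Finset.sum_congr rfl (fun v _ => by ring)
    have h4 : 0 ≤ c * π i w := mul_nonneg (by linarith) (π0 i w)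
    have h5 : c * π i w ≤ (1 + δ') * (c * π i w) := by nlinarith
    linarith
  · -- useV
    intro i v
    refine le_trans ?_ (nV i)
    rw [Finset.sum_mul]
    refine Finset.sum_le_sum (fun t _ => ?_)
    have h1 : ∑ j, (mkDat k m T d φ own c π κ ρ).lw i t j v ≤ ∑ _j : Fin ((d i).sz t), r :=
      Finset.sum_le_sum (fun j _ => hlwr i t j v)
    refine le_trans h1 (le_of_eq ?_)
    rw [Finset.sum_const, Finset.card_univ, Fintype.card_fin, nsmul_eq_mul]
  · -- useE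
    intro a b _ _
    have h1 := hstar a b
    have h2 := hstar b a
    have h3 := hlight a b
    have h4 := hlight b a
    nlinarith [nE]
  · -- cod
    intro i u w _
    refine le_trans ?_ (nC i u)
    exact s1mk_ite _ _ _ _ (fun t _ => hlwr i t ((d i).rt t) w)

/-- the expected demand: `∑ i, ∑ t, ∑ j, nb (C i) (sg t j) * lw ≤ r * ∑ i, ∑ x, nb (C i) x`, and
`∑ x, nb T C x = ∑ y ∈ C, nb T univ y ≤ |C| B` (double counting); `(t, j) ↦ sg t j` is injective;
`lw ≤ r` -/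
theorem mk_dmd [Fintype V] [DecidableEq V] (k : ℕ) (m : Fin k → ℕ)
    (T : ∀ i, SimpleGraph (Fin (m i))) (d : ∀ i, Dec (m i)) (φ : ∀ i, Fin (m i) → V)
    (own : Sym2 V → Option (Fin k)) (c : ℝ) (π : Fin k → V → ℝ) (κ : Fin k → V → V → ℝ)
    (ρ : ∀ i, Fin (d i).np → V → ℝ) (D₁ D K : ℕ) (r : ℝ)
    (dec : ∀ i, DecOK (T i) (d i) D₁ D K) (hr : 0 ≤ r)
    (πr : ∀ i v, c * π i v ≤ r) (ρc : ∀ i t v, ρ i t v ≤ c * π i v)
    (X : ∀ i, Finset (Fin (m i))) (B : ℕ) (hX : ∀ i, ∀ x ∈ X i, nb (T i) univ x ≤ B) (v : V) :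
    ∑ i, ∑ t, ∑ j, (nb (T i) (X i) ((d i).sg t j) : ℝ) *
      (mkDat k m T d φ own c π κ ρ).lw i t j v ≤ r * (B * ∑ i, ((X i).card : ℝ)) := by
  classical
  have hlwr : ∀ i t (j : Fin ((d i).sz t)),
      (mkDat k m T d φ own c π κ ρ).lw i t j v ≤ r := by
    intro i t j
    change (if j.val = 0 then ρ i t v else c * π i v) ≤ r
    split_ifs
    · exact le_trans (ρc i t v) (πr i v)
    · exact πr i v
  have h1 : ∀ i, ∑ t, ∑ j, (nb (T i) (X i) ((d i).sg t j) : ℝ) *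
      (mkDat k m T d φ own c π κ ρ).lw i t j v ≤ r * (B * ((X i).card : ℝ)) := by
    intro i
    have h2 : ∑ t, ∑ j, (nb (T i) (X i) ((d i).sg t j) : ℝ) *
        (mkDat k m T d φ own c π κ ρ).lw i t j v ≤
        ∑ t, ∑ j, (nb (T i) (X i) ((d i).sg t j) : ℝ) * r :=
      Finset.sum_le_sum (fun t _ => Finset.sum_le_sum (fun j _ =>
        mul_le_mul_of_nonneg_left (hlwr i t j) (Nat.cast_nonneg _)))
    have h3 : ∑ t, ∑ j, (nb (T i) (X i) ((d i).sg t j) : ℝ) * r =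
        ((∑ t, ∑ j, nb (T i) (X i) ((d i).sg t j) : ℕ) : ℝ) * r := by
      push_cast
      rw [Finset.sum_mul]
      refine Finset.sum_congr rfl (fun t _ => ?_)
      rw [Finset.sum_mul]
    have h4 : ∑ t, ∑ j, nb (T i) (X i) ((d i).sg t j) ≤ (X i).card * B :=
      le_trans (s1mk_inj (d i).sg (dec i).inj (fun x => nb (T i) (X i) x))
        (s1mk_dbl (T i) (X i) (hX i))
    have h5 : ((∑ t, ∑ j, nb (T i) (X i) ((d i).sg t j) : ℕ) : ℝ) ≤ ((X i).card : ℝ) * B := by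
      exact_mod_cast h4
    have h6 := mul_le_mul_of_nonneg_right h5 hr
    rw [h3] at h2
    linarith
  have h7 : ∑ i, ∑ t, ∑ j, (nb (T i) (X i) ((d i).sg t j) : ℝ) *
      (mkDat k m T d φ own c π κ ρ).lw i t j v ≤ ∑ i, r * (B * ((X i).card : ℝ)) :=
    Finset.sum_le_sum (fun i _ => h1 i)
  refine le_trans h7 (le_of_eq ?_)
  rw [← Finset.mul_sum, ← Finset.mul_sum]

end MP_80c395_TP
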