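import Pool.Agent.Lib.MP_80c395_co_TP.S1Rank
import Pool.Agent.Lib.MP_80c395_co_TP.Place

/-!
# Project TP, stage 1: placement of the centres

`N = card V`, `M1 = |V1| ≥ N / 2`.  Apply `place` (Place.lean, stub) to the items
`I = Σ i : Fin k, {z // z ∈ (d i).Z}`, `tr a = a.1`, rank and parent from `ex_par` (S1Rank, stub; the
parent of `z` counts only if it is in `Z`), `fx = none`, `own0 = none`, `Al = V1`, `e0 = f0 = 0`,
`Λ = Fin 4` with
* `l = 0`: `w = ac (d i) z`, `mx = (δ₃/4) N`, `tot = TS`, `cap = TS / M1 + δ₃ N`,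
  `B = ⌊(1 - δ₃/8) M1⌋`: `|A| (TS / M1 + (3/4) δ₃ N) ≤ TS` gives
  `|A| ≤ M1 (1 - x)`, `x = (3/4) δ₃ N M1 / (TS + (3/4) δ₃ N M1) ≥ (3/8) δ₃ / (1 + (3/4) δ₃) ≥ δ₃ / 8`
  (`TS ≤ N^2`, `δ₃ ≤ 1`, `N/2 ≤ M1 ≤ N`);
* `l = 1`: `w = nb (T i) (d i).C1 z`, `mx = N / K` (`K |C1| ≤ m i ≤ N`), `tot = 3 D N^2 / K`
  (`∑ z, nb T C1 z ≤ ∑ x ∈ C1, nb T univ x ≤ |C1| D`; `k ≤ 3 N`), `cap = l1 N`,
  `B = ⌊6 D N / (K l1)⌋` (`l1 N - N / K ≥ l1 N / 2` as `2 / K ≤ l1`);
* `l = 2`: the same for `C2`: `mx = 2 N / D`, `tot = 6 D₁ N^2 / D`, `cap = l2 N`,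
  `B = ⌊12 D₁ N / (D l2)⌋`, `4 / D ≤ l2`;
* `l = 3` (`zz`): `w = nb (T i) (d i).Z z + 2`, `mx = 3 N / D₁` (`|Z| ≤ 2 N / D₁`, `2 ≤ N / D₁`),
  `tot = 24 N^2 / D₁` (`sum_nb_Z`: `∑ (nb + 2) ≤ 4 |Z|`), `cap = lz N`, `B = ⌊48 N / (D₁ lz)⌋`,
  `6 / D₁ ≤ lz`; `cz = ⌈lz N⌉`.  Children of `z` are neighbours of `z` in `Z`.
`Zm = ⌊2 N / D₁⌋`.  The last condition of `place`: `2 N / D₁ + 2 (lz N + 1) + (1 - δ₃/8) M1 +
6 D N / (K l1) + 12 D₁ N / (D l2) + 48 N / (D₁ lz) < M1` follows from `hnum`, `hN` and `M1 ≥ N / 2`.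
The claim on host edges: two adjacent centres `x, y` of a tree are item and parent
(`ex_par`), so `y` is an anchor of `x` or conversely.
-/

set_option autoImplicit false

namespace MP_80c395_TP

open Finset

/-- number of pieces attached to `z` -/
def ac {m : ℕ} (d : Dec m) (z : Fin m) : ℕ := (univ.filter (fun t => d.att t = some z)).card

/-- `x ∈ C` have degree at most `B`: the neighbours in `C` of all vertices of `A` together -/
theorem sum_nb_le {m : ℕ} (T : SimpleGraph (Fin m)) (A C : Finset (Fin m)) (B : ℕ)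
    (hC : ∀ x ∈ C, nb T univ x ≤ B) : ∑ z ∈ A, nb T C z ≤ C.card * B := by
  classical
  have h1 : ∀ z, nb T C z = ∑ x ∈ C, if T.Adj z x then 1 else 0 := by
    intro z
    unfold nb
    rw [Finset.card_filter]
  rw [Finset.sum_congr rfl fun z _ => h1 z, Finset.sum_comm, Finset.card_eq_sum_ones,
    Finset.sum_mul]
  refine Finset.sum_le_sum fun x hx => ?_
  rw [one_mul]
  refine le_trans ?_ (hC x hx)
  rw [← Finset.card_filter]
  unfold nb
  refine Finset.card_le_card fun z hz => ?_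
  exact Finset.mem_filter.2 ⟨Finset.mem_univ _, ((Finset.mem_filter.1 hz).2).symm⟩

section items

variable {k : ℕ} {m : Fin k → ℕ}

/-- the items: centres of trees -/
private abbrev It (d : ∀ i, Dec (m i)) : Type := Σ i : Fin k, {z : Fin (m i) // z ∈ (d i).Z}

variable {d : ∀ i, Dec (m i)}

private theorem sum_It (f : ∀ i, Fin (m i) → ℝ) :
    ∑ a : It d, f a.1 a.2.1 = ∑ i, ∑ z ∈ (d i).Z, f i z := by
  rw [Fintype.sum_sigma]
  exact Finset.sum_congr rfl fun i _ => Finset.sum_coe_sort (d i).Z (f i)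

private theorem load_It {V : Type} [DecidableEq V] {ψ : It d → V} {φ : ∀ i, Fin (m i) → V}
    (hφ : ∀ a : It d, φ a.1 a.2.1 = ψ a) (f : ∀ i, Fin (m i) → ℝ) (u : V) :
    ∑ i, ∑ z ∈ (d i).Z.filter (fun z => φ i z = u), f i z =
      ∑ a ∈ univ.filter (fun a : It d => ψ a = u), f a.1 a.2.1 := by
  rw [Finset.sum_filter, Fintype.sum_sigma]
  refine Finset.sum_congr rfl fun i _ => ?_
  rw [Finset.sum_filter, ← Finset.sum_coe_sort]
  refine Finset.sum_congr rfl fun z _ => ?_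
  rw [hφ ⟨i, z⟩]

private theorem all4 {P : Fin 4 → Prop} (h0 : P 0) (h1 : P 1) (h2 : P 2) (h3 : P 3)
    (l : Fin 4) : P l := by
  fin_cases l
  · exact h0
  · exact h1
  · exact h2
  · exact h3

private theorem hB_aux {V : Type} {A : Finset V} {c mx tot b : ℝ} (hx : 0 < c - mx)
    (hb : tot ≤ b * (c - mx)) (h : ∑ _v ∈ A, (c - mx) ≤ tot) : A.card ≤ ⌊b⌋₊ := by
  rw [Finset.sum_const, nsmul_eq_mul] at h
  exact Nat.le_floor (le_of_mul_le_mul_right (h.trans hb) hx)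

end items

theorem ex_phi {V : Type} [Fintype V] [DecidableEq V] (k : ℕ) (m : Fin k → ℕ)
    (T : ∀ i, SimpleGraph (Fin (m i))) (d : ∀ i, Dec (m i)) (V1 : Finset V) (D₁ D K : ℕ)
    (tree : ∀ i, (T i).IsTree) (dec : ∀ i, DecOK (T i) (d i) D₁ D K)
    (k_le : k ≤ 3 * Fintype.card V) (m_le : ∀ i, m i ≤ Fintype.card V)
    (hD₁ : 1 ≤ D₁) (hD : 1 ≤ D) (hK : 1 ≤ K) (δ₃ l1 l2 lz TS : ℝ)
    (hδ : 0 < δ₃) (hδ1 : δ₃ ≤ 1) (hl1 : 2 / (K : ℝ) ≤ l1) (hl2 : 4 / (D : ℝ) ≤ l2)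
    (hlz : 6 / (D₁ : ℝ) ≤ lz) (hV1 : (Fintype.card V : ℝ) ≤ 2 * V1.card)
    (hTS : ∑ i, ∑ z ∈ (d i).Z, (ac (d i) z : ℝ) ≤ TS) (hTS1 : TS ≤ (Fintype.card V : ℝ) ^ 2)
    (hac : ∀ i z, (ac (d i) z : ℝ) ≤ δ₃ / 4 * Fintype.card V)
    (hnum : 2 / (D₁ : ℝ) + 2 * lz + 6 * D / (K * l1) + 12 * D₁ / (D * l2) + 48 / (D₁ * lz) ≤
      δ₃ / 32) (hN : 128 / δ₃ ≤ Fintype.card V) (hN1 : 2 * D₁ ≤ Fintype.card V) :
    ∃ φ : ∀ i, Fin (m i) → V,
      (∀ i, ∀ x ∈ (d i).Z, φ i x ∈ V1) ∧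
      (∀ i, ∀ x ∈ (d i).Z, ∀ y ∈ (d i).Z, φ i x = φ i y → x = y) ∧
      (∀ i j, i ≠ j → ∀ a ∈ (d i).Z, ∀ b ∈ (d i).Z, ∀ c ∈ (d j).Z, ∀ e ∈ (d j).Z,
        (T i).Adj a b → (T j).Adj c e → s(φ i a, φ i b) ≠ s(φ j c, φ j e)) ∧
      (∀ u, ∑ i, ∑ z ∈ (d i).Z.filter (fun z => φ i z = u), (ac (d i) z : ℝ) ≤
        TS / V1.card + δ₃ * Fintype.card V) ∧
      (∀ u, ∑ i, ∑ z ∈ (d i).Z.filter (fun z => φ i z = u), (nb (T i) (d i).C1 z : ℝ) ≤
        l1 * Fintype.card V) ∧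
      (∀ u, ∑ i, ∑ z ∈ (d i).Z.filter (fun z => φ i z = u), (nb (T i) (d i).C2 z : ℝ) ≤
        l2 * Fintype.card V) ∧
      (∀ u, ∑ i, ∑ z ∈ (d i).Z.filter (fun z => φ i z = u), (nb (T i) (d i).Z z : ℝ) ≤
        lz * Fintype.card V) := by
  classical
  set N : ℝ := (Fintype.card V : ℝ) with hNdef
  have hN0 : 0 < N := lt_of_lt_of_le (by positivity) hN
  have hNδ : 128 ≤ δ₃ * N := by
    have := (div_le_iff₀ hδ).1 hN
    linarith
  have hne : Nonempty V := by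
    have : 0 < Fintype.card V := by
      have h := hN0
      rw [hNdef] at h
      exact_mod_cast h
    exact Fintype.card_pos_iff.1 this
  have hM1 : 0 < (V1.card : ℝ) := by linarith
  have hD₁r : (0 : ℝ) < D₁ := by exact_mod_cast hD₁
  have hDr : (0 : ℝ) < D := by exact_mod_cast hD
  have hKr : (0 : ℝ) < K := by exact_mod_cast hK
  have hl10 : 0 < l1 := lt_of_lt_of_le (by positivity) hl1
  have hl20 : 0 < l2 := lt_of_lt_of_le (by positivity) hl2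
  have hlz0 : 0 < lz := lt_of_lt_of_le (by positivity) hlz
  have hkr : (k : ℝ) ≤ 3 * N := by rw [hNdef]; exact_mod_cast k_le
  have hmr : ∀ i, (m i : ℝ) ≤ N := fun i => by rw [hNdef]; exact_mod_cast m_le i
  have hN1r : 2 * (D₁ : ℝ) ≤ N := by rw [hNdef]; exact_mod_cast hN1
  have hTS0 : 0 ≤ TS := le_trans (Finset.sum_nonneg fun i _ => Finset.sum_nonneg fun z _ =>
    Nat.cast_nonneg _) hTS
  -- sizes
  have hZc : ∀ i, ((d i).Z.card : ℝ) ≤ 2 * N / D₁ := by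
    intro i
    rw [le_div_iff₀ hD₁r]
    have h1 : (D₁ : ℝ) * (d i).Z.card ≤ 2 * m i := by exact_mod_cast (dec i).cZ
    have h2 := hmr i
    linarith
  have hC1c : ∀ i, ((d i).C1.card : ℝ) ≤ N / K := by
    intro i
    rw [le_div_iff₀ hKr]
    have h1 : (K : ℝ) * (d i).C1.card ≤ m i := by exact_mod_cast (dec i).c1
    have h2 := hmr i
    linarith
  have hC2c : ∀ i, ((d i).C2.card : ℝ) ≤ 2 * N / D := by
    intro i
    rw [le_div_iff₀ hDr]
    have h1 : (D : ℝ) * (d i).C2.card ≤ 2 * m i := by exact_mod_cast (dec i).c2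
    have h2 := hmr i
    linarith
  have hnb : ∀ i (C : Finset (Fin (m i))) z, (nb (T i) C z : ℝ) ≤ C.card := by
    intro i C z
    unfold nb
    exact_mod_cast Finset.card_filter_le _ _
  -- total loads
  have htot1 : ∑ a : It d, (nb (T a.1) (d a.1).C1 a.2.1 : ℝ) ≤ 3 * D * N ^ 2 / K := by
    rw [sum_It (d := d) fun i z => (nb (T i) (d i).C1 z : ℝ)]
    have h1 : ∀ i, ∑ z ∈ (d i).Z, (nb (T i) (d i).C1 z : ℝ) ≤ N / K * D := by
      intro i
      have h2 : ∑ z ∈ (d i).Z, (nb (T i) (d i).C1 z : ℝ) ≤ (d i).C1.card * D := by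
        exact_mod_cast sum_nb_le (T i) (d i).Z (d i).C1 D (dec i).deg1
      exact h2.trans (mul_le_mul_of_nonneg_right (hC1c i) hDr.le)
    refine (Finset.sum_le_sum fun i _ => h1 i).trans ?_
    rw [Finset.sum_const, Finset.card_univ, Fintype.card_fin, nsmul_eq_mul]
    have h3 : (0 : ℝ) ≤ N / K * D := by positivity
    refine (mul_le_mul_of_nonneg_right hkr h3).trans (le_of_eq ?_)
    ring
  have htot2 : ∑ a : It d, (nb (T a.1) (d a.1).C2 a.2.1 : ℝ) ≤ 6 * D₁ * N ^ 2 / D := by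
    rw [sum_It (d := d) fun i z => (nb (T i) (d i).C2 z : ℝ)]
    have h1 : ∀ i, ∑ z ∈ (d i).Z, (nb (T i) (d i).C2 z : ℝ) ≤ 2 * N / D * D₁ := by
      intro i
      have h2 : ∑ z ∈ (d i).Z, (nb (T i) (d i).C2 z : ℝ) ≤ (d i).C2.card * D₁ := by
        exact_mod_cast sum_nb_le (T i) (d i).Z (d i).C2 D₁ (dec i).deg2
      exact h2.trans (mul_le_mul_of_nonneg_right (hC2c i) hD₁r.le)
    refine (Finset.sum_le_sum fun i _ => h1 i).trans ?_
    rw [Finset.sum_const, Finset.card_univ, Fintype.card_fin, nsmul_eq_mul]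
    have h3 : (0 : ℝ) ≤ 2 * N / D * D₁ := by positivity
    refine (mul_le_mul_of_nonneg_right hkr h3).trans (le_of_eq ?_)
    ring
  have htot3 : ∑ a : It d, ((nb (T a.1) (d a.1).Z a.2.1 : ℝ) + 2) ≤ 24 * N ^ 2 / D₁ := by
    rw [sum_It (d := d) fun i z => (nb (T i) (d i).Z z : ℝ) + 2]
    have h1 : ∀ i, ∑ z ∈ (d i).Z, ((nb (T i) (d i).Z z : ℝ) + 2) ≤ 4 * (2 * N / D₁) := by
      intro i
      rw [Finset.sum_add_distrib, Finset.sum_const, nsmul_eq_mul]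
      have h2 : ∑ z ∈ (d i).Z, (nb (T i) (d i).Z z : ℝ) ≤ 2 * (d i).Z.card := by
        exact_mod_cast sum_nb_Z (tree i) (d i).Z
      have h3 := hZc i
      linarith
    refine (Finset.sum_le_sum fun i _ => h1 i).trans ?_
    rw [Finset.sum_const, Finset.card_univ, Fintype.card_fin, nsmul_eq_mul]
    have h3 : (0 : ℝ) ≤ 4 * (2 * N / D₁) := by positivity
    refine (mul_le_mul_of_nonneg_right hkr h3).trans (le_of_eq ?_)
    ring
  have htot0 : ∑ a : It d, (ac (d a.1) a.2.1 : ℝ) ≤ TS := by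
    rw [sum_It (d := d) fun i z => (ac (d i) z : ℝ)]
    exact hTS
  -- parents
  choose rk par hpar1 hpar2 using fun i => ex_par (tree i)
  let pa : It d → Option (It d) := fun a => (par a.1 a.2.1).bind fun y =>
    if h : y ∈ (d a.1).Z then some ⟨a.1, ⟨y, h⟩⟩ else none
  have hpa : ∀ (i : Fin k) (x y : Fin (m i)) (hx : x ∈ (d i).Z) (hy : y ∈ (d i).Z),
      par i x = some y → pa ⟨i, ⟨x, hx⟩⟩ = some ⟨i, ⟨y, hy⟩⟩ := by
    intro i x y hx hy h
    show (par i x).bind _ = _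
    rw [h, Option.bind_some]
    exact dif_pos hy
  have hpa' : ∀ a b : It d, pa a = some b → ∃ (y : Fin (m a.1)) (hy : y ∈ (d a.1).Z),
      par a.1 a.2.1 = some y ∧ b = ⟨a.1, ⟨y, hy⟩⟩ := by
    intro a b h
    obtain ⟨y, hy, hb⟩ := Option.bind_eq_some_iff.1 h
    by_cases h1 : y ∈ (d a.1).Z
    · rw [dif_pos h1] at hb
      exact ⟨y, h1, hy, (Option.some.inj hb).symm⟩
    · rw [dif_neg h1] at hb
      exact absurd hb (by simp)
  -- the numbers of forbidden places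
  have hB0 : 0 < TS / V1.card + δ₃ * N - δ₃ / 4 * N := by
    have h1 : 0 ≤ TS / V1.card := by positivity
    nlinarith
  have hB0' : TS ≤ (1 - δ₃ / 8) * V1.card * (TS / V1.card + δ₃ * N - δ₃ / 4 * N) := by
    have h1 : (1 - δ₃ / 8) * V1.card * (TS / V1.card + δ₃ * N - δ₃ / 4 * N) =
        (1 - δ₃ / 8) * (TS + 3 / 4 * (δ₃ * (N * V1.card))) := by
      field_simp
      ring
    rw [h1]
    have h2 : TS ≤ 2 * (N * V1.card) := by
      refine hTS1.trans ?_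
      nlinarith
    have h3 : 0 < N * V1.card := by positivity
    have h4 : δ₃ * TS ≤ δ₃ * (2 * (N * V1.card)) := mul_le_mul_of_nonneg_left h2 hδ.le
    have h5 : 0 < δ₃ * (N * V1.card) := by positivity
    have h6 : δ₃ * (δ₃ * (N * V1.card)) ≤ 1 * (δ₃ * (N * V1.card)) :=
      mul_le_mul_of_nonneg_right hδ1 h5.le
    nlinarith
  have hB1 : l1 * N / 2 ≤ l1 * N - N / K := by
    have h1 : 1 / (K : ℝ) ≤ l1 / 2 := by
      have : 2 / (K : ℝ) = 2 * (1 / K) := by ring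
      linarith
    have h2 := mul_le_mul_of_nonneg_right h1 hN0.le
    have h3 : 1 / (K : ℝ) * N = N / K := by ring
    linarith
  have hB1' : 3 * D * N ^ 2 / K ≤ 6 * D * N / (K * l1) * (l1 * N - N / K) := by
    have h1 : 3 * D * N ^ 2 / K = 6 * D * N / (K * l1) * (l1 * N / 2) := by
      field_simp
      ring
    rw [h1]
    exact mul_le_mul_of_nonneg_left hB1 (by positivity)
  have hB2 : l2 * N / 2 ≤ l2 * N - 2 * N / D := by
    have h1 : 2 / (D : ℝ) ≤ l2 / 2 := by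
      have : 4 / (D : ℝ) = 2 * (2 / D) := by ring
      linarith
    have h2 := mul_le_mul_of_nonneg_right h1 hN0.le
    have h3 : 2 / (D : ℝ) * N = 2 * N / D := by ring
    linarith
  have hB2' : 6 * D₁ * N ^ 2 / D ≤ 12 * D₁ * N / (D * l2) * (l2 * N - 2 * N / D) := by
    have h1 : 6 * D₁ * N ^ 2 / D = 12 * D₁ * N / (D * l2) * (l2 * N / 2) := by
      field_simp
      ring
    rw [h1]
    exact mul_le_mul_of_nonneg_left hB2 (by positivity)
  have hB3 : lz * N / 2 ≤ lz * N - 3 * N / D₁ := by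
    have h1 : 3 / (D₁ : ℝ) ≤ lz / 2 := by
      have : 6 / (D₁ : ℝ) = 2 * (3 / D₁) := by ring
      linarith
    have h2 := mul_le_mul_of_nonneg_right h1 hN0.le
    have h3 : 3 / (D₁ : ℝ) * N = 3 * N / D₁ := by ring
    linarith
  have hB3' : 24 * N ^ 2 / D₁ ≤ 48 * N / (D₁ * lz) * (lz * N - 3 * N / D₁) := by
    have h1 : 24 * N ^ 2 / D₁ = 48 * N / (D₁ * lz) * (lz * N / 2) := by
      field_simp
      ring
    rw [h1]
    exact mul_le_mul_of_nonneg_left hB3 (by positivity)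
  have hl1N : 0 < l1 * N := by positivity
  have hl2N : 0 < l2 * N := by positivity
  have hlzN : 0 < lz * N := by positivity
  -- the placement
  obtain ⟨ψ, q1, q2, q3, -, q5⟩ := place (I := It d) (V := V) (Λ := Fin 4)
    (fun a => a.1.val) (fun a => rk a.1 a.2.1) pa (fun _ => none) (fun _ => none)
    (fun _ => V1)
    (![fun a => (ac (d a.1) a.2.1 : ℝ), fun a => (nb (T a.1) (d a.1).C1 a.2.1 : ℝ),
      fun a => (nb (T a.1) (d a.1).C2 a.2.1 : ℝ),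
      fun a => (nb (T a.1) (d a.1).Z a.2.1 : ℝ) + 2])
    (![fun _ => TS / V1.card + δ₃ * N, fun _ => l1 * N, fun _ => l2 * N, fun _ => lz * N])
    (![δ₃ / 4 * N, N / K, 2 * N / D, 3 * N / D₁])
    (![TS, 3 * D * N ^ 2 / K, 6 * D₁ * N ^ 2 / D, 24 * N ^ 2 / D₁])
    (![⌊(1 - δ₃ / 8) * V1.card⌋₊, ⌊6 * D * N / (K * l1)⌋₊, ⌊12 * D₁ * N / (D * l2)⌋₊,
      ⌊48 * N / (D₁ * lz)⌋₊])
    ⌊2 * N / D₁⌋₊ 0 0 ⌈lz * N⌉₊ 3
    (by
      intro a b h
      obtain ⟨y, hy, h1, rfl⟩ := hpa' a b h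
      exact ⟨rfl, (hpar1 a.1 _ _ h1).2⟩)
    (all4 (fun a => Nat.cast_nonneg _) (fun a => Nat.cast_nonneg _)
      (fun a => Nat.cast_nonneg _) (fun a => by
        show (0 : ℝ) ≤ (nb (T a.1) (d a.1).Z a.2.1 : ℝ) + 2
        positivity))
    (all4 (fun a => hac a.1 a.2.1) (fun a => (hnb _ _ _).trans (hC1c a.1))
      (fun a => (hnb _ _ _).trans (hC2c a.1)) (fun a => by
        show (nb (T a.1) (d a.1).Z a.2.1 : ℝ) + 2 ≤ 3 * N / D₁
        have h1 := (hnb a.1 (d a.1).Z a.2.1).trans (hZc a.1)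
        have h2 : 2 ≤ N / D₁ := by
          rw [le_div_iff₀ hD₁r]
          linarith
        have h3 : 3 * N / D₁ = 2 * N / D₁ + N / D₁ := by ring
        linarith))
    (all4 htot0 htot1 htot2 htot3)
    (all4 (fun _ => by
        show 0 ≤ TS / V1.card + δ₃ * N
        positivity) (fun _ => hl1N.le) (fun _ => hl2N.le) (fun _ => hlzN.le))
    (all4 (fun A h => hB_aux hB0 hB0' h)
      (fun A h => hB_aux (lt_of_lt_of_le (by linarith) hB1) hB1' h)
      (fun A h => hB_aux (lt_of_lt_of_le (by linarith) hB2) hB2' h)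
      (fun A h => hB_aux (lt_of_lt_of_le (by linarith) hB3) hB3' h))
    (by
      intro i
      by_cases hi : i < k
      · have h1 : (univ.filter (fun a : It d => a.1.val = i)).card ≤ (d ⟨i, hi⟩).Z.card := by
          have hsub : univ.filter (fun a : It d => a.1.val = i) ⊆
              (d ⟨i, hi⟩).Z.attach.image fun z => (⟨⟨i, hi⟩, z⟩ : It d) := by
            rintro ⟨j, z⟩ ha
            have h2 : j.val = i := (Finset.mem_filter.1 ha).2
            subst h2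
            exact Finset.mem_image.2 ⟨z, Finset.mem_attach _ _, rfl⟩
          exact (Finset.card_le_card hsub).trans
            (Finset.card_image_le.trans (by rw [Finset.card_attach]))
        refine h1.trans (Nat.le_floor (hZc ⟨i, hi⟩))
      · have h1 : univ.filter (fun a : It d => a.1.val = i) = ∅ := by
          refine Finset.filter_eq_empty_iff.2 fun a _ h2 => ?_
          have := a.1.2
          omega
        rw [h1, Finset.card_empty]
        exact Nat.zero_le _)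
    (by
      intro a
      show ((univ.filter (fun b => pa b = some a)).card : ℝ) + 2 ≤
        (nb (T a.1) (d a.1).Z a.2.1 : ℝ) + 2
      have h1 : (univ.filter (fun b => pa b = some a)).card ≤
          nb (T a.1) (d a.1).Z a.2.1 := by
        unfold nb
        obtain ⟨i, z⟩ := a
        refine (Finset.card_le_card (t := ((d i).Z.attach.filter
          fun y => (T i).Adj z.1 y.1).image fun y => (⟨i, y⟩ : It d)) ?_).trans
            (Finset.card_image_le.trans ?_)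
        · intro b hb
          obtain ⟨y, hy, h2, h3⟩ := hpa' b _ (Finset.mem_filter.1 hb).2
          obtain ⟨j, x⟩ := b
          obtain rfl : i = j := congrArg Sigma.fst h3
          have h4 : z = ⟨y, hy⟩ := eq_of_heq (Sigma.mk.inj h3).2
          refine Finset.mem_image.2 ⟨x, Finset.mem_filter.2 ⟨Finset.mem_attach _ _, ?_⟩, rfl⟩
          rw [h4]
          exact (hpar1 i _ _ h2).1.symm
        · refine Finset.card_le_card_of_injOn (fun y => y.1) ?_ ?_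
          · intro y hy
            exact Finset.mem_coe.2 (Finset.mem_filter.2
              ⟨y.2, (Finset.mem_filter.1 (Finset.mem_coe.1 hy)).2⟩)
          · intro y _ y' _ h
            exact Subtype.ext h
      have h2 : ((univ.filter (fun b => pa b = some a)).card : ℝ) ≤
          nb (T a.1) (d a.1).Z a.2.1 := by exact_mod_cast h1
      linarith)
    (fun v => Nat.le_ceil _)
    (fun y => by simp)
    (fun y => by simp)
    (by
      intro _
      show ⌊2 * N / D₁⌋₊ + 2 * (0 + ⌈lz * N⌉₊ + 0) + _ < V1.card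
      rw [Fin.sum_univ_four]
      show ⌊2 * N / D₁⌋₊ + 2 * (0 + ⌈lz * N⌉₊ + 0) + (⌊(1 - δ₃ / 8) * V1.card⌋₊ +
        ⌊6 * D * N / (K * l1)⌋₊ + ⌊12 * D₁ * N / (D * l2)⌋₊ + ⌊48 * N / (D₁ * lz)⌋₊) < V1.card
      have e1 : ((⌊2 * N / D₁⌋₊ : ℕ) : ℝ) ≤ 2 * N / D₁ := Nat.floor_le (by positivity)
      have e2 : ((⌈lz * N⌉₊ : ℕ) : ℝ) < lz * N + 1 := Nat.ceil_lt_add_one hlzN.le
      have e3 : ((⌊(1 - δ₃ / 8) * V1.card⌋₊ : ℕ) : ℝ) ≤ (1 - δ₃ / 8) * V1.card :=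
        Nat.floor_le (mul_nonneg (by linarith) hM1.le)
      have e4 : ((⌊6 * D * N / (K * l1)⌋₊ : ℕ) : ℝ) ≤ 6 * D * N / (K * l1) :=
        Nat.floor_le (by positivity)
      have e5 : ((⌊12 * D₁ * N / (D * l2)⌋₊ : ℕ) : ℝ) ≤ 12 * D₁ * N / (D * l2) :=
        Nat.floor_le (by positivity)
      have e6 : ((⌊48 * N / (D₁ * lz)⌋₊ : ℕ) : ℝ) ≤ 48 * N / (D₁ * lz) :=
        Nat.floor_le (by positivity)
      have h1 := mul_le_mul_of_nonneg_right hnum hN0.le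
      have h2 : (2 / (D₁ : ℝ) + 2 * lz + 6 * D / (K * l1) + 12 * D₁ / (D * l2) +
          48 / (D₁ * lz)) * N = 2 * N / D₁ + 2 * (lz * N) + 6 * D * N / (K * l1) +
          12 * D₁ * N / (D * l2) + 48 * N / (D₁ * lz) := by ring
      rw [h2] at h1
      have h3 : δ₃ * N ≤ δ₃ * (2 * V1.card) := mul_le_mul_of_nonneg_left hV1 hδ.le
      have h4 : ((⌊2 * N / D₁⌋₊ + 2 * (0 + ⌈lz * N⌉₊ + 0) + (⌊(1 - δ₃ / 8) * V1.card⌋₊ +
          ⌊6 * D * N / (K * l1)⌋₊ + ⌊12 * D₁ * N / (D * l2)⌋₊ + ⌊48 * N / (D₁ * lz)⌋₊) : ℕ) :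
          ℝ) < V1.card := by
        push_cast
        linarith
      exact_mod_cast h4)
  -- the conclusion
  let φ : ∀ i, Fin (m i) → V := fun i x =>
    if h : x ∈ (d i).Z then ψ ⟨i, ⟨x, h⟩⟩ else Classical.arbitrary V
  have hφ : ∀ i x (hx : x ∈ (d i).Z), φ i x = ψ ⟨i, ⟨x, hx⟩⟩ := fun i x hx => dif_pos hx
  have hφ' : ∀ a : It d, φ a.1 a.2.1 = ψ a := fun a => hφ a.1 a.2.1 a.2.2
  have hanc : ∀ i, ∀ a, ∀ ha : a ∈ (d i).Z, ∀ b, ∀ hb : b ∈ (d i).Z, (T i).Adj a b →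
      ∃ x : It d, ∃ y : V, x.1 = i ∧ Anc pa (fun _ => none) ψ x y ∧
        s(ψ x, y) = s(φ i a, φ i b) := by
    intro i a ha b hb hab
    rcases hpar2 i a b hab with h | h
    · refine ⟨⟨i, ⟨a, ha⟩⟩, ψ ⟨i, ⟨b, hb⟩⟩, rfl, Or.inr ⟨_, hpa i a b ha hb h, rfl⟩, ?_⟩
      rw [hφ i a ha, hφ i b hb]
    · refine ⟨⟨i, ⟨b, hb⟩⟩, ψ ⟨i, ⟨a, ha⟩⟩, rfl, Or.inr ⟨_, hpa i b a hb ha h, rfl⟩, ?_⟩
      rw [hφ i a ha, hφ i b hb, Sym2.eq_swap]
  refine ⟨φ, ?_, ?_, ?_, ?_, ?_, ?_, ?_⟩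
  · intro i x hx
    rw [hφ i x hx]
    exact q1 _
  · intro i x hx y hy hxy
    by_contra hne'
    rw [hφ i x hx, hφ i y hy] at hxy
    refine q2 ⟨i, ⟨x, hx⟩⟩ ⟨i, ⟨y, hy⟩⟩ ?_ rfl hxy
    intro h
    exact hne' (congrArg Subtype.val (eq_of_heq (Sigma.mk.inj h).2))
  · intro i j hij a ha b hb c hc e he hab hce heq
    obtain ⟨x, y, hx, hxy, h1⟩ := hanc i a ha b hb hab
    obtain ⟨x', y', hx', hxy', h2⟩ := hanc j c hc e he hce
    have h3 := q5 x x' y y' hxy hxy' (by rw [h1, h2]; exact heq)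
    apply hij
    rw [← hx, ← hx']
    exact Fin.ext h3
  · intro u
    rw [load_It hφ' fun i z => (ac (d i) z : ℝ)]
    exact q3 0 u
  · intro u
    rw [load_It hφ' fun i z => (nb (T i) (d i).C1 z : ℝ)]
    exact q3 1 u
  · intro u
    rw [load_It hφ' fun i z => (nb (T i) (d i).C2 z : ℝ)]
    exact q3 2 u
  · intro u
    rw [load_It hφ' fun i z => (nb (T i) (d i).Z z : ℝ)]
    refine le_trans (Finset.sum_le_sum fun a _ => ?_) (q3 3 u)
    show (nb (T a.1) (d a.1).Z a.2.1 : ℝ) ≤ (nb (T a.1) (d a.1).Z a.2.1 : ℝ) + 2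
    linarith

end MP_80c395_TP
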