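import Pool.Agent.Lib.MP_80c395_co_TP.TPMain
import Pool.Agent.Lib.MP_80c395_co_TP.ExDec
import Pool.Agent.Lib.MP_80c395_co_TP.S1Plc
import Pool.Agent.Lib.MP_80c395_co_TP.S1Law
import Pool.Agent.Lib.MP_80c395_co_TP.S1Mk

/-!
# Project TP, stage 1: placed centres and the uniform law

All trees are decomposed, `φ` is given by `ex_phi`.  `N = card V`.
Let `own s = some i` if `s = s(φ i x, φ i y)` for some adjacent `x, y ∈ (d i).Z` (for at most one `i`
by `dst`; choose), else `none`.  For a tree `i` let `Al = V1 \ (φ i)(Z)`,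
`bad v w := own s(v,w) ≠ none`, `M = |V1|`; `rev_law` (S1Law) with `η`: `|Al| ≥ M - |Z| ≥ (1 - η) M`
(`D₁ |Z| ≤ 2 N`, `hη1`), `|{w ∈ Al | bad v w or w = v}| ≤ lz N + 1 ≤ η M`: every `w` with
`own s(v,w) = some j` is `φ j y` for some `y ∈ Z j` adjacent to an `x ∈ Z j` with `φ j x = v`, so the
number is at most `∑ j, ∑ x, φ j x = v, nb Z x ≤ lz N`; `hη2`.
It gives `π i, κ i`, `ρ' i u`; `ρ i t = ρ' i u` if `((d i).att t).map (φ i) = some u`, and
`ρ i t = π i` if it is `none`.  `c = 1 + 4 η`, `r = (1 + 16 η) / M`: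
`(1 + 4 η)(1 + 8 η) ≤ 1 + 16 η`.  Apply `mk_ok` (S1Mk) with `Lm = TS / M + δ₃ N`; note
`load u = ∑ i, ∑ z ∈ Z, φ i z = u, ac (d i) z` (for a piece `t` with `att t = some z`: `z ∈ Z`, `att_Z`;
at most one `z ∈ Z i` has `φ i z = u`).  `nV`, `nE`, `nC` are `hV`, `hE`, `hC` (`∑ sz ≤ m i`:
`(t,j) ↦ sg t j` is injective; `#{t | hst = some u} ≤` some `ac z`, or `0`).
Then `tp_main` (TPMain) for `W1, W2`; `cload` are the sums in `h1, h2` (cast); `dmd` is bounded by
`mk_dmd` with `X = C1, B = D`: `≤ r D ∑ |C1| ≤ r D 3 N (N / K) ≤ u1 N`, `X = C2, B = D₁`: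
`≤ r D₁ 3 N (2 N / D) ≤ u2 N` (`hu1, hu2`).
This theorem has no constants of its own: it takes the constants `γ₂, δ', N0` of `tp_main` for
`A0` (`hmain` is the conclusion of `tp_main` for these constants).
-/

set_option autoImplicit false

namespace MP_80c395_TP

open Finset

private theorem s1c_own {V : Type} (k : ℕ) (m : Fin k → ℕ)
    (T : ∀ i, SimpleGraph (Fin (m i))) (d : ∀ i, Dec (m i)) (φ : ∀ i, Fin (m i) → V)
    (hdst : ∀ i j, i ≠ j → ∀ a ∈ (d i).Z, ∀ b ∈ (d i).Z, ∀ c ∈ (d j).Z, ∀ e ∈ (d j).Z,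
        (T i).Adj a b → (T j).Adj c e → s(φ i a, φ i b) ≠ s(φ j c, φ j e)) :
    ∃ own : Sym2 V → Option (Fin k),
      (∀ i, ∀ x ∈ (d i).Z, ∀ y ∈ (d i).Z, (T i).Adj x y → own s(φ i x, φ i y) = some i) ∧
      (∀ v w, own s(v, w) ≠ none →
        ∃ i, ∃ x ∈ (d i).Z, ∃ y ∈ (d i).Z, (T i).Adj x y ∧ φ i x = v ∧ φ i y = w) := by
  classical
  let P : Sym2 V → Fin k → Prop := fun s i =>
    ∃ x ∈ (d i).Z, ∃ y ∈ (d i).Z, (T i).Adj x y ∧ s = s(φ i x, φ i y)
  let own : Sym2 V → Option (Fin k) := fun s =>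
    if h : ∃ i, P s i then some h.choose else none
  refine ⟨own, ?_, ?_⟩
  · intro i x hx y hy hxy
    have h : ∃ j, P s(φ i x, φ i y) j := ⟨i, x, hx, y, hy, hxy, rfl⟩
    have e : own s(φ i x, φ i y) = some h.choose := dif_pos h
    rw [e]
    obtain ⟨a, ha, b, hb, hab, hs⟩ := h.choose_spec
    by_contra hne
    have hne' : i ≠ h.choose := fun h' => hne (by rw [← h'])
    exact hdst i h.choose hne' x hx y hy a ha b hb hxy hab hs
  · intro v w hvw
    by_cases h : ∃ j, P s(v, w) j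
    · obtain ⟨j, a, ha, b, hb, hab, hs⟩ := h
      rcases Sym2.eq_iff.1 hs with ⟨h1, h2⟩ | ⟨h1, h2⟩
      · exact ⟨j, a, ha, b, hb, hab, h1.symm, h2.symm⟩
      · exact ⟨j, b, hb, a, ha, hab.symm, h1.symm, h2.symm⟩
    · exact absurd (dif_neg h) hvw

private theorem s1c_bad {V : Type} [DecidableEq V] (k : ℕ) (m : Fin k → ℕ)
    (T : ∀ i, SimpleGraph (Fin (m i))) (d : ∀ i, Dec (m i)) (φ : ∀ i, Fin (m i) → V)
    (own : Sym2 V → Option (Fin k))
    (how : ∀ v w, own s(v, w) ≠ none →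
        ∃ i, ∃ x ∈ (d i).Z, ∃ y ∈ (d i).Z, (T i).Adj x y ∧ φ i x = v ∧ φ i y = w)
    (v : V) (A : Finset V) (hA : ∀ w ∈ A, own s(v, w) ≠ none ∨ w = v) :
    A.card ≤ (∑ i, ∑ z ∈ (d i).Z.filter (fun z => φ i z = v), nb (T i) (d i).Z z) + 1 := by
  classical
  have hsub : A ⊆ (univ.biUnion fun i => ((d i).Z.filter (fun z => φ i z = v)).biUnion
      fun z => ((d i).Z.filter (fun y => (T i).Adj z y)).image (φ i)) ∪ {v} := by
    intro w hw
    rcases hA w hw with h | h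
    · obtain ⟨i, x, hx, y, hy, hxy, h1, h2⟩ := how v w h
      refine Finset.mem_union_left _ ?_
      refine Finset.mem_biUnion.2 ⟨i, Finset.mem_univ _, ?_⟩
      refine Finset.mem_biUnion.2 ⟨x, Finset.mem_filter.2 ⟨hx, h1⟩, ?_⟩
      exact Finset.mem_image.2 ⟨y, Finset.mem_filter.2 ⟨hy, hxy⟩, h2⟩
    · exact Finset.mem_union_right _ (Finset.mem_singleton.2 h)
  refine (Finset.card_le_card hsub).trans ?_
  refine (Finset.card_union_le _ _).trans ?_
  rw [Finset.card_singleton]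
  refine Nat.add_le_add_right ?_ 1
  refine Finset.card_biUnion_le.trans (Finset.sum_le_sum fun i _ => ?_)
  refine Finset.card_biUnion_le.trans (Finset.sum_le_sum fun z _ => ?_)
  refine Finset.card_image_le.trans ?_
  unfold nb
  exact Finset.card_le_card (fun y hy => by
    simp only [Finset.mem_filter] at hy ⊢
    exact hy)

private theorem s1c_card {m : ℕ} {V : Type} (d : Dec m) (φ : Fin m → V) (u : V)
    [DecidableEq V] [DecidablePred fun t => (d.att t).map φ = some u]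
    (hatt : ∀ t z, d.att t = some z → z ∈ d.Z) :
    (univ.filter (fun t => (d.att t).map φ = some u)).card ≤
      ∑ z ∈ d.Z.filter (fun z => φ z = u), ac d z := by
  classical
  have hsub : univ.filter (fun t => (d.att t).map φ = some u) ⊆
      (d.Z.filter (fun z => φ z = u)).biUnion fun z => univ.filter (fun t => d.att t = some z) := by
    intro t ht
    have ht' := (Finset.mem_filter.1 ht).2
    obtain ⟨z, hz, hzu⟩ := Option.map_eq_some_iff.1 ht'
    exact Finset.mem_biUnion.2 ⟨z, Finset.mem_filter.2 ⟨hatt t z hz, hzu⟩,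
      Finset.mem_filter.2 ⟨Finset.mem_univ _, hz⟩⟩
  refine (Finset.card_le_card hsub).trans (Finset.card_biUnion_le.trans ?_)
  refine Finset.sum_le_sum fun z _ => ?_
  unfold ac
  exact Finset.card_le_card (fun y hy => by
    simp only [Finset.mem_filter] at hy ⊢
    exact hy)

private theorem s1c_one {m : ℕ} {V : Type} (d : Dec m) (φ : Fin m → V) (u : V)
    [DecidableEq V] [DecidablePred fun t => (d.att t).map φ = some u]
    (hatt : ∀ t z, d.att t = some z → z ∈ d.Z)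
    (hinj : ∀ x ∈ d.Z, ∀ y ∈ d.Z, φ x = φ y → x = y) (r γ : ℝ) (hr : 0 ≤ r) (hγ : 0 ≤ γ)
    (hC : ∀ z, (ac d z : ℝ) * r ≤ γ) :
    ((univ.filter (fun t => (d.att t).map φ = some u)).card : ℝ) * r ≤ γ := by
  classical
  have h1 := s1c_card d φ u hatt
  by_cases h : ∃ z ∈ d.Z, φ z = u
  · obtain ⟨z, hz, hzu⟩ := h
    have h2 : d.Z.filter (fun z => φ z = u) = {z} := by
      ext y
      rw [Finset.mem_filter, Finset.mem_singleton]
      constructor
      · rintro ⟨hy, hyu⟩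
        exact hinj y hy z hz (hyu.trans hzu.symm)
      · rintro rfl
        exact ⟨hz, hzu⟩
    rw [h2, Finset.sum_singleton] at h1
    have h3 : ((univ.filter (fun t => (d.att t).map φ = some u)).card : ℝ) ≤ ac d z := by
      exact_mod_cast h1
    exact (mul_le_mul_of_nonneg_right h3 hr).trans (hC z)
  · have h2 : d.Z.filter (fun z => φ z = u) = ∅ := by
      rw [Finset.filter_eq_empty_iff]
      intro z hz hzu
      exact h ⟨z, hz, hzu⟩
    rw [h2, Finset.sum_empty] at h1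
    have h3 : (univ.filter (fun t => (d.att t).map φ = some u)).card = 0 := by omega
    rw [h3]
    simpa using hγ

private theorem s1c_sz {m : ℕ} {T : SimpleGraph (Fin m)} {d : Dec m} {D₁ D K : ℕ}
    (h : DecOK T d D₁ D K) : ∑ t, d.sz t ≤ m := by
  have h1 : Fintype.card (Σ t : Fin d.np, Fin (d.sz t)) = ∑ t, d.sz t := by
    rw [Fintype.card_sigma]
    simp
  have h2 : Function.Injective (fun p : (Σ t : Fin d.np, Fin (d.sz t)) => d.sg p.1 p.2) := by
    rintro ⟨t, j⟩ ⟨t', j'⟩ hp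
    obtain ⟨ht, hj⟩ := h.inj t j t' j' hp
    subst ht
    have : j = j' := Fin.ext hj
    rw [this]
  have h3 := Fintype.card_le_of_injective _ h2
  rw [h1, Fintype.card_fin] at h3
  exact h3

private theorem s1c_law {V : Type} [Fintype V] [DecidableEq V] (k : ℕ) (m : Fin k → ℕ)
    (T : ∀ i, SimpleGraph (Fin (m i))) (d : ∀ i, Dec (m i)) (V1 : Finset V)
    (D₁ D K : ℕ) (φ : ∀ i, Fin (m i) → V)
    (dec : ∀ i, DecOK (T i) (d i) D₁ D K)
    (m_le : ∀ i, m i ≤ Fintype.card V)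
    (hD₁ : 1 ≤ D₁) (lz η : ℝ)
    (h3 : ∀ u, ∑ i, ∑ z ∈ (d i).Z.filter (fun z => φ i z = u), (nb (T i) (d i).Z z : ℝ) ≤
        lz * Fintype.card V)
    (hM : 0 < V1.card) (hη0 : 0 ≤ η) (hη : η ≤ 1 / 16)
    (hη1 : 2 * (Fintype.card V : ℝ) ≤ D₁ * (η * V1.card))
    (hη2 : lz * Fintype.card V + 1 ≤ η * V1.card)
    (own : Sym2 V → Option (Fin k))
    (how : ∀ v w, own s(v, w) ≠ none →
        ∃ i, ∃ x ∈ (d i).Z, ∃ y ∈ (d i).Z, (T i).Adj x y ∧ φ i x = v ∧ φ i y = w) (i : Fin k) :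
    ∃ (π : V → ℝ) (κ : V → V → ℝ) (ρ : V → V → ℝ),
      (∀ v, 0 ≤ π v) ∧ ∑ v, π v = 1 ∧ (∀ v, π v ≠ 0 → v ∈ V1 ∧ ∀ z ∈ (d i).Z, φ i z ≠ v) ∧
      (∀ v, π v ≤ (1 + 8 * η) / V1.card) ∧
      (∀ v w, 0 ≤ κ v w) ∧ (∀ v, ∑ w, κ v w = 1) ∧
      (∀ v w, κ v w ≠ 0 → w ∈ V1 ∧ (∀ z ∈ (d i).Z, φ i z ≠ w) ∧ v ≠ w ∧ own s(v, w) = none) ∧
      (∀ v w, κ v w ≤ (1 + 4 * η) / V1.card) ∧
      (∀ w, ∑ v, π v * κ v w = π w) ∧
      (∀ u v, 0 ≤ ρ u v) ∧ (∀ u, ∑ v, ρ u v = 1) ∧
      (∀ u v, ρ u v ≠ 0 → (v ∈ V1 ∧ ∀ z ∈ (d i).Z, φ i z ≠ v) ∧ own s(u, v) = none) ∧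
      (∀ u v, ρ u v ≤ (1 + 4 * η) * π v) := by
  classical
  have hMr : (0 : ℝ) < V1.card := by exact_mod_cast hM
  let Al : Finset V := V1 \ (d i).Z.image (φ i)
  have hAlm : ∀ v, v ∈ Al ↔ v ∈ V1 ∧ ∀ z ∈ (d i).Z, φ i z ≠ v := by
    intro v
    simp only [Al, Finset.mem_sdiff, Finset.mem_image, not_exists, not_and]
  have hZc : ((d i).Z.card : ℝ) ≤ η * V1.card := by
    have a1 : (D₁ : ℝ) * (d i).Z.card ≤ 2 * Fintype.card V := by
      have := (dec i).cZ
      have h2 := m_le i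
      have : D₁ * (d i).Z.card ≤ 2 * Fintype.card V := by omega
      exact_mod_cast this
    have a2 : (D₁ : ℝ) * (d i).Z.card ≤ D₁ * (η * V1.card) := a1.trans hη1
    have a3 : (0 : ℝ) < D₁ := by exact_mod_cast hD₁
    exact le_of_mul_le_mul_left a2 a3
  have hAlc : (V1.card : ℝ) ≤ Al.card + (d i).Z.card := by
    have a1 : V1.card ≤ Al.card + ((d i).Z.image (φ i)).card := by
      have a2 : V1 ⊆ Al ∪ (d i).Z.image (φ i) := by
        intro v hv
        by_cases h : v ∈ (d i).Z.image (φ i)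
        · exact Finset.mem_union_right _ h
        · exact Finset.mem_union_left _ (Finset.mem_sdiff.2 ⟨hv, h⟩)
      exact (Finset.card_le_card a2).trans (Finset.card_union_le _ _)
    have a2 : ((d i).Z.image (φ i)).card ≤ (d i).Z.card := Finset.card_image_le
    exact_mod_cast a1.trans (Nat.add_le_add_left a2 _)
  have hAl' : (Al.card : ℝ) ≤ V1.card := by
    exact_mod_cast Finset.card_le_card (Finset.sdiff_subset)
  let bad : V → V → Prop := fun v w => own s(v, w) ≠ none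
  have hsym : ∀ v w, bad v w → bad w v := by
    intro v w h
    have : s(w, v) = s(v, w) := Sym2.eq_swap
    show own s(w, v) ≠ none
    rw [this]
    exact h
  have hbad : ∀ v, ((Al.filter (fun w => bad v w ∨ w = v)).card : ℝ) ≤ η * V1.card := by
    intro v
    have a1 := s1c_bad k m T d φ own how v (Al.filter (fun w => bad v w ∨ w = v))
      (fun w hw => (Finset.mem_filter.1 hw).2)
    have a2 : ((Al.filter (fun w => bad v w ∨ w = v)).card : ℝ) ≤
        (∑ i, ∑ z ∈ (d i).Z.filter (fun z => φ i z = v), (nb (T i) (d i).Z z : ℝ)) + 1 := by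
      exact_mod_cast a1
    linarith [h3 v]
  obtain ⟨π, κ, ρ, p1, p2, p3, p4, p5, p6, p7, p8, p9, p10, p11, p12, p13⟩ :=
    rev_law Al bad hsym (V1.card : ℝ) η hMr hη0 hη (by linarith) hAl' hbad
  refine ⟨π, κ, ρ, p1, p2, fun v hv => (hAlm v).1 (p3 v hv), p4, p5, p6, ?_, p8, p9, p10, p11, ?_,
    p13⟩
  · intro v w h
    obtain ⟨q1, q2, q3⟩ := p7 v w h
    exact ⟨((hAlm w).1 q1).1, ((hAlm w).1 q1).2, q3, not_not.1 q2⟩
  · intro u v h
    obtain ⟨q1, q2⟩ := p12 u v h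
    exact ⟨(hAlm v).1 q1, not_not.1 q2⟩

theorem s1_inst {V : Type} [Fintype V] [DecidableEq V] (k : ℕ) (m : Fin k → ℕ)
    (T : ∀ i, SimpleGraph (Fin (m i))) (d : ∀ i, Dec (m i)) (V1 W1 W2 : Finset V)
    (D₁ D K : ℕ) (φ : ∀ i, Fin (m i) → V)
    (tree : ∀ i, (T i).IsTree) (dec : ∀ i, DecOK (T i) (d i) D₁ D K)
    (k_le : k ≤ 3 * Fintype.card V) (m_le : ∀ i, m i ≤ Fintype.card V)
    (hD₁ : 1 ≤ D₁) (hD : 1 ≤ D) (hK : 1 ≤ K)
    (hVW1 : Disjoint V1 W1) (hVW2 : Disjoint V1 W2)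
    (δ₃ l1 l2 lz TS η A0 δ' ε' γ₂ u1 u2 : ℝ)
    (hφ : ∀ i, ∀ x ∈ (d i).Z, φ i x ∈ V1)
    (hinj : ∀ i, ∀ x ∈ (d i).Z, ∀ y ∈ (d i).Z, φ i x = φ i y → x = y)
    (hdst : ∀ i j, i ≠ j → ∀ a ∈ (d i).Z, ∀ b ∈ (d i).Z, ∀ c ∈ (d j).Z, ∀ e ∈ (d j).Z,
        (T i).Adj a b → (T j).Adj c e → s(φ i a, φ i b) ≠ s(φ j c, φ j e))
    (h0 : ∀ u, ∑ i, ∑ z ∈ (d i).Z.filter (fun z => φ i z = u), (ac (d i) z : ℝ) ≤
        TS / V1.card + δ₃ * Fintype.card V)
    (h1 : ∀ u, ∑ i, ∑ z ∈ (d i).Z.filter (fun z => φ i z = u), (nb (T i) (d i).C1 z : ℝ) ≤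
        l1 * Fintype.card V)
    (h2 : ∀ u, ∑ i, ∑ z ∈ (d i).Z.filter (fun z => φ i z = u), (nb (T i) (d i).C2 z : ℝ) ≤
        l2 * Fintype.card V)
    (h3 : ∀ u, ∑ i, ∑ z ∈ (d i).Z.filter (fun z => φ i z = u), (nb (T i) (d i).Z z : ℝ) ≤
        lz * Fintype.card V)
    (hδ' : 0 ≤ δ') (hM : 0 < V1.card) (hη0 : 0 ≤ η) (hη : η ≤ 1 / 16)
    (hη1 : 2 * (Fintype.card V : ℝ) ≤ D₁ * (η * V1.card))
    (hη2 : lz * Fintype.card V + 1 ≤ η * V1.card)
    (hA0 : (1 + 16 * η) / V1.card ≤ A0 / Fintype.card V)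
    (hL : TS / V1.card + δ₃ * Fintype.card V ≤ 3 * Fintype.card V)
    (hV : ∀ i, (m i : ℝ) * ((1 + 16 * η) / V1.card) ≤ 1 - ε')
    (hE : 2 * ((1 + 16 * η) / V1.card) * (TS / V1.card + δ₃ * Fintype.card V) +
      2 * ((1 + 16 * η) / V1.card) ^ 2 * (∑ i, ∑ t, (((d i).sz t : ℝ) - 1)) ≤ 1 - ε')
    (hC : ∀ i z, (ac (d i) z : ℝ) * ((1 + 16 * η) / V1.card) ≤ γ₂) (hγ : 0 ≤ γ₂)
    (hu1 : (1 + 16 * η) / V1.card * (3 * D * (Fintype.card V : ℝ) / K) ≤ u1)
    (hu2 : (1 + 16 * η) / V1.card * (6 * D₁ * (Fintype.card V : ℝ) / D) ≤ u2)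
    (hmain : ∀ (Q : Dat V), DatOK Q V1 (W1 ∪ W2) D₁ D K A0 δ' ε' γ₂ →
        (∀ v, (Q.cload (fun i => (Q.d i).C1) v : ℝ) ≤ l1 * Fintype.card V) →
        (∀ v, (Q.cload (fun i => (Q.d i).C2) v : ℝ) ≤ l2 * Fintype.card V) →
        (∀ v, dmd Q (fun i => (Q.d i).C1) v ≤ u1 * Fintype.card V) →
        (∀ v, dmd Q (fun i => (Q.d i).C2) v ≤ u2 * Fintype.card V) →
        ∃ f : ∀ i, Fin (Q.m i) → V, (∀ i, Function.Injective (f i)) ∧
          ∀ i j, i ≠ j → ∀ a b c d, (Q.T i).Adj a b → (Q.T j).Adj c d →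
            s(f i a, f i b) ≠ s(f j c, f j d)) :
    ∃ f : ∀ i, Fin (m i) → V, (∀ i, Function.Injective (f i)) ∧
      ∀ i j, i ≠ j → ∀ a b c d, (T i).Adj a b → (T j).Adj c d →
        s(f i a, f i b) ≠ s(f j c, f j d) := by
  classical
  obtain ⟨own, ho1, ho2⟩ := s1c_own k m T d φ hdst
  have hlaw := fun i => s1c_law k m T d V1 D₁ D K φ dec m_le hD₁ lz η h3 hM hη0 hη hη1 hη2 own ho2 i
  choose π κ ρ' p1 p2 p3 p4 p5 p6 p7 p8 p9 p10 p11 p12 p13 using hlaw
  have hMr : (0 : ℝ) < V1.card := by exact_mod_cast hM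
  have hN : (0 : ℝ) ≤ Fintype.card V := Nat.cast_nonneg _
  have hr0 : 0 ≤ (1 + 16 * η) / V1.card := by positivity
  let ρ : ∀ i, Fin (d i).np → V → ℝ := fun i t v =>
    match ((d i).att t).map (φ i) with
    | some u => ρ' i u v
    | none => π i v
  have hρs : ∀ i t u v, ((d i).att t).map (φ i) = some u → ρ i t v = ρ' i u v := by
    intro i t u v h
    simp only [ρ, h]
  have hρn : ∀ i t v, ((d i).att t).map (φ i) = none → ρ i t v = π i v := by
    intro i t v h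
    simp only [ρ, h]
  have hload : ∀ u, ((mkDat k m T d φ own (1 + 4 * η) π κ ρ).load u : ℝ) ≤
      TS / V1.card + δ₃ * Fintype.card V := by
    intro u
    have a1 : (mkDat k m T d φ own (1 + 4 * η) π κ ρ).load u ≤
        ∑ i, ∑ z ∈ (d i).Z.filter (fun z => φ i z = u), ac (d i) z := by
      refine Finset.sum_le_sum fun i _ => ?_
      refine le_trans (Finset.card_le_card ?_) (s1c_card (d i) (φ i) u (dec i).att_Z)
      intro t ht
      have ht' : (mkDat k m T d φ own (1 + 4 * η) π κ ρ).hst i t = some u := by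
        simpa using ht
      have ht2 : ((d i).att t).map (φ i) = some u := ht'
      exact Finset.mem_filter.2 ⟨Finset.mem_univ _, ht2⟩
    have a2 : ((mkDat k m T d φ own (1 + 4 * η) π κ ρ).load u : ℝ) ≤
        ∑ i, ∑ z ∈ (d i).Z.filter (fun z => φ i z = u), (ac (d i) z : ℝ) := by
      exact_mod_cast a1
    exact a2.trans (h0 u)
  have hπr : ∀ i v, (1 + 4 * η) * π i v ≤ (1 + 16 * η) / V1.card := by
    intro i v
    have a1 : (1 + 4 * η) * π i v ≤ (1 + 4 * η) * ((1 + 8 * η) / V1.card) :=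
      mul_le_mul_of_nonneg_left (p4 i v) (by linarith)
    refine a1.trans ?_
    rw [← mul_div_assoc]
    exact div_le_div_of_nonneg_right (by nlinarith) hMr.le
  have hρc : ∀ i t v, ρ i t v ≤ (1 + 4 * η) * π i v := by
    intro i t v
    cases h : ((d i).att t).map (φ i) with
    | none =>
      rw [hρn i t v h]
      nlinarith [p1 i v]
    | some u =>
      rw [hρs i t u v h]
      exact p13 i u v
  have hOK : DatOK (mkDat k m T d φ own (1 + 4 * η) π κ ρ) V1 (W1 ∪ W2) D₁ D K A0 δ' ε' γ₂ := by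
    refine mk_ok k m T d φ own (1 + 4 * η) π κ ρ V1 (W1 ∪ W2) D₁ D K A0 δ' ε' γ₂
      ((1 + 16 * η) / V1.card) (TS / V1.card + δ₃ * Fintype.card V) tree dec k_le m_le
      (Finset.disjoint_union_right.2 ⟨hVW1, hVW2⟩) hinj ?_ ho1 ?_ (by linarith) hδ' hA0 hr0 p1 hπr p5 p6
      ?_ p7 p9 ?_ ?_ hρc ?_ ?_ hload hE ?_
    · intro i x hx h
      rcases Finset.mem_union.1 h with h | h
      · exact Finset.disjoint_left.1 hVW1 (hφ i x hx) h
      · exact Finset.disjoint_left.1 hVW2 (hφ i x hx) h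
    · intro u
      have := (hload u).trans hL
      exact_mod_cast this
    · intro i v w
      refine (p8 i v w).trans (div_le_div_of_nonneg_right (by linarith) hMr.le)
    · intro i t v
      cases h : ((d i).att t).map (φ i) with
      | none =>
        rw [hρn i t v h]
        exact p1 i v
      | some u =>
        rw [hρs i t u v h]
        exact p10 i u v
    · intro i t
      cases h : ((d i).att t).map (φ i) with
      | none =>
        rw [Finset.sum_congr rfl (fun v _ => hρn i t v h)]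
        exact p2 i
      | some u =>
        rw [Finset.sum_congr rfl (fun v _ => hρs i t u v h)]
        exact p11 i u
    · intro i t v hv
      cases h : ((d i).att t).map (φ i) with
      | none =>
        rw [hρn i t v h] at hv
        refine ⟨(p3 i v hv).1, (p3 i v hv).2, ?_⟩
        intro u hu
        exact absurd hu (by simp)
      | some u =>
        rw [hρs i t u v h] at hv
        obtain ⟨q1, q2⟩ := p12 i u v hv
        refine ⟨q1.1, q1.2, ?_⟩
        intro u' hu'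
        have : u = u' := by simpa using hu'
        rw [← this]
        exact q2
    · intro i
      have a1 : (∑ t, ((d i).sz t : ℝ)) ≤ m i := by
        exact_mod_cast s1c_sz (dec i)
      exact (mul_le_mul_of_nonneg_right a1 hr0).trans (hV i)
    · intro i u
      exact s1c_one (d i) (φ i) u (dec i).att_Z (hinj i) _ _ hr0 hγ (hC i)
  have hk : (k : ℝ) ≤ 3 * Fintype.card V := by exact_mod_cast k_le
  refine hmain (mkDat k m T d φ own (1 + 4 * η) π κ ρ) hOK ?_ ?_ ?_ ?_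
  · intro v
    refine le_trans (le_of_eq ?_) (h1 v)
    unfold Dat.cload mkDat
    push_cast
    rfl
  · intro v
    refine le_trans (le_of_eq ?_) (h2 v)
    unfold Dat.cload mkDat
    push_cast
    rfl
  · intro v
    have a1 := mk_dmd k m T d φ own (1 + 4 * η) π κ ρ D₁ D K ((1 + 16 * η) / V1.card) dec hr0 hπr hρc
      (fun i => (d i).C1) D (fun i => (dec i).deg1) v
    have a2 : ∑ i, (((d i).C1).card : ℝ) ≤ 3 * Fintype.card V * (Fintype.card V / K) := by
      have b1 : ∀ i ∈ (univ : Finset (Fin k)), (((d i).C1).card : ℝ) ≤ Fintype.card V / K := by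
        intro i _
        rw [le_div_iff₀ (by exact_mod_cast hK)]
        have := (dec i).c1
        have h2 := m_le i
        have h3 : (d i).C1.card * K ≤ Fintype.card V := by
          rw [mul_comm]
          omega
        exact_mod_cast h3
      refine (Finset.sum_le_sum b1).trans ?_
      rw [Finset.sum_const, Finset.card_univ, Fintype.card_fin, nsmul_eq_mul]
      exact mul_le_mul_of_nonneg_right hk (by positivity)
    have a3 : (1 + 16 * η) / V1.card * (D * ∑ i, (((d i).C1).card : ℝ)) ≤ u1 * Fintype.card V := by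
      have b1 : (1 + 16 * η) / V1.card * (D * ∑ i, (((d i).C1).card : ℝ)) ≤
          (1 + 16 * η) / V1.card * (D * (3 * Fintype.card V * (Fintype.card V / K))) :=
        mul_le_mul_of_nonneg_left (mul_le_mul_of_nonneg_left a2 (by positivity)) hr0
      refine b1.trans ?_
      have b2 := mul_le_mul_of_nonneg_right hu1 hN
      refine le_trans (le_of_eq ?_) b2
      ring
    exact a1.trans a3
  · intro v
    have a1 := mk_dmd k m T d φ own (1 + 4 * η) π κ ρ D₁ D K ((1 + 16 * η) / V1.card) dec hr0 hπr hρc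
      (fun i => (d i).C2) D₁ (fun i => (dec i).deg2) v
    have a2 : ∑ i, (((d i).C2).card : ℝ) ≤ 3 * Fintype.card V * (2 * Fintype.card V / D) := by
      have b1 : ∀ i ∈ (univ : Finset (Fin k)), (((d i).C2).card : ℝ) ≤ 2 * Fintype.card V / D := by
        intro i _
        rw [le_div_iff₀ (by exact_mod_cast hD)]
        have := (dec i).c2
        have h2 := m_le i
        have h3 : (d i).C2.card * D ≤ 2 * Fintype.card V := by
          rw [mul_comm]
          omega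
        exact_mod_cast h3
      refine (Finset.sum_le_sum b1).trans ?_
      rw [Finset.sum_const, Finset.card_univ, Fintype.card_fin, nsmul_eq_mul]
      exact mul_le_mul_of_nonneg_right hk (by positivity)
    have a3 : (1 + 16 * η) / V1.card * (D₁ * ∑ i, (((d i).C2).card : ℝ)) ≤
        u2 * Fintype.card V := by
      have b1 : (1 + 16 * η) / V1.card * (D₁ * ∑ i, (((d i).C2).card : ℝ)) ≤
          (1 + 16 * η) / V1.card * (D₁ * (3 * Fintype.card V * (2 * Fintype.card V / D))) :=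
        mul_le_mul_of_nonneg_left (mul_le_mul_of_nonneg_left a2 (by positivity)) hr0
      refine b1.trans ?_
      have b2 := mul_le_mul_of_nonneg_right hu2 hN
      refine le_trans (le_of_eq ?_) b2
      ring
    exact a1.trans a3

end MP_80c395_TP
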