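import Pool.Agent.Lib.MP_80c395_co_TP.TDefs
import Pool.Agent.Lib.MP_80c395_co.Rooted

/-!
# Project TP: parents in a tree; leaves

`ex_par`: choose a root `r` (the tree is connected, so `Fin m` is nonempty) and let `rk x` be the
distance `T.dist r x`; in a tree adjacent vertices have different distances from `r`
(they differ by exactly one), and every `x ≠ r` has exactly one neighbour with smaller distance
(unique path to the root); `par x` is this neighbour, `par r = none`.
(Mathlib has facts like `SimpleGraph.IsTree.existsUnique_path`, `SimpleGraph.IsTree.dist_ne_of_adj`,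
`SimpleGraph.IsTree.card_edgeFinset` ...; the file Pool/Agent/Lib/MP_80c395_co/Rooted.lean and its
relatives contain rooted trees from `IsTree` as well.)

`sum_nb_Z`: for `Z ⊆ Fin m`: `∑ x ∈ Z, nb T Z x ≤ 2 |Z|`: every adjacent pair `{x, y} ⊆ Z` is
`{x, par x}` or `{y, par y}`: the ordered adjacent pairs are at most `2 |Z|`.

`ex_leaf`: a tree has a vertex of degree at most one: the sum of the degrees is `2 (m - 1)`; or take a
vertex of largest distance from the root.
-/

set_option autoImplicit false

namespace MP_80c395_TP

open Finset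

theorem ex_par {m : ℕ} {T : SimpleGraph (Fin m)} (hT : T.IsTree) :
    ∃ (rk : Fin m → ℕ) (par : Fin m → Option (Fin m)),
      (∀ x y, par x = some y → T.Adj x y ∧ rk y < rk x) ∧
      ∀ x y, T.Adj x y → par x = some y ∨ par y = some x := by
  classical
  obtain ⟨c⟩ : Nonempty (Fin m) := hT.connected.nonempty
  obtain ⟨R, hc, h1, h2, -⟩ := Pool.Agent.Lib.MP_80c395_co.exists_RT T hT c
  refine ⟨R.r, fun x => if x = c then none else some (R.p x), ?_, ?_⟩
  · intro x y hxy
    beta_reduce at hxy
    by_cases hx : x = c
    · rw [if_pos hx] at hxy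
      exact absurd hxy (by simp)
    · rw [if_neg hx, Option.some.injEq] at hxy
      subst hxy
      exact ⟨h1 x hx, R.lt x (by rw [hc]; exact hx)⟩
  · intro x y hxy
    rcases h2 x y hxy with h | h
    · left
      beta_reduce
      rw [if_neg h.1, h.2]
    · right
      beta_reduce
      rw [if_neg h.1, h.2]

theorem sum_nb_Z {m : ℕ} {T : SimpleGraph (Fin m)} (hT : T.IsTree) (Z : Finset (Fin m)) :
    ∑ x ∈ Z, nb T Z x ≤ 2 * Z.card := by
  classical
  obtain ⟨rk, par, h1, h2⟩ := ex_par hT
  have hle : ∀ x ∈ Z, nb T Z x ≤ 1 + (Z.filter fun y => par y = some x).card := by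
    intro x _
    unfold nb
    have hsub : (Z.filter fun y => T.Adj x y) ⊆
        (Z.filter fun y => par x = some y) ∪ (Z.filter fun y => par y = some x) := by
      intro y hy
      rw [mem_filter] at hy
      rw [mem_union, mem_filter, mem_filter]
      rcases h2 x y hy.2 with h | h
      · exact Or.inl ⟨hy.1, h⟩
      · exact Or.inr ⟨hy.1, h⟩
    refine (card_le_card hsub).trans ((card_union_le _ _).trans ?_)
    have h3 : (Z.filter fun y => par x = some y).card ≤ 1 := by
      rw [card_le_one]
      intro a ha b hb
      rw [mem_filter] at ha hb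
      have := ha.2.symm.trans hb.2
      exact Option.some.inj this
    omega
  refine (sum_le_sum hle).trans ?_
  rw [sum_add_distrib, sum_const, smul_eq_mul, mul_one]
  have h3 : ∑ x ∈ Z, (Z.filter fun y => par y = some x).card ≤ Z.card := by
    simp only [card_filter]
    rw [sum_comm]
    have h4 : ∀ y ∈ Z, (∑ x ∈ Z, if par y = some x then 1 else 0) ≤ 1 := by
      intro y _
      rw [← card_filter, card_le_one]
      intro a ha b hb
      rw [mem_filter] at ha hb
      have := ha.2.symm.trans hb.2
      exact Option.some.inj this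
    refine (sum_le_sum h4).trans ?_
    simp
  omega

theorem ex_leaf {m : ℕ} {T : SimpleGraph (Fin m)} (hT : T.IsTree) :
    ∃ x, nb T univ x ≤ 1 := by
  classical
  obtain ⟨rk, par, h1, h2⟩ := ex_par hT
  have hne : Nonempty (Fin m) := hT.connected.nonempty
  obtain ⟨x, -, hx⟩ := exists_max_image univ rk univ_nonempty
  refine ⟨x, ?_⟩
  unfold nb
  rw [card_le_one]
  have key : ∀ y, T.Adj x y → par x = some y := by
    intro y hy
    rcases h2 x y hy with h | h
    · exact h
    · exact absurd (h1 y x h).2 (not_lt.2 (hx y (mem_univ y)))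
  intro a ha b hb
  rw [mem_filter] at ha hb
  have := (key a ha.2).symm.trans (key b hb.2)
  exact Option.some.inj this

end MP_80c395_TP
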