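import Pool.Agent.Lib.MP_80c395_co_GT.MergeAll
import Pool.Agent.Lib.MP_80c395_co_TP.S1Rank

/-!
# Project TP: gluing small trees together

`Pk n m T` (Pool/Agent/Lib/MP_80c395_co_GT/DefsG.lean): the family packs into `K_{2n+1}`.
`merge_deg` is proved exactly as `Pool.Agent.GT.merge_all`
(Pool/Agent/Lib/MP_80c395_co_GT/MergeAll.lean;
copy the proofs of `ma_step` and `merge_all`, with `FamB` in place of `Fam`): if two trees of the
family have together at
most `n` edges, replace them by their union with one common vertex (`exists_mg`, structure `Mg`)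
where the common vertex is a leaf (degree at most one, `ex_leaf`) of both, so that degrees stay
`≤ B`, `2 ≤ B`: for `x ≠ b1` the degree of `j1 x` is the degree of `x`, the degree of the common
vertex is at most `1 + 1`.  Repeat.

`card_merged`: at most one tree has at most `n/2` edges, so `(k - 1) (n + 1) ≤ 2 ∑ (m i - 1)
≤ 2 n (2n+1)`, hence `k ≤ 4 n + 1`.
-/

set_option autoImplicit false

open Finset

namespace MP_80c395_TP

open Pool.Agent.GT

/-- trees of order at most `n + 1` with maximum degree at most `B` -/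
structure FamB (n B : ℕ) {ι : Type} (m : ι → ℕ) (T : ∀ i, SimpleGraph (Fin (m i))) : Prop where
  tree : ∀ i, (T i).IsTree
  ord : ∀ i, m i ≤ n + 1
  deg : ∀ i x, nb (T i) univ x ≤ B

/-- degrees in the union of two trees which share a leaf -/
private theorem S1Merge_deg {B : ℕ} (hB : 2 ≤ B) {m1 m2 m : ℕ} {T1 : SimpleGraph (Fin m1)}
    {T2 : SimpleGraph (Fin m2)} {b1 : Fin m1} {b2 : Fin m2} {T : SimpleGraph (Fin m)}
    {j1 : Fin m1 → Fin m} {j2 : Fin m2 → Fin m} (H : Mg T1 T2 b1 b2 T j1 j2)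
    (h1 : ∀ x, nb T1 univ x ≤ B) (h2 : ∀ x, nb T2 univ x ≤ B) (hb1 : nb T1 univ b1 ≤ 1)
    (hb2 : nb T2 univ b2 ≤ 1) (z : Fin m) : nb T univ z ≤ B := by
  classical
  have key1 : ∀ x, x ≠ b1 → nb T univ (j1 x) ≤ B := by
    intro x hx
    refine le_trans ?_ (h1 x)
    unfold nb
    refine le_trans (Finset.card_le_card (t := (univ.filter (fun y => T1.Adj x y)).image j1) ?_)
      Finset.card_image_le
    intro w hw
    rw [Finset.mem_filter, H.adj] at hw
    rcases hw.2 with ⟨x', y, hxy, hu, hw'⟩ | ⟨x', y, hxy, hu, hw'⟩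
    · rw [H.inj1 hu]
      exact Finset.mem_image.2 ⟨y, Finset.mem_filter.2 ⟨Finset.mem_univ _, hxy⟩, hw'.symm⟩
    · exact absurd (H.only _ _ hu).1 hx
  have key2 : ∀ y, y ≠ b2 → nb T univ (j2 y) ≤ B := by
    intro x hx
    refine le_trans ?_ (h2 x)
    unfold nb
    refine le_trans (Finset.card_le_card (t := (univ.filter (fun y => T2.Adj x y)).image j2) ?_)
      Finset.card_image_le
    intro w hw
    rw [Finset.mem_filter, H.adj] at hw
    rcases hw.2 with ⟨x', y, hxy, hu, hw'⟩ | ⟨x', y, hxy, hu, hw'⟩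
    · exact absurd (H.only _ _ hu.symm).2 hx
    · rw [H.inj2 hu]
      exact Finset.mem_image.2 ⟨y, Finset.mem_filter.2 ⟨Finset.mem_univ _, hxy⟩, hw'.symm⟩
  have key3 : nb T univ (j1 b1) ≤ B := by
    refine le_trans ?_ hB
    have h3 : nb T univ (j1 b1) ≤ nb T1 univ b1 + nb T2 univ b2 := by
      unfold nb
      refine le_trans (Finset.card_le_card (t := (univ.filter (fun y => T1.Adj b1 y)).image j1 ∪
        (univ.filter (fun y => T2.Adj b2 y)).image j2) ?_)
        ((Finset.card_union_le _ _).trans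
          (Nat.add_le_add Finset.card_image_le Finset.card_image_le))
      intro w hw
      rw [Finset.mem_filter, H.adj] at hw
      rcases hw.2 with ⟨x', y, hxy, hu, hw'⟩ | ⟨x', y, hxy, hu, hw'⟩
      · rw [H.inj1 hu]
        exact Finset.mem_union_left _
          (Finset.mem_image.2 ⟨y, Finset.mem_filter.2 ⟨Finset.mem_univ _, hxy⟩, hw'.symm⟩)
      · rw [(H.only _ _ hu).2] at hxy
        exact Finset.mem_union_right _
          (Finset.mem_image.2 ⟨y, Finset.mem_filter.2 ⟨Finset.mem_univ _, hxy⟩, hw'.symm⟩)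
    omega
  rcases H.cov z with ⟨x, rfl⟩ | ⟨y, rfl⟩
  · by_cases hx : x = b1
    · rw [hx]
      exact key3
    · exact key1 x hx
  · by_cases hy : y = b2
    · rw [hy, ← H.com]
      exact key3
    · exact key2 y hy

/-- one merging step -/
private theorem S1Merge_step {n B : ℕ} (hB : 2 ≤ B) {ι : Type} [Fintype ι] (m : ι → ℕ)
    (T : ∀ i, SimpleGraph (Fin (m i))) (hF : FamB n B m T) (i j : ι) (hij : i ≠ j)
    (hs : (m i - 1) + (m j - 1) ≤ n) :
    ∃ (ι' : Type) (_ : Fintype ι') (m' : ι' → ℕ) (T' : ∀ i, SimpleGraph (Fin (m' i))),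
      Fintype.card ι' + 1 = Fintype.card ι ∧ FamB n B m' T' ∧
      ∑ i, (m' i - 1) = ∑ i, (m i - 1) ∧ (Pk n m' T' → Pk n m T) := by
  classical
  obtain ⟨b1, hb1⟩ := ex_leaf (hF.tree i)
  obtain ⟨b2, hb2⟩ := ex_leaf (hF.tree j)
  obtain ⟨mm, Tm, j1, j2, H⟩ := exists_mg (T i) (T j) (hF.tree i) (hF.tree j) b1 b2
  have hm1 : 0 < m i := Fin.pos b1
  have hm2 : 0 < m j := Fin.pos b2
  have hsz := H.size
  have hmm : mm - 1 = (m i - 1) + (m j - 1) := by omega
  let W := {k : ι // k ≠ i ∧ k ≠ j}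
  let m' : Option W → ℕ := fun x => Option.casesOn x mm (fun k => m k.1)
  let T' : ∀ x : Option W, SimpleGraph (Fin (m' x)) := fun x =>
    Option.rec (motive := fun x => SimpleGraph (Fin (m' x))) Tm (fun k => T k.1) x
  refine ⟨Option W, inferInstance, m', T', ?_, ⟨?_, ?_, ?_⟩, ?_, ?_⟩
  · have h1 := ma_sum i j hij (fun _ => 1)
    simp only [sum_const, smul_eq_mul, mul_one] at h1
    rw [Fintype.card_option, ← Finset.card_univ (α := ι), h1, ← Finset.card_univ]
    ring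
  · intro x
    rcases x with _ | k
    · exact H.tree
    · exact hF.tree k.1
  · intro x
    rcases x with _ | k
    · change mm ≤ n + 1
      omega
    · exact hF.ord k.1
  · intro x
    rcases x with _ | k
    · exact S1Merge_deg hB H (hF.deg i) (hF.deg j) hb1 hb2
    · exact hF.deg k.1
  · rw [Fintype.sum_option, ma_sum i j hij (fun k => m k - 1)]
    change (mm - 1) + _ = _
    rw [hmm]
  · rintro ⟨f', hinj, hdis⟩
    let f0 : Fin mm → Fin (2 * n + 1) := f' none
    have hf0 : Function.Injective f0 := hinj none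
    let E1 : Set (Sym2 (Fin (2 * n + 1))) :=
      {e | ∃ a b, (T i).Adj a b ∧ e = s(f0 (j1 a), f0 (j1 b))}
    let E2 : Set (Sym2 (Fin (2 * n + 1))) :=
      {e | ∃ a b, (T j).Adj a b ∧ e = s(f0 (j2 a), f0 (j2 b))}
    let E3 : W → Set (Sym2 (Fin (2 * n + 1))) := fun w =>
      {e | ∃ a b : Fin (m w.1), (T w.1).Adj a b ∧ e = s(f' (some w) a, f' (some w) b)}
    let Es : ι → Set (Sym2 (Fin (2 * n + 1))) := fun k =>
      {e | (k = i ∧ e ∈ E1) ∨ (k = j ∧ e ∈ E2) ∨ ∃ h : k ≠ i ∧ k ≠ j, e ∈ E3 ⟨k, h⟩}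
    have hex : ∀ k, ∃ f : Fin (m k) → Fin (2 * n + 1), Function.Injective f ∧
        ∀ a b, (T k).Adj a b → s(f a, f b) ∈ Es k := by
      intro k
      by_cases h1 : k = i
      · subst h1
        exact ⟨fun a => f0 (j1 a), hf0.comp H.inj1, fun a b hab => Or.inl ⟨rfl, a, b, hab, rfl⟩⟩
      by_cases h2 : k = j
      · subst h2
        exact ⟨fun a => f0 (j2 a), hf0.comp H.inj2,
          fun a b hab => Or.inr (Or.inl ⟨rfl, a, b, hab, rfl⟩)⟩
      · exact ⟨f' (some ⟨k, h1, h2⟩), hinj _,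
          fun a b hab => Or.inr (Or.inr ⟨⟨h1, h2⟩, a, b, hab, rfl⟩)⟩
    choose f hfi hfe using hex
    have h12 : ∀ e, e ∈ E1 → e ∈ E2 → False := by
      rintro e ⟨a, b, hab, rfl⟩ ⟨c, d, hcd, he⟩
      apply mg_disj H a b c d hab hcd
      have h1 : Sym2.map f0 s(j1 a, j1 b) = Sym2.map f0 s(j2 c, j2 d) := by
        simpa using he
      exact Sym2.map.injective hf0 h1
    have h13 : ∀ e w, e ∈ E1 → e ∈ E3 w → False := by
      rintro e w ⟨a, b, hab, rfl⟩ ⟨c, d, hcd, he⟩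
      exact hdis none (some w) (by simp) (j1 a) (j1 b) c d
        ((H.adj _ _).2 (Or.inl ⟨a, b, hab, rfl, rfl⟩)) hcd he
    have h23 : ∀ e w, e ∈ E2 → e ∈ E3 w → False := by
      rintro e w ⟨a, b, hab, rfl⟩ ⟨c, d, hcd, he⟩
      exact hdis none (some w) (by simp) (j2 a) (j2 b) c d
        ((H.adj _ _).2 (Or.inr ⟨a, b, hab, rfl, rfl⟩)) hcd he
    have h33 : ∀ e w w', w ≠ w' → e ∈ E3 w → e ∈ E3 w' → False := by
      rintro e w w' hw ⟨a, b, hab, rfl⟩ ⟨c, d, hcd, he⟩
      exact hdis (some w) (some w') (by simpa using hw) a b c d hab hcd he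
    have hEs : ∀ k l, k ≠ l → ∀ e, e ∈ Es k → e ∈ Es l → False := by
      rintro k l hkl e (⟨h1, h2⟩ | ⟨h1, h2⟩ | ⟨h1, h2⟩) (⟨h3, h4⟩ | ⟨h3, h4⟩ | ⟨h3, h4⟩)
      · exact hkl (h1.trans h3.symm)
      · exact h12 e h2 h4
      · exact h13 e _ h2 h4
      · exact h12 e h4 h2
      · exact hkl (h1.trans h3.symm)
      · exact h23 e _ h2 h4
      · exact h13 e _ h4 h2
      · exact h23 e _ h4 h2
      · exact h33 e _ _ (fun h => hkl (congrArg Subtype.val h)) h2 h4
    refine ⟨f, hfi, fun k l hkl a b c d hab hcd he => ?_⟩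
    exact hEs k l hkl _ (hfe k a b hab) (he ▸ hfe l c d hcd)

theorem merge_deg {n B : ℕ} (hB : 2 ≤ B) (N : ℕ) : ∀ (ι : Type) [Fintype ι] (m : ι → ℕ)
    (T : ∀ i, SimpleGraph (Fin (m i))), Fintype.card ι = N → FamB n B m T →
    ∃ (ι' : Type) (_ : Fintype ι') (m' : ι' → ℕ) (T' : ∀ i, SimpleGraph (Fin (m' i))),
      FamB n B m' T' ∧ ∑ i, (m' i - 1) = ∑ i, (m i - 1) ∧
      (∀ i j, i ≠ j → n < (m' i - 1) + (m' j - 1)) ∧ (Pk n m' T' → Pk n m T) := by
  induction N with
  | zero =>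
    intro ι _ m T hN hF
    have : IsEmpty ι := Fintype.card_eq_zero_iff.1 hN
    exact ⟨ι, inferInstance, m, T, hF, rfl, fun i => (this.false i).elim, id⟩
  | succ N ih =>
    intro ι _ m T hN hF
    by_cases h : ∀ i j, i ≠ j → n < (m i - 1) + (m j - 1)
    · exact ⟨ι, inferInstance, m, T, hF, rfl, h, id⟩
    · push Not at h
      obtain ⟨i, j, hij, hs⟩ := h
      obtain ⟨ι1, _, m1, T1, hc, hF1, hsum, hpk⟩ := S1Merge_step hB m T hF i j hij hs
      obtain ⟨ι2, i2, m2, T2, hF2, hsum2, hbig, hpk2⟩ := ih ι1 m1 T1 (by omega) hF1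
      exact ⟨ι2, i2, m2, T2, hF2, hsum2.trans hsum, hbig, fun h => hpk (hpk2 h)⟩

theorem card_merged {n : ℕ} {ι : Type} [Fintype ι] (m : ι → ℕ)
    (h1 : ∀ i j, i ≠ j → n < (m i - 1) + (m j - 1)) (h2 : ∑ i, (m i - 1) ≤ n * (2 * n + 1)) :
    Fintype.card ι ≤ 4 * n + 1 := by
  classical
  obtain ⟨A, hA⟩ : ∃ A : Finset ι, A = univ.filter (fun i => 2 * (m i - 1) ≤ n) := ⟨_, rfl⟩
  have hc : A.card ≤ 1 := by
    rw [Finset.card_le_one]
    intro i hi j hj
    by_contra hne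
    have h3 := h1 i j hne
    rw [hA, Finset.mem_filter] at hi hj
    omega
  have h3 : (Aᶜ).card * (n + 1) ≤ ∑ i ∈ Aᶜ, 2 * (m i - 1) := by
    rw [← smul_eq_mul, ← Finset.sum_const]
    refine Finset.sum_le_sum fun i hi => ?_
    rw [hA, Finset.mem_compl, Finset.mem_filter, not_and] at hi
    have h4 := hi (Finset.mem_univ i)
    omega
  have h4 : ∑ i ∈ Aᶜ, 2 * (m i - 1) ≤ 2 * (n * (2 * n + 1)) := by
    refine le_trans (Finset.sum_le_sum_of_subset (Finset.subset_univ _)) ?_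
    rw [← Finset.mul_sum]
    exact Nat.mul_le_mul_left 2 h2
  have h5 : A.card + Aᶜ.card = Fintype.card ι := Finset.card_add_card_compl A
  by_contra hcon
  push Not at hcon
  have h6 : 4 * n + 1 ≤ Aᶜ.card := by omega
  nlinarith [Nat.mul_le_mul_right (n + 1) h6]

end MP_80c395_TP
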