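import Pool.Agent.Lib.MP_80c395_co_TP.S1Core
import Pool.Agent.Lib.MP_80c395_co_TP.S1Merge

/-!
# Project TP, stage 1: asymptotic packing of trees of maximum degree at most `c n`

`s1_core`: constants for `0 < ε ≤ 1` (wlog): `μ = ε / 64`, `ε' = ε / 8`, `δ₃ = ε / 64`,
`lz = δ₃ / 128`, `η = δ₃ / 16`, `D₁` with `D₁ ≥ 10^7 / δ₃^2`, `D` with
`D ≥ D₁`, `D ≥ 800 D₁^2 / μ^2` and `192 D₁^2 / (D μ) ≤ δ₃ / 512`, `K` with
`K ≥ 3200 D^2 / μ^2` and `96 D^2 / (K μ) ≤ δ₃ / 512`; `l1 = μ / (16 D)`, `l2 = μ / (16 D₁)`,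
`u1 = 6 D / K`, `u2 = 12 D₁ / D`, `A0 = 4`.  `tp_main` (TPMain) gives `γ₂, δ'` and `N0`.
`c = min (δ₃ / 8) (γ₂ / 8)`, `n0` large.  `V = Fin (2n+1)`, `N = 2n+1`; `W1, W2` disjoint with
`⌈μ N⌉` elements, `V1` the rest, `M = |V1| ≥ (1 - 2 μ) N - 2 ≥ (1 - 3 μ) N`.
`exists_dec` gives `d`.  `TS = ∑ i, ∑ z ∈ Z, ac (d i) z` (number of attached pieces),
`ac (d i) z ≤ nb T univ z ≤ c n` (the roots of the pieces attached to `z` are different
neighbours of `z`, `att_adj`).  `k ≤ 4 n + 1 ≤ 3 N`.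
`∑ m i = ∑ (m i - 1) + k ≤ (1 - ε) N (N - 1) / 2 + 3 N` (all `m i ≥ 1`), so `TS + ∑ ∑ (sz - 1)
≤ ∑ ∑ sz ≤ ∑ m i ≤ (1 - ε) N^2 / 2 + 3 N`.
`ex_phi`, then `s1_inst`: with `r = (1 + 16 η) / M`, `r N ≤ q := (1 + ε / 64) / (1 - 3 ε / 64)
≤ 1 + ε / 8`, `q^2 ≤ 1 + ε / 3`: `2 r (TS / M + δ₃ N) + 2 r^2 ∑∑ (sz - 1)
≤ 2 r^2 (TS + ∑∑ (sz - 1)) + 2 r δ₃ N ≤ q^2 (1 - ε) + 6 q^2 / N + 2 q δ₃ ≤ 1 - ε / 8`
(`1 / M ≤ r`).  `hV`: `(n + 1) r ≤ 3/4 ≤ 1 - ε'`.  `hC`: `c n r ≤ 2 c ≤ γ₂`.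
`hnum` of `ex_phi`: `2 / D₁ + δ₃ / 64 + 96 D^2 / (K μ) + 192 D₁^2 / (D μ) + 6144 / (D₁ δ₃) ≤ δ₃ / 32`.
`h2, h4` of `tp_main`: `D (l1 + 2 u1) = μ / 16 + 12 D^2 / K ≤ μ / 8`,
`D₁ (l2 + 2 u2) = μ / 16 + 24 D₁^2 / D ≤ μ / 8`.

`s1_all`: `merge_deg` with `B = ⌊c n⌋ ≥ 2`, then `card_merged`, an equivalence of the index type
with `Fin k`, and `s1_core`.
-/

set_option autoImplicit false

namespace MP_80c395_TP

open Finset Pool.Agent.GT

/-- bound for `r N` -/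
private theorem s1m_q {e N M : ℝ} (he : 0 < e) (he1 : e ≤ 1 / 64) (hN : 0 < N)
    (hM : (1 - 3 * e) * N ≤ M) : 0 < M ∧ (1 + 16 * (e / 16)) / M * N ≤ 1 + 5 * e := by
  have h1 : 0 < (1 - 3 * e) * N := mul_pos (by linarith) hN
  have hM0 : 0 < M := h1.trans_le hM
  refine ⟨hM0, ?_⟩
  rw [div_mul_eq_mul_div, div_le_iff₀ hM0]
  have h2 : (1 + 5 * e) * ((1 - 3 * e) * N) ≤ (1 + 5 * e) * M :=
    mul_le_mul_of_nonneg_left hM (by linarith)
  have h3 : (1 + 16 * (e / 16)) * N ≤ (1 + 5 * e) * ((1 - 3 * e) * N) := by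
    have h4 : (1 + 5 * e) * ((1 - 3 * e) * N) - (1 + 16 * (e / 16)) * N = e * (1 - 15 * e) * N := by
      ring
    have h5 : 0 ≤ e * (1 - 15 * e) * N := by
      apply mul_nonneg (mul_nonneg he.le (by linarith)) hN.le
    linarith
  linarith

private theorem s1m_E {e N M TS S : ℝ} (he : 0 < e) (he1 : e ≤ 1 / 64) (hN : 128 ≤ e * N)
    (hN0 : 0 < N) (hM : (1 - 3 * e) * N ≤ M) (hTS : 0 ≤ TS)
    (hsum : TS + S ≤ (1 - 64 * e) * N ^ 2 / 2 + 2 * N) :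
    2 * ((1 + 16 * (e / 16)) / M) * (TS / M + e * N) +
      2 * ((1 + 16 * (e / 16)) / M) ^ 2 * S ≤ 1 - 64 * e / 8 := by
  obtain ⟨hM0, hq⟩ := s1m_q he he1 hN0 hM
  set r : ℝ := (1 + 16 * (e / 16)) / M with hr
  have hr0 : 0 < r := by
    rw [hr]
    apply div_pos _ hM0
    linarith
  have hr1 : 1 / M ≤ r := by
    rw [hr]
    apply div_le_div_of_nonneg_right _ hM0.le
    linarith
  have h1 : TS / M ≤ TS * r := by
    rw [div_eq_mul_one_div]
    exact mul_le_mul_of_nonneg_left hr1 hTS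
  have h2 : 2 * r * (TS / M + e * N) + 2 * r ^ 2 * S ≤ 2 * r ^ 2 * (TS + S) + 2 * e * (r * N) := by
    have h3 : 2 * r * (TS / M) ≤ 2 * r * (TS * r) := mul_le_mul_of_nonneg_left h1 (by linarith)
    nlinarith
  have h4 : 2 * r ^ 2 * (TS + S) ≤ 2 * r ^ 2 * ((1 - 64 * e) * N ^ 2 / 2 + 2 * N) :=
    mul_le_mul_of_nonneg_left hsum (by positivity)
  have h5 : 2 * r ^ 2 * ((1 - 64 * e) * N ^ 2 / 2 + 2 * N) =
      (1 - 64 * e) * (r * N) ^ 2 + 4 * (r * N) ^ 2 / N := by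
    field_simp
    ring
  have hq0 : 0 ≤ r * N := by positivity
  have hq2 : (r * N) ^ 2 ≤ 1 + 11 * e := by nlinarith
  have h6 : 4 * (r * N) ^ 2 / N ≤ e := by
    rw [div_le_iff₀ hN0]
    nlinarith
  have h7 : (1 - 64 * e) * (r * N) ^ 2 ≤ (1 - 64 * e) * (1 + 11 * e) :=
    mul_le_mul_of_nonneg_left hq2 (by linarith)
  nlinarith

/-- numerical choice of the constants -/
private theorem s1m_const {e a b κ : ℝ} (he : 0 < e) (he1 : e ≤ 1 / 64) (ha : 10 ^ 7 ≤ e ^ 2 * a)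
    (hb : 10 ^ 5 * a ^ 2 ≤ e ^ 2 * b) (hκ : 10 ^ 5 * b ^ 2 ≤ e ^ 2 * κ) :
    1 ≤ a ∧ a ≤ b ∧ 1 ≤ κ ∧ 2 / κ ≤ e / (16 * b) ∧ 4 / b ≤ e / (16 * a) ∧ 6 / a ≤ e / 128 ∧
    2 / a + 2 * (e / 128) + 6 * b / (κ * (e / (16 * b))) + 12 * a / (b * (e / (16 * a))) +
      48 / (a * (e / 128)) ≤ e / 32 ∧
    b * (e / (16 * b) + 2 * (6 * b / κ)) ≤ e / 8 ∧ a * (e / (16 * a) + 2 * (12 * a / b)) ≤ e / 8 ∧
    6 * b / κ ≤ 1 ∧ 12 * a / b ≤ 1 := by
  have he2 : e ^ 2 ≤ e := by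
    have h := mul_le_mul_of_nonneg_left (show e ≤ 1 by linarith) he.le
    calc e ^ 2 = e * e := sq e
      _ ≤ e * 1 := h
      _ = e := mul_one e
  have he3 : 0 < e ^ 2 := by positivity
  have pos_of : ∀ x c : ℝ, 0 < c → c ≤ e ^ 2 * x → 0 < x := by
    intro x c hc h
    by_contra hx
    have := mul_nonpos_of_nonneg_of_nonpos he3.le (not_lt.1 hx)
    linarith
  have up : ∀ x : ℝ, 0 < x → e ^ 2 * x ≤ e * x ∧ e * x ≤ x := by
    intro x hx
    refine ⟨mul_le_mul_of_nonneg_right he2 hx.le, ?_⟩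
    have := mul_le_mul_of_nonneg_right (show e ≤ 1 by linarith) hx.le
    linarith
  have sq_up : ∀ x : ℝ, 1 ≤ x → x ≤ x ^ 2 := by
    intro x hx
    have h := mul_le_mul_of_nonneg_left hx (show (0 : ℝ) ≤ x by linarith)
    calc x = x * 1 := (mul_one x).symm
      _ ≤ x * x := h
      _ = x ^ 2 := (sq x).symm
  have ha0 : 0 < a := pos_of a _ (by norm_num) ha
  obtain ⟨ha3, ha4⟩ := up a ha0
  have hae : 10 ^ 7 ≤ e * a := ha.trans ha3
  have ha1 : 10 ^ 7 ≤ a := hae.trans ha4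
  have ha1' : 1 ≤ a := by linarith
  have ha2 : a ≤ a ^ 2 := sq_up a ha1'
  have hb0 : 0 < b := pos_of b _ (by positivity) hb
  obtain ⟨hb3, hb4⟩ := up b hb0
  have hbe : 10 ^ 5 * a ^ 2 ≤ e * b := hb.trans hb3
  have hb1 : 10 ^ 5 * a ^ 2 ≤ b := hbe.trans hb4
  have hab : a ≤ b := by linarith
  have hb2 : b ≤ b ^ 2 := sq_up b (by linarith)
  have hκ0 : 0 < κ := pos_of κ _ (by positivity) hκ
  obtain ⟨hκ3, hκ4⟩ := up κ hκ0
  have hκe : 10 ^ 5 * b ^ 2 ≤ e * κ := hκ.trans hκ3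
  have hκ1 : 10 ^ 5 * b ^ 2 ≤ κ := hκe.trans hκ4
  have t1 : 2 / a ≤ e / 10 ^ 6 := by
    rw [div_le_div_iff₀ ha0 (by norm_num)]
    linarith
  have t2 : 6 * b / (κ * (e / (16 * b))) ≤ 96 * e / 10 ^ 5 := by
    have h1 : 6 * b / (κ * (e / (16 * b))) = 96 * b ^ 2 / (κ * e) := by
      field_simp
      ring
    rw [h1, div_le_div_iff₀ (by positivity) (by norm_num)]
    have h2 : 96 * e * (κ * e) = 96 * (e ^ 2 * κ) := by ring
    rw [h2]
    linarith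
  have t3 : 12 * a / (b * (e / (16 * a))) ≤ 192 * e / 10 ^ 5 := by
    have h1 : 12 * a / (b * (e / (16 * a))) = 192 * a ^ 2 / (b * e) := by
      field_simp
      ring
    rw [h1, div_le_div_iff₀ (by positivity) (by norm_num)]
    have h2 : 192 * e * (b * e) = 192 * (e ^ 2 * b) := by ring
    rw [h2]
    linarith
  have t4 : 48 / (a * (e / 128)) ≤ 6144 * e / 10 ^ 7 := by
    have h1 : 48 / (a * (e / 128)) = 6144 / (a * e) := by
      field_simp
      norm_num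
    rw [h1, div_le_div_iff₀ (by positivity) (by norm_num)]
    have h2 : 6144 * e * (a * e) = 6144 * (e ^ 2 * a) := by ring
    rw [h2]
    linarith
  refine ⟨ha1', hab, by linarith, ?_, ?_, ?_, ?_, ?_, ?_, ?_, ?_⟩
  · rw [div_le_div_iff₀ hκ0 (by positivity)]
    linarith
  · rw [div_le_div_iff₀ hb0 (by positivity)]
    linarith
  · rw [div_le_div_iff₀ ha0 (by norm_num)]
    linarith
  · linarith
  · have h1 : b * (e / (16 * b) + 2 * (6 * b / κ)) = e / 16 + 12 * b ^ 2 / κ := by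
      field_simp
      ring
    have h2 : 12 * b ^ 2 / κ ≤ e / 16 := by
      rw [div_le_div_iff₀ hκ0 (by norm_num)]
      linarith
    linarith
  · have h1 : a * (e / (16 * a) + 2 * (12 * a / b)) = e / 16 + 24 * a ^ 2 / b := by
      field_simp
      ring
    have h2 : 24 * a ^ 2 / b ≤ e / 16 := by
      rw [div_le_div_iff₀ hb0 (by norm_num)]
      linarith
    linarith
  · rw [div_le_one hκ0]
    linarith
  · rw [div_le_one hb0]
    linarith

/-- pieces attached to `z` -/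
private theorem s1m_ac {m : ℕ} {T : SimpleGraph (Fin m)} {d : Dec m} {D₁ D K : ℕ}
    (h : DecOK T d D₁ D K) (z : Fin m) : ac d z ≤ nb T univ z := by
  classical
  unfold ac nb
  refine Finset.card_le_card_of_injOn (fun t => d.sg t (d.rt t)) ?_ ?_
  · intro t ht
    have h1 : d.att t = some z := by simpa using ht
    simpa using (h.att_adj t z h1).symm
  · intro t _ t' _ hh
    exact (h.inj t (d.rt t) t' (d.rt t') hh).1

private theorem s1m_np {m : ℕ} {T : SimpleGraph (Fin m)} {d : Dec m} {D₁ D K : ℕ}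
    (h : DecOK T d D₁ D K) : ∑ z ∈ d.Z, ac d z ≤ d.np := by
  classical
  unfold ac
  rw [← Finset.card_biUnion]
  · exact (Finset.card_le_univ _).trans (by simp)
  · intro x _ y _ hxy
    rw [Function.onFun, Finset.disjoint_left]
    intro t ht ht'
    have h1 : d.att t = some x := by simpa using ht
    have h2 : d.att t = some y := by simpa using ht'
    rw [h1] at h2
    exact hxy (Option.some.inj h2)

private theorem s1m_sz {m : ℕ} {T : SimpleGraph (Fin m)} {d : Dec m} {D₁ D K : ℕ}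
    (h : DecOK T d D₁ D K) : ∑ t, d.sz t ≤ m := by
  classical
  have h1 : Fintype.card (Σ t : Fin d.np, Fin (d.sz t)) ≤ Fintype.card (Fin m) := by
    refine Fintype.card_le_of_injective (fun x => d.sg x.1 x.2) ?_
    rintro ⟨t, j⟩ ⟨t', j'⟩ hh
    obtain ⟨h2, h3⟩ := h.inj t j t' j' hh
    subst h2
    have h4 : j = j' := Fin.ext h3
    rw [h4]
  rw [Fintype.card_sigma] at h1
  simpa using h1

theorem s1_core (ε : ℝ) (hε : 0 < ε) (hε1 : ε ≤ 1) :
    ∃ c : ℝ, 0 < c ∧ ∃ n0 : ℕ, ∀ n, n0 ≤ n → ∀ (k : ℕ) (m : Fin k → ℕ)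
      (T : ∀ i, SimpleGraph (Fin (m i))), k ≤ 4 * n + 1 → (∀ i, (T i).IsTree) →
      (∀ i, m i ≤ n + 1) → (∀ i x, (nb (T i) univ x : ℝ) ≤ c * n) →
      ((∑ i, (m i - 1) : ℕ) : ℝ) ≤ (1 - ε) * (n * (2 * n + 1)) → Pk n m T := by
  classical
  obtain ⟨e, rfl⟩ : ∃ e : ℝ, ε = 64 * e := ⟨ε / 64, by ring⟩
  have he : 0 < e := by linarith
  have he1 : e ≤ 1 / 64 := by linarith
  have he2 : 0 < e ^ 2 := by positivity
  obtain ⟨D₁, hD₁⟩ := exists_nat_ge ((10 : ℝ) ^ 7 / e ^ 2)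
  obtain ⟨D, hD⟩ := exists_nat_ge ((10 : ℝ) ^ 5 * (D₁ : ℝ) ^ 2 / e ^ 2)
  obtain ⟨K, hK⟩ := exists_nat_ge ((10 : ℝ) ^ 5 * (D : ℝ) ^ 2 / e ^ 2)
  have ha : (10 : ℝ) ^ 7 ≤ e ^ 2 * D₁ := by
    rw [div_le_iff₀ he2] at hD₁
    linarith
  have hb : (10 : ℝ) ^ 5 * (D₁ : ℝ) ^ 2 ≤ e ^ 2 * D := by
    rw [div_le_iff₀ he2] at hD
    linarith
  have hκ : (10 : ℝ) ^ 5 * (D : ℝ) ^ 2 ≤ e ^ 2 * K := by
    rw [div_le_iff₀ he2] at hK
    linarith
  obtain ⟨c1, c2, c3, c4, c5, c6, c7, c8, c9, c10, c11⟩ := s1m_const he he1 ha hb hκ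
  have hD₁1 : 1 ≤ D₁ := by exact_mod_cast c1
  have hD₁D : D₁ ≤ D := by exact_mod_cast c2
  have hD1 : 1 ≤ D := hD₁1.trans hD₁D
  have hK1 : 1 ≤ K := by exact_mod_cast c3
  have hD₁p : (0 : ℝ) < D₁ := by exact_mod_cast hD₁1
  have hDp : (0 : ℝ) < D := by exact_mod_cast hD1
  have hKp : (0 : ℝ) < K := by exact_mod_cast hK1
  obtain ⟨γ₂, hγ, δ', hδ', hmain⟩ := tp_main e (64 * e / 8) he (by linarith) (by linarith)
    (by linarith) D₁ D K hD₁1 hD₁D hK1 (e / (16 * D)) (e / (16 * D₁)) (6 * D / K) (12 * D₁ / D)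
    c10 c11 (by positivity) (by positivity) (by positivity) (by positivity)
    (by
      have h := sq_nonneg (D : ℝ)
      linarith) c8 (by
      have h := sq_nonneg (D₁ : ℝ)
      linarith) c9
  obtain ⟨N0, hmain⟩ := hmain 4 (by norm_num)
  refine ⟨min (e / 8) (γ₂ / 8), lt_min (by linarith) (by linarith),
    max (max N0 (2 * D₁)) ⌈128 / e⌉₊, ?_⟩
  intro n hn k m T hk htree hm hnb hsum
  have hnN0 : N0 ≤ n := (le_max_left _ _).trans ((le_max_left _ _).trans hn)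
  have hnD₁ : 2 * D₁ ≤ n := (le_max_right _ _).trans ((le_max_left _ _).trans hn)
  have hne : 128 / e ≤ (n : ℝ) := (Nat.le_ceil _).trans (by exact_mod_cast (le_max_right _ _).trans hn)
  have hn128 : 128 ≤ e * (n : ℝ) := by
    rw [div_le_iff₀ he] at hne
    linarith
  have hn0 : (0 : ℝ) ≤ n := Nat.cast_nonneg n
  set N : ℝ := 2 * (n : ℝ) + 1 with hN
  have hcard : (Fintype.card (Fin (2 * n + 1)) : ℝ) = N := by
    rw [Fintype.card_fin, hN]
    push_cast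
    ring
  have hN0 : 0 < N := by linarith
  have hNe : 128 ≤ e * N := by
    have h : e * N = 2 * (e * n) + e := by
      rw [hN]
      ring
    linarith
  have heN : e * N ≤ 1 / 64 * N := mul_le_mul_of_nonneg_right he1 hN0.le
  have hN8 : 8192 ≤ N := by linarith
  -- the reserved sets
  obtain ⟨w, hw1, hw2⟩ : ∃ w : ℕ, e * N ≤ w ∧ (w : ℝ) ≤ e * N + 1 :=
    ⟨⌈e * N⌉₊, Nat.le_ceil _, (Nat.ceil_lt_add_one (by positivity)).le⟩
  have h2w : 2 * (w : ℝ) ≤ 3 * e * N := by linarith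
  have h2w' : 2 * w ≤ 2 * n + 1 := by
    have : 2 * (w : ℝ) ≤ N := by linarith
    rw [hN] at this
    exact_mod_cast this
  obtain ⟨W1, -, hW1⟩ := Finset.exists_subset_card_eq (s := (univ : Finset (Fin (2 * n + 1))))
    (n := w) (by rw [Finset.card_univ, Fintype.card_fin]; omega)
  have hW1c : (univ \ W1 : Finset (Fin (2 * n + 1))).card = 2 * n + 1 - w := by
    rw [Finset.card_sdiff_of_subset (Finset.subset_univ _), hW1, Finset.card_univ,
      Fintype.card_fin]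
  obtain ⟨W2, hW2s, hW2⟩ := Finset.exists_subset_card_eq (s := univ \ W1)
    (n := w) (by rw [hW1c]; omega)
  have hWd : Disjoint W1 W2 := by
    rw [Finset.disjoint_left]
    intro x hx hx2
    exact (Finset.mem_sdiff.1 (hW2s hx2)).2 hx
  set V1 : Finset (Fin (2 * n + 1)) := univ \ (W1 ∪ W2) with hV1
  have hV1c : V1.card + 2 * w = 2 * n + 1 := by
    rw [hV1, Finset.card_sdiff_of_subset (Finset.subset_univ _), Finset.card_union_of_disjoint hWd,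
      hW1, hW2, Finset.card_univ, Fintype.card_fin]
    omega
  have hV1r : (V1.card : ℝ) = N - 2 * w := by
    have : ((V1.card + 2 * w : ℕ) : ℝ) = ((2 * n + 1 : ℕ) : ℝ) := by rw [hV1c]
    push_cast at this
    rw [hN]
    linarith
  have hVW1 : Disjoint V1 W1 := by
    rw [hV1, Finset.disjoint_left]
    intro x hx hx2
    exact (Finset.mem_sdiff.1 hx).2 (Finset.mem_union_left _ hx2)
  have hVW2 : Disjoint V1 W2 := by
    rw [hV1, Finset.disjoint_left]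
    intro x hx hx2
    exact (Finset.mem_sdiff.1 hx).2 (Finset.mem_union_right _ hx2)
  have hM : (1 - 3 * e) * N ≤ (V1.card : ℝ) := by
    rw [hV1r]
    linarith
  obtain ⟨hM0, hq⟩ := s1m_q he he1 hN0 hM
  have hM2 : N ≤ 2 * (V1.card : ℝ) := by linarith
  have hq2 : (1 + 16 * (e / 16)) / (V1.card : ℝ) * N ≤ 2 := by linarith
  have hr0 : 0 ≤ (1 + 16 * (e / 16)) / (V1.card : ℝ) := by positivity
  have hrN : (1 + 16 * (e / 16)) / (V1.card : ℝ) ≤ 2 / N := by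
    rw [le_div_iff₀ hN0]
    exact hq2
  -- decompositions
  choose d hd using fun i => exists_dec (htree i) D₁ D K hD₁D
  -- number of edges at centres
  have hac : ∀ i z, (ac (d i) z : ℝ) ≤ min (e / 8) (γ₂ / 8) * n := by
    intro i z
    refine le_trans ?_ (hnb i z)
    exact_mod_cast s1m_ac (hd i) z
  have hac1 : ∀ i z, (ac (d i) z : ℝ) ≤ e / 8 * n := fun i z =>
    (hac i z).trans (mul_le_mul_of_nonneg_right (min_le_left _ _) hn0)
  have hac2 : ∀ i z, (ac (d i) z : ℝ) ≤ γ₂ / 8 * n := fun i z =>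
    (hac i z).trans (mul_le_mul_of_nonneg_right (min_le_right _ _) hn0)
  have hm1 : ∀ i, 1 ≤ m i := by
    intro i
    obtain ⟨x⟩ := (htree i).1.nonempty
    exact Fin.pos x
  have hsm : (∑ i, (m i : ℝ)) ≤ (1 - 64 * e) * N ^ 2 / 2 + 2 * N := by
    have h1 : (∑ i, (m i : ℝ)) = ((∑ i, (m i - 1) : ℕ) : ℝ) + k := by
      have h2 : ∑ i, m i = ∑ i, (m i - 1) + k := by
        have h3 : ∑ i : Fin k, m i = ∑ i : Fin k, ((m i - 1) + 1) :=
          Finset.sum_congr rfl fun i _ => (Nat.sub_add_cancel (hm1 i)).symm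
        rw [h3, Finset.sum_add_distrib]
        simp
      rw [← Nat.cast_sum, h2]
      push_cast
      ring
    have h4 : (k : ℝ) ≤ 2 * N := by
      have : (k : ℝ) ≤ 4 * n + 1 := by exact_mod_cast hk
      rw [hN]
      linarith
    have h5 : (n : ℝ) * (2 * n + 1) ≤ N ^ 2 / 2 := by
      have h : N ^ 2 / 2 = (n : ℝ) * (2 * n + 1) + (n + 1 / 2) := by
        rw [hN]
        ring
      linarith
    have h6 : (1 - 64 * e) * ((n : ℝ) * (2 * n + 1)) ≤ (1 - 64 * e) * (N ^ 2 / 2) :=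
      mul_le_mul_of_nonneg_left h5 (by linarith)
    rw [h1]
    linarith
  set TS : ℝ := ∑ i, ∑ z ∈ (d i).Z, (ac (d i) z : ℝ) with hTS
  have hTS0 : 0 ≤ TS := Finset.sum_nonneg fun i _ => Finset.sum_nonneg fun z _ => Nat.cast_nonneg _
  set S : ℝ := ∑ i, ∑ t, (((d i).sz t : ℝ) - 1) with hS
  have hS0 : 0 ≤ S := Finset.sum_nonneg fun i _ => Finset.sum_nonneg fun t _ => by
    have : (1 : ℝ) ≤ ((d i).sz t : ℝ) := by exact_mod_cast (d i).pos t
    linarith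
  have hTSS : TS + S ≤ ∑ i, (m i : ℝ) := by
    rw [hTS, hS, ← Finset.sum_add_distrib]
    refine Finset.sum_le_sum fun i _ => ?_
    have h1 : ∑ z ∈ (d i).Z, (ac (d i) z : ℝ) ≤ ((d i).np : ℝ) := by
      rw [← Nat.cast_sum]
      exact_mod_cast s1m_np (hd i)
    have h2 : ∑ t, ((d i).sz t : ℝ) ≤ (m i : ℝ) := by
      rw [← Nat.cast_sum]
      exact_mod_cast s1m_sz (hd i)
    have h3 : ∑ t, (((d i).sz t : ℝ) - 1) = ∑ t, ((d i).sz t : ℝ) - ((d i).np : ℝ) := by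
      rw [Finset.sum_sub_distrib]
      simp
    rw [h3]
    linarith
  have hTSS' : TS + S ≤ (1 - 64 * e) * N ^ 2 / 2 + 2 * N := hTSS.trans hsm
  have hTS1 : TS ≤ N ^ 2 := by
    have h1 : 0 ≤ e * N ^ 2 := by positivity
    have h2 : 8192 * N ≤ N ^ 2 := by
      rw [sq]
      exact mul_le_mul_of_nonneg_right hN8 hN0.le
    linarith
  have hkN : k ≤ 3 * Fintype.card (Fin (2 * n + 1)) := by
    rw [Fintype.card_fin]
    omega
  have hmN : ∀ i, m i ≤ Fintype.card (Fin (2 * n + 1)) := by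
    intro i
    rw [Fintype.card_fin]
    have := hm i
    omega
  obtain ⟨φ, p1, p2, p3, p4, p5, p6, p7⟩ := ex_phi (V := Fin (2 * n + 1)) k m T d V1 D₁ D K htree
    hd hkN hmN hD₁1 hD1 hK1 e (e / (16 * D)) (e / (16 * D₁)) (e / 128) TS he (by linarith) c4 c5 c6
    (by rw [hcard]; exact hM2) le_rfl (by rw [hcard]; exact hTS1)
    (fun i z => by
      rw [hcard]
      refine (hac1 i z).trans ?_
      have h1 : e / 4 * N = e * n / 2 + e / 4 := by
        rw [hN]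
        ring
      have h2 : 0 ≤ e * (n : ℝ) := by positivity
      linarith) c7 (by
      rw [hcard, div_le_iff₀ he]
      linarith) (by
      rw [Fintype.card_fin]
      omega)
  refine s1_inst (V := Fin (2 * n + 1)) k m T d V1 W1 W2 D₁ D K φ htree hd hkN hmN hD₁1 hD1 hK1
    hVW1 hVW2 e (e / (16 * D)) (e / (16 * D₁)) (e / 128) TS (e / 16) 4 δ' (64 * e / 8) γ₂
    (6 * D / K) (12 * D₁ / D) p1 p2 p3 p4 p5 p6 p7 hδ'.le (by exact_mod_cast hM0) (by positivity)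
    (by linarith) ?_ ?_ ?_ ?_ ?_ ?_ ?_ hγ.le ?_ ?_ ?_
  · rw [hcard]
    have h1 : (10 : ℝ) ^ 7 ≤ e * D₁ := by
      have h2 : e ^ 2 * (D₁ : ℝ) ≤ e * D₁ := by
        apply mul_le_mul_of_nonneg_right _ hD₁p.le
        rw [sq]
        exact mul_le_of_le_one_left he.le (by linarith)
      linarith
    have h3 : (10 : ℝ) ^ 7 * (V1.card : ℝ) ≤ e * D₁ * (V1.card : ℝ) :=
      mul_le_mul_of_nonneg_right h1 hM0.le
    linarith
  · rw [hcard]
    have h1 : e * N ≤ e * (2 * (V1.card : ℝ)) := mul_le_mul_of_nonneg_left hM2 he.le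
    linarith
  · rw [hcard, div_le_div_iff₀ hM0 hN0]
    linarith
  · rw [hcard]
    have h1 : TS / (V1.card : ℝ) ≤ 2 * N := by
      rw [div_le_iff₀ hM0]
      have h2 : N * N ≤ N * (2 * (V1.card : ℝ)) := mul_le_mul_of_nonneg_left hM2 hN0.le
      linarith
    linarith
  · intro i
    have h1 : (m i : ℝ) ≤ n + 1 := by exact_mod_cast hm i
    have h2 : (m i : ℝ) ≤ 3 / 5 * N := by
      rw [hN]
      linarith
    calc (m i : ℝ) * ((1 + 16 * (e / 16)) / (V1.card : ℝ)) ≤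
        3 / 5 * N * ((1 + 16 * (e / 16)) / (V1.card : ℝ)) := mul_le_mul_of_nonneg_right h2 hr0
      _ = 3 / 5 * ((1 + 16 * (e / 16)) / (V1.card : ℝ) * N) := by ring
      _ ≤ 1 - 64 * e / 8 := by linarith
  · rw [hcard]
    exact s1m_E he he1 hNe hN0 hM hTS0 hTSS'
  · intro i z
    have h1 := hac2 i z
    have h2 : (ac (d i) z : ℝ) * ((1 + 16 * (e / 16)) / (V1.card : ℝ)) ≤
        (γ₂ / 8 * n) * (2 / N) := mul_le_mul h1 hrN hr0 (by positivity)
    have h3 : (γ₂ / 8 * n) * (2 / N) ≤ γ₂ := by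
      rw [mul_div_assoc', div_le_iff₀ hN0, hN]
      have h4 : 0 ≤ γ₂ * (n : ℝ) := by positivity
      linarith
    linarith
  · rw [hcard]
    calc (1 + 16 * (e / 16)) / (V1.card : ℝ) * (3 * D * N / K) =
        ((1 + 16 * (e / 16)) / (V1.card : ℝ) * N) * (3 * D / K) := by ring
      _ ≤ 2 * (3 * D / K) := mul_le_mul_of_nonneg_right hq2 (by positivity)
      _ = 6 * D / K := by ring
  · rw [hcard]
    calc (1 + 16 * (e / 16)) / (V1.card : ℝ) * (6 * D₁ * N / D) =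
        ((1 + 16 * (e / 16)) / (V1.card : ℝ) * N) * (6 * D₁ / D) := by ring
      _ ≤ 2 * (6 * D₁ / D) := mul_le_mul_of_nonneg_right hq2 (by positivity)
      _ = 12 * D₁ / D := by ring
  · intro Q hQ q1 q2 q3 q4
    refine hmain (Fin (2 * n + 1)) Q V1 W1 W2 ?_ hWd ?_ ?_ hQ q1 q2 q3 q4
    · rw [Fintype.card_fin]
      omega
    · rw [hcard, hW1]
      exact hw1
    · rw [hcard, hW2]
      exact hw1

private theorem s1m_adj {ι : Type} {m : ι → ℕ} (T : ∀ i, SimpleGraph (Fin (m i))) {i j : ι}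
    (h : i = j) {a b : Fin (m i)} (hab : (T i).Adj a b) :
    (T j).Adj (Fin.cast (congrArg m h) a) (Fin.cast (congrArg m h) b) := by
  subst h
  exact hab

private theorem s1m_reindex {n : ℕ} {ι ι' : Type} (e : ι' ≃ ι) (m : ι → ℕ)
    (T : ∀ i, SimpleGraph (Fin (m i))) (h : Pk n (fun i => m (e i)) (fun i => T (e i))) :
    Pk n m T := by
  obtain ⟨f, h1, h2⟩ := h
  have he : ∀ i, i = e (e.symm i) := fun i => (e.apply_symm_apply i).symm
  refine ⟨fun i x => f (e.symm i) (Fin.cast (congrArg m (he i)) x), ?_, ?_⟩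
  · intro i x y hxy
    have h3 := h1 (e.symm i) hxy
    exact Fin.cast_injective _ h3
  · intro i j hij a b c d hab hcd
    exact h2 (e.symm i) (e.symm j) (fun h => hij (e.symm.injective h)) _ _ _ _
      (s1m_adj T (he i) hab) (s1m_adj T (he j) hcd)

theorem s1_all (ε : ℝ) (hε : 0 < ε) :
    ∃ c : ℝ, 0 < c ∧ ∃ n0 : ℕ, ∀ n, n0 ≤ n → ∀ (k : ℕ) (m : Fin k → ℕ)
      (T : ∀ i, SimpleGraph (Fin (m i))), (∀ i, (T i).IsTree) →
      (∀ i, m i ≤ n + 1) → (∀ i x, (nb (T i) univ x : ℝ) ≤ c * n) →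
      ((∑ i, (m i - 1) : ℕ) : ℝ) ≤ (1 - ε) * (n * (2 * n + 1)) → Pk n m T := by
  classical
  obtain ⟨c, hc, n0, hcore⟩ := s1_core (min ε 1) (lt_min hε one_pos) (min_le_right _ _)
  refine ⟨c, hc, max n0 ⌈2 / c⌉₊, ?_⟩
  intro n hn k m T htree hm hnb hsum
  have hn1 : n0 ≤ n := (le_max_left _ _).trans hn
  have hn2 : 2 / c ≤ (n : ℝ) := (Nat.le_ceil _).trans (by exact_mod_cast (le_max_right _ _).trans hn)
  have hn0 : (0 : ℝ) ≤ n := Nat.cast_nonneg n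
  have hcn : 2 ≤ c * n := by
    rw [div_le_iff₀ hc] at hn2
    linarith
  have hX : (0 : ℝ) ≤ (n : ℝ) * (2 * n + 1) := by positivity
  have hsum' : ((∑ i, (m i - 1) : ℕ) : ℝ) ≤ (1 - min ε 1) * (n * (2 * n + 1)) :=
    hsum.trans (mul_le_mul_of_nonneg_right (by linarith [min_le_left ε 1]) hX)
  have hB : 2 ≤ ⌊c * n⌋₊ := Nat.le_floor (by exact_mod_cast hcn)
  have hF : FamB n ⌊c * n⌋₊ m T :=
    ⟨htree, hm, fun i x => Nat.le_floor (hnb i x)⟩
  obtain ⟨ι', hι', m', T', hF', hs', hpair, hPk⟩ := merge_deg hB (Fintype.card (Fin k)) (Fin k) m T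
    rfl hF
  apply hPk
  have hs2 : ∑ i, (m' i - 1) ≤ n * (2 * n + 1) := by
    rw [hs']
    have h1 : ((∑ i, (m i - 1) : ℕ) : ℝ) ≤ ((n * (2 * n + 1) : ℕ) : ℝ) := by
      refine hsum'.trans ?_
      push_cast
      have h2 : 0 < min ε 1 := lt_min hε one_pos
      nlinarith
    exact_mod_cast h1
  have hcard := card_merged m' hpair hs2
  refine s1m_reindex (Fintype.equivFin ι').symm m' T' ?_
  refine hcore n hn1 (Fintype.card ι') _ _ hcard (fun i => hF'.tree _) (fun i => hF'.ord _) ?_ ?_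
  · intro i x
    have h1 := hF'.deg ((Fintype.equivFin ι').symm i) x
    have h2 : (⌊c * n⌋₊ : ℝ) ≤ c * n := Nat.floor_le (by positivity)
    exact le_trans (by exact_mod_cast h1) h2
  · have h1 : ∑ i, (m' ((Fintype.equivFin ι').symm i) - 1) = ∑ i, (m i - 1) := by
      rw [← hs']
      exact Equiv.sum_comp (Fintype.equivFin ι').symm (fun i => m' i - 1)
    rw [h1]
    exact hsum'

end MP_80c395_TP
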