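import Mathlib

/-!
# Project TP, part T: decompositions of trees, data for the nibble

All trees live on `Fin m`, hosts are elements of a finite type `V`.
-/

set_option autoImplicit false

namespace MP_80c395_TP

open Finset

open Classical in
/-- number of neighbours of `x` in `A` -/
noncomputable def nb {m : ℕ} (T : SimpleGraph (Fin m)) (A : Finset (Fin m)) (x : Fin m) : ℕ :=
  (A.filter (fun y => T.Adj x y)).card

/-- `P` induces a connected subgraph (or is empty) -/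
def Cn {m : ℕ} (T : SimpleGraph (Fin m)) (P : Finset (Fin m)) : Prop :=
  (T.induce (P : Set (Fin m))).Preconnected

/-- a decomposition of a tree: centres `Z`, cut vertices `C1`, `C2`, and pieces.  The piece `t` has
`sz t ≥ 1` vertices `sg t 0, .., sg t (sz t - 1)`; the parent of `sg t j`, `0 < j`, is
`sg t (pr t j)`; if `att t = some z` then the root `sg t 0` is adjacent to the centre `z` -/
structure Dec (m : ℕ) where
  Z : Finset (Fin m)
  C1 : Finset (Fin m)
  C2 : Finset (Fin m)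
  np : ℕ
  sz : Fin np → ℕ
  sg : (t : Fin np) → Fin (sz t) → Fin m
  pr : (t : Fin np) → Fin (sz t) → Fin (sz t)
  att : Fin np → Option (Fin m)
  pos : ∀ t, 0 < sz t

/-- the root of a piece -/
def Dec.rt {m : ℕ} (d : Dec m) (t : Fin d.np) : Fin (d.sz t) := ⟨0, d.pos t⟩

/-- conditions on a decomposition of the tree `T` -/
structure DecOK {m : ℕ} (T : SimpleGraph (Fin m)) (d : Dec m) (D₁ D K : ℕ) : Prop where
  sz_le : ∀ t, d.sz t ≤ K
  inj : ∀ t j t' j', d.sg t j = d.sg t' j' → t = t' ∧ j.val = j'.val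
  pr_lt : ∀ t j, 0 < j.val → (d.pr t j).val < j.val
  cover : ∀ x, x ∈ d.Z ∨ x ∈ d.C1 ∨ x ∈ d.C2 ∨ ∃ t j, d.sg t j = x
  sgZ : ∀ t j, d.sg t j ∉ d.Z
  sg1 : ∀ t j, d.sg t j ∉ d.C1
  sg2 : ∀ t j, d.sg t j ∉ d.C2
  Z1 : Disjoint d.Z d.C1
  Z2 : Disjoint d.Z d.C2
  C12 : Disjoint d.C1 d.C2
  e_in : ∀ t j t' j', T.Adj (d.sg t j) (d.sg t' j') → t = t' ∧
    ((0 < j.val ∧ (d.pr t j).val = j'.val) ∨ (0 < j'.val ∧ (d.pr t' j').val = j.val))
  e_Z : ∀ t j, ∀ z ∈ d.Z, T.Adj (d.sg t j) z → d.att t = some z ∧ j.val = 0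
  att_Z : ∀ t z, d.att t = some z → z ∈ d.Z
  att_adj : ∀ t z, d.att t = some z → T.Adj (d.sg t (d.rt t)) z
  deg_sg : ∀ t j, nb T univ (d.sg t j) ≤ D
  deg1 : ∀ x ∈ d.C1, nb T univ x ≤ D
  deg2 : ∀ x ∈ d.C2, nb T univ x ≤ D₁
  cZ : D₁ * d.Z.card ≤ 2 * m
  c1 : K * d.C1.card ≤ m
  c2 : D * d.C2.card ≤ 2 * m

/-- a partial embedding: the vertices `S i` of the tree `i` are placed by `ψ i` outside of `W`, and
no edge of the host is used by two different trees -/
structure PE {k : ℕ} {m : Fin k → ℕ} (T : ∀ i, SimpleGraph (Fin (m i))) {V : Type}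
    (W : Finset V) (S : ∀ i, Finset (Fin (m i))) (ψ : ∀ i, Fin (m i) → V) : Prop where
  inj : ∀ i, ∀ x ∈ S i, ∀ y ∈ S i, ψ i x = ψ i y → x = y
  out : ∀ i, ∀ x ∈ S i, ψ i x ∉ W
  dst : ∀ i j, i ≠ j → ∀ a ∈ S i, ∀ b ∈ S i, ∀ c ∈ S j, ∀ e ∈ S j, (T i).Adj a b →
    (T j).Adj c e → s(ψ i a, ψ i b) ≠ s(ψ j c, ψ j e)

open Classical in
/-- the demand at the host `v`: the number of edges between `X i` and vertices of `S i` placed at
`v`, over all trees -/
noncomputable def dem {k : ℕ} {m : Fin k → ℕ} (T : ∀ i, SimpleGraph (Fin (m i))) {V : Type}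
    (S : ∀ i, Finset (Fin (m i))) (ψ : ∀ i, Fin (m i) → V) (X : ∀ i, Finset (Fin (m i)))
    (v : V) : ℕ :=
  ∑ i, ∑ y ∈ (S i).filter (fun y => ψ i y = v), nb (T i) (X i) y

/-- trees with decompositions, placed centres, owners of host edges, laws and kernels.
`lw i t j v`: (an upper bound, up to a factor) for the probability that the vertex `j` of the piece
`t` of the tree `i` is placed at `v`; `kn i t j v w`: the probability that it is placed at `w` if its
parent is placed at `v` -/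
structure Dat (V : Type) where
  k : ℕ
  m : Fin k → ℕ
  T : ∀ i, SimpleGraph (Fin (m i))
  d : ∀ i, Dec (m i)
  φ : ∀ i, Fin (m i) → V
  own : Sym2 V → Option (Fin k)
  lw : ∀ (i : Fin k) (t : Fin (d i).np), Fin ((d i).sz t) → V → ℝ
  kn : ∀ (i : Fin k) (t : Fin (d i).np), Fin ((d i).sz t) → V → V → ℝ

namespace Dat

variable {V : Type}

/-- the hyperedges: a tree, a piece of it, and an embedding of the piece -/
abbrev Hy (Q : Dat V) : Type :=
  Σ i : Fin Q.k, Σ t : Fin (Q.d i).np, (Fin ((Q.d i).sz t) → V)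

/-- the resources: pieces, pairs (tree, host vertex), host edges -/
abbrev Rs (Q : Dat V) : Type := (Σ i : Fin Q.k, Fin (Q.d i).np) ⊕ (Fin Q.k × V) ⊕ Sym2 V

/-- the host of the centre to which the piece `t` is attached -/
def hst (Q : Dat V) (i : Fin Q.k) (t : Fin (Q.d i).np) : Option V := ((Q.d i).att t).map (Q.φ i)

open Classical in
/-- the number of pieces attached to centres placed at `u` -/
noncomputable def load (Q : Dat V) (u : V) : ℕ :=
  ∑ i, (univ.filter (fun t : Fin (Q.d i).np => Q.hst i t = some u)).card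

open Classical in
/-- the number of neighbours in the sets `X i` of centres placed at `u` -/
noncomputable def cload (Q : Dat V) (X : ∀ i, Finset (Fin (Q.m i))) (u : V) : ℕ :=
  ∑ i, ∑ z ∈ (Q.d i).Z.filter (fun z => Q.φ i z = u), nb (Q.T i) (X i) z

/-- the weight of the embedding `f` of the piece `t` of the tree `i` -/
def cwt (Q : Dat V) (i : Fin Q.k) (t : Fin (Q.d i).np) (f : Fin ((Q.d i).sz t) → V) : ℝ :=
  ∏ j, if j.val = 0 then Q.lw i t j (f j) else Q.kn i t j (f ((Q.d i).pr t j)) (f j)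

open Classical in
/-- the weight of a hyperedge -/
noncomputable def wt (Q : Dat V) (e : Q.Hy) : ℝ :=
  if Function.Injective e.2.2 then Q.cwt e.1 e.2.1 e.2.2 else 0

open Classical in
/-- the host edges used by a hyperedge -/
noncomputable def hE (Q : Dat V) (e : Q.Hy) : Finset (Sym2 V) :=
  (univ.filter (fun j : Fin ((Q.d e.1).sz e.2.1) => 0 < j.val)).image
      (fun j => s(e.2.2 ((Q.d e.1).pr e.2.1 j), e.2.2 j)) ∪
    (Q.hst e.1 e.2.1).elim ∅ (fun u => {s(u, e.2.2 ((Q.d e.1).rt e.2.1))})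

open Classical in
/-- the resources used by a hyperedge (host edges with an owner are no resources) -/
noncomputable def el (Q : Dat V) (e : Q.Hy) : Finset Q.Rs :=
  {Sum.inl ⟨e.1, e.2.1⟩} ∪ univ.image (fun j => Sum.inr (Sum.inl (e.1, e.2.2 j))) ∪
    ((Q.hE e).filter (fun s => Q.own s = none)).image (fun s => Sum.inr (Sum.inr s))

open Classical in
/-- the (upper bound for the) expected use of the host edge `{a, b}` by edges from centres placed
at `a` to roots of pieces placed at `b` -/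
noncomputable def star (Q : Dat V) (a b : V) : ℝ :=
  ∑ i, ∑ t, if Q.hst i t = some a then Q.lw i t ((Q.d i).rt t) b else 0

/-- the (upper bound for the) expected use of the host edge `{a, b}` by edges inside of pieces, with
the parent placed at `a` -/
noncomputable def light (Q : Dat V) (a b : V) : ℝ :=
  ∑ i, ∑ t, ∑ j, if 0 < j.val then Q.lw i t ((Q.d i).pr t j) a * Q.kn i t j a b else 0

end Dat

/-- the conditions for the nibble.  `V1`: hosts for the pieces, `W`: hosts for the greedy part (no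
centre is placed there), `N`: number of host vertices -/
structure DatOK {V : Type} [Fintype V] [DecidableEq V] (Q : Dat V) (V1 W : Finset V)
    (D₁ D K : ℕ) (A0 δ' ε' γ₂ : ℝ) : Prop where
  tree : ∀ i, (Q.T i).IsTree
  dec : ∀ i, DecOK (Q.T i) (Q.d i) D₁ D K
  k_le : Q.k ≤ 3 * Fintype.card V
  m_le : ∀ i, Q.m i ≤ Fintype.card V
  V1W : Disjoint V1 W
  -- centres
  φ_inj : ∀ i, ∀ x ∈ (Q.d i).Z, ∀ y ∈ (Q.d i).Z, Q.φ i x = Q.φ i y → x = y
  φ_out : ∀ i, ∀ x ∈ (Q.d i).Z, Q.φ i x ∉ W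
  φ_own : ∀ i, ∀ x ∈ (Q.d i).Z, ∀ y ∈ (Q.d i).Z, (Q.T i).Adj x y →
    Q.own s(Q.φ i x, Q.φ i y) = some i
  load_le : ∀ u, Q.load u ≤ 3 * Fintype.card V
  -- laws
  lw0 : ∀ i t j v, 0 ≤ Q.lw i t j v
  kn0 : ∀ i t j v w, 0 ≤ Q.kn i t j v w
  lw1 : ∀ i t, ∑ v, Q.lw i t ((Q.d i).rt t) v = 1
  kn1 : ∀ i t j v, ∑ w, Q.kn i t j v w = 1
  lwA : ∀ i t v, Q.lw i t ((Q.d i).rt t) v ≤ A0 / Fintype.card V
  knA : ∀ i t j v w, Q.kn i t j v w ≤ A0 / Fintype.card V
  lwV : ∀ i t v, Q.lw i t ((Q.d i).rt t) v ≠ 0 → v ∈ V1 ∧ (∀ z ∈ (Q.d i).Z, Q.φ i z ≠ v) ∧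
    ∀ u, Q.hst i t = some u → Q.own s(u, v) = none ∨ Q.own s(u, v) = some i
  knV : ∀ i t j v w, Q.kn i t j v w ≠ 0 → w ∈ V1 ∧ (∀ z ∈ (Q.d i).Z, Q.φ i z ≠ w)
  knO : ∀ i t j v w, v ∈ V1 → (∀ z ∈ (Q.d i).Z, Q.φ i z ≠ v) → Q.kn i t j v w ≠ 0 →
    v ≠ w ∧ (Q.own s(v, w) = none ∨ Q.own s(v, w) = some i)
  dom : ∀ i t (j : Fin ((Q.d i).sz t)) w, 0 < j.val →
    ∑ v, Q.lw i t ((Q.d i).pr t j) v * Q.kn i t j v w ≤ (1 + δ') * Q.lw i t j w
  -- use of the resources
  useV : ∀ i v, ∑ t, ∑ j, Q.lw i t j v ≤ 1 - ε'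
  useE : ∀ a b, a ≠ b → Q.own s(a, b) = none →
    Q.star a b + Q.star b a + Q.light a b + Q.light b a ≤ 1 - ε'
  -- for the codegrees
  cod : ∀ i u w, Q.own s(u, w) = none →
    (∑ t, if Q.hst i t = some u then Q.lw i t ((Q.d i).rt t) w else 0) ≤ γ₂

end MP_80c395_TP
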