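import Pool.Agent.Lib.MP_80c395_co_TP.ACore
import Pool.Agent.Lib.MP_80c395_co_TP.Greedy

/-!
# Project TP: the main packing theorem for given laws

Let `N = card V`, `δ = min (μ^2 / (3200 D^2)) (μ / (64 D))` (`D ≥ 1`), take `γ₂, δ'` from `acore`.
Given `A0`, let `N0` be so large that also `β₁ N ≥ 1` and `β₂ N ≥ 1`, where `β₁ = μ / (8 D^2)`,
`β₂ = μ / (8 D₁^2)`.
`acore` gives `S, ψ`.  `X1 i = C1 ∪ unc`, `X2 i = C2` are disjoint from each other and from `S i`, and the three sets cover all vertices.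

Phase 1: `greedy` with `W = W1`, `W' = W2`, `X = X1`, `a = D` (`deg1`, `deg_sg`), `b₁ = ⌊β₁ N⌋`
(`β₁ N / 2 ≤ b₁ ≤ β₁ N`), `N1 = max |X1 i|`, real bound `(1/K + δ) N` (`K |C1| ≤ m i ≤ N`),
`Nt = ∑ |X1 i| ≤ 3 N * (1/K + δ) N`, `U = max dem`, bound `(l1 + 2 u1 + 2 δ) N`.
With `1/K + δ ≤ μ^2 / (1600 D^2)`: `N1 ≤ μ N / 8`; `Nt / b₁ ≤ 6 N (1/K + δ) / β₁ ≤ 48 D^2 N (1/K+δ) / μ
≤ μ N / 8`; `D U ≤ D (l1 + 2 u1 + 2 δ) N ≤ (μ / 8 + μ / 32) N`; `D * D * b₁ ≤ μ N / 8`.  The sum is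
less than `μ N ≤ |W1|`.
Phase 2: `greedy` with `W = W2`, `W' = ∅`, `S = S ∪ X1`, `X = X2`, `a = D₁` (`deg2`), `b₂ = ⌊β₂ N⌋`,
`N1 ≤ 2 N / D`, `Nt ≤ 6 N^2 / D`, `U`: for `v ∉ W1` only `y ∈ S i` are placed at `v`:
`dem ≤ (l2 + 2 u2 + δ) N`; for `v ∈ W1` only `y ∈ X1 i` are placed at `v`, at most `b₁` of them, with at
most `D` neighbours each: `dem ≤ b₁ D ≤ μ N / (8 D)`.
`2 N / D ≤ μ N / 8`, `Nt / b₂ ≤ 12 N / (D β₂) = 96 D₁^2 N / (D μ) ≤ μ N / 8`,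
`D₁ U ≤ max ((μ/8 + μ/64) N) (μ N / 8)` (`D₁ ≤ D`), `D₁ * D₁ * b₂ ≤ μ N / 8`.
The result is `PE T ∅ univ ψ''`.
-/

set_option autoImplicit false

namespace MP_80c395_TP

open Finset

private theorem TPMain_num {μ N : ℝ} {N1 Nt b U a W : ℕ} (hN : 0 < N) (hμ : 0 < μ)
    (h1 : (N1 : ℝ) ≤ μ / 8 * N) (h2 : (Nt : ℝ) ≤ μ / 8 * N * b) (hb : 0 < b)
    (h3 : (a : ℝ) * U ≤ μ / 4 * N) (h4 : (a : ℝ) * (a * b) ≤ μ / 4 * N) (hW : μ * N ≤ W) :
    N1 + Nt / b + a * max U (a * b) < W := by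
  have h5 : ((Nt / b : ℕ) : ℝ) ≤ μ / 8 * N := by
    refine Nat.cast_div_le.trans ?_
    rw [div_le_iff₀ (by exact_mod_cast hb)]
    exact h2
  have h6 : ((a * max U (a * b) : ℕ) : ℝ) ≤ μ / 4 * N := by
    rcases le_total U (a * b) with h | h
    · rw [max_eq_right h]
      push_cast
      exact h4
    · rw [max_eq_left h]
      push_cast
      exact h3
  have h7 : 0 < μ * N := mul_pos hμ hN
  have h8 : ((N1 + Nt / b + a * max U (a * b) : ℕ) : ℝ) < W := by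
    rw [Nat.cast_add, Nat.cast_add]
    linarith
  exact Nat.cast_lt.1 h8

/-- The floor of a number at least 1. -/
private theorem TPMain_floor {d x : ℝ} (hd : 0 < d) (h : d ≤ x) :
    0 < ⌊x / d⌋₊ ∧ d * (⌊x / d⌋₊ : ℝ) ≤ x ∧ x ≤ 2 * d * (⌊x / d⌋₊ : ℝ) := by
  have h1 : 1 ≤ x / d := (one_le_div hd).2 h
  have h2 : 0 < ⌊x / d⌋₊ := Nat.floor_pos.2 h1
  have h3 : (⌊x / d⌋₊ : ℝ) ≤ x / d := Nat.floor_le (by linarith)
  have h4 : x / d < (⌊x / d⌋₊ : ℝ) + 1 := Nat.lt_floor_add_one _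
  have h5 : (1 : ℝ) ≤ (⌊x / d⌋₊ : ℝ) := by exact_mod_cast h2
  refine ⟨h2, ?_, ?_⟩
  · rw [le_div_iff₀ hd] at h3
    linarith
  · rw [div_lt_iff₀ hd] at h4
    nlinarith

/-- Total number of elements. -/
private theorem TPMain_tot {k : ℕ} {m : Fin k → ℕ} (X : ∀ i, Finset (Fin (m i))) (N1 : ℕ)
    (h : ∀ i, (X i).card ≤ N1) : ∑ i, (X i).card ≤ k * N1 := by
  calc ∑ i, (X i).card ≤ ∑ _i : Fin k, N1 := Finset.sum_le_sum fun i _ => h i
    _ = k * N1 := by simp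

private theorem TPMain_nb {m : ℕ} (T : SimpleGraph (Fin m)) (A : Finset (Fin m)) (x : Fin m) :
    nb T A x ≤ nb T univ x := by
  classical
  unfold nb
  exact Finset.card_le_card (Finset.filter_subset_filter _ (Finset.subset_univ A))

/-- The demand in the second phase, outside of `W1`. -/
private theorem TPMain_dem_out {k : ℕ} {m : Fin k → ℕ} (T : ∀ i, SimpleGraph (Fin (m i)))
    {V : Type} (W1 : Finset V) (S X1 X : ∀ i, Finset (Fin (m i)))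
    (ψ ψ' : ∀ i, Fin (m i) → V) (h1 : ∀ i, ∀ x ∈ S i, ψ' i x = ψ i x)
    (h2 : ∀ i, ∀ x ∈ X1 i, ψ' i x ∈ W1) {v : V} (hv : v ∉ W1) :
    dem T (fun i => S i ∪ X1 i) ψ' X v ≤ dem T S ψ X v := by
  classical
  unfold dem
  refine Finset.sum_le_sum fun i _ => ?_
  refine Finset.sum_le_sum_of_subset fun y hy => ?_
  rw [Finset.mem_filter, Finset.mem_union] at hy
  rw [Finset.mem_filter]
  obtain ⟨hy1 | hy1, hy2⟩ := hy
  · exact ⟨hy1, by rw [← h1 i y hy1]; exact hy2⟩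
  · exact absurd (hy2 ▸ h2 i y hy1) hv

open Classical in
/-- The demand in the second phase, inside of `W1`. -/
private theorem TPMain_dem_in {k : ℕ} {m : Fin k → ℕ} (T : ∀ i, SimpleGraph (Fin (m i)))
    {V : Type} (W1 : Finset V) (S X1 X : ∀ i, Finset (Fin (m i)))
    (ψ ψ' : ∀ i, Fin (m i) → V) (h1 : ∀ i, ∀ x ∈ S i, ψ' i x = ψ i x)
    (h2 : ∀ i, ∀ x ∈ S i, ψ i x ∉ W1) (D b : ℕ) (hD : ∀ i, ∀ x ∈ X1 i, nb (T i) univ x ≤ D)
    (hb : ∀ w ∈ W1, ∑ i, ((X1 i).filter (fun x => ψ' i x = w)).card ≤ b) {v : V} (hv : v ∈ W1) :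
    dem T (fun i => S i ∪ X1 i) ψ' X v ≤ b * D := by
  calc dem T (fun i => S i ∪ X1 i) ψ' X v
      ≤ ∑ i, ∑ y ∈ (X1 i).filter (fun y => ψ' i y = v), nb (T i) (X i) y := by
        unfold dem
        refine Finset.sum_le_sum fun i _ => ?_
        refine Finset.sum_le_sum_of_subset fun y hy => ?_
        rw [Finset.mem_filter, Finset.mem_union] at hy
        rw [Finset.mem_filter]
        obtain ⟨hy1 | hy1, hy2⟩ := hy
        · exfalso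
          apply h2 i y hy1
          rw [← h1 i y hy1, hy2]
          exact hv
        · exact ⟨hy1, hy2⟩
    _ ≤ ∑ i, ((X1 i).filter (fun x => ψ' i x = v)).card * D := by
        refine Finset.sum_le_sum fun i _ => ?_
        refine (Finset.sum_le_card_nsmul _ _ D fun y hy => ?_).trans (by rw [smul_eq_mul])
        exact (TPMain_nb _ _ _).trans (hD i y (Finset.mem_filter.1 hy).1)
    _ = (∑ i, ((X1 i).filter (fun x => ψ' i x = v)).card) * D := by rw [Finset.sum_mul]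
    _ ≤ b * D := Nat.mul_le_mul_right _ (hb v hv)

theorem tp_main (μ ε' : ℝ) (hμ : 0 < μ) (hμ1 : μ ≤ 1) (hε : 0 < ε') (hε1 : ε' ≤ 1)
    (D₁ D K : ℕ) (hD₁ : 1 ≤ D₁) (hD : D₁ ≤ D) (hK : 1 ≤ K) (l1 l2 u1 u2 : ℝ)
    (hu1 : u1 ≤ 1) (hu2 : u2 ≤ 1) (hl1 : 0 ≤ l1) (hl2 : 0 ≤ l2) (hu1' : 0 ≤ u1) (hu2' : 0 ≤ u2)
    (h1 : 3200 * (D : ℝ) ^ 2 ≤ μ ^ 2 * K) (h2 : D * (l1 + 2 * u1) ≤ μ / 8)
    (h3 : 800 * (D₁ : ℝ) ^ 2 ≤ μ ^ 2 * D) (h4 : D₁ * (l2 + 2 * u2) ≤ μ / 8) :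
    ∃ γ₂ : ℝ, 0 < γ₂ ∧ ∃ δ' : ℝ, 0 < δ' ∧ ∀ A0 : ℝ, 1 ≤ A0 →
      ∃ N0 : ℕ, ∀ (V : Type) [Fintype V] [DecidableEq V] (Q : Dat V) (V1 W1 W2 : Finset V),
        N0 ≤ Fintype.card V → Disjoint W1 W2 → μ * Fintype.card V ≤ W1.card →
        μ * Fintype.card V ≤ W2.card →
        DatOK Q V1 (W1 ∪ W2) D₁ D K A0 δ' ε' γ₂ →
        (∀ v, (Q.cload (fun i => (Q.d i).C1) v : ℝ) ≤ l1 * Fintype.card V) →
        (∀ v, (Q.cload (fun i => (Q.d i).C2) v : ℝ) ≤ l2 * Fintype.card V) →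
        (∀ v, dmd Q (fun i => (Q.d i).C1) v ≤ u1 * Fintype.card V) →
        (∀ v, dmd Q (fun i => (Q.d i).C2) v ≤ u2 * Fintype.card V) →
        ∃ f : ∀ i, Fin (Q.m i) → V, (∀ i, Function.Injective (f i)) ∧
          ∀ i j, i ≠ j → ∀ a b c d, (Q.T i).Adj a b → (Q.T j).Adj c d →
            s(f i a, f i b) ≠ s(f j c, f j d) := by
  have hDr : (1 : ℝ) ≤ D := by exact_mod_cast hD₁.trans hD
  have hD1r : (1 : ℝ) ≤ D₁ := by exact_mod_cast hD₁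
  have hDDr : (D₁ : ℝ) ≤ D := by exact_mod_cast hD
  have hKr : (1 : ℝ) ≤ K := by exact_mod_cast hK
  obtain ⟨δ, hδ, hδ1, hδ2⟩ : ∃ δ : ℝ, 0 < δ ∧ 3200 * (D : ℝ) ^ 2 * δ ≤ μ ^ 2 ∧
      64 * D * δ ≤ μ := by
    refine ⟨min (μ ^ 2 / (3200 * (D : ℝ) ^ 2)) (μ / (64 * D)), by positivity, ?_, ?_⟩
    · have h5 : min (μ ^ 2 / (3200 * (D : ℝ) ^ 2)) (μ / (64 * D)) ≤
          μ ^ 2 / (3200 * (D : ℝ) ^ 2) := min_le_left _ _
      rw [le_div_iff₀ (by positivity)] at h5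
      linarith
    · have h5 : min (μ ^ 2 / (3200 * (D : ℝ) ^ 2)) (μ / (64 * D)) ≤
          μ / (64 * D) := min_le_right _ _
      rw [le_div_iff₀ (by positivity)] at h5
      linarith
  obtain ⟨γ₂, hγ, δ', hδ', H⟩ := acore K D hK ε' δ hε hε1 hδ
  refine ⟨γ₂, hγ, δ', hδ', fun A0 hA0 => ?_⟩
  obtain ⟨N0, H0⟩ := H A0 hA0
  refine ⟨max N0 ⌈8 * (D : ℝ) ^ 2 / μ⌉₊, ?_⟩
  intro V _ _ Q V1 W1 W2 hN hWW hW1 hW2 hok hc1 hc2 hd1 hd2
  obtain ⟨S, ψ, hPE, hdis, hunc, hcard, hdem1, hdem2⟩ := H0 V Q V1 (W1 ∪ W2) D₁ u1 u2 hu1 hu2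
    ((le_max_left _ _).trans hN) hok hd1 hd2
  obtain ⟨N, hNdef⟩ : ∃ N : ℝ, N = Fintype.card V := ⟨_, rfl⟩
  rw [← hNdef] at hW1 hW2
  simp only [← hNdef] at hcard hdem1 hdem2 hc1 hc2
  have hNb : 8 * (D : ℝ) ^ 2 ≤ μ * N := by
    have h5 : 8 * (D : ℝ) ^ 2 / μ ≤ N := by
      rw [hNdef]
      refine (Nat.le_ceil _).trans ?_
      exact_mod_cast (le_max_right _ _).trans hN
    rw [div_le_iff₀ hμ] at h5
    linarith
  have hDsq : (1 : ℝ) ≤ (D : ℝ) ^ 2 := one_le_pow₀ hDr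
  have hD1sq : (1 : ℝ) ≤ (D₁ : ℝ) ^ 2 := one_le_pow₀ hD1r
  have hDDsq : (D₁ : ℝ) ^ 2 ≤ (D : ℝ) ^ 2 := pow_le_pow_left₀ (by linarith) hDDr 2
  have hN0 : 0 < N := by
    by_contra h5
    have h6 : μ * N ≤ 0 := mul_nonpos_of_nonneg_of_nonpos hμ.le (not_lt.1 h5)
    linarith
  have hkN : (Q.k : ℝ) ≤ 3 * N := by
    rw [hNdef]
    exact_mod_cast hok.k_le
  have hmN : ∀ i, (Q.m i : ℝ) ≤ N := by
    intro i
    rw [hNdef]
    exact_mod_cast hok.m_le i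
  have hμN : 0 < μ * N := mul_pos hμ hN0
  have hμμ : μ ^ 2 ≤ μ := by nlinarith
  -- first phase: sets
  have hX1S : ∀ i, Disjoint ((Q.d i).C1 ∪ unc Q S i) (S i) := by
    intro i
    rw [Finset.disjoint_union_left]
    constructor
    · exact ((Finset.disjoint_union_right.1 (hdis i)).1).symm
    · unfold unc
      rw [Finset.disjoint_left]
      intro x hx hx'
      rw [Finset.mem_sdiff] at hx
      exact hx.2 (Finset.mem_union_left _ hx')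
  have hX1d : ∀ i, ∀ x ∈ (Q.d i).C1 ∪ unc Q S i, nb (Q.T i) univ x ≤ D := by
    intro i x hx
    rcases Finset.mem_union.1 hx with hx | hx
    · exact (hok.dec i).deg1 x hx
    · obtain ⟨t, j, rfl⟩ := hunc i x hx
      exact (hok.dec i).deg_sg t j
  -- first phase: numbers
  obtain ⟨hb1, hb1a, hb1b⟩ := TPMain_floor (d := 8 * (D : ℝ) ^ 2) (x := μ * N) (by positivity) hNb
  generalize hb1def : ⌊μ * N / (8 * (D : ℝ) ^ 2)⌋₊ = b₁ at hb1 hb1a hb1b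
  have hX1c : ∀ i, (((Q.d i).C1 ∪ unc Q S i).card : ℝ) * (1600 * (D : ℝ) ^ 2) ≤ μ ^ 2 * N := by
    intro i
    have h5 : (((Q.d i).C1 ∪ unc Q S i).card : ℝ) ≤ (Q.d i).C1.card + (unc Q S i).card := by
      exact_mod_cast Finset.card_union_le _ _
    have h6 : (K : ℝ) * ((Q.d i).C1.card : ℝ) ≤ N := by
      refine le_trans ?_ (hmN i)
      exact_mod_cast (hok.dec i).c1
    have h7 := hcard i
    have h8 : ((Q.d i).C1.card : ℝ) * (3200 * (D : ℝ) ^ 2) ≤ μ ^ 2 * N := by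
      have h9 : (0 : ℝ) ≤ ((Q.d i).C1.card : ℝ) := Nat.cast_nonneg _
      calc ((Q.d i).C1.card : ℝ) * (3200 * (D : ℝ) ^ 2)
          ≤ ((Q.d i).C1.card : ℝ) * (μ ^ 2 * K) := mul_le_mul_of_nonneg_left h1 h9
        _ = μ ^ 2 * ((K : ℝ) * ((Q.d i).C1.card : ℝ)) := by ring
        _ ≤ μ ^ 2 * N := mul_le_mul_of_nonneg_left h6 (sq_nonneg μ)
    have h10 : ((unc Q S i).card : ℝ) * (3200 * (D : ℝ) ^ 2) ≤ μ ^ 2 * N := by
      calc ((unc Q S i).card : ℝ) * (3200 * (D : ℝ) ^ 2)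
          ≤ (δ * N) * (3200 * (D : ℝ) ^ 2) := mul_le_mul_of_nonneg_right h7 (by positivity)
        _ = (3200 * (D : ℝ) ^ 2 * δ) * N := by ring
        _ ≤ μ ^ 2 * N := mul_le_mul_of_nonneg_right hδ1 hN0.le
    have h11 : (((Q.d i).C1 ∪ unc Q S i).card : ℝ) * (1600 * (D : ℝ) ^ 2) ≤
        (((Q.d i).C1.card : ℝ) + (unc Q S i).card) * (1600 * (D : ℝ) ^ 2) :=
      mul_le_mul_of_nonneg_right h5 (by positivity)
    linarith
  obtain ⟨N1, hN1a, hN1b⟩ : ∃ N1 : ℕ, (∀ i, ((Q.d i).C1 ∪ unc Q S i).card ≤ N1) ∧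
      (N1 : ℝ) * (1600 * (D : ℝ) ^ 2) ≤ μ ^ 2 * N := by
    refine ⟨⌊μ ^ 2 * N / (1600 * (D : ℝ) ^ 2)⌋₊, fun i => ?_, ?_⟩
    · refine Nat.le_floor ?_
      rw [le_div_iff₀ (by positivity)]
      exact hX1c i
    · rw [← le_div_iff₀ (by positivity)]
      exact Nat.floor_le (by positivity)
  obtain ⟨U1, hU1a, hU1b⟩ : ∃ U1 : ℕ,
      (∀ v, dem Q.T S ψ (fun i => (Q.d i).C1 ∪ unc Q S i) v ≤ U1) ∧
      (U1 : ℝ) ≤ (l1 + (2 * u1 + 2 * δ)) * N := by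
    refine ⟨⌊(l1 + (2 * u1 + 2 * δ)) * N⌋₊, fun v => ?_, ?_⟩
    · refine Nat.le_floor ((hdem1 v).trans ?_)
      have := hc1 v
      rw [add_mul]
      linarith
    · exact Nat.floor_le (by positivity)
  have hph1 : N1 + Q.k * N1 / b₁ + D * max U1 (D * b₁) < W1.card := by
    refine TPMain_num hN0 hμ ?_ ?_ hb1 ?_ ?_ hW1
    · have h5 : (N1 : ℝ) * 1600 ≤ (N1 : ℝ) * (1600 * (D : ℝ) ^ 2) :=
        mul_le_mul_of_nonneg_left (by linarith) (Nat.cast_nonneg _)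
      have h6 : μ ^ 2 * N ≤ μ * N := mul_le_mul_of_nonneg_right hμμ hN0.le
      linarith
    · push_cast
      have h5 : (0 : ℝ) < 1600 * (D : ℝ) ^ 2 := by positivity
      refine le_of_mul_le_mul_right ?_ h5
      have h6 : (Q.k : ℝ) * N1 * (1600 * (D : ℝ) ^ 2) ≤ 3 * N * (μ ^ 2 * N) := by
        rw [mul_assoc]
        exact mul_le_mul hkN hN1b (by positivity) (by positivity)
      have h7 : μ * N * (μ * N) ≤ μ * N * (2 * (8 * (D : ℝ) ^ 2) * b₁) :=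
        mul_le_mul_of_nonneg_left hb1b hμN.le
      have h8 : 0 ≤ μ * N * (μ * N) := by positivity
      calc (Q.k : ℝ) * N1 * (1600 * (D : ℝ) ^ 2) ≤ 3 * (μ * N * (μ * N)) := by
            refine h6.trans (le_of_eq ?_)
            ring
        _ ≤ 25 / 2 * (μ * N * (2 * (8 * (D : ℝ) ^ 2) * b₁)) := by linarith
        _ = μ / 8 * N * b₁ * (1600 * (D : ℝ) ^ 2) := by ring
    · have h5 : (D : ℝ) * U1 ≤ D * ((l1 + (2 * u1 + 2 * δ)) * N) :=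
        mul_le_mul_of_nonneg_left hU1b (by linarith)
      have h6 : (D * (l1 + 2 * u1)) * N ≤ μ / 8 * N := mul_le_mul_of_nonneg_right h2 hN0.le
      have h7 : (64 * D * δ) * N ≤ μ * N := mul_le_mul_of_nonneg_right hδ2 hN0.le
      have h8 : (D : ℝ) * ((l1 + (2 * u1 + 2 * δ)) * N) =
          (D * (l1 + 2 * u1)) * N + (64 * D * δ) * N / 32 := by ring
      linarith
    · have h5 : (D : ℝ) * (D * b₁) = 8 * (D : ℝ) ^ 2 * b₁ / 8 := by ring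
      linarith
  obtain ⟨ψ', hψ1, hψ2, hPE', hψb⟩ := greedy Q.T W1 W2 hWW S ψ hPE
    (fun i => (Q.d i).C1 ∪ unc Q S i) hX1S D N1 (Q.k * N1) b₁ U1 hX1d hN1a
    (TPMain_tot _ N1 hN1a) hb1 hU1a hph1
  -- second phase: sets
  have hX2S : ∀ i, Disjoint (Q.d i).C2 (S i ∪ ((Q.d i).C1 ∪ unc Q S i)) := by
    intro i
    rw [Finset.disjoint_union_right, Finset.disjoint_union_right]
    refine ⟨((Finset.disjoint_union_right.1 (hdis i)).2).symm, (hok.dec i).C12.symm, ?_⟩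
    unfold unc
    rw [Finset.disjoint_left]
    intro x hx hx'
    rw [Finset.mem_sdiff] at hx'
    exact hx'.2 (Finset.mem_union_right _ (Finset.mem_union_right _ hx))
  -- second phase: numbers
  have hNb2 : 8 * (D₁ : ℝ) ^ 2 ≤ μ * N := by linarith
  obtain ⟨hb2, hb2a, hb2b⟩ := TPMain_floor (d := 8 * (D₁ : ℝ) ^ 2) (x := μ * N) (by positivity)
    hNb2
  generalize hb2def : ⌊μ * N / (8 * (D₁ : ℝ) ^ 2)⌋₊ = b₂ at hb2 hb2a hb2b
  obtain ⟨N2, hN2a, hN2b⟩ : ∃ N2 : ℕ, (∀ i, ((Q.d i).C2).card ≤ N2) ∧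
      (N2 : ℝ) * D ≤ 2 * N := by
    refine ⟨⌊2 * N / D⌋₊, fun i => ?_, ?_⟩
    · refine Nat.le_floor ?_
      rw [le_div_iff₀ (by positivity)]
      have h5 : (D : ℝ) * ((Q.d i).C2.card : ℝ) ≤ 2 * Q.m i := by
        exact_mod_cast (hok.dec i).c2
      have := hmN i
      linarith
    · rw [← le_div_iff₀ (by positivity)]
      exact Nat.floor_le (by positivity)
  obtain ⟨U2, hU2a, hU2b⟩ : ∃ U2 : ℕ,
      (∀ v, dem Q.T S ψ (fun i => (Q.d i).C2) v ≤ U2) ∧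
      (U2 : ℝ) ≤ (l2 + (2 * u2 + δ)) * N := by
    refine ⟨⌊(l2 + (2 * u2 + δ)) * N⌋₊, fun v => ?_, ?_⟩
    · refine Nat.le_floor ((hdem2 v).trans ?_)
      have := hc2 v
      rw [add_mul]
      linarith
    · exact Nat.floor_le (by positivity)
  have hU2c : ∀ v, dem Q.T (fun i => S i ∪ ((Q.d i).C1 ∪ unc Q S i)) ψ' (fun i => (Q.d i).C2) v ≤
      max U2 (b₁ * D) := by
    intro v
    by_cases hv : v ∈ W1
    · refine le_trans ?_ (le_max_right _ _)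
      refine TPMain_dem_in Q.T W1 S _ _ ψ ψ' hψ1 (fun i x hx h5 => ?_) D b₁ hX1d
        (fun w hw => ?_) hv
      · exact hPE.out i x hx (Finset.mem_union_left _ h5)
      · convert hψb w hw
    · refine le_trans ?_ (le_max_left _ _)
      exact (TPMain_dem_out Q.T W1 S _ _ ψ ψ' hψ1 hψ2 hv).trans (hU2a v)
  have hph2 : N2 + Q.k * N2 / b₂ + D₁ * max (max U2 (b₁ * D)) (D₁ * b₂) < W2.card := by
    refine TPMain_num hN0 hμ ?_ ?_ hb2 ?_ ?_ hW2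
    · have h5 : (800 : ℝ) ≤ μ * D := by
        have h6 : μ ^ 2 * D ≤ μ * D := mul_le_mul_of_nonneg_right hμμ (by linarith)
        linarith
      have h7 : (N2 : ℝ) * 800 ≤ (N2 : ℝ) * (μ * D) :=
        mul_le_mul_of_nonneg_left h5 (Nat.cast_nonneg _)
      have h8 : μ * ((N2 : ℝ) * D) ≤ μ * (2 * N) := mul_le_mul_of_nonneg_left hN2b hμ.le
      have h9 : (N2 : ℝ) * (μ * D) = μ * ((N2 : ℝ) * D) := by ring
      linarith
    · push_cast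
      have h5 : (0 : ℝ) < D * (16 * (D₁ : ℝ) ^ 2) := by positivity
      refine le_of_mul_le_mul_right ?_ h5
      have h6 : (Q.k : ℝ) * (N2 * D) ≤ 3 * N * (2 * N) :=
        mul_le_mul hkN hN2b (by positivity) (by positivity)
      have h7 : μ * N * (μ * N) ≤ μ * N * (2 * (8 * (D₁ : ℝ) ^ 2) * b₂) :=
        mul_le_mul_of_nonneg_left hb2b hμN.le
      have h8 : 800 * (D₁ : ℝ) ^ 2 * (N * N) ≤ μ ^ 2 * D * (N * N) :=
        mul_le_mul_of_nonneg_right h3 (by positivity)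
      calc (Q.k : ℝ) * N2 * (D * (16 * (D₁ : ℝ) ^ 2))
          = (Q.k : ℝ) * (N2 * D) * (16 * (D₁ : ℝ) ^ 2) := by ring
        _ ≤ 3 * N * (2 * N) * (16 * (D₁ : ℝ) ^ 2) :=
            mul_le_mul_of_nonneg_right h6 (by positivity)
        _ = 12 / 100 * (800 * (D₁ : ℝ) ^ 2 * (N * N)) := by ring
        _ ≤ 12 / 100 * (μ ^ 2 * D * (N * N)) := by linarith
        _ = 12 / 100 * D * (μ * N * (μ * N)) := by ring
        _ ≤ 12 / 100 * D * (μ * N * (2 * (8 * (D₁ : ℝ) ^ 2) * b₂)) :=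
            mul_le_mul_of_nonneg_left h7 (by positivity)
        _ ≤ 1 / 8 * D * (μ * N * (2 * (8 * (D₁ : ℝ) ^ 2) * b₂)) := by
            have h9 : 0 ≤ (D : ℝ) * (μ * N * (2 * (8 * (D₁ : ℝ) ^ 2) * b₂)) := by positivity
            linarith
        _ = μ / 8 * N * b₂ * (D * (16 * (D₁ : ℝ) ^ 2)) := by ring
    · rw [Nat.cast_max]
      rcases le_total (U2 : ℝ) ((b₁ * D : ℕ) : ℝ) with h5 | h5
      · rw [max_eq_right h5]
        push_cast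
        have h6 : (D₁ : ℝ) * (b₁ * D) ≤ D * (b₁ * D) :=
          mul_le_mul_of_nonneg_right hDDr (by positivity)
        have h7 : (D : ℝ) * (b₁ * D) = 8 * (D : ℝ) ^ 2 * b₁ / 8 := by ring
        linarith
      · rw [max_eq_left h5]
        have h6 : (D₁ : ℝ) * U2 ≤ D₁ * ((l2 + (2 * u2 + δ)) * N) :=
          mul_le_mul_of_nonneg_left hU2b (by linarith)
        have h7 : (D₁ * (l2 + 2 * u2)) * N ≤ μ / 8 * N := mul_le_mul_of_nonneg_right h4 hN0.le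
        have h8 : (64 * D * δ) * N ≤ μ * N := mul_le_mul_of_nonneg_right hδ2 hN0.le
        have h9 : (D₁ : ℝ) * (δ * N) ≤ D * (δ * N) :=
          mul_le_mul_of_nonneg_right hDDr (by positivity)
        have h10 : (D₁ : ℝ) * ((l2 + (2 * u2 + δ)) * N) =
            (D₁ * (l2 + 2 * u2)) * N + D₁ * (δ * N) := by ring
        have h11 : (64 * D * δ) * N = 64 * (D * (δ * N)) := by ring
        linarith
    · have h5 : (D₁ : ℝ) * (D₁ * b₂) = 8 * (D₁ : ℝ) ^ 2 * b₂ / 8 := by ring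
      linarith
  have hPE2 : PE Q.T (W2 ∪ ∅) (fun i => S i ∪ ((Q.d i).C1 ∪ unc Q S i)) ψ' := by
    rw [Finset.union_empty]
    exact hPE'
  obtain ⟨f, -, -, hPE3, -⟩ := greedy Q.T W2 ∅ (Finset.disjoint_empty_right _)
    (fun i => S i ∪ ((Q.d i).C1 ∪ unc Q S i)) ψ' hPE2 (fun i => (Q.d i).C2) hX2S D₁ N2
    (Q.k * N2) b₂ (max U2 (b₁ * D)) (fun i => (hok.dec i).deg2) hN2a (TPMain_tot _ N2 hN2a) hb2
    hU2c hph2
  have hall : ∀ i, ∀ x, x ∈ (S i ∪ ((Q.d i).C1 ∪ unc Q S i)) ∪ (Q.d i).C2 := by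
    intro i x
    by_cases h5 : x ∈ S i ∪ ((Q.d i).C1 ∪ (Q.d i).C2)
    · rcases Finset.mem_union.1 h5 with h6 | h6
      · exact Finset.mem_union_left _ (Finset.mem_union_left _ h6)
      · rcases Finset.mem_union.1 h6 with h7 | h7
        · exact Finset.mem_union_left _ (Finset.mem_union_right _ (Finset.mem_union_left _ h7))
        · exact Finset.mem_union_right _ h7
    · refine Finset.mem_union_left _ (Finset.mem_union_right _ (Finset.mem_union_right _ ?_))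
      unfold unc
      exact Finset.mem_sdiff.2 ⟨Finset.mem_univ _, h5⟩
  refine ⟨f, fun i x y hxy => hPE3.inj i x (hall i x) y (hall i y) hxy, ?_⟩
  intro i j hij a b c d hab hcd
  exact hPE3.dst i j hij a (hall i a) b (hall i b) c (hall j c) d (hall j d) hab hcd

end MP_80c395_TP
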